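import Pool.Agent.Lib_MP_55d5ef_fl.Flip

/-!
Generalised triangulations: a set `S` of records `i`, each with a finite set `lab i` of
(local) vertex labels; the facet of `i` opposite `v` has a number `num i v` and an ordering
`od i v` of its corners.  Facets with the same number are glued by the orderings.
`X lab num od S` is the realisation.  Flips do not change it (`GFlip.homeo`).
-/

set_option linter.unusedSectionVars false

namespace Fl49

open Finset

variable {V : Type} [DecidableEq V] {ρ : Type}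

/-- The simplex with vertex set `s`. -/
def Dl (s : Finset V) : Set (V → ℝ) :=
  {x | (∀ v, 0 ≤ x v) ∧ (∀ v, v ∉ s → x v = 0) ∧ ∑ v ∈ s, x v = 1}

/-- Disjoint union of the simplices of `S`. -/
abbrev Z (lab : ρ → Finset V) (S : Set ρ) : Type := Σ i : S, Dl (lab i)

/-- Gluing of facets with the same number, by the orderings of the corners. -/
def Rg (lab : ρ → Finset V) (num : ρ → V → ℕ) (od : ρ → V → List V) (S : Set ρ)
    (p q : Z lab S) : Prop :=
  ∃ v ∈ lab p.1, ∃ w ∈ lab q.1, num p.1 v = num q.1 w ∧ (p.2 : V → ℝ) v = 0 ∧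
    (q.2 : V → ℝ) w = 0 ∧ (od p.1 v).map (p.2 : V → ℝ) = (od q.1 w).map (q.2 : V → ℝ)

/-- The realisation. -/
def X (lab : ρ → Finset V) (num : ρ → V → ℕ) (od : ρ → V → List V) (S : Set ρ) : Type :=
  Quot (Rg lab num od S)

instance (lab : ρ → Finset V) (num : ρ → V → ℕ) (od : ρ → V → List V) (S : Set ρ) :
    TopologicalSpace (X lab num od S) :=
  inferInstanceAs (TopologicalSpace (Quot (Rg lab num od S)))

variable {lab : ρ → Finset V} {num : ρ → V → ℕ} {od : ρ → V → List V}

/-- The point of the realisation with coordinates `x` in the simplex `i`. -/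
def pt (lab : ρ → Finset V) (num : ρ → V → ℕ) (od : ρ → V → List V) {S : Set ρ} (i : ρ)
    (hi : i ∈ S) (x : V → ℝ) (hx : x ∈ Dl (lab i)) : X lab num od S :=
  Quot.mk _ (⟨⟨i, hi⟩, ⟨x, hx⟩⟩ : Z lab S)

theorem pt_congr {S : Set ρ} {i : ρ} (hi : i ∈ S) {x y : V → ℝ} (hx : x ∈ Dl (lab i))
    (hy : y ∈ Dl (lab i)) (h : x = y) : pt lab num od i hi x hx = pt lab num od i hi y hy := by
  subst h; rfl

theorem pt_glue {S : Set ρ} {i j : ρ} (hi : i ∈ S) (hj : j ∈ S) {x y : V → ℝ}
    (hxi : x ∈ Dl (lab i)) (hyj : y ∈ Dl (lab j)) {v w : V} (hv : v ∈ lab i) (hw : w ∈ lab j)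
    (hf : num i v = num j w) (hxv : x v = 0) (hyw : y w = 0)
    (ho : (od i v).map x = (od j w).map y) :
    pt lab num od i hi x hxi = pt lab num od j hj y hyj :=
  Quot.sound ⟨v, hv, w, hw, hf, hxv, hyw, ho⟩

/-- Flip data for generalised triangulations. -/
structure GFlip (lab : ρ → Finset V) (num : ρ → V → ℕ) (od : ρ → V → List V) (a b : Finset V)
    (c c' : V → ρ) (S S' : Set ρ) : Prop where
  na : a.Nonempty
  nb : b.Nonempty
  dj : Disjoint a b
  labc : ∀ v ∈ b, lab (c v) = (a ∪ b).erase v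
  labc' : ∀ v ∈ a, lab (c' v) = (a ∪ b).erase v
  mem : ∀ v ∈ b, c v ∈ S
  mem' : ∀ v ∈ a, c' v ∈ S'
  out : ∀ i ∈ S, (∃ v ∈ b, i = c v) ∨ (i ∈ S' ∧ ∀ v ∈ a, i ≠ c' v)
  out' : ∀ i ∈ S', (∃ v ∈ a, i = c' v) ∨ (i ∈ S ∧ ∀ v ∈ b, i ≠ c v)
  bd : ∀ v ∈ a, ∀ w ∈ b, num (c w) v = num (c' v) w ∧ od (c w) v = od (c' v) w
  inn : ∀ v ∈ b, ∀ w ∈ b, v ≠ w → num (c v) w = num (c w) v ∧ od (c v) w = od (c w) v
  inn' : ∀ v ∈ a, ∀ w ∈ a, v ≠ w → num (c' v) w = num (c' w) v ∧ od (c' v) w = od (c' w) v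
  cov : ∀ v ∈ b, ∀ w ∈ b, v ≠ w → ∀ u ∈ a ∪ b, u ≠ v → u ≠ w → u ∈ od (c v) w
  cov' : ∀ v ∈ a, ∀ w ∈ a, v ≠ w → ∀ u ∈ a ∪ b, u ≠ v → u ≠ w → u ∈ od (c' v) w
  uniq : ∀ v ∈ b, ∀ w ∈ b, v ≠ w → ∀ i ∈ S, ∀ u ∈ lab i, num i u = num (c v) w →
    (i = c v ∧ u = w) ∨ (i = c w ∧ u = v)
  uniq' : ∀ v ∈ a, ∀ w ∈ a, v ≠ w → ∀ i ∈ S', ∀ u ∈ lab i, num i u = num (c' v) w →
    (i = c' v ∧ u = w) ∨ (i = c' w ∧ u = v)

theorem GFlip.symm {a b : Finset V} {c c' : V → ρ} {S S' : Set ρ}
    (h : GFlip lab num od a b c c' S S') : GFlip lab num od b a c' c S' S where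
  na := h.nb
  nb := h.na
  dj := h.dj.symm
  labc := fun v hv => by rw [Finset.union_comm]; exact h.labc' v hv
  labc' := fun v hv => by rw [Finset.union_comm]; exact h.labc v hv
  mem := h.mem'
  mem' := h.mem
  out := h.out'
  out' := h.out
  bd := fun v hv w hw => ⟨((h.bd w hw v hv).1).symm, ((h.bd w hw v hv).2).symm⟩
  inn := h.inn'
  inn' := h.inn
  cov := fun v hv w hw hvw u hu => h.cov' v hv w hw hvw u (by rwa [Finset.union_comm])
  cov' := fun v hv w hw hvw u hu => h.cov v hv w hw hvw u (by rwa [Finset.union_comm])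
  uniq := h.uniq'
  uniq' := h.uniq

variable {a b : Finset V} {c c' : V → ρ} {S S' : Set ρ}

/-- A vertex of `a` with smallest coordinate. -/
noncomputable def am (a : Finset V) (ha : a.Nonempty) (x : V → ℝ) : V :=
  (Finset.exists_mem_eq_inf' ha x).choose

theorem am_mem (ha : a.Nonempty) (x : V → ℝ) : am a ha x ∈ a :=
  (Finset.exists_mem_eq_inf' ha x).choose_spec.1

theorem am_eq (ha : a.Nonempty) (x : V → ℝ) : x (am a ha x) = mn a ha x :=
  (Finset.exists_mem_eq_inf' ha x).choose_spec.2.symm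

theorem mn_le' (ha : a.Nonempty) (x : V → ℝ) {v : V} (hv : v ∈ a) :
    mn a ha x ≤ x v := Finset.inf'_le x hv

theorem mn_nonneg' (ha : a.Nonempty) {x : V → ℝ} (hx : ∀ v, 0 ≤ x v) :
    0 ≤ mn a ha x := by
  rw [← am_eq ha x]; exact hx _

theorem mn_zero' (ha : a.Nonempty) {x : V → ℝ} (hx : ∀ v, 0 ≤ x v) {v : V} (hv : v ∈ a)
    (h0 : x v = 0) : mn a ha x = 0 :=
  le_antisymm (h0 ▸ mn_le' ha x hv) (mn_nonneg' ha hx)

theorem fmap_id' (ha : a.Nonempty) {x : V → ℝ} (h : mn a ha x = 0) :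
    fmap a b ha x = x := by
  funext v
  unfold fmap
  simp [h]

theorem fmap_nonneg' (ha : a.Nonempty) {x : V → ℝ} (hx : ∀ v, 0 ≤ x v) (v : V) :
    0 ≤ fmap a b ha x v := by
  unfold fmap
  by_cases hva : v ∈ a
  · simp only [hva, if_true]
    have := mn_le' ha x hva
    linarith
  · by_cases hvb : v ∈ b
    · simp only [hva, hvb, if_true, if_false]
      have := hx v
      have h2 := mn_nonneg' ha hx
      positivity
    · simp only [hva, hvb, if_false]
      exact hx v

theorem sum_fmap' (ha : a.Nonempty) (hb : b.Nonempty) (hd : Disjoint a b) (x : V → ℝ) :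
    ∑ v ∈ a ∪ b, fmap a b ha x v = ∑ v ∈ a ∪ b, x v := by
  have hb0 : (b.card : ℝ) ≠ 0 := by
    have := Finset.card_pos.mpr hb
    positivity
  rw [Finset.sum_union hd, Finset.sum_union hd]
  have h1 : ∑ v ∈ a, fmap a b ha x v = ∑ v ∈ a, x v - a.card * mn a ha x := by
    rw [Finset.sum_congr rfl (fun v hv => show fmap a b ha x v = x v - mn a ha x by
      unfold fmap; simp [hv])]
    rw [Finset.sum_sub_distrib, Finset.sum_const, nsmul_eq_mul]
  have h2 : ∑ v ∈ b, fmap a b ha x v = ∑ v ∈ b, x v + a.card * mn a ha x := by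
    rw [Finset.sum_congr rfl (fun v hv => show fmap a b ha x v
        = x v + ((a.card : ℝ) / b.card) * mn a ha x by
      have hva : v ∉ a := Finset.disjoint_right.mp hd hv
      unfold fmap; simp [hv, hva])]
    rw [Finset.sum_add_distrib, Finset.sum_const, nsmul_eq_mul]
    field_simp
  rw [h1, h2]; ring

/-- `x` in an old simplex of the flip: the image lies in each new simplex `u` with `x u` minimal. -/
theorem fmap_mem {v u : V} (ha : a.Nonempty) (hd : Disjoint a b) (hv : v ∈ b) (hu : u ∈ a)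
    {x : V → ℝ} (hx : x ∈ Dl ((a ∪ b).erase v)) (hxu : x u = mn a ha x) :
    fmap a b ha x ∈ Dl ((a ∪ b).erase u) := by
  obtain ⟨h0, h1, h2⟩ := hx
  have hxv : x v = 0 := h1 v (Finset.notMem_erase v _)
  have hfu : fmap a b ha x u = 0 := by
    unfold fmap; simp [hu, hxu]
  refine ⟨fmap_nonneg' ha h0, ?_, ?_⟩
  · intro w hw
    by_cases hwu : w = u
    · subst hwu; exact hfu
    · have hw2 : w ∉ a ∪ b := fun hc => hw (Finset.mem_erase.mpr ⟨hwu, hc⟩)
      have hwa : w ∉ a := fun hc => hw2 (Finset.mem_union_left _ hc)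
      have hwb : w ∉ b := fun hc => hw2 (Finset.mem_union_right _ hc)
      unfold fmap
      simp only [hwa, hwb, if_false]
      exact h1 w (fun hc => hw2 (Finset.mem_of_mem_erase hc))
  · have e1 : ∑ w ∈ (a ∪ b).erase u, fmap a b ha x w = ∑ w ∈ a ∪ b, fmap a b ha x w := by
      rw [← Finset.add_sum_erase (a ∪ b) _ (Finset.mem_union_left b hu), hfu, zero_add]
    have e2 : ∑ w ∈ (a ∪ b).erase v, x w = ∑ w ∈ a ∪ b, x w := by
      rw [← Finset.add_sum_erase (a ∪ b) _ (Finset.mem_union_right a hv), hxv, zero_add]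
    rw [e1, sum_fmap' ha ⟨v, hv⟩ hd, ← e2, h2]

/-- The flip map on the disjoint union. -/
noncomputable def GFlip.fz (h : GFlip lab num od a b c c' S S') (p : Z lab S) :
    X lab num od S' := by
  classical
  exact if hc : ∃ v ∈ b, (p.1 : ρ) = c v then
    pt lab num od (c' (am a h.na p.2)) (h.mem' _ (am_mem h.na _)) (fmap a b h.na p.2) (by
      obtain ⟨v, hv, hpv⟩ := hc
      rw [h.labc' _ (am_mem h.na _)]
      have hy : ∀ y : V → ℝ, y ∈ Dl (lab (p.1 : ρ)) → y ∈ Dl ((a ∪ b).erase v) := by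
        intro y hy
        rw [hpv, h.labc v hv] at hy
        exact hy
      exact fmap_mem h.na h.dj hv (am_mem h.na _) (hy _ p.2.2) (am_eq h.na _))
  else
    pt lab num od (p.1 : ρ) (((h.out _ p.1.2).resolve_left hc).1) p.2 p.2.2

/-- On the old simplices of the flip: any vertex of `a` with smallest coordinate may be used. -/
theorem GFlip.fz_chunk (h : GFlip lab num od a b c c' S S') {v u : V} (hv : v ∈ b) (hu : u ∈ a)
    {i : ρ} (hi : i ∈ S) (hiv : i = c v) {x : V → ℝ} (hx : x ∈ Dl (lab i))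
    (hxu : x u = mn a h.na x) (hm : fmap a b h.na x ∈ Dl (lab (c' u))) :
    h.fz ⟨⟨i, hi⟩, ⟨x, hx⟩⟩ = pt lab num od (c' u) (h.mem' u hu) (fmap a b h.na x) hm := by
  classical
  unfold GFlip.fz
  have hc : ∃ v ∈ b, i = c v := ⟨v, hv, hiv⟩
  rw [dif_pos hc]
  simp only
  by_cases hne : am a h.na x = u
  · subst hne; rfl
  · have hz1 : fmap a b h.na x u = 0 := by unfold fmap; simp [hu, hxu]
    have hz2 : fmap a b h.na x (am a h.na x) = 0 := by
      unfold fmap; simp [am_mem h.na x, am_eq h.na x]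
    refine pt_glue (v := u) (w := am a h.na x) _ _ _ _ ?_ ?_
      (h.inn' _ (am_mem h.na x) u hu hne).1 hz1 hz2
      (by rw [(h.inn' _ (am_mem h.na x) u hu hne).2])
    · rw [h.labc' _ (am_mem h.na x)]
      exact Finset.mem_erase.mpr ⟨fun hh => hne hh.symm, Finset.mem_union_left _ hu⟩
    · rw [h.labc' _ hu]
      exact Finset.mem_erase.mpr ⟨hne, Finset.mem_union_left _ (am_mem h.na x)⟩

theorem GFlip.fz_out (h : GFlip lab num od a b c c' S S') {i : ρ} (hi : i ∈ S)
    (hc : ¬ ∃ v ∈ b, i = c v) {x : V → ℝ} (hx : x ∈ Dl (lab i)) :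
    h.fz ⟨⟨i, hi⟩, ⟨x, hx⟩⟩ = pt lab num od i ((h.out _ hi).resolve_left hc).1 x hx := by
  classical
  unfold GFlip.fz
  rw [dif_neg hc]

theorem GFlip.fmap_mem' (h : GFlip lab num od a b c c' S S') {v u : V} (hv : v ∈ b)
    (hu : u ∈ a) {i : ρ} (hiv : i = c v) {x : V → ℝ} (hx : x ∈ Dl (lab i))
    (hxu : x u = mn a h.na x) : fmap a b h.na x ∈ Dl (lab (c' u)) := by
  rw [h.labc' u hu]
  rw [hiv, h.labc v hv] at hx
  exact fmap_mem h.na h.dj hv hu hx hxu

/-- A boundary facet of the flipped ball, seen from outside. -/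
theorem GFlip.bdry (h : GFlip lab num od a b c c' S S') {v u : V} (hv : v ∈ b) (hu : u ∈ a)
    (hci : c v ∈ S) {x : V → ℝ} (hx : x ∈ Dl (lab (c v))) (hxu : x u = 0) :
    ∃ hm : x ∈ Dl (lab (c' u)), h.fz ⟨⟨c v, hci⟩, ⟨x, hx⟩⟩ = pt lab num od (c' u) (h.mem' u hu) x hm
      ∧ x v = 0 ∧ v ∈ lab (c' u) := by
  have h0 := hx.1
  have hmn : mn a h.na x = 0 := mn_zero' h.na h0 hu hxu
  have hfx : fmap a b h.na x = x := fmap_id' h.na hmn
  have hm := h.fmap_mem' hv hu rfl hx (hxu.trans hmn.symm)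
  have hxv : x v = 0 := by
    have := hx.2.1
    rw [h.labc v hv] at this
    exact this v (Finset.notMem_erase v _)
  have hvl : v ∈ lab (c' u) := by
    rw [h.labc' u hu]
    exact Finset.mem_erase.mpr ⟨fun hh => (Finset.disjoint_left.mp h.dj hu) (hh ▸ hv),
      Finset.mem_union_right _ hv⟩
  refine ⟨hfx ▸ hm, ?_, hxv, hvl⟩
  rw [h.fz_chunk hv hu hci rfl hx (hxu.trans hmn.symm) hm]
  exact pt_congr _ _ _ hfx

theorem eq_of_map_eq {l : List V} {x y : V → ℝ} (h : l.map x = l.map y) {u : V} (hu : u ∈ l) :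
    x u = y u := List.map_inj_left.mp h u hu

/-- Two points of an inner facet with the same ordered coordinates are equal. -/
theorem GFlip.inner_eq (h : GFlip lab num od a b c c' S S') {s v t w : V} (hs : s ∈ b)
    (hv : v ∈ b) (hsv : s ≠ v) {x y : V → ℝ} (hx : x ∈ Dl (lab (c s))) (ht : t ∈ b)
    (hy : y ∈ Dl (lab (c t))) (hxv : x v = 0) (hyw : y w = 0)
    (hcase : (t = s ∧ w = v) ∨ (t = v ∧ w = s)) (ho : (od (c s) v).map x = (od (c s) v).map y) :
    x = y := by
  have hxs : x s = 0 := by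
    have := hx.2.1
    rw [h.labc s hs] at this
    exact this s (Finset.notMem_erase s _)
  have hyt : y t = 0 := by
    have := hy.2.1
    rw [h.labc t ht] at this
    exact this t (Finset.notMem_erase t _)
  have hys : y s = 0 ∧ y v = 0 := by
    rcases hcase with ⟨h1, h2⟩ | ⟨h1, h2⟩
    · rw [← h1, ← h2]; exact ⟨hyt, hyw⟩
    · rw [← h1, ← h2]; exact ⟨hyw, hyt⟩
  funext u
  by_cases hus : u = s
  · rw [hus, hxs, hys.1]
  · by_cases huv : u = v
    · rw [huv, hxv, hys.2]
    · by_cases hu : u ∈ a ∪ b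
      · exact eq_of_map_eq ho (h.cov s hs v hv hsv u hu hus huv)
      · have h1 : x u = 0 := hx.2.1 u (by
          rw [h.labc s hs]; exact fun hc => hu (Finset.mem_of_mem_erase hc))
        have h2 : y u = 0 := hy.2.1 u (by
          rw [h.labc t ht]; exact fun hc => hu (Finset.mem_of_mem_erase hc))
        rw [h1, h2]

theorem GFlip.inner_fz (h : GFlip lab num od a b c c' S S') {s v : V} (hs : s ∈ b)
    (hv : v ∈ b) (hsv : s ≠ v) (hci : c s ∈ S) {x y : V → ℝ} (hx : x ∈ Dl (lab (c s)))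
    {j : ρ} (hj : j ∈ S) (hy : y ∈ Dl (lab j)) {w : V} (hw : w ∈ lab j)
    (hf : num (c s) v = num j w) (hxv : x v = 0) (hyw : y w = 0)
    (ho : (od (c s) v).map x = (od j w).map y) :
    h.fz ⟨⟨c s, hci⟩, ⟨x, hx⟩⟩ = h.fz ⟨⟨j, hj⟩, ⟨y, hy⟩⟩ := by
  rcases h.uniq s hs v hv hsv j hj w hw hf.symm with ⟨h2, h3⟩ | ⟨h2, h3⟩
  · subst h2
    rw [h3] at ho
    have hxy : x = y := h.inner_eq hs hv hsv hx hs hy hxv hyw (Or.inl ⟨rfl, h3⟩) ho
    subst hxy; rfl
  · subst h2
    rw [h3, ← (h.inn s hs v hv hsv).2] at ho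
    have hxy : x = y := h.inner_eq hs hv hsv hx hv hy hxv hyw (Or.inr ⟨rfl, h3⟩) ho
    subst hxy
    rw [h.fz_chunk hs (am_mem h.na x) hci rfl hx (am_eq h.na x)
        (h.fmap_mem' hs (am_mem h.na x) rfl hx (am_eq h.na x)),
        h.fz_chunk hv (am_mem h.na x) hj rfl hy (am_eq h.na x)
        (h.fmap_mem' hv (am_mem h.na x) rfl hy (am_eq h.na x))]

theorem GFlip.fz_rel (h : GFlip lab num od a b c c' S S') (p q : Z lab S)
    (hr : Rg lab num od S p q) : h.fz p = h.fz q := by
  classical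
  obtain ⟨⟨i, hi⟩, ⟨x, hx⟩⟩ := p
  obtain ⟨⟨j, hj⟩, ⟨y, hy⟩⟩ := q
  obtain ⟨v, hv, w, hw, hf, hxv, hyw, ho⟩ := hr
  simp only at hv hw hf hxv hyw ho
  by_cases hci : ∃ s ∈ b, i = c s
  · obtain ⟨s, hs, rfl⟩ := hci
    have hv' := hv
    rw [h.labc s hs] at hv'
    rcases Finset.mem_union.mp (Finset.mem_of_mem_erase hv') with hva | hvb
    · by_cases hcj : ∃ t ∈ b, j = c t
      · obtain ⟨t, ht, rfl⟩ := hcj
        have hw' := hw
        rw [h.labc t ht] at hw'
        rcases Finset.mem_union.mp (Finset.mem_of_mem_erase hw') with hwa | hwb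
        · obtain ⟨hm, h1, h2, h3⟩ := h.bdry hs hva hi hx hxv
          obtain ⟨hm', h1', h2', h3'⟩ := h.bdry ht hwa hj hy hyw
          rw [h1, h1']
          refine pt_glue (v := s) (w := t) _ _ _ _ h3 h3' ?_ h2 h2' ?_
          · rw [← (h.bd v hva s hs).1, ← (h.bd w hwa t ht).1]; exact hf
          · rw [← (h.bd v hva s hs).2, ← (h.bd w hwa t ht).2]; exact ho
        · have htw : t ≠ w := (Finset.ne_of_mem_erase hw').symm
          exact (h.inner_fz ht hwb htw hj hy hi hx hv hf.symm hyw hxv ho.symm).symm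
      · obtain ⟨hm, h1, h2, h3⟩ := h.bdry hs hva hi hx hxv
        rw [h1, h.fz_out hj hcj hy]
        refine pt_glue (v := s) (w := w) _ _ _ _ h3 hw ?_ h2 hyw ?_
        · rw [← (h.bd v hva s hs).1]; exact hf
        · rw [← (h.bd v hva s hs).2]; exact ho
    · have hsv : s ≠ v := (Finset.ne_of_mem_erase hv').symm
      exact h.inner_fz hs hvb hsv hi hx hj hy hw hf hxv hyw ho
  · by_cases hcj : ∃ t ∈ b, j = c t
    · obtain ⟨t, ht, rfl⟩ := hcj
      have hw' := hw
      rw [h.labc t ht] at hw'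
      rcases Finset.mem_union.mp (Finset.mem_of_mem_erase hw') with hwa | hwb
      · obtain ⟨hm, h1, h2, h3⟩ := h.bdry ht hwa hj hy hyw
        rw [h1, h.fz_out hi hci hx]
        refine pt_glue (v := v) (w := t) _ _ _ _ hv h3 ?_ hxv h2 ?_
        · rw [← (h.bd w hwa t ht).1]; exact hf
        · rw [← (h.bd w hwa t ht).2]; exact ho
      · have htw : t ≠ w := (Finset.ne_of_mem_erase hw').symm
        exact (h.inner_fz ht hwb htw hj hy hi hx hv hf.symm hyw hxv ho.symm).symm
    · rw [h.fz_out hi hci hx, h.fz_out hj hcj hy]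
      exact pt_glue _ _ _ _ hv hw hf hxv hyw ho

theorem cont_fmap (ha : a.Nonempty) : Continuous (fmap a b ha : (V → ℝ) → (V → ℝ)) := by
  have hmc : Continuous (mn a ha : (V → ℝ) → ℝ) := by
    unfold mn
    exact Continuous.finset_inf'_apply ha (fun i _ => continuous_apply i)
  refine continuous_pi (fun v => ?_)
  unfold fmap
  by_cases h1 : v ∈ a
  · simp only [h1, if_true]
    exact (continuous_apply v).sub hmc
  · by_cases h2 : v ∈ b
    · simp only [h1, h2, if_true, if_false]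
      exact (continuous_apply v).add (continuous_const.mul hmc)
    · simp only [h1, h2, if_false]
      exact continuous_apply v

theorem GFlip.fz_cont (h : GFlip lab num od a b c c' S S') : Continuous h.fz := by
  classical
  refine continuous_sigma_iff.mpr (fun i => ?_)
  obtain ⟨i, hi⟩ := i
  by_cases hc : ∃ v ∈ b, i = c v
  · obtain ⟨v, hv, rfl⟩ := hc
    refine LocallyFinite.continuous (ι := {u // u ∈ a})
      (f := fun u => {x : Dl (lab (c v)) | (x : V → ℝ) u = mn a h.na (x : V → ℝ)})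
      (locallyFinite_of_finite _) ?_ ?_ ?_
    · ext x
      simp only [Set.mem_iUnion, Set.mem_ofPred_eq, Set.mem_univ, iff_true]
      exact ⟨⟨am a h.na x, am_mem h.na x⟩, am_eq h.na x⟩
    · intro u
      refine isClosed_eq ?_ ?_
      · exact (continuous_apply (u : V)).comp continuous_subtype_val
      · have : Continuous (mn a h.na : (V → ℝ) → ℝ) := by
          unfold mn
          exact Continuous.finset_inf'_apply h.na (fun i _ => continuous_apply i)
        exact this.comp continuous_subtype_val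
    · intro u
      rw [continuousOn_iff_continuous_domRestrict]
      have key : ∀ x : {x : Dl (lab (c v)) | (x : V → ℝ) u = mn a h.na (x : V → ℝ)},
          Set.domRestrict {x : Dl (lab (c v)) | (x : V → ℝ) u = mn a h.na (x : V → ℝ)}
            (fun x => h.fz ⟨⟨c v, hi⟩, x⟩) x
          = Quot.mk (Rg lab num od S') (⟨⟨c' u, h.mem' u u.2⟩,
              ⟨fmap a b h.na (x : Dl (lab (c v))),
              h.fmap_mem' hv u.2 rfl x.1.2 x.2⟩⟩ : Z lab S') := by
        intro x
        exact h.fz_chunk hv u.2 hi rfl x.1.2 x.2 (h.fmap_mem' hv u.2 rfl x.1.2 x.2)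
      rw [show (Set.domRestrict {x : Dl (lab (c v)) | (x : V → ℝ) u = mn a h.na (x : V → ℝ)}
            (fun x => h.fz ⟨⟨c v, hi⟩, x⟩)) = _ from funext key]
      refine continuous_quot_mk.comp ?_
      refine (continuous_sigmaMk (σ := fun i : S' => Dl (lab i))
        (i := ⟨c' u, h.mem' u u.2⟩)).comp ?_
      exact ((cont_fmap h.na).comp
        (continuous_subtype_val.comp continuous_subtype_val)).subtype_mk _
  · have : (fun x : Dl (lab i) => h.fz ⟨⟨i, hi⟩, x⟩) = fun x : Dl (lab i) =>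
        Quot.mk (Rg lab num od S') (⟨⟨i, ((h.out _ hi).resolve_left hc).1⟩, x⟩ : Z lab S') := by
      funext x
      exact h.fz_out hi hc x.2
    rw [this]
    exact continuous_quot_mk.comp (continuous_sigmaMk (σ := fun i : S' => Dl (lab i))
      (i := ⟨i, ((h.out _ hi).resolve_left hc).1⟩))

/-- The flip map on the realisation. -/
noncomputable def GFlip.fx (h : GFlip lab num od a b c c' S S') :
    X lab num od S → X lab num od S' :=
  Quot.lift h.fz h.fz_rel

theorem GFlip.fx_cont (h : GFlip lab num od a b c c' S S') : Continuous h.fx :=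
  continuous_quot_lift _ h.fz_cont

theorem GFlip.inv (h : GFlip lab num od a b c c' S S') (x : X lab num od S) :
    h.symm.fx (h.fx x) = x := by
  classical
  induction x using Quot.ind with
  | mk p =>
    obtain ⟨⟨i, hi⟩, ⟨x, hx⟩⟩ := p
    change h.symm.fx (h.fz ⟨⟨i, hi⟩, ⟨x, hx⟩⟩) = pt lab num od i hi x hx
    by_cases hc : ∃ v ∈ b, i = c v
    · obtain ⟨v, hv, rfl⟩ := hc
      set u := am a h.na x with hu
      have hua : u ∈ a := am_mem h.na x
      have hux : x u = mn a h.na x := am_eq h.na x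
      have hm := h.fmap_mem' hv hua rfl hx hux
      rw [h.fz_chunk hv hua hi rfl hx hux hm]
      change h.symm.fz ⟨⟨c' u, h.mem' u hua⟩, ⟨fmap a b h.na x, hm⟩⟩ = _
      have hx' := hx
      rw [h.labc v hv] at hx'
      have h0 := hx'.1
      have hxv : x v = 0 := hx'.2.1 v (Finset.notMem_erase v _)
      have hb0 : (b.card : ℝ) ≠ 0 := by
        have := Finset.card_pos.mpr h.nb
        positivity
      have ha0 : (a.card : ℝ) ≠ 0 := by
        have := Finset.card_pos.mpr h.na
        positivity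
      have hval : ∀ w ∈ b, fmap a b h.na x w
          = x w + ((a.card : ℝ) / b.card) * mn a h.na x := by
        intro w hw
        have hwa : w ∉ a := Finset.disjoint_right.mp h.dj hw
        unfold fmap
        simp [hwa, hw]
      have hmn : fmap a b h.na x v = mn b h.nb (fmap a b h.na x) := by
        apply le_antisymm
        · rw [← am_eq h.nb (fmap a b h.na x), hval v hv, hval _ (am_mem h.nb _), hxv]
          have := h0 (am b h.nb (fmap a b h.na x))
          linarith
        · exact mn_le' h.nb _ hv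
      have hinv : fmap b a h.nb (fmap a b h.na x) = x := by
        have hmn2 : mn b h.nb (fmap a b h.na x) = ((a.card : ℝ) / b.card) * mn a h.na x := by
          rw [← hmn, hval v hv, hxv, zero_add]
        funext w
        unfold fmap
        by_cases hwb : w ∈ b
        · have hwa : w ∉ a := Finset.disjoint_right.mp h.dj hwb
          have := hmn2
          unfold fmap at this
          simp only [hwb, hwa, if_true, if_false, this]
          ring
        · by_cases hwa : w ∈ a
          · have := hmn2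
            unfold fmap at this
            simp only [hwb, hwa, if_true, if_false, this]
            field_simp; ring
          · simp only [hwb, hwa, if_false]
      have hm2 : fmap b a h.nb (fmap a b h.na x) ∈ Dl (lab (c v)) := by rw [hinv]; exact hx
      rw [h.symm.fz_chunk (v := u) (u := v) hua hv (h.mem' u hua) rfl hm hmn hm2]
      exact pt_congr _ _ _ hinv
    · rw [h.fz_out hi hc hx]
      change h.symm.fz ⟨⟨i, ((h.out _ hi).resolve_left hc).1⟩, ⟨x, hx⟩⟩ = _
      have hc' : ¬ ∃ v ∈ a, i = c' v := by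
        rintro ⟨v, hv, hiv⟩
        exact ((h.out _ hi).resolve_left hc).2 v hv hiv
      rw [h.symm.fz_out _ hc' hx]

/-- FLIP LEMMA for generalised triangulations. -/
noncomputable def GFlip.homeo (h : GFlip lab num od a b c c' S S') :
    X lab num od S ≃ₜ X lab num od S' where
  toFun := h.fx
  invFun := h.symm.fx
  left_inv := h.inv
  right_inv := fun y => h.symm.inv y
  continuous_toFun := h.fx_cont
  continuous_invFun := h.symm.fx_cont

end Fl49
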