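import Pool.Agent.Lib_MP_55d5ef_fl.Gen

/-!
The boundary of a simplex is a sphere.
-/

set_option linter.unusedSectionVars false

namespace Fl49

open Finset

variable {V : Type} [DecidableEq V]

/-- Boundary of the simplex with vertex set `s`. -/
def Bd (s : Finset V) : Set (V → ℝ) := {x | x ∈ Dl s ∧ ∃ v ∈ s, x v = 0}

section sphere

variable {n : ℕ} (s : Fin (n + 1) → V) (hs : Function.Injective s)

/-- Differences of coordinates. -/
noncomputable def yv (x : V → ℝ) : EuclideanSpace ℝ (Fin n) :=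
  WithLp.toLp 2 (fun i => x (s i.succ) - x (s 0))

theorem yv_cont : Continuous (yv s) := by
  unfold yv
  refine (PiLp.continuous_toLp 2 (fun _ : Fin n => ℝ)).comp ?_
  exact continuous_pi (fun i => (continuous_apply _).sub (continuous_apply _))

theorem sum_image_s (hs : Function.Injective s) (x : V → ℝ) :
    ∑ v ∈ Finset.univ.image s, x v = ∑ j, x (s j) :=
  Finset.sum_image (fun _ _ _ _ h => hs h)

theorem yv_ne (hs : Function.Injective s) {x : V → ℝ} (hx : x ∈ Bd (Finset.univ.image s)) :
    yv s x ≠ 0 := by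
  intro h0
  obtain ⟨⟨_, _, h3⟩, v, hv, hxv⟩ := hx
  have h1 : ∀ i : Fin n, x (s i.succ) = x (s 0) := by
    intro i
    have := congrArg (fun z : EuclideanSpace ℝ (Fin n) => z i) h0
    simp only [yv, PiLp.zero_apply] at this
    linarith
  have h2 : ∀ j : Fin (n + 1), x (s j) = x (s 0) := by
    intro j
    refine Fin.cases rfl (fun i => h1 i) j
  obtain ⟨j, _, rfl⟩ := Finset.mem_image.mp hv
  rw [sum_image_s s hs] at h3
  have h4 : ∀ k : Fin (n + 1), x (s k) = 0 := by
    intro k; rw [h2 k, ← h2 j, hxv]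
  simp [h4] at h3

/-- Coordinates `0, z 0, .., z (n-1)`. -/
def wv (z : EuclideanSpace ℝ (Fin n)) : Fin (n + 1) → ℝ := Fin.cons 0 (fun i => z i)

theorem wv_cont : Continuous (fun z : EuclideanSpace ℝ (Fin n) => wv z) := by
  refine continuous_pi (fun j => ?_)
  refine Fin.cases ?_ (fun i => ?_) j
  · simp only [wv, Fin.cons_zero]; exact continuous_const
  · simp only [wv, Fin.cons_succ]
    exact (continuous_apply i).comp (PiLp.continuous_ofLp 2 (fun _ : Fin n => ℝ))

/-- minimum of `wv`. -/
noncomputable def wm (z : EuclideanSpace ℝ (Fin n)) : ℝ :=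
  Finset.univ.inf' Finset.univ_nonempty (wv z)

theorem wm_cont : Continuous (fun z : EuclideanSpace ℝ (Fin n) => wm z) := by
  unfold wm
  exact Continuous.finset_inf'_apply _ (fun i _ => (continuous_apply i).comp wv_cont)

theorem wm_le (z : EuclideanSpace ℝ (Fin n)) (j : Fin (n + 1)) : wm z ≤ wv z j :=
  Finset.inf'_le _ (Finset.mem_univ j)

theorem exists_wm (z : EuclideanSpace ℝ (Fin n)) : ∃ j, wm z = wv z j := by
  obtain ⟨j, _, hj⟩ := Finset.exists_mem_eq_inf' (Finset.univ_nonempty) (wv z)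
  exact ⟨j, hj⟩

/-- sum of the shifted coordinates. -/
noncomputable def ws (z : EuclideanSpace ℝ (Fin n)) : ℝ := ∑ j, (wv z j - wm z)

theorem ws_cont : Continuous (fun z : EuclideanSpace ℝ (Fin n) => ws z) := by
  unfold ws
  exact continuous_finsetSum _ (fun j _ => ((continuous_apply j).comp wv_cont).sub wm_cont)

theorem ws_pos {z : EuclideanSpace ℝ (Fin n)} (hz : z ≠ 0) : 0 < ws z := by
  have h0 : ∀ j, 0 ≤ wv z j - wm z := fun j => by have := wm_le z j; linarith
  have hge : 0 ≤ ws z := Finset.sum_nonneg (fun j _ => h0 j)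
  rcases hge.lt_or_eq with h | h
  · exact h
  · exfalso
    apply hz
    have h1 := (Finset.sum_eq_zero_iff_of_nonneg (fun j _ => h0 j)).mp h.symm
    have h2 : wm z = 0 := by
      have := h1 0 (Finset.mem_univ _)
      simp only [wv, Fin.cons_zero] at this
      linarith
    ext i
    have := h1 i.succ (Finset.mem_univ _)
    simp only [wv, Fin.cons_succ] at this
    simp only [PiLp.zero_apply]
    linarith

/-- The inverse map. -/
noncomputable def xv (z : EuclideanSpace ℝ (Fin n)) : V → ℝ :=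
  fun v => ∑ j, if v = s j then (wv z j - wm z) / ws z else 0

theorem xv_s (hs : Function.Injective s) (z : EuclideanSpace ℝ (Fin n)) (j : Fin (n + 1)) :
    xv s z (s j) = (wv z j - wm z) / ws z := by
  unfold xv
  rw [Finset.sum_eq_single j]
  · simp
  · intro k _ hk
    rw [if_neg (fun h => hk (hs h).symm)]
  · intro h; exact absurd (Finset.mem_univ j) h

theorem xv_out (z : EuclideanSpace ℝ (Fin n)) {v : V} (hv : v ∉ Finset.univ.image s) :
    xv s z v = 0 := by
  unfold xv
  refine Finset.sum_eq_zero (fun j _ => ?_)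
  rw [if_neg (fun h => hv (Finset.mem_image.mpr ⟨j, Finset.mem_univ _, h.symm⟩))]

theorem xv_mem (hs : Function.Injective s) {z : EuclideanSpace ℝ (Fin n)} (hz : z ≠ 0) :
    xv s z ∈ Bd (Finset.univ.image s) := by
  have hp := ws_pos hz
  refine ⟨⟨?_, fun v hv => xv_out s z hv, ?_⟩, ?_⟩
  · intro v
    by_cases hv : v ∈ Finset.univ.image s
    · obtain ⟨j, _, rfl⟩ := Finset.mem_image.mp hv
      rw [xv_s s hs]
      have := wm_le z j
      exact div_nonneg (by linarith) hp.le
    · rw [xv_out s z hv]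
  · rw [sum_image_s s hs, Finset.sum_congr rfl (fun j _ => xv_s s hs z j), ← Finset.sum_div]
    exact div_self hp.ne'
  · obtain ⟨j, hj⟩ := exists_wm z
    exact ⟨s j, Finset.mem_image.mpr ⟨j, Finset.mem_univ _, rfl⟩, by
      rw [xv_s s hs, hj, sub_self, zero_div]⟩

theorem yv_xv (hs : Function.Injective s) (z : EuclideanSpace ℝ (Fin n)) :
    yv s (xv s z) = (ws z)⁻¹ • z := by
  ext i
  simp only [yv, PiLp.smul_apply, smul_eq_mul]
  rw [xv_s s hs, xv_s s hs]
  simp only [wv, Fin.cons_succ, Fin.cons_zero]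
  ring

theorem xv_yv (hs : Function.Injective s) {x : V → ℝ} (hx : x ∈ Bd (Finset.univ.image s))
    {c : ℝ} (hc : 0 < c) : xv s (c • yv s x) = x := by
  obtain ⟨⟨h0, h1, h3⟩, v, hv, hxv⟩ := hx
  have hw : ∀ j, wv (c • yv s x) j = c * (x (s j) - x (s 0)) := by
    intro j
    refine Fin.cases ?_ (fun i => ?_) j
    · simp [wv]
    · simp [wv, yv]
  have hm : wm (c • yv s x) = - (c * x (s 0)) := by
    obtain ⟨j, _, rfl⟩ := Finset.mem_image.mp hv
    apply le_antisymm
    · have := wm_le (c • yv s x) j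
      rw [hw, hxv] at this
      linarith
    · obtain ⟨k, hk⟩ := exists_wm (c • yv s x)
      rw [hk, hw]
      have := mul_nonneg hc.le (h0 (s k))
      nlinarith
  have hu : ∀ j, wv (c • yv s x) j - wm (c • yv s x) = c * x (s j) := by
    intro j; rw [hw, hm]; ring
  have hsum : ws (c • yv s x) = c := by
    unfold ws
    rw [Finset.sum_congr rfl (fun j _ => hu j), ← Finset.mul_sum, ← sum_image_s s hs, h3, mul_one]
  funext w
  by_cases hwm : w ∈ Finset.univ.image s
  · obtain ⟨j, _, rfl⟩ := Finset.mem_image.mp hwm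
    rw [xv_s s hs, hu, hsum]
    field_simp
  · rw [xv_out s _ hwm, h1 w hwm]

theorem xv_cont : ContinuousOn (xv s) {z : EuclideanSpace ℝ (Fin n) | z ≠ 0} := by
  refine continuousOn_pi.mpr (fun v => ?_)
  unfold xv
  refine continuousOn_finsetSum _ (fun j _ => ?_)
  by_cases h : v = s j
  · simp only [h, if_true]
    refine ContinuousOn.div ?_ ws_cont.continuousOn (fun z hz => (ws_pos hz).ne')
    exact (((continuous_apply j).comp wv_cont).sub wm_cont).continuousOn
  · simp only [h, if_false]
    exact continuousOn_const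

/-- The boundary of an `n`-simplex is homeomorphic to the unit sphere of `ℝ^n`. -/
noncomputable def bdSphere (hs : Function.Injective s) :
    Bd (Finset.univ.image s) ≃ₜ Metric.sphere (0 : EuclideanSpace ℝ (Fin n)) 1 where
  toFun x := ⟨‖yv s x‖⁻¹ • yv s x, by
    have h := yv_ne s hs x.2
    rw [mem_sphere_zero_iff_norm, norm_smul, norm_inv, norm_norm]
    exact inv_mul_cancel₀ (norm_ne_zero_iff.mpr h)⟩
  invFun z := ⟨xv s z, xv_mem s hs (by
    intro h0
    have := z.2
    rw [h0] at this
    simp at this)⟩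
  left_inv x := Subtype.ext (xv_yv s hs x.2
    (inv_pos.mpr (norm_pos_iff.mpr (yv_ne s hs x.2))))
  right_inv z := by
    apply Subtype.ext
    have hz : (z : EuclideanSpace ℝ (Fin n)) ≠ 0 := by
      intro h0
      have := z.2
      rw [h0] at this
      simp at this
    have hn : ‖(z : EuclideanSpace ℝ (Fin n))‖ = 1 := by
      have := z.2
      rwa [mem_sphere_zero_iff_norm] at this
    have hp := ws_pos hz
    simp only
    rw [yv_xv s hs, norm_smul, hn, mul_one, norm_inv, Real.norm_of_nonneg hp.le, inv_inv,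
      smul_smul, mul_inv_cancel₀ hp.ne', one_smul]
  continuous_toFun := by
    refine Continuous.subtype_mk ?_ _
    have h1 : Continuous (fun x : Bd (Finset.univ.image s) => yv s (x : V → ℝ)) :=
      (yv_cont s).comp continuous_subtype_val
    exact (h1.norm.inv₀ (fun x => norm_ne_zero_iff.mpr (yv_ne s hs x.2))).smul h1
  continuous_invFun := by
    refine Continuous.subtype_mk ?_ _
    refine (xv_cont s).comp_continuous continuous_subtype_val ?_
    intro z h0
    have := z.2
    rw [h0] at this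
    simp at this

end sphere

section final

variable {ρ : Type} {lab : ρ → Finset V} {num : ρ → V → ℕ} {od : ρ → V → List V}

theorem isClosed_Dl (s : Finset V) : IsClosed (Dl s) := by
  have h : Dl s = (⋂ v, {x : V → ℝ | 0 ≤ x v}) ∩ ((⋂ v, {x : V → ℝ | v ∉ s → x v = 0}) ∩
      {x : V → ℝ | ∑ v ∈ s, x v = 1}) := by
    ext x
    simp [Dl]
  rw [h]
  refine IsClosed.inter (isClosed_iInter (fun v => ?_)) (IsClosed.inter
    (isClosed_iInter (fun v => ?_)) ?_)
  · exact isClosed_le continuous_const (continuous_apply v)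
  · by_cases hv : v ∈ s
    · simp [hv]
    · simp only [hv, not_false_eq_true, forall_const]
      exact isClosed_eq (continuous_apply v) continuous_const
  · exact isClosed_eq (continuous_finsetSum _ (fun v _ => continuous_apply v)) continuous_const

theorem isCompact_Dl (s : Finset V) : IsCompact (Dl s) := by
  refine IsCompact.of_isClosed_subset (isCompact_univ_pi (fun _ : V => isCompact_Icc (a := (0:ℝ))
    (b := 1))) (isClosed_Dl s) ?_
  intro x hx v _
  refine ⟨hx.1 v, ?_⟩
  by_cases hv : v ∈ s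
  · rw [← hx.2.2]
    exact Finset.single_le_sum (f := x) (fun w _ => hx.1 w) hv
  · rw [hx.2.1 v hv]; exact zero_le_one

/-- The realisation of the full boundary: simplices `c v`, `v ∈ s`, all glued to each other. -/
structure Full (lab : ρ → Finset V) (num : ρ → V → ℕ) (od : ρ → V → List V) (s : Finset V)
    (c : V → ρ) (S : Set ρ) : Prop where
  labc : ∀ v ∈ s, lab (c v) = s.erase v
  mem : ∀ v ∈ s, c v ∈ S
  out : ∀ i ∈ S, ∃ v ∈ s, i = c v
  inn : ∀ v ∈ s, ∀ w ∈ s, v ≠ w → num (c v) w = num (c w) v ∧ od (c v) w = od (c w) v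
  cov : ∀ v ∈ s, ∀ w ∈ s, v ≠ w → ∀ u ∈ s, u ≠ v → u ≠ w → u ∈ od (c v) w
  uniq : ∀ v ∈ s, ∀ w ∈ s, v ≠ w → ∀ i ∈ S, ∀ u ∈ lab i, num i u = num (c v) w →
    (i = c v ∧ u = w) ∨ (i = c w ∧ u = v)

variable {s : Finset V} {c : V → ρ} {S : Set ρ}

theorem Dl_erase_iff {s : Finset V} {v : V} (hv : v ∈ s) {x : V → ℝ} :
    x ∈ Dl (s.erase v) ↔ x ∈ Dl s ∧ x v = 0 := by
  constructor
  · rintro ⟨h0, h1, h2⟩
    have hxv := h1 v (Finset.notMem_erase v _)
    refine ⟨⟨h0, fun w hw => h1 w (fun hc => hw (Finset.mem_of_mem_erase hc)), ?_⟩, hxv⟩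
    rw [← Finset.add_sum_erase s _ hv, hxv, zero_add, h2]
  · rintro ⟨⟨h0, h1, h2⟩, hxv⟩
    refine ⟨h0, fun w hw => ?_, ?_⟩
    · by_cases hwv : w = v
      · rw [hwv, hxv]
      · exact h1 w (fun hc => hw (Finset.mem_erase.mpr ⟨hwv, hc⟩))
    · rw [← Finset.add_sum_erase s _ hv, hxv, zero_add] at h2
      exact h2

theorem Full.mem_bd (h : Full lab num od s c S) (p : Z lab S) : (p.2 : V → ℝ) ∈ Bd s := by
  obtain ⟨⟨i, hi⟩, ⟨x, hx⟩⟩ := p
  obtain ⟨v, hv, rfl⟩ := h.out i hi
  simp only
  rw [h.labc v hv] at hx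
  have := (Dl_erase_iff hv).mp hx
  exact ⟨this.1, v, hv, this.2⟩

theorem Full.rel_eq (h : Full lab num od s c S) (p q : Z lab S) (hr : Rg lab num od S p q) :
    (p.2 : V → ℝ) = q.2 := by
  obtain ⟨⟨i, hi⟩, ⟨x, hx⟩⟩ := p
  obtain ⟨⟨j, hj⟩, ⟨y, hy⟩⟩ := q
  obtain ⟨w, hw, u, hu, hf, hxw, hyu, ho⟩ := hr
  simp only at hw hu hf hxw hyu ho ⊢
  obtain ⟨v, hv, rfl⟩ := h.out i hi
  have hw' := hw
  rw [h.labc v hv] at hw'
  have hws := Finset.mem_of_mem_erase hw'
  have hvw : v ≠ w := (Finset.ne_of_mem_erase hw').symm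
  have hxv : x v = 0 := by
    have := hx.2.1
    rw [h.labc v hv] at this
    exact this v (Finset.notMem_erase v _)
  have key : y v = 0 ∧ y w = 0 ∧ (∀ t, t ∉ s → y t = 0) ∧
      (od (c v) w).map x = (od (c v) w).map y := by
    rcases h.uniq v hv w hws hvw j hj u hu hf.symm with ⟨h2, h3⟩ | ⟨h2, h3⟩
    · subst h2 h3
      have hz := hy.2.1
      rw [h.labc v hv] at hz
      exact ⟨hz v (Finset.notMem_erase v _), hyu,
        fun t ht => hz t (fun hc => ht (Finset.mem_of_mem_erase hc)), ho⟩
    · subst h2 h3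
      have hz := hy.2.1
      rw [h.labc w hws] at hz
      rw [← (h.inn u hv w hws hvw).2] at ho
      exact ⟨hyu, hz w (Finset.notMem_erase w _),
        fun t ht => hz t (fun hc => ht (Finset.mem_of_mem_erase hc)), ho⟩
  obtain ⟨hyv, hyw, hyt, hmap⟩ := key
  funext t
  by_cases htv : t = v
  · rw [htv, hxv, hyv]
  · by_cases htw : t = w
    · rw [htw, hxw, hyw]
    · by_cases hts : t ∈ s
      · exact eq_of_map_eq hmap (h.cov v hv w hws hvw t hts htv htw)
      · have h1 : x t = 0 := hx.2.1 t (by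
          rw [h.labc v hv]; exact fun hc => hts (Finset.mem_of_mem_erase hc))
        rw [h1, hyt t hts]

/-- The map from the realisation to the boundary of the simplex. -/
def Full.toBd (h : Full lab num od s c S) : X lab num od S → Bd s :=
  Quot.lift (fun p : Z lab S => (⟨p.2, h.mem_bd p⟩ : Bd s))
    (fun p q hr => Subtype.ext (h.rel_eq p q hr))

theorem Full.toBd_cont (h : Full lab num od s c S) : Continuous h.toBd := by
  refine continuous_quot_lift _ ?_
  refine Continuous.subtype_mk ?_ _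
  exact continuous_sigma_iff.mpr (fun i => continuous_subtype_val)

theorem Full.bij (h : Full lab num od s c S) : Function.Bijective h.toBd := by
  constructor
  · intro x y hxy
    induction x using Quot.ind with
    | mk p =>
      induction y using Quot.ind with
      | mk q =>
        obtain ⟨⟨i, hi⟩, ⟨x, hx⟩⟩ := p
        obtain ⟨⟨j, hj⟩, ⟨y, hy⟩⟩ := q
        have hxy' : x = y := congrArg Subtype.val hxy
        subst hxy'
        obtain ⟨v, hv, rfl⟩ := h.out i hi
        obtain ⟨w, hw, rfl⟩ := h.out j hj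
        by_cases hvw : v = w
        · subst hvw; rfl
        · have hx' := hx
          have hy' := hy
          rw [h.labc v hv] at hx'
          rw [h.labc w hw] at hy'
          have h1 := ((Dl_erase_iff hv).mp hx').2
          have h2 := ((Dl_erase_iff hw).mp hy').2
          refine pt_glue (v := w) (w := v) hi hj hx hy ?_ ?_ (h.inn v hv w hw hvw).1 h2 h1
            (by rw [(h.inn v hv w hw hvw).2])
          · rw [h.labc v hv]; exact Finset.mem_erase.mpr ⟨fun hh => hvw hh.symm, hw⟩
          · rw [h.labc w hw]; exact Finset.mem_erase.mpr ⟨hvw, hv⟩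
  · rintro ⟨x, hx, v, hv, hxv⟩
    have hm : x ∈ Dl (lab (c v)) := by
      rw [h.labc v hv]; exact (Dl_erase_iff hv).mpr ⟨hx, hxv⟩
    exact ⟨pt lab num od (c v) (h.mem v hv) x hm, rfl⟩

/-- `X` of the full boundary is the boundary of the simplex. -/
noncomputable def Full.homeo (h : Full lab num od s c S) : X lab num od S ≃ₜ Bd s := by
  haveI : Finite S := by
    refine Set.Finite.subset (s := c '' (s : Set V)) ((Finset.finite_toSet s).image c) ?_
    intro i hi
    obtain ⟨v, hv, rfl⟩ := h.out i hi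
    exact ⟨v, hv, rfl⟩
  haveI : ∀ i : S, CompactSpace (Dl (lab i)) := fun i =>
    isCompact_iff_compactSpace.mp (isCompact_Dl _)
  haveI : CompactSpace (X lab num od S) :=
    inferInstanceAs (CompactSpace (Quot (Rg lab num od S)))
  exact Continuous.homeoOfEquivCompactToT2 (f := Equiv.ofBijective _ h.bij) h.toBd_cont

end final

end Fl49
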