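import Pool.Agent.Lib_MP_55d5ef_fl.Pk

/-!
Packed checker: link between two parts (the records alive at the end of a part are the records
of the start of the next part; only the ids change).
-/

set_option linter.unusedSectionVars false

namespace Fl49

open Finset PL55

/-- Loop of the link check: `al` = ids alive (20 bits each), `j` = new id, `M` = mask. -/
noncomputable def lnk (tab tab' : ℕ → ℕ) (N cnt : ℕ) : ℕ → ℕ → ℕ → Bool :=
  Nat.rec (motive := fun _ => ℕ → ℕ → ℕ → Bool)
    (fun _ _ M => Nat.beq (Nat.add M 1) (Nat.pow 2 N))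
    (fun _ ih al j M => frc (Nat.mod al 1048576) (fun id =>
      ba (Nat.ble (Nat.add id 1) N) (ba (Nat.beq (Nat.mod (Nat.shiftRight M id) 2) 0)
        (ba (Nat.beq (tab id) (tab' j))
          (frc (Nat.lor M (Nat.shiftLeft 1 id)) (fun M' =>
            frc (Nat.shiftRight al 20) (fun al' =>
              frc (Nat.add j 1) (fun j' => ih al' j' M')))))))) cnt

/-- The link check: the `n` alive ids of the state `(N, M)` are `al`, their records are the
records `0, .., n - 1` of `tab'`. -/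
noncomputable def lnkChk (tab tab' : ℕ → ℕ) (al n N M : ℕ) : Bool :=
  ba (Nat.ble n N) (lnk tab tab' N n al 0 M)

theorem lk_frc_eq (n : ℕ) (f : ℕ → Bool) : frc n f = f n := by
  cases n <;> rfl

theorem lk_ba_iff (c x : Bool) : ba c x = true ↔ c = true ∧ x = true := by
  cases c <;> simp [ba]

theorem lnk_spec (tab tab' : ℕ → ℕ) (N : ℕ) (cnt : ℕ) : ∀ al j M : ℕ,
    lnk tab tab' N cnt al j M = true →
    (∀ k < cnt, al / 2 ^ (20 * k) % 1048576 < N ∧
      M.testBit (al / 2 ^ (20 * k) % 1048576) = false ∧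
      tab (al / 2 ^ (20 * k) % 1048576) = tab' (j + k)) ∧
    (∀ k < cnt, ∀ l < cnt, al / 2 ^ (20 * k) % 1048576 = al / 2 ^ (20 * l) % 1048576 → k = l) ∧
    (∀ i < N, M.testBit i = false → ∃ k < cnt, al / 2 ^ (20 * k) % 1048576 = i) := by
  induction cnt with
  | zero =>
    intro al j M h
    have h1 : M + 1 = 2 ^ N := Nat.eq_of_beq_eq_true h
    refine ⟨fun k hk => absurd hk (by omega), fun k hk => absurd hk (by omega), ?_⟩
    intro i hi hM
    have h2 : M = 2 ^ N - 1 := by omega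
    rw [h2, Nat.testBit_two_pow_sub_one] at hM
    simp [hi] at hM
  | succ cnt ih =>
    intro al j M h
    have h0 : frc (Nat.mod al 1048576) (fun id =>
      ba (Nat.ble (Nat.add id 1) N) (ba (Nat.beq (Nat.mod (Nat.shiftRight M id) 2) 0)
        (ba (Nat.beq (tab id) (tab' j))
          (frc (Nat.lor M (Nat.shiftLeft 1 id)) (fun M' =>
            frc (Nat.shiftRight al 20) (fun al' =>
              frc (Nat.add j 1) (fun j' => lnk tab tab' N cnt al' j' M'))))))) = true := h
    simp only [lk_frc_eq, lk_ba_iff] at h0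
    obtain ⟨h1, h2, h3, h4⟩ := h0
    set i0 : ℕ := al % 1048576 with hi0
    have e1 : i0 < N := by
      have := Nat.le_of_ble_eq_true h1
      exact this
    have e2 : M.testBit i0 = false := by
      have h5 : (M >>> i0) % 2 = 0 := Nat.eq_of_beq_eq_true h2
      rw [Nat.testBit, Nat.one_and_eq_mod_two, h5]
      rfl
    have e3 : tab i0 = tab' j := Nat.eq_of_beq_eq_true h3
    have h5 : lnk tab tab' N cnt (al >>> 20) (j + 1) (M ||| (1 <<< i0)) = true := h4
    obtain ⟨k1, k2, k3⟩ := ih _ _ _ h5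
    have sh : ∀ k, (al >>> 20) / 2 ^ (20 * k) % 1048576 = al / 2 ^ (20 * (k + 1)) % 1048576 := by
      intro k
      rw [Nat.shiftRight_eq_div_pow, Nat.div_div_eq_div_mul, ← pow_add]
      congr 3
      ring
    have z0 : al / 2 ^ (20 * 0) % 1048576 = i0 := by simp [hi0]
    have bt : ∀ i, (M ||| (1 <<< i0)).testBit i = false ↔ M.testBit i = false ∧ i ≠ i0 := by
      intro i
      rw [Nat.testBit_or, Nat.one_shiftLeft, Nat.testBit_two_pow, Bool.or_eq_false_iff,
        decide_eq_false_iff_not]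
      exact and_congr_right fun _ => ⟨fun h hc => h hc.symm, fun h hc => h hc.symm⟩
    have g1 : ∀ k < cnt, al / 2 ^ (20 * (k + 1)) % 1048576 < N ∧
        M.testBit (al / 2 ^ (20 * (k + 1)) % 1048576) = false ∧
        al / 2 ^ (20 * (k + 1)) % 1048576 ≠ i0 ∧
        tab (al / 2 ^ (20 * (k + 1)) % 1048576) = tab' (j + (k + 1)) := by
      intro k hk
      obtain ⟨a1, a2, a3⟩ := k1 k hk
      rw [sh] at a1 a2 a3
      rw [bt] at a2
      exact ⟨a1, a2.1, a2.2, by rw [a3]; congr 1; ring⟩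
    refine ⟨?_, ?_, ?_⟩
    · intro k hk
      rcases k with _ | k
      · rw [z0]
        exact ⟨e1, e2, e3⟩
      · obtain ⟨a1, a2, _, a3⟩ := g1 k (by omega)
        exact ⟨a1, a2, a3⟩
    · intro k hk l hl hkl
      rcases k with _ | k <;> rcases l with _ | l
      · rfl
      · rw [z0] at hkl
        exact absurd hkl.symm (g1 l (by omega)).2.2.1
      · rw [z0] at hkl
        exact absurd hkl (g1 k (by omega)).2.2.1
      · rw [k2 k (by omega) l (by omega) (by rw [sh, sh]; exact hkl)]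
    · intro i hi hM
      by_cases hii : i = i0
      · exact ⟨0, by omega, by rw [z0, hii]⟩
      · obtain ⟨k, hk, hki⟩ := k3 i hi ((bt i).mpr ⟨hM, hii⟩)
        exact ⟨k + 1, by omega, by rw [← sh]; exact hki⟩

/-- LINK OF TWO PARTS. -/
theorem lnk_ok {tab tab' : ℕ → ℕ} {al n N M off : ℕ} (h : lnkChk tab tab' al n N M = true)
    (hI : InvK (SK tab N M) N off) :
    n ≤ N ∧ InvK (SK tab' n 0) n (N + off - n) ∧ PLK (SK tab N M) (SK tab' n 0) := by
  unfold lnkChk at h
  rw [lk_ba_iff] at h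
  obtain ⟨h1, h2⟩ := h
  have hn : n ≤ N := Nat.le_of_ble_eq_true h1
  obtain ⟨k1, k2, k3⟩ := lnk_spec tab tab' N n al 0 M h2
  set J : ℕ → ℕ := fun k => al / 2 ^ (20 * k) % 1048576 with hJ
  -- the record of `SK tab N M` of a record of `SK tab' n 0`
  let F : Rk → Rk := fun x => (J x.1, x.2)
  have hF : ∀ x ∈ SK tab' n 0, F x ∈ SK tab N M := by
    rintro ⟨i, r⟩ ⟨a1, _, a3⟩
    obtain ⟨b1, b2, b3⟩ := k1 i a1
    refine ⟨b1, b2, ?_⟩
    simp only at a3
    simp only [F, hJ]
    rw [b3, a3, Nat.zero_add]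
  have hinj : ∀ x ∈ SK tab' n 0, ∀ y ∈ SK tab' n 0, (F x).1 = (F y).1 → x = y := by
    rintro ⟨i, r⟩ ⟨a1, _, a3⟩ ⟨i', r'⟩ ⟨a1', _, a3'⟩ hh
    simp only at a3 a3'
    have : i = i' := k2 i a1 i' a1' hh
    subst this
    rw [a3, a3']
  have hsur : ∀ y ∈ SK tab N M, ∃ x ∈ SK tab' n 0, F x = y := by
    rintro ⟨i, r⟩ ⟨a1, a2, a3⟩
    obtain ⟨k, hk, hki⟩ := k3 i a1 a2
    refine ⟨(k, r), ⟨hk, Nat.zero_testBit k, ?_⟩, ?_⟩
    · have := (k1 k hk).2.2
      simp only at a3
      simp only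
      rw [a3, ← hki, this, Nat.zero_add]
    · simp only [F, hJ]
      rw [hki]
  refine ⟨hn, ⟨fun x hx => hx.1, ?_, ?_, ?_, ?_, ?_⟩, ?_⟩
  · intro x hx y hy hxy
    exact hinj x hx y hy (by simp only [F, hxy])
  · intro x hx
    exact hI.five (F x) (hF x hx)
  · intro x hx v hv l
    exact hI.gd _ (hF x hx) v hv l
  · intro x hx v hv y hy w hw z hz u hu e1 e2
    have := hI.tw _ (hF x hx) v hv _ (hF y hy) w hw _ (hF z hz) u hu e1 e2
    rcases this with c | c | c
    · left
      rw [Prod.mk.injEq] at c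
      rw [hinj x hx y hy (by rw [c.1]), c.2]
    · right; left
      rw [Prod.mk.injEq] at c
      rw [hinj x hx z hz (by rw [c.1]), c.2]
    · right; right
      rw [Prod.mk.injEq] at c
      rw [hinj y hy z hz (by rw [c.1]), c.2]
  · intro x hx v hv
    have := hI.fn _ (hF x hx) v hv
    have e : n + (N + off - n) = N + off := by omega
    rw [e]
    exact this
  · obtain ⟨ψ, g, hiso⟩ := iso_of_bij (lab := labK) (num := numK) (od := odK) (lab' := labK)
      (num' := numK) (od' := odK) (φ := F) (f := fun _ v => v) (S := SK tab' n 0)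
      (S' := SK tab N M) ⟨hF, fun x hx y hy hxy => hinj x hx y hy (by rw [hxy]), fun y hy => by
        obtain ⟨x, hx, hxy⟩ := hsur y hy
        exact ⟨x, hx, hxy⟩⟩ (fun i _ => Set.bijOn_id _) (fun i _ v _ j _ w _ => Iff.rfl)
      (fun i _ v _ => by
        show odK (F i) v = (odK i v).map (fun v => v)
        rw [List.map_id']
        rfl)
      (fun i hi v hv l hl => ((hI.gd _ (hF i hi) v hv l).mp hl).1)
    exact ⟨hiso.homeo.symm, PLH.symm ⟨hiso.plx, hiso.plx_symm⟩⟩

end Fl49
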