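import Pool.Agent.Lib_MP_55d5ef_fl.PkC
import Pool.Agent.Lib_MP_55d5ef_fl.PkLink

/-!
Packed checker: one part of the list of moves with the link to the next part, and the last part.
-/

set_option linter.unusedSectionVars false

namespace Fl49

/-- Check of a part: flips `l` from the `n` records of `t`, ending with `N'` records created and
the alive ones `al` equal to the `n'` records of `t'`. -/
noncomputable def prtChk (t t' : TB) (off : ℕ) (l : List (ℕ × ℕ)) (n al n' N' : ℕ) : Bool :=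
  rql (tbg t) off l n 0 (fun N M => ba (Nat.beq N N') (lnkChk (tbg t) (tbg t') al n' N M))

theorem prtChk_sound {t t' : TB} {off : ℕ} {l : List (ℕ × ℕ)} {n al n' N' : ℕ}
    (h : prtChk t t' off l n al n' N' = true) (hI : InvK (SK (tbg t) n 0) n off) :
    InvK (SK (tbg t') n' 0) n' (N' + off - n') ∧ PLK (SK (tbg t) n 0) (SK (tbg t') n' 0) := by
  obtain ⟨N, M, h1, h2, h3⟩ := rql_sound (fun i => tbg_lt t i)
    (⟨hI, fun j _ => Nat.zero_testBit j⟩ : StK (tbg t) off n 0) h
  rw [ba_iff] at h1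
  obtain ⟨h4, h5⟩ := h1
  have h6 : N = N' := Nat.eq_of_beq_eq_true h4
  subst h6
  obtain ⟨_, h7, h8⟩ := lnk_ok h5 h2.inv
  exact ⟨h7, h3.trans h8⟩

/-- Check of the last part. -/
noncomputable def endChk (t : TB) (off : ℕ) (l : List (ℕ × ℕ)) (n c : ℕ) : Bool :=
  rql (tbg t) off l n 0 (fun N M => fnK (tbg t) off c N M)

theorem endChk_sound {t : TB} {off : ℕ} {l : List (ℕ × ℕ)} {n c : ℕ}
    (h : endChk t off l n c = true) (hI : InvK (SK (tbg t) n 0) n off) :
    ∃ c S1, Full labK numK odK (Finset.range 6) c S1 ∧ GdG labK odK S1 ∧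
      PLK (SK (tbg t) n 0) S1 := by
  obtain ⟨N, M, h1, h2, h3⟩ := rql_sound (fun i => tbg_lt t i)
    (⟨hI, fun j _ => Nat.zero_testBit j⟩ : StK (tbg t) off n 0) h
  obtain ⟨c, S1, h4, h5, h6⟩ := fnK_sound (fun i => tbg_lt t i) h2 h1
  exact ⟨c, S1, h4, h5, h3.trans h6⟩

end Fl49
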