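import Pool.Agent.Lib_MP_55d5ef_fl.PLf

/-!
From a table on `Fin n × Fin 5` to a list of records.
-/

set_option linter.unusedSectionVars false

namespace Fl49

open Finset

section tab

variable {n : ℕ} (num : Fin n → Fin 5 → ℕ) (od : Fin n → Fin 5 → List (Fin 5))

/-- Values. -/
def vls : List (Fin 5) → List ℕ
  | [] => []
  | v :: l => v.val :: vls l

theorem vls_eq (l : List (Fin 5)) : vls l = l.map Fin.val := by
  induction l with
  | nil => rfl
  | cons v l ih => rw [vls, ih]; rfl

/-- The record of a table. -/
def trc (i : Fin n) : Ri :=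
  (i.val, [(0, (num i 0, vls (od i 0))), (1, (num i 1, vls (od i 1))), (2, (num i 2, vls (od i 2))),
    (3, (num i 3, vls (od i 3))), (4, (num i 4, vls (od i 4)))])

theorem lkp_trc (i : Fin n) (k : Fin 5) :
    lkp k.val (trc num od i).2 = some (num i k, (od i k).map Fin.val) := by
  rw [← vls_eq]
  unfold trc
  fin_cases k <;> rfl

theorem numR_trc (i : Fin n) (k : Fin 5) : numR (trc num od i) k.val = num i k := by
  unfold numR; rw [lkp_trc]; rfl

theorem odR_trc (i : Fin n) (k : Fin 5) :
    odR (trc num od i) k.val = (od i k).map Fin.val := by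
  unfold odR; rw [lkp_trc]; rfl

theorem mem_labR_trc (i : Fin n) (v : ℕ) : v ∈ labR (trc num od i) ↔ v < 5 := by
  rw [mem_labR]
  unfold trc
  simp only [List.map_cons, List.map_nil, List.mem_cons, List.not_mem_nil, or_false]
  omega

variable {num od}

/-- The table and the list of records are isomorphic. -/
theorem iso_tab [NeZero n] {L : List Ri} (hF : Fu (sL L)) (hn : ∀ x ∈ L, x.1 < n)
    (hc : ∀ i : Fin n, trc num od i ∈ L) :
    ∃ ψ g, Iso (fun _ : Fin n => (Finset.univ : Finset (Fin 5))) num od labR numR odR
      (trc num od) ψ (fun _ k => k.val) g Set.univ (sL L) := by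
  have : Inhabited (Fin n) := ⟨0⟩
  refine iso_of_bij ?_ ?_ ?_ ?_ ?_
  · refine ⟨fun i _ => hc i, ?_, ?_⟩
    · intro i _ j _ hij
      have := congrArg Prod.fst hij
      exact Fin.ext this
    · intro x hx
      refine ⟨⟨x.1, hn x hx⟩, Set.mem_univ _, ?_⟩
      exact hF _ (hc _) _ hx rfl
  · intro i _
    refine ⟨?_, Fin.val_injective.injOn, ?_⟩
    · intro k _
      exact Finset.mem_coe.mpr ((mem_labR_trc num od i _).mpr k.2)
    · intro v hv
      have := (mem_labR_trc num od i v).mp (Finset.mem_coe.mp hv)
      exact ⟨⟨v, this⟩, Finset.mem_coe.mpr (Finset.mem_univ _), rfl⟩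
  · intro i _ v _ j _ w _
    rw [numR_trc, numR_trc]
  · intro i _ v _
    exact odR_trc num od i v
  · intro i _ v _ l _
    exact Finset.mem_univ l

end tab

/-- Numbers below `n` in a Boolean check. -/
def alt : ℕ → (ℕ → Bool) → Bool
  | 0, _ => true
  | n + 1, p => cond (p n) (alt n p) false

theorem alt_iff (n : ℕ) (p : ℕ → Bool) : alt n p = true ↔ ∀ i < n, p i = true := by
  induction n with
  | zero => simp [alt]
  | succ n ih =>
    rw [alt]
    cases h : p n
    · constructor
      · intro h1; cases h1
      · intro h1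
        rw [h1 n (Nat.lt_succ_self n)] at h
        cases h
    · change alt n p = true ↔ _
      rw [ih]
      constructor
      · intro h1 i hi
        rcases Nat.lt_succ_iff_lt_or_eq.mp hi with h2 | h2
        · exact h1 i h2
        · rw [h2]; exact h
      · intro h1 i hi
        exact h1 i (Nat.lt_succ_of_lt hi)

/-- Check that the table has the records of the tree. -/
def tabChk (T : Tr) (n : ℕ) (r : ℕ → Rc) : Bool :=
  alt n (fun i => match T.get i with
    | none => false
    | some s => req s (r i))

theorem tabChk_sound {L : List Ri} {n : ℕ} {r : ℕ → Rc} (hb : bldOk L = true)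
    (h : tabChk (bld L Tr.e) n r = true) : ∀ i < n, (i, r i) ∈ L := by
  intro i hi
  have h1 := (alt_iff _ _).mp h i hi
  have h2 : (i, r i) ∈ St (bld L Tr.e) := by
    split at h1
    · cases h1
    · rename_i s hs
      have := req_eq _ _ h1
      rw [this] at hs
      exact hs
  rw [bldOk_St hb] at h2
  exact h2

end Fl49
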