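import Pool.Agent.Lib_MP_55d5ef_fl.B2
import Pool.Agent.Lib_MP_55d5ef_fl.Tab
import Pool.Agent.Lib_MP_55d5ef_c.CCon

/-!
The complex `XC` (the 480 pentachora of `H4C`) and the start of the 492 moves.
-/

set_option linter.unusedSectionVars false

namespace Fl49

open Finset Lib_MP_55d5ef_c H4C PL55

/-- Number of the facet `k` of the pentachoron `i`. -/
def nuN (i k : ℕ) : ℕ := min (5 * i + k) (5 * gj i k + gp i k k)

/-- The numbers `0, .., 4` without `k`. -/
def lkn (k : ℕ) : List ℕ := dl k k [0, 1, 2, 3, 4]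

/-- Images. -/
def mpn (j k : ℕ) : List ℕ → List ℕ
  | [] => []
  | v :: l => gp j k v :: mpn j k l

/-- Ordering of the facet. -/
def oN (i k : ℕ) : List ℕ :=
  cond (Nat.ble (5 * i + k) (5 * gj i k + gp i k k)) (lkn k) (mpn (gj i k) (gp i k k) (lkn (gp i k k)))

/-- The record. -/
def rN (i : ℕ) : Rc := [(0, (nuN i 0, oN i 0)), (1, (nuN i 1, oN i 1)), (2, (nuN i 2, oN i 2)),
  (3, (nuN i 3, oN i 3)), (4, (nuN i 4, oN i 4))]

theorem vls_lk (k : Fin 5) : vls (lk k) = lkn k := by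
  revert k; decide +kernel

theorem vls_map (j : Fin 480) (k : Fin 5) (l : List (Fin 5)) :
    vls (l.map (np j k)) = mpn j k (vls l) := by
  induction l with
  | nil => rfl
  | cons v l ih => rw [List.map_cons, vls, vls, mpn, ih]; rfl

theorem vls_odC (i : Fin 480) (k : Fin 5) : vls (odC i k) = oN i k := by
  unfold odC oN
  have e : cod i k ≤ cod (nj i k) (np i k k) ↔ 5 * i.1 + k.1 ≤ 5 * gj i k + gp i k k := Iff.rfl
  by_cases h : cod i k ≤ cod (nj i k) (np i k k)
  · rw [if_pos h, show Nat.ble (5 * i.1 + k.1) (5 * gj i k + gp i k k) = true from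
      Nat.ble_eq.mpr (e.mp h), vls_lk]; rfl
  · have h2 : Nat.ble (5 * i.1 + k.1) (5 * gj i k + gp i k k) = false := by
      rcases hb : Nat.ble (5 * i.1 + k.1) (5 * gj i k + gp i k k) with _ | _
      · rfl
      · exact absurd (e.mpr (Nat.ble_eq.mp hb)) h
    rw [if_neg h, h2, vls_map, vls_lk]; rfl

theorem trc_C (i : Fin 480) : trc numC odC i = (i.1, rN i.1) := by
  unfold trc rN
  simp only [vls_odC]
  rfl

theorem b2_tab : tabChk (bld b2L0 Tr.e) 480 rN = true := by decide +kernel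

theorem b2_inv : InvL b2L0 480 := inv_of_ok b2_bld b2_ok

theorem InvL.fu {L : List Ri} {N : ℕ} (h : InvL L N) : Fu (sL L) := by
  obtain ⟨t, h1, _⟩ := h
  rw [← h1]; exact Fu_St t

theorem InvL.lt {L : List Ri} {N : ℕ} (h : InvL L N) : ∀ x ∈ L, x.1 < N := by
  obtain ⟨t, h1, h2⟩ := h
  intro x hx
  refine h2.id x ?_
  rw [h1]; exact hx

/-- The marked vertex. -/
def m0 : Ri × ℕ := ((0, rN 0), 0)

theorem m0_vp : VP (sL b2L0) m0 := by
  refine ⟨tabChk_sound b2_bld b2_tab 0 (by norm_num), ?_⟩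
  rw [mem_labR]
  unfold m0 rN
  simp

/-- `XC` is PL homeomorphic to the start of the moves, the ideal vertex is the marked vertex. -/
theorem b2_start : ∃ e : XC ≃ₜ X labR numR odR (sL b2L0), PLH e ∧ e pinf = vpt m0_vp := by
  have hc : ∀ i : Fin 480, trc numC odC i ∈ b2L0 := by
    intro i
    rw [trc_C]
    exact tabChk_sound b2_bld b2_tab i.1 i.2
  obtain ⟨ψ, g, h⟩ := iso_tab (n := 480) b2_inv.fu b2_inv.lt hc
  refine ⟨h.homeo, ⟨h.plx, h.plx_symm⟩, ?_⟩
  have h1 := h.ix_vx (i := (0 : Fin 480)) (Set.mem_univ _) (v := (0 : Fin 5)) (Finset.mem_univ _)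
  have h2 : pinf = pt labU numC odC (0 : Fin 480) (Set.mem_univ _) (vx (0 : Fin 5))
      (vx_mem (Finset.mem_univ _)) := by
    refine pt_congr _ _ _ ?_
    funext w
    unfold einf vx
    rw [Pi.single_apply]
  refine (congrArg h.homeo h2).trans (h1.trans ?_)
  refine pt_congr2 ?_ _ _ _ _ rfl
  exact trc_C 0

end Fl49
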