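import Pool.Agent.Lib_MP_55d5ef_fl.B2D

/-!
Parts of the check of the renumbering of the end of the 492 moves.
-/

namespace Fl49

theorem b2_ic150 : icS b2M b2L1 b2L2 150 50 = true := by decide +kernel

theorem b2_ic200 : icS b2M b2L1 b2L2 200 50 = true := by decide +kernel

theorem b2_ic250 : icS b2M b2L1 b2L2 250 50 = true := by decide +kernel

end Fl49
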