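import Pool.Agent.Lib_MP_55d5ef_fl.B2D
import Pool.Agent.Lib_MP_55d5ef_fl.B2I0
import Pool.Agent.Lib_MP_55d5ef_fl.B2I1

/-!
Parts of the check of the renumbering of the end of the 492 moves.
-/

namespace Fl49

theorem b2_ic300 : icS b2M b2L1 b2L2 300 50 = true := by decide +kernel

theorem b2_ic350 : icS b2M b2L1 b2L2 350 50 = true := by decide +kernel

theorem b2_ic400 : icS b2M b2L1 b2L2 400 50 = true := by decide +kernel

theorem b2_ic450 : icD b2M b2L1 b2L2 450 = true := by decide +kernel

theorem b2_icA : icA b2M b2L1 b2L2 = true := by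
  have d400 := icD_step b2_ic400 b2_ic450
  have d350 := icD_step b2_ic350 d400
  have d300 := icD_step b2_ic300 d350
  have d250 := icD_step b2_ic250 d300
  have d200 := icD_step b2_ic200 d250
  have d150 := icD_step b2_ic150 d200
  have d100 := icD_step b2_ic100 d150
  have d50 := icD_step b2_ic50 d100
  have d0 := icD_step b2_ic0 d50
  exact icA_of d0

end Fl49
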