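import Pool.Agent.Lib_MP_55d5ef_fl.B2
import Pool.Agent.Lib_MP_55d5ef_fl.B2X

/-!
The checks of the 6 parts of the 492 moves.
-/

namespace Fl49

open Finset

/-- A run with mark between two lists. -/
def RunM (L : List Ri) (N i v : ℕ) (L' : List Ri) (N' i' v' : ℕ) : Prop :=
  ∀ x : Ri, x.1 = i → InvL L N → VP (sL L) (x, v) →
    InvL L' N' ∧ ∃ y : Ri, y.1 = i' ∧ VP (sL L') (y, v') ∧
      Ch (sL L, some (x, v)) (sL L', some (y, v'))

theorem RunM.trans {L : List Ri} {N i v : ℕ} {L' : List Ri} {N' i' v' : ℕ} {L'' : List Ri}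
    {N'' i'' v'' : ℕ} (h : RunM L N i v L' N' i' v') (h' : RunM L' N' i' v' L'' N'' i'' v'') :
    RunM L N i v L'' N'' i'' v'' := by
  intro x hx hI hv
  obtain ⟨h1, y, h2, h3, h4⟩ := h x hx hI hv
  obtain ⟨h5, z, h6, h7, h8⟩ := h' y h2 h1 h3
  exact ⟨h5, z, h6, h7, h4.trans h8⟩

theorem RunM.of_part {L : List Ri} {N i v : ℕ} {L' : List Ri} {N' i' v' : ℕ} {codes : List ℕ}
    (hb : bldOk L = true) (hp : partM L N (i, v) codes L' N' (i', v') = true) :
    RunM L N i v L' N' i' v' := by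
  intro x hx hI hv
  subst hx
  exact partM_sound hI hv hb hp

theorem b2_b1 : bldOk b2P1 = true := by decide +kernel

theorem b2_b2 : bldOk b2P2 = true := by decide +kernel

theorem b2_b3 : bldOk b2P3 = true := by decide +kernel

theorem b2_b4 : bldOk b2P4 = true := by decide +kernel

theorem b2_b5 : bldOk b2P5 = true := by decide +kernel

theorem b2_p0 : partM b2L0 480 (0, 0) b2C0 b2P1 647 (0, 0) = true := by
  decide +kernel

theorem b2_p1 : partM b2P1 647 (0, 0) b2C1 b2P2 918 (0, 0) = true := by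
  decide +kernel

theorem b2_p2 : partM b2P2 918 (0, 0) b2C2 b2P3 1190 (0, 0) = true := by
  decide +kernel

theorem b2_p3 : partM b2P3 1190 (0, 0) b2C3 b2P4 1450 (1439, 0) = true := by
  decide +kernel

theorem b2_p4 : partM b2P4 1450 (1439, 0) b2C4 b2P5 1714 (1439, 0) = true := by
  decide +kernel

theorem b2_p5 : partM b2P5 1714 (1439, 0) b2C5 b2L1 1965 (1952, 0) = true := by
  decide +kernel

/-- The whole run. -/
theorem b2_run : RunM b2L0 480 0 0 b2L1 1965 1952 0 :=
  (RunM.of_part b2_bld b2_p0) |>.trans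
    (RunM.of_part b2_b1 b2_p1) |>.trans
    (RunM.of_part b2_b2 b2_p2) |>.trans
    (RunM.of_part b2_b3 b2_p3) |>.trans
    (RunM.of_part b2_b4 b2_p4) |>.trans
    (RunM.of_part b2_b5 b2_p5)

end Fl49
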