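import Pool.Agent.Lib_MP_55d5ef_fl.B2C
import Pool.Agent.Lib_MP_55d5ef_fl.B2I2
import Pool.Agent.Lib_MP_55d5ef_fl.B2Y

/-!
Link L2: `XC` is PL homeomorphic to the complex of any table with the records of `b2L2`
(`h96_Cp492.txt`), and the ideal vertex goes to the vertex `0` of the record `489`.
-/

set_option linter.unusedSectionVars false

namespace Fl49

open Finset H4C PL55

theorem Fu.id_eq {L : List Ri} (h : Fu (sL L)) {x y : Ri} (hx : x ∈ L) (hy : y ∈ L)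
    (he : x.1 = y.1) : x = y := h x hx y hy he

/-- The chain of moves. -/
theorem b2_chain : ∃ y : Ri, y.1 = 489 ∧ VP (sL b2L2) (y, 0) ∧
    Ch (sL b2L0, some m0) (sL b2L2, some (y, 0)) := by
  obtain ⟨hI, y, hy1, hy2, hy3⟩ := b2_run (0, rN 0) rfl b2_inv m0_vp
  have hp := b2_pos
  simp only [Prod.mk.injEq] at hp
  obtain ⟨h1, h2, h3⟩ := hp
  rcases e1 : b2L1[222]? with _ | x1
  · rw [e1] at h1; cases h1
  rcases e2 : b2L2[222]? with _ | x2
  · rw [e2] at h2; cases h2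
  rcases e3 : b2M[222]? with _ | m
  · rw [e3] at h3; cases h3
  rw [e1] at h1
  rw [e2] at h2
  rw [e3] at h3
  simp only [Option.map_some, Option.some.injEq] at h1 h2 h3
  have hx1 : x1 = y := hI.fu.id_eq (List.mem_of_getElem? e1) hy2.1 (h1.trans hy1.symm)
  subst hx1
  obtain ⟨T, T', hT⟩ := icA_sound b2_icA
  have c2 := ch_icM hI b2_nd1 b2_nd2 hT e1 e2 e3 0
  rw [h3] at c2
  have c3 : Ch (sL b2L0, some m0) (sL b2L2, some (x2, 0)) := hy3.trans c2
  refine ⟨x2, h2, ?_, c3⟩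
  refine Ch.vp c3 ?_ (x2, 0) rfl
  intro p hp
  have : m0 = p := Option.some.inj hp
  rw [← this]
  exact m0_vp

/-- The chain of moves as a PL homeomorphism. -/
theorem b2_plh : ∃ (y : Ri) (hy : VP (sL b2L2) (y, 0)), y.1 = 489 ∧
    ∃ e : XC ≃ₜ X labR numR odR (sL b2L2), PLH e ∧ e pinf = vpt hy := by
  obtain ⟨y, hy1, hy2, hc⟩ := b2_chain
  obtain ⟨e0, he0, hp0⟩ := b2_start
  obtain ⟨e1, he1, hp1⟩ := hc.plh (by
    intro p hp
    have : m0 = p := Option.some.inj hp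
    rw [← this]; exact m0_vp)
  obtain ⟨q, hq, h3, h4, h5⟩ := hp1 m0 rfl
  have hqy : (y, 0) = q := Option.some.inj hq
  subst hqy
  refine ⟨y, hy2, hy1, e0.trans e1, he0.trans he1, ?_⟩
  rw [Homeomorph.trans_apply, hp0]
  exact h5

theorem vpt_eq {S : Set Ri} {p : Ri × ℕ} (hp : VP S p) {i : Ri} (hi : i ∈ S) {v : ℕ}
    (hv : v ∈ labR i) (h1 : p.1 = i) (h2 : p.2 = v) :
    vpt hp = pt labR numR odR i hi (vx v) (vx_mem hv) := by
  obtain ⟨j, w⟩ := p
  simp only at h1 h2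
  subst h1 h2
  rfl

/-- LINK L2. -/
theorem link2 {num : Fin 498 → Fin 5 → ℕ} {od : Fin 498 → Fin 5 → List (Fin 5)} {r : ℕ → Rc}
    (hr : ∀ i, trc num od i = (i.1, r i.1)) (hc : lisChk b2L2 498 r = true) :
    ∃ e : XC ≃ₜ X (fun _ : Fin 498 => (Finset.univ : Finset (Fin 5))) num od Set.univ, PLH e ∧
      e pinf = pt (fun _ : Fin 498 => (Finset.univ : Finset (Fin 5))) num od 489
        (Set.mem_univ _) (vx 0) (vx_mem (Finset.mem_univ _)) := by
  obtain ⟨y, hy, hy1, e, he, hp⟩ := b2_plh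
  obtain ⟨h1, h2, h3, h4⟩ := lisChk_sound hc
  obtain ⟨ψ, g, h⟩ := iso_tab (n := 498) (num := num) (od := od) h3 h2 (by
    intro i
    rw [hr]
    exact h4 i.1 i.2)
  refine ⟨e.trans h.homeo.symm, he.trans ⟨h.plx_symm, h.plx⟩, ?_⟩
  rw [Homeomorph.trans_apply, hp]
  have h5 := h.ix_vx (i := (489 : Fin 498)) (Set.mem_univ _) (v := (0 : Fin 5))
    (Finset.mem_univ _)
  rw [← h.homeo.symm_apply_apply (pt (fun _ : Fin 498 => (Finset.univ : Finset (Fin 5))) num od 489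
        (Set.mem_univ _) (vx 0) (vx_mem (Finset.mem_univ _))), h5]
  have hm : trc num od 489 ∈ sL b2L2 := by
    rw [hr]; exact h4 489 (by norm_num)
  have hid : y.1 = (trc num od 489).1 := by rw [hy1, hr]; rfl
  have h6 : y = trc num od 489 := h3 y hy.1 _ hm hid
  exact congrArg h.homeo.symm (vpt_eq hy hm ((mem_labR_trc num od 489 0).mpr (by norm_num)) h6 rfl)

end Fl49
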