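import Pool.Agent.Lib_MP_55d5ef_fl.Ict
import Pool.Agent.Lib_MP_55d5ef_top.TGlu

/-!
The records of a packed gluing table (`H4T.GTab.ofP`).
-/

set_option linter.unusedSectionVars false

namespace Fl49

open Finset H4C PL55 H4T

/-- Number of the facet `k` of the pentachoron `i`. -/
def nuP (tab i k : ℕ) : ℕ := min (5 * i + k) (5 * nbP tab i k + pmP tab i k k)

/-- The numbers `0, .., 4` without `k`. -/
def lkq (k : ℕ) : List ℕ := dl k k [0, 1, 2, 3, 4]

/-- Images. -/
def mpP (tab j k : ℕ) : List ℕ → List ℕ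
  | [] => []
  | v :: l => pmP tab j k v :: mpP tab j k l

/-- Ordering of the facet. -/
def oP (tab i k : ℕ) : List ℕ :=
  cond (Nat.ble (5 * i + k) (5 * nbP tab i k + pmP tab i k k)) (lkq k)
    (mpP tab (nbP tab i k) (pmP tab i k k) (lkq (pmP tab i k k)))

/-- The record. -/
def rP (tab i : ℕ) : Rc := [(0, (nuP tab i 0, oP tab i 0)), (1, (nuP tab i 1, oP tab i 1)),
  (2, (nuP tab i 2, oP tab i 2)), (3, (nuP tab i 3, oP tab i 3)), (4, (nuP tab i 4, oP tab i 4))]

theorem vls_lkq (k : Fin 5) : vls (lk k) = lkq k := by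
  revert k; decide +kernel

section

variable {n tab : ℕ} (h : (Lib_MP_55d5ef_c.allLt n fun i =>
  Lib_MP_55d5ef_c.allLt 5 fun k => chP n tab i k) = true)

theorem vls_mapP (j : Fin n) (k : Fin 5) (l : List (Fin 5)) :
    vls (l.map ((GTab.ofP n tab h).np j k)) = mpP tab j k (vls l) := by
  induction l with
  | nil => rfl
  | cons v l ih => rw [List.map_cons, vls, vls, mpP, ih]; rfl

theorem vls_odP (i : Fin n) (k : Fin 5) : vls ((GTab.ofP n tab h).od i k) = oP tab i k := by
  unfold GTab.od oP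
  have e : GTab.cd i k ≤ GTab.cd ((GTab.ofP n tab h).nj i k) ((GTab.ofP n tab h).np i k k) ↔
      5 * i.1 + k.1 ≤ 5 * nbP tab i k + pmP tab i k k := Iff.rfl
  by_cases h1 : GTab.cd i k ≤ GTab.cd ((GTab.ofP n tab h).nj i k) ((GTab.ofP n tab h).np i k k)
  · rw [if_pos h1, show Nat.ble (5 * i.1 + k.1) (5 * nbP tab i k + pmP tab i k k) = true from
      Nat.ble_eq.mpr (e.mp h1), vls_lkq]; rfl
  · have h2 : Nat.ble (5 * i.1 + k.1) (5 * nbP tab i k + pmP tab i k k) = false := by
      rcases hb : Nat.ble (5 * i.1 + k.1) (5 * nbP tab i k + pmP tab i k k) with _ | _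
      · rfl
      · exact absurd (e.mpr (Nat.ble_eq.mp hb)) h1
    rw [if_neg h1, h2, vls_mapP, vls_lkq]; rfl

theorem trc_P (i : Fin n) : trc (GTab.ofP n tab h).num (GTab.ofP n tab h).od i
    = (i.1, rP tab i.1) := by
  unfold trc rP
  simp only [vls_odP]
  rfl

end

end Fl49
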