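import Pool.Agent.Lib_MP_55d5ef_fl.B2E
import Pool.Agent.Lib_MP_55d5ef_fl.GTb
import Pool.Agent.Lib_MP_55d5ef_top.TabD

/-!
Link L2 for the official table `GD` (498 pentachora).
-/

namespace Fl49

open Finset H4C PL55 H4T

theorem b2_lisD : lisChk b2L2 498 (rP tabDD) = true := by decide +kernel

/-- LINK L2: `XC` is PL homeomorphic to the complex of `GD`, the ideal vertex goes to the vertex `0`
of the pentachoron `489`. -/
theorem link2D : ∃ e : XC ≃ₜ GD.XG, PLH e ∧
    e pinf = pt (labU : Fin 498 → Finset (Fin 5)) numD odD 489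
      (Set.mem_univ _) (vx 0) (vx_mem (Finset.mem_univ _)) :=
  link2 (r := rP tabDD) (fun i => trc_P tabDD_chk i) b2_lisD

end Fl49
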