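import Pool.Agent.Lib_MP_55d5ef_fl.Lst

/-!
Soundness of the checker: one flip.
-/

set_option linter.unusedSectionVars false

namespace Fl49

open Finset

/-- Record with id. -/
abbrev Ri : Type := ℕ × Rc

/-- Labels of a record. -/
def labR (r : Ri) : Finset ℕ := (r.2.map Prod.fst).toFinset

/-- Facet numbers. -/
def numR (r : Ri) (v : ℕ) : ℕ := ((lkp v r.2).getD (0, [])).1

/-- Orderings. -/
def odR (r : Ri) (v : ℕ) : List ℕ := ((lkp v r.2).getD (0, [])).2

/-- The set of records of a tree. -/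
def St (t : Tr) : Set Ri := {r | t.get r.1 = some r.2}

theorem mem_labR (r : Ri) (v : ℕ) : v ∈ labR r ↔ v ∈ r.2.map Prod.fst := List.mem_toFinset

/-- Distinct ids. -/
def Fu (S : Set Ri) : Prop := ∀ x ∈ S, ∀ y ∈ S, x.1 = y.1 → x = y

/-- Orderings contain exactly the other labels. -/
def Gd (S : Set Ri) : Prop := ∀ x ∈ S, ∀ v ∈ labR x, ∀ l, l ∈ odR x v ↔ l ∈ labR x ∧ l ≠ v

/-- At most two occurrences of every facet number. -/
def Tw (S : Set Ri) : Prop := ∀ x ∈ S, ∀ v ∈ labR x, ∀ y ∈ S, ∀ w ∈ labR y, ∀ z ∈ S,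
  ∀ u ∈ labR z, numR x v = numR y w → numR x v = numR z u →
  (x, v) = (y, w) ∨ (x, v) = (z, u) ∨ (y, w) = (z, u)

/-- Facet numbers below `n`. -/
def Fn (n : ℕ) (S : Set Ri) : Prop := ∀ x ∈ S, ∀ v ∈ labR x, numR x v < n

theorem Fu_St (t : Tr) : Fu (St t) := by
  intro x hx y hy h
  unfold St at hx hy
  simp only [Set.mem_ofPred_eq] at hx hy
  rw [h, hy] at hx
  exact Prod.ext h (Option.some.inj hx).symm

/-- An isomorphism from maps which are bijective. -/
theorem iso_of_bij {V V' : Type} [DecidableEq V] [DecidableEq V'] {ρ ρ' : Type} [Inhabited V]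
    [Inhabited ρ]
    {lab : ρ → Finset V} {num : ρ → V → ℕ} {od : ρ → V → List V}
    {lab' : ρ' → Finset V'} {num' : ρ' → V' → ℕ} {od' : ρ' → V' → List V'}
    {φ : ρ → ρ'} {f : ρ → V → V'} {S : Set ρ} {S' : Set ρ'}
    (hφ : Set.BijOn φ S S') (hf : ∀ i ∈ S, Set.BijOn (f i) (lab i) (lab' (φ i)))
    (nf : ∀ i ∈ S, ∀ v ∈ lab i, ∀ j ∈ S, ∀ w ∈ lab j,
      (num' (φ i) (f i v) = num' (φ j) (f j w) ↔ num i v = num j w))
    (of : ∀ i ∈ S, ∀ v ∈ lab i, od' (φ i) (f i v) = (od i v).map (f i))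
    (ol : ∀ i ∈ S, ∀ v ∈ lab i, ∀ l ∈ od i v, l ∈ lab i) :
    ∃ ψ g, Iso lab num od lab' num' od' φ ψ f g S S' := by
  classical
  have hinv : Set.InvOn (Function.invFunOn φ S) φ S S' := hφ.invOn_invFunOn
  have hmem : ∀ j ∈ S', Function.invFunOn φ S j ∈ S := by
    intro j hj
    obtain ⟨i, hi, hij⟩ := hφ.surjOn hj
    exact Function.invFunOn_mem ⟨i, hi, hij⟩
  refine ⟨Function.invFunOn φ S, fun j => Function.invFunOn (f (Function.invFunOn φ S j))
    (lab (Function.invFunOn φ S j) : Set V), ?_⟩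
  refine Iso.of_of hφ.mapsTo hmem hinv.1 hinv.2 ?_ ?_ ?_ ?_ nf of ol
  · intro i hi v hv
    exact (hf i hi).mapsTo (Finset.mem_coe.mpr hv)
  · intro j hj w hw
    have hb := hf _ (hmem j hj)
    rw [hinv.2 hj] at hb
    obtain ⟨v, hv, hvw⟩ := hb.surjOn (Finset.mem_coe.mpr hw)
    exact Finset.mem_coe.mp (Function.invFunOn_mem ⟨v, hv, hvw⟩)
  · intro i hi v hv
    have hb := hf i hi
    simp only [hinv.1 hi]
    exact hb.invOn_invFunOn.1 (Finset.mem_coe.mpr hv)
  · intro j hj w hw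
    have hb := hf _ (hmem j hj)
    rw [hinv.2 hj] at hb
    exact hb.invOn_invFunOn.2 (Finset.mem_coe.mpr hw)

section rnm

variable (M : Ri → List (ℕ × ℕ))

/-- Renaming of all records. -/
def rn (x : Ri) : Ri := (x.1, ren (M x) x.2)

theorem labR_rn (x : Ri) : labR (rn M x) = (labR x).image (ap (M x)) := by
  ext v
  rw [mem_labR, rn, ren_fst, Finset.mem_image, List.mem_map]
  constructor
  · rintro ⟨a, ha, rfl⟩; exact ⟨a, (mem_labR x a).mpr ha, rfl⟩
  · rintro ⟨a, ha, rfl⟩; exact ⟨a, (mem_labR x a).mp ha, rfl⟩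

theorem lkp_rn {x : Ri} (hx : Set.InjOn (ap (M x)) (labR x)) {v : ℕ} (hv : v ∈ labR x) :
    lkp (ap (M x) v) (rn M x).2 = (lkp v x.2).map (fun d => (d.1, d.2.map (ap (M x)))) := by
  refine lkp_ren (M x) x.2 ?_ ((mem_labR x v).mp hv)
  intro a ha b hb hab
  exact hx (Finset.mem_coe.mpr ((mem_labR x a).mpr ha)) (Finset.mem_coe.mpr ((mem_labR x b).mpr hb))
    hab

theorem numR_rn {x : Ri} (hx : Set.InjOn (ap (M x)) (labR x)) {v : ℕ} (hv : v ∈ labR x) :
    numR (rn M x) (ap (M x) v) = numR x v := by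
  unfold numR
  rw [lkp_rn M hx hv]
  rcases lkp v x.2 with _ | d <;> rfl

theorem odR_rn {x : Ri} (hx : Set.InjOn (ap (M x)) (labR x)) {v : ℕ} (hv : v ∈ labR x) :
    odR (rn M x) (ap (M x) v) = (odR x v).map (ap (M x)) := by
  unfold odR
  rw [lkp_rn M hx hv]
  rcases lkp v x.2 with _ | d <;> rfl

variable {M}

theorem iso_ren {S : Set Ri} (hS : Fu S) (hg : Gd S)
    (hi : ∀ x ∈ S, Set.InjOn (ap (M x)) (labR x)) :
    ∃ ψ g, Iso labR numR odR labR numR odR (rn M) ψ (fun x => ap (M x)) g S (rn M '' S) := by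
  refine iso_of_bij ?_ ?_ ?_ ?_ ?_
  · refine ⟨fun x hx => ⟨x, hx, rfl⟩, ?_, fun y hy => hy⟩
    intro x hx y hy hxy
    refine hS x hx y hy ?_
    have h2 := congrArg Prod.fst hxy
    exact h2
  · intro x hx
    refine ⟨?_, hi x hx, ?_⟩
    · intro v hv
      rw [labR_rn, Finset.coe_image]
      exact ⟨v, hv, rfl⟩
    · intro v hv
      rw [labR_rn, Finset.coe_image] at hv
      exact hv
  · intro x hx v hv y hy w hw
    rw [numR_rn M (hi x hx) hv, numR_rn M (hi y hy) hw]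
  · intro x hx v hv
    exact odR_rn M (hi x hx) hv
  · intro x hx v hv l hl
    exact ((hg x hx v hv l).mp hl).1

theorem Fu_rn {S : Set Ri} (hS : Fu S) : Fu (rn M '' S) := by
  rintro _ ⟨x, hx, rfl⟩ _ ⟨y, hy, rfl⟩ h
  have : x = y := hS x hx y hy h
  rw [this]

theorem Gd_rn {S : Set Ri} (hg : Gd S) (hi : ∀ x ∈ S, Set.InjOn (ap (M x)) (labR x)) :
    Gd (rn M '' S) := by
  rintro _ ⟨x, hx, rfl⟩ v hv l
  rw [labR_rn, Finset.mem_image] at hv
  obtain ⟨v, hv, rfl⟩ := hv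
  rw [odR_rn M (hi x hx) hv, labR_rn, List.mem_map, Finset.mem_image]
  constructor
  · rintro ⟨l, hl, rfl⟩
    obtain ⟨h1, h2⟩ := (hg x hx v hv l).mp hl
    exact ⟨⟨l, h1, rfl⟩, fun hc => h2 (hi x hx (Finset.mem_coe.mpr h1) (Finset.mem_coe.mpr hv) hc)⟩
  · rintro ⟨⟨l, hl, rfl⟩, h2⟩
    exact ⟨l, (hg x hx v hv l).mpr ⟨hl, fun hc => h2 (by rw [hc])⟩, rfl⟩

theorem Tw_rn {S : Set Ri} (ht : Tw S) (hi : ∀ x ∈ S, Set.InjOn (ap (M x)) (labR x)) :
    Tw (rn M '' S) := by
  rintro _ ⟨x, hx, rfl⟩ v hv _ ⟨y, hy, rfl⟩ w hw _ ⟨z, hz, rfl⟩ u hu h1 h2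
  rw [labR_rn, Finset.mem_image] at hv hw hu
  obtain ⟨v, hv, rfl⟩ := hv
  obtain ⟨w, hw, rfl⟩ := hw
  obtain ⟨u, hu, rfl⟩ := hu
  rw [numR_rn M (hi x hx) hv, numR_rn M (hi y hy) hw] at h1
  rw [numR_rn M (hi x hx) hv, numR_rn M (hi z hz) hu] at h2
  rcases ht x hx v hv y hy w hw z hz u hu h1 h2 with h | h | h
  · left; rw [Prod.mk.injEq] at h; rw [h.1, h.2]
  · right; left; rw [Prod.mk.injEq] at h; rw [h.1, h.2]
  · right; right; rw [Prod.mk.injEq] at h; rw [h.1, h.2]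

theorem Fn_rn {S : Set Ri} {n : ℕ} (ht : Fn n S)
    (hi : ∀ x ∈ S, Set.InjOn (ap (M x)) (labR x)) : Fn n (rn M '' S) := by
  rintro _ ⟨x, hx, rfl⟩ v hv
  rw [labR_rn, Finset.mem_image] at hv
  obtain ⟨v, hv, rfl⟩ := hv
  rw [numR_rn M (hi x hx) hv]
  exact ht x hx v hv

end rnm

/-- The conditions checked by `prep`. -/
structure Prep (as bs : List ℕ) (cs : List (ℕ × Ri)) (t : Tr) (N : ℕ) : Prop where
  nd : (as ++ bs).Nodup
  ni : (idl cs).Nodup
  la : as.length ≤ 7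
  pa : 0 < as.length
  pb : 0 < bs.length
  nN : N + 16 ≤ 1048576
  fb : cs.map Prod.fst = bs
  re : ∀ q ∈ cs, ∃ r m, t.get q.2.1 = some r ∧ q.2.2 = ren m r
  okl : ∀ q ∈ cs, q.2.2.length = as.length + bs.length - 1 ∧
    ∀ v ∈ as ++ bs, v ≠ q.1 → v ∈ q.2.2.map Prod.fst
  okg : ∀ p ∈ cs, ∀ q ∈ cs, p.1 ≠ q.1 → ∃ d, lkp q.1 p.2.2 = some d ∧ lkp p.1 q.2.2 = some d

theorem cond_false {b c : Bool} (h : cond b c false = true) : b = true ∧ c = true := by
  cases b
  · cases h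
  · exact ⟨rfl, h⟩

theorem prep_sound {as bs : List ℕ} {e p : ℕ} {is : List ℕ} {t : Tr} {N : ℕ}
    {cs : List (ℕ × Ri)} (h : prep as bs e p is t N = some cs) : Prep as bs cs t N := by
  unfold prep at h
  split at h
  · cases h
  · rename_i rp hp
    split at h
    · cases h
    · rename_i cs' hcs
      split at h
      · cases h
      · rename_i hc
        simp only [Option.some.injEq] at h
        subst h
        unfold cond1 at hc
        obtain ⟨h1, hc⟩ := cond_false hc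
        obtain ⟨h2, hc⟩ := cond_false hc
        obtain ⟨h3, hc⟩ := cond_false hc
        obtain ⟨h4, hc⟩ := cond_false hc
        obtain ⟨h5, hc⟩ := cond_false hc
        obtain ⟨h6, hc⟩ := cond_false hc
        obtain ⟨h7, h8⟩ := cond_false hc
        obtain ⟨f1, f2⟩ := fet_spec t rp e p hp bs is cs' hcs
        refine ⟨(nd_iff _).mp h1, (nd_iff _).mp h2, Nat.ble_eq.mp h3, ?_, ?_, Nat.ble_eq.mp h6,
          f1, f2, ?_, ?_⟩
        · exact Nat.ble_eq.mp h4
        · exact Nat.ble_eq.mp h5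
        · intro q hq
          have := (al_iff _ _).mp h7 q hq
          unfold okl at this
          obtain ⟨h9, h10⟩ := cond_false this
          refine ⟨Nat.eq_of_beq_eq_true h9, ?_⟩
          intro v hv hvq
          have h11 := (al_iff _ _).mp h10 v hv
          rw [cbeq, if_neg hvq] at h11
          exact lkp_isSome.mp (Option.isSome_iff_exists.mp h11)
        · intro p hp q hq hpq
          have h9 := (al_iff _ _).mp ((al_iff _ _).mp h8 p hp) q hq
          unfold okg at h9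
          rw [cbeq, if_neg hpq] at h9
          unfold eqd at h9
          split at h9
          · rename_i x y hx hy
            obtain ⟨h10, h11⟩ := cond_false h9
            have : x = y := Prod.ext (Nat.eq_of_beq_eq_true h10) ((leq_iff _ _).mp h11)
            exact ⟨x, hx, by rw [this]; exact hy⟩
          · cases h9

/-- Record of an association list. -/
def cc (l : List (ℕ × Ri)) (b : ℕ) : Ri := (lkp b l).getD (0, [])

theorem cc_mem {l : List (ℕ × Ri)} {b : ℕ} (hb : b ∈ l.map Prod.fst) : (b, cc l b) ∈ l := by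
  obtain ⟨x, hx⟩ := lkp_isSome.mpr hb
  unfold cc
  rw [hx]
  exact lkp_mem hx

theorem cc_eq {l : List (ℕ × Ri)} (hn : (l.map Prod.fst).Nodup) {q : ℕ × Ri} (hq : q ∈ l) :
    cc l q.1 = q.2 := by
  unfold cc
  rw [lkp_of_mem hn (show (q.1, q.2) ∈ l from hq)]; rfl

section prp

variable {as bs : List ℕ} {cs : List (ℕ × Ri)} {t : Tr} {N : ℕ}

theorem Prep.ndb (h : Prep as bs cs t N) : bs.Nodup := (List.nodup_append.mp h.nd).2.1

theorem Prep.nda (h : Prep as bs cs t N) : as.Nodup := (List.nodup_append.mp h.nd).1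

theorem Prep.dj (h : Prep as bs cs t N) {v : ℕ} (h1 : v ∈ as) (h2 : v ∈ bs) : False :=
  (List.nodup_append.mp h.nd).2.2 v h1 v h2 rfl

theorem Prep.mem (h : Prep as bs cs t N) {b : ℕ} (hb : b ∈ bs) : (b, cc cs b) ∈ cs :=
  cc_mem (by rw [h.fb]; exact hb)

theorem Prep.ids (h : Prep as bs cs t N) {b b' : ℕ} (hb : b ∈ bs) (hb' : b' ∈ bs)
    (he : (cc cs b).1 = (cc cs b').1) : b = b' := by
  have h1 := h.mem hb
  have h2 := h.mem hb'
  have hn := h.ni
  rw [idl_eq] at hn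
  have := List.inj_on_of_nodup_map hn h1 h2 he
  exact congrArg Prod.fst this

theorem Prep.idl_iff (h : Prep as bs cs t N) (i : ℕ) : i ∈ idl cs ↔ ∃ b ∈ bs, i = (cc cs b).1 := by
  rw [idl_eq, List.mem_map]
  constructor
  · rintro ⟨q, hq, rfl⟩
    refine ⟨q.1, ?_, ?_⟩
    · rw [← h.fb]; exact List.mem_map.mpr ⟨q, hq, rfl⟩
    · rw [cc_eq (by rw [h.fb]; exact h.ndb) hq]
  · rintro ⟨b, hb, rfl⟩
    exact ⟨_, h.mem hb, rfl⟩

theorem Prep.lab (h : Prep as bs cs t N) {b : ℕ} (hb : b ∈ bs) :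
    labR (cc cs b) = (as.toFinset ∪ bs.toFinset).erase b ∧ ((cc cs b).2.map Prod.fst).Nodup := by
  obtain ⟨h1, h2⟩ := h.okl _ (h.mem hb)
  simp only at h1 h2
  have hs : (as.toFinset ∪ bs.toFinset).erase b ⊆ labR (cc cs b) := by
    intro v hv
    rw [Finset.mem_erase, Finset.mem_union, List.mem_toFinset, List.mem_toFinset] at hv
    exact (mem_labR _ _).mpr (h2 v (List.mem_append.mpr hv.2) hv.1)
  have hcard : ((as.toFinset ∪ bs.toFinset).erase b).card = as.length + bs.length - 1 := by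
    rw [Finset.card_erase_of_mem (Finset.mem_union_right _ (List.mem_toFinset.mpr hb))]
    rw [← List.toFinset_append, List.toFinset_card_of_nodup h.nd, List.length_append]
  have hle : (labR (cc cs b)).card ≤ ((as.toFinset ∪ bs.toFinset).erase b).card := by
    rw [hcard, ← h1]
    refine (List.toFinset_card_le _).trans ?_
    rw [List.length_map]
  have heq := Finset.eq_of_subset_of_card_le hs hle
  refine ⟨heq.symm, ?_⟩
  have h3 : (labR (cc cs b)).card = ((cc cs b).2.map Prod.fst).length := by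
    rw [← heq, hcard, List.length_map, h1]
  unfold labR at h3
  rw [List.card_toFinset] at h3
  have h4 : ((cc cs b).2.map Prod.fst).dedup = (cc cs b).2.map Prod.fst :=
    (List.dedup_sublist _).eq_of_length h3
  exact List.dedup_eq_self.mp h4

theorem Prep.exM (h : Prep as bs cs t N) : ∃ M : Ri → List (ℕ × ℕ),
    (∀ x ∈ St t, x.1 ∉ idl cs → M x = []) ∧
    (∀ x ∈ St t, ∀ b ∈ bs, x.1 = (cc cs b).1 → rn M x = cc cs b) ∧
    (∀ x ∈ St t, Set.InjOn (ap (M x)) (labR x)) := by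
  classical
  have key : ∀ x : Ri, ∃ m : List (ℕ × ℕ), x ∈ St t → (x.1 ∉ idl cs → m = []) ∧
      (∀ b ∈ bs, x.1 = (cc cs b).1 → (x.1, ren m x.2) = cc cs b) ∧
      Set.InjOn (ap m) (labR x) := by
    intro x
    by_cases hx : x ∈ St t
    · by_cases hi : x.1 ∈ idl cs
      · obtain ⟨b, hb, hxb⟩ := (h.idl_iff _).mp hi
        obtain ⟨r, m, h1, h2⟩ := h.re _ (h.mem hb)
        simp only at h1 h2
        have hxr : x.2 = r := by
          have : t.get x.1 = some x.2 := hx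
          rw [hxb, h1] at this
          exact (Option.some.inj this).symm
        refine ⟨m, fun _ => ⟨fun hc => absurd hi hc, ?_, ?_⟩⟩
        · intro b' hb' hxb'
          have hbb : b = b' := h.ids hb hb' (hxb.symm.trans hxb')
          subst hbb
          exact Prod.ext hxb (by rw [hxr]; exact h2.symm)
        · have hn := (h.lab hb).2
          rw [h2, ren_fst] at hn
          intro a ha c hc hac
          rw [Finset.mem_coe, mem_labR, hxr] at ha hc
          exact List.inj_on_of_nodup_map hn ha hc hac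
      · refine ⟨[], fun _ => ⟨fun _ => rfl, ?_, ?_⟩⟩
        · intro b hb hxb
          exact absurd ((h.idl_iff _).mpr ⟨b, hb, hxb⟩) hi
        · intro a _ c _ hac
          exact hac
    · exact ⟨[], fun hc => absurd hc hx⟩
  choose M hM using key
  exact ⟨M, fun x hx => (hM x hx).1, fun x hx b hb hxb => (hM x hx).2.1 b hb hxb,
    fun x hx => (hM x hx).2.2⟩

end prp

end Fl49
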