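import Pool.Agent.Lib_MP_55d5ef_fl.Gen

/-!
Isomorphisms of gluings (different label types and record types, renumbered facets).
-/

set_option linter.unusedSectionVars false

namespace Fl49

open Finset

/-- Isomorphism of gluings. -/
structure Iso {V V' : Type} [DecidableEq V] [DecidableEq V'] {ρ ρ' : Type}
    (lab : ρ → Finset V) (num : ρ → V → ℕ) (od : ρ → V → List V)
    (lab' : ρ' → Finset V') (num' : ρ' → V' → ℕ) (od' : ρ' → V' → List V')
    (φ : ρ → ρ') (ψ : ρ' → ρ) (f : ρ → V → V') (g : ρ' → V' → V)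
    (S : Set ρ) (S' : Set ρ') : Prop where
  mem : ∀ i ∈ S, φ i ∈ S'
  mem' : ∀ j ∈ S', ψ j ∈ S
  inv : ∀ i ∈ S, ψ (φ i) = i
  inv' : ∀ j ∈ S', φ (ψ j) = j
  fm : ∀ i ∈ S, ∀ v ∈ lab i, f i v ∈ lab' (φ i)
  gm : ∀ j ∈ S', ∀ w ∈ lab' j, g j w ∈ lab (ψ j)
  gf : ∀ i ∈ S, ∀ v ∈ lab i, g (φ i) (f i v) = v
  fg : ∀ j ∈ S', ∀ w ∈ lab' j, f (ψ j) (g j w) = w
  nf : ∀ i ∈ S, ∀ v ∈ lab i, ∀ j ∈ S, ∀ w ∈ lab j,
    (num' (φ i) (f i v) = num' (φ j) (f j w) ↔ num i v = num j w)
  og : ∀ i ∈ S, ∀ v ∈ lab i, ∀ j ∈ S, ∀ w ∈ lab j, num i v = num j w → ∀ x y : V → ℝ,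
    ((od' (φ i) (f i v)).map (fun u => x (g (φ i) u))
      = (od' (φ j) (f j w)).map (fun u => y (g (φ j) u)) ↔ (od i v).map x = (od j w).map y)
  ol : ∀ i ∈ S, ∀ v ∈ lab i, ∀ l ∈ od i v, l ∈ lab i
  ol' : ∀ j ∈ S', ∀ w ∈ lab' j, ∀ l ∈ od' j w, l ∈ lab' j

variable {V V' : Type} [DecidableEq V] [DecidableEq V'] {ρ ρ' : Type}
variable {lab : ρ → Finset V} {num : ρ → V → ℕ} {od : ρ → V → List V}
variable {lab' : ρ' → Finset V'} {num' : ρ' → V' → ℕ} {od' : ρ' → V' → List V'}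
variable {φ : ρ → ρ'} {ψ : ρ' → ρ} {f : ρ → V → V'} {g : ρ' → V' → V}
variable {S : Set ρ} {S' : Set ρ'}

theorem Iso.symm (h : Iso lab num od lab' num' od' φ ψ f g S S') :
    Iso lab' num' od' lab num od ψ φ g f S' S where
  mem := h.mem'
  mem' := h.mem
  inv := h.inv'
  inv' := h.inv
  fm := h.gm
  gm := h.fm
  gf := h.fg
  fg := h.gf
  nf := fun i hi v hv j hj w hw => by
    have := h.nf (ψ i) (h.mem' i hi) (g i v) (h.gm i hi v hv) (ψ j) (h.mem' j hj) (g j w)
      (h.gm j hj w hw)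
    rw [h.fg i hi v hv, h.fg j hj w hw, h.inv' i hi, h.inv' j hj] at this
    exact this.symm
  og := fun i hi v hv j hj w hw hn x y => by
    have hfi : f (ψ i) (g i v) = v := h.fg i hi v hv
    have hfj : f (ψ j) (g j w) = w := h.fg j hj w hw
    have hnn : num (ψ i) (g i v) = num (ψ j) (g j w) := by
      have := h.nf (ψ i) (h.mem' i hi) (g i v) (h.gm i hi v hv) (ψ j) (h.mem' j hj) (g j w)
        (h.gm j hj w hw)
      rw [hfi, hfj, h.inv' i hi, h.inv' j hj] at this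
      exact this.mp hn
    have := h.og (ψ i) (h.mem' i hi) (g i v) (h.gm i hi v hv) (ψ j) (h.mem' j hj) (g j w)
      (h.gm j hj w hw) hnn (fun u => x (f (ψ i) u)) (fun u => y (f (ψ j) u))
    rw [h.inv' i hi, h.inv' j hj, hfi, hfj] at this
    have e1 : (od' i v).map (fun u => x (f (ψ i) (g i u))) = (od' i v).map x :=
      List.map_congr_left (fun u hu => by rw [h.fg i hi u (h.ol' i hi v hv u hu)])
    have e2 : (od' j w).map (fun u => y (f (ψ j) (g j u))) = (od' j w).map y :=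
      List.map_congr_left (fun u hu => by rw [h.fg j hj u (h.ol' j hj w hw u hu)])
    rw [← e1, ← e2]
    exact this.symm
  ol := h.ol'
  ol' := h.ol

/-- Isomorphisms which respect the orderings exactly. -/
theorem Iso.of_of (mem : ∀ i ∈ S, φ i ∈ S') (mem' : ∀ j ∈ S', ψ j ∈ S)
    (inv : ∀ i ∈ S, ψ (φ i) = i) (inv' : ∀ j ∈ S', φ (ψ j) = j)
    (fm : ∀ i ∈ S, ∀ v ∈ lab i, f i v ∈ lab' (φ i))
    (gm : ∀ j ∈ S', ∀ w ∈ lab' j, g j w ∈ lab (ψ j))
    (gf : ∀ i ∈ S, ∀ v ∈ lab i, g (φ i) (f i v) = v)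
    (fg : ∀ j ∈ S', ∀ w ∈ lab' j, f (ψ j) (g j w) = w)
    (nf : ∀ i ∈ S, ∀ v ∈ lab i, ∀ j ∈ S, ∀ w ∈ lab j,
      (num' (φ i) (f i v) = num' (φ j) (f j w) ↔ num i v = num j w))
    (of : ∀ i ∈ S, ∀ v ∈ lab i, od' (φ i) (f i v) = (od i v).map (f i))
    (ol : ∀ i ∈ S, ∀ v ∈ lab i, ∀ l ∈ od i v, l ∈ lab i) :
    Iso lab num od lab' num' od' φ ψ f g S S' := by
  refine ⟨mem, mem', inv, inv', fm, gm, gf, fg, nf, ?_, ol, ?_⟩
  · intro i hi v hv j hj w hw _ x y
    have e1 : (od' (φ i) (f i v)).map (fun u => x (g (φ i) u)) = (od i v).map x := by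
      rw [of i hi v hv, List.map_map]
      exact List.map_congr_left (fun u hu => by
        simp only [Function.comp_apply]; rw [gf i hi u (ol i hi v hv u hu)])
    have e2 : (od' (φ j) (f j w)).map (fun u => y (g (φ j) u)) = (od j w).map y := by
      rw [of j hj w hw, List.map_map]
      exact List.map_congr_left (fun u hu => by
        simp only [Function.comp_apply]; rw [gf j hj u (ol j hj w hw u hu)])
    rw [e1, e2]
  · intro j hj w hw l hl
    have := of (ψ j) (mem' j hj) (g j w) (gm j hj w hw)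
    rw [fg j hj w hw, inv' j hj] at this
    rw [this] at hl
    obtain ⟨l0, hl0, rfl⟩ := List.mem_map.mp hl
    have h2 := fm (ψ j) (mem' j hj) l0 (ol (ψ j) (mem' j hj) (g j w) (gm j hj w hw) l0 hl0)
    rw [inv' j hj] at h2
    exact h2

/-- Coordinates after renaming. -/
def trs (g : V' → V) (s : Finset V') (x : V → ℝ) : V' → ℝ := fun w => if w ∈ s then x (g w) else 0

theorem Iso.trs_mem (h : Iso lab num od lab' num' od' φ ψ f g S S') {i : ρ} (hi : i ∈ S)
    {x : V → ℝ} (hx : x ∈ Dl (lab i)) :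
    trs (g (φ i)) (lab' (φ i)) x ∈ Dl (lab' (φ i)) := by
  obtain ⟨h0, h1, h2⟩ := hx
  refine ⟨fun v => ?_, fun v hv => by simp [trs, hv], ?_⟩
  · unfold trs
    split_ifs
    · exact h0 _
    · exact le_refl _
  · rw [← h2]
    refine Finset.sum_nbij' (i := g (φ i)) (j := f i) ?_ (h.fm i hi) ?_ (h.gf i hi) ?_
    · intro w hw
      have := h.gm (φ i) (h.mem i hi) w hw
      rwa [h.inv i hi] at this
    · intro w hw
      have := h.fg (φ i) (h.mem i hi) w hw
      rwa [h.inv i hi] at this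
    · intro v hv
      simp [trs, hv]

theorem Iso.trs_trs (h : Iso lab num od lab' num' od' φ ψ f g S S') {i : ρ} (hi : i ∈ S)
    {x : V → ℝ} (hx : x ∈ Dl (lab i)) : trs (f i) (lab i) (trs (g (φ i)) (lab' (φ i)) x) = x := by
  funext v
  unfold trs
  by_cases hv : v ∈ lab i
  · simp only [hv, if_true, h.fm i hi v hv, h.gf i hi v hv]
  · simp only [hv, if_false]
    exact (hx.2.1 v hv).symm

/-- The isomorphism on the disjoint union. -/
noncomputable def Iso.iz (h : Iso lab num od lab' num' od' φ ψ f g S S') (p : Z lab S) :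
    X lab' num' od' S' :=
  pt lab' num' od' (φ p.1) (h.mem _ p.1.2) (trs (g (φ p.1)) (lab' (φ p.1)) p.2)
    (h.trs_mem p.1.2 p.2.2)

theorem Iso.map_trs (h : Iso lab num od lab' num' od' φ ψ f g S S') {i : ρ} (hi : i ∈ S)
    {v : V} (hv : v ∈ lab i) (x : V → ℝ) :
    (od' (φ i) (f i v)).map (trs (g (φ i)) (lab' (φ i)) x)
      = (od' (φ i) (f i v)).map (fun u => x (g (φ i) u)) := by
  refine List.map_congr_left (fun l hl => ?_)
  have hl' := h.ol' (φ i) (h.mem i hi) (f i v) (h.fm i hi v hv) l hl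
  simp [trs, hl']

theorem Iso.trs_f (h : Iso lab num od lab' num' od' φ ψ f g S S') {i : ρ} (hi : i ∈ S)
    {v : V} (hv : v ∈ lab i) (x : V → ℝ) :
    trs (g (φ i)) (lab' (φ i)) x (f i v) = x v := by
  simp [trs, h.fm i hi v hv, h.gf i hi v hv]

theorem Iso.iz_rel (h : Iso lab num od lab' num' od' φ ψ f g S S') (p q : Z lab S)
    (hr : Rg lab num od S p q) : h.iz p = h.iz q := by
  obtain ⟨⟨j, hj⟩, ⟨x, hx⟩⟩ := p
  obtain ⟨⟨k, hk⟩, ⟨y, hy⟩⟩ := q
  obtain ⟨v, hv, w, hw, hf, hxv, hyw, ho⟩ := hr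
  simp only at hv hw hf hxv hyw ho
  refine pt_glue (v := f j v) (w := f k w) _ _ _ _ (h.fm j hj v hv) (h.fm k hk w hw)
    ((h.nf j hj v hv k hk w hw).mpr hf) ?_ ?_ ?_
  · exact (h.trs_f hj hv x).trans hxv
  · exact (h.trs_f hk hw y).trans hyw
  · rw [h.map_trs hj hv, h.map_trs hk hw]
    exact (h.og j hj v hv k hk w hw hf x y).mpr ho

theorem cont_trs (g : V' → V) (s : Finset V') : Continuous (trs g s) := by
  refine continuous_pi (fun v => ?_)
  unfold trs
  by_cases h : v ∈ s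
  · simp only [h, if_true]; exact continuous_apply _
  · simp only [h, if_false]; exact continuous_const

theorem Iso.iz_cont (h : Iso lab num od lab' num' od' φ ψ f g S S') : Continuous h.iz := by
  refine continuous_sigma_iff.mpr (fun j => ?_)
  obtain ⟨j, hj⟩ := j
  have : (fun x : Dl (lab j) => h.iz ⟨⟨j, hj⟩, x⟩) = fun x : Dl (lab j) =>
      Quot.mk (Rg lab' num' od' S') (⟨⟨φ j, h.mem j hj⟩,
        ⟨trs (g (φ j)) (lab' (φ j)) x, h.trs_mem hj x.2⟩⟩ : Z lab' S') := rfl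
  change Continuous (fun x : Dl (lab j) => h.iz ⟨⟨j, hj⟩, x⟩)
  rw [this]
  refine continuous_quot_mk.comp ((continuous_sigmaMk (σ := fun i : S' => Dl (lab' i))
    (i := ⟨φ j, h.mem j hj⟩)).comp ?_)
  exact ((cont_trs (g (φ j)) (lab' (φ j))).comp continuous_subtype_val).subtype_mk _

/-- The isomorphism on the realisation. -/
noncomputable def Iso.ix (h : Iso lab num od lab' num' od' φ ψ f g S S') :
    X lab num od S → X lab' num' od' S' :=
  Quot.lift h.iz h.iz_rel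

theorem Iso.ix_pt (h : Iso lab num od lab' num' od' φ ψ f g S S') {i : ρ} (hi : i ∈ S)
    {x : V → ℝ} (hx : x ∈ Dl (lab i)) :
    h.ix (pt lab num od i hi x hx) = pt lab' num' od' (φ i) (h.mem i hi)
      (trs (g (φ i)) (lab' (φ i)) x) (h.trs_mem hi hx) := rfl

theorem pt_congr2 {S : Set ρ} {i j : ρ} (hij : i = j) (hi : i ∈ S) (hj : j ∈ S) {x y : V → ℝ}
    (hx : x ∈ Dl (lab i)) (hy : y ∈ Dl (lab j)) (h : x = y) :
    pt lab num od i hi x hx = pt lab num od j hj y hy := by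
  subst hij; subst h; rfl

theorem Iso.linv (h : Iso lab num od lab' num' od' φ ψ f g S S') (x : X lab num od S) :
    h.symm.ix (h.ix x) = x := by
  induction x using Quot.ind with
  | mk p =>
    obtain ⟨⟨i, hi⟩, ⟨x, hx⟩⟩ := p
    change h.symm.ix (pt lab' num' od' (φ i) (h.mem i hi)
      (trs (g (φ i)) (lab' (φ i)) x) (h.trs_mem hi hx)) = pt lab num od i hi x hx
    rw [h.symm.ix_pt]
    refine pt_congr2 (h.inv i hi) _ _ _ _ ?_
    rw [h.inv i hi]
    exact h.trs_trs hi hx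

/-- ISOMORPHISM LEMMA. -/
noncomputable def Iso.homeo (h : Iso lab num od lab' num' od' φ ψ f g S S') :
    X lab num od S ≃ₜ X lab' num' od' S' where
  toFun := h.ix
  invFun := h.symm.ix
  left_inv := h.linv
  right_inv := fun y => h.symm.linv y
  continuous_toFun := continuous_quot_lift _ h.iz_cont
  continuous_invFun := continuous_quot_lift _ h.symm.iz_cont

/-- Vertex of a simplex. -/
def vx (v : V) : V → ℝ := fun w => if w = v then 1 else 0

theorem vx_mem {s : Finset V} {v : V} (hv : v ∈ s) : vx v ∈ Dl s := by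
  refine ⟨fun w => ?_, fun w hw => ?_, ?_⟩
  · unfold vx; split_ifs <;> norm_num
  · unfold vx; rw [if_neg]; rintro rfl; exact hw hv
  · unfold vx; rw [Finset.sum_ite_eq' s v]; simp [hv]

theorem Iso.ix_vx (h : Iso lab num od lab' num' od' φ ψ f g S S') {i : ρ} (hi : i ∈ S)
    {v : V} (hv : v ∈ lab i) :
    h.homeo (pt lab num od i hi (vx v) (vx_mem hv)) = pt lab' num' od' (φ i) (h.mem i hi)
      (vx (f i v)) (vx_mem (h.fm i hi v hv)) := by
  refine (h.ix_pt hi (vx_mem hv)).trans (pt_congr _ _ _ ?_)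
  funext w
  unfold trs vx
  by_cases hw : w ∈ lab' (φ i)
  · simp only [hw, if_true]
    by_cases hwv : w = f i v
    · simp [hwv, h.gf i hi v hv]
    · rw [if_neg hwv, if_neg]
      intro hc
      apply hwv
      have h1 := h.fg (φ i) (h.mem i hi) w hw
      rw [h.inv i hi, hc] at h1
      exact h1.symm
  · simp only [hw, if_false]
    rw [if_neg]
    intro hc
    exact hw (hc ▸ h.fm i hi v hv)

variable {a b : Finset V} {c c' : V → ρ} {S₁ S₂ : Set ρ}

/-- A flip fixes the vertices (old simplex outside of the flip). -/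
theorem GFlip.fx_out (h : GFlip lab num od a b c c' S₁ S₂) {i : ρ} (hi : i ∈ S₁)
    (hc : ¬ ∃ v ∈ b, i = c v) {x : V → ℝ} (hx : x ∈ Dl (lab i)) :
    h.homeo (pt lab num od i hi x hx)
      = pt lab num od i ((h.out _ hi).resolve_left hc).1 x hx := h.fz_out hi hc hx

/-- A flip fixes the vertices (old simplex inside of the flip). -/
theorem GFlip.fx_vx (h : GFlip lab num od a b c c' S₁ S₂) {w v u : V} (hw : w ∈ b)
    (hv : v ∈ lab (c w)) (hu : u ∈ a) (huv : u ≠ v) :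
    ∃ hvu : v ∈ lab (c' u),
    h.homeo (pt lab num od (c w) (h.mem w hw) (vx v) (vx_mem hv))
      = pt lab num od (c' u) (h.mem' u hu) (vx v) (vx_mem hvu) := by
  have hxu : (vx v : V → ℝ) u = 0 := by unfold vx; rw [if_neg huv]
  obtain ⟨hm, h1, h2, h3⟩ := h.bdry hw hu (h.mem w hw) (vx_mem hv) hxu
  have hvu : v ∈ lab (c' u) := by
    by_contra hc
    have := hm.2.1 v hc
    simp [vx] at this
  exact ⟨hvu, h1⟩

end Fl49
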