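import Pool.Agent.Lib_MP_55d5ef_fl.Sph
import Pool.Agent.Lib_MP_55d5ef_fl.Iso

/-!
The executable checker for a list of flips of a generalised triangulation (definitions).
-/

namespace Fl49

/-- An entry of a record: label, number of the opposite facet, ordering of this facet. -/
abbrev En : Type := ℕ × (ℕ × List ℕ)

/-- A record: list of entries. -/
abbrev Rc : Type := List En

/-- Tree with keys in `ℕ`. -/
inductive Tr : Type where
  | e : Tr
  | n : Option Rc → Tr → Tr → Tr

namespace Tr

/-- Root value. -/
def v : Tr → Option Rc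
  | e => none
  | n v _ _ => v

/-- Left subtree. -/
def l : Tr → Tr
  | e => e
  | n _ l _ => l

/-- Right subtree. -/
def r : Tr → Tr
  | e => e
  | n _ _ r => r

/-- Value at key `k`. -/
def get : Tr → ℕ → Option Rc
  | e, _ => none
  | n v l r, k => cond (Nat.beq k 0) v
      (cond (Nat.beq (k % 2) 1) (get l (k / 2)) (get r (k / 2 - 1)))

/-- Change of the value at key `k` (correct if `k + 1 < 2 ^ fuel`). -/
def set : ℕ → Tr → ℕ → Option Rc → Tr
  | 0, t, _, _ => t
  | f + 1, t, k, x => cond (Nat.beq k 0) (n x t.l t.r)
      (cond (Nat.beq (k % 2) 1) (n t.v (set f t.l (k / 2) x) t.r)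
        (n t.v t.l (set f t.r (k / 2 - 1) x)))

/-- Number of keys with a value. -/
def cnt : Tr → ℕ
  | e => 0
  | n v l r => cond v.isSome (cnt l + cnt r + 1) (cnt l + cnt r)

end Tr

/-- Lookup in an association list. -/
def lkp {α : Type} (v : ℕ) : List (ℕ × α) → Option α
  | [] => none
  | p :: l => cond (Nat.beq p.1 v) (some p.2) (lkp v l)

/-- `v` in list. -/
def el (v : ℕ) : List ℕ → Bool
  | [] => false
  | a :: l => cond (Nat.beq a v) true (el v l)

/-- No repetitions. -/
def nd : List ℕ → Bool
  | [] => true
  | a :: l => cond (el a l) false (nd l)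

/-- All members satisfy `p`. -/
def al' {α : Type} (p : α → Bool) : List α → Bool
  | [] => true
  | a :: l => cond (p a) (al' p l) false

/-- Equality of lists of numbers. -/
def leq : List ℕ → List ℕ → Bool
  | [], [] => true
  | a :: l, b :: k => cond (Nat.beq a b) (leq l k) false
  | _, _ => false

/-- Renaming function given by an association list (identity elsewhere). -/
def ap (m : List (ℕ × ℕ)) (v : ℕ) : ℕ := (lkp v m).getD v

/-- Renaming of a list of labels. -/
def apl (m : List (ℕ × ℕ)) : List ℕ → List ℕ
  | [] => []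
  | v :: l => ap m v :: apl m l

/-- Renaming of a record. -/
def ren (m : List (ℕ × ℕ)) : Rc → Rc
  | [] => []
  | p :: l => (ap m p.1, (p.2.1, apl m p.2.2)) :: ren m l

/-- Entry with facet number `f`: label and ordering. -/
def fnd (f : ℕ) : Rc → Option (ℕ × List ℕ)
  | [] => none
  | p :: l => cond (Nat.beq p.2.1 f) (some (p.1, p.2.2)) (fnd f l)

/-- Zip. -/
def zp : List ℕ → List ℕ → List (ℕ × ℕ)
  | a :: l, b :: k => (a, b) :: zp l k
  | _, _ => []

/-- The renaming for the neighbour `r` of `rp` across the facet opposite `b`. -/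
def mb (rp : Rc) (e b : ℕ) (r : Rc) : List (ℕ × ℕ) :=
  match lkp b rp with
  | none => []
  | some d => match fnd d.1 r with
    | none => []
    | some w => (w.1, e) :: zp w.2 d.2

/-- Association list label -> (id, renamed record) of the old simplices. -/
def fet (t : Tr) (rp : Rc) (e p : ℕ) : List ℕ → List ℕ → Option (List (ℕ × (ℕ × Rc)))
  | [], _ => some []
  | b :: bs, is =>
    match Nat.beq b e with
    | true => match fet t rp e p bs is with
      | none => none
      | some l => some ((b, (p, rp)) :: l)
    | false => match is with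
      | [] => none
      | i :: is' => match t.get i with
        | none => none
        | some r => match fet t rp e p bs is' with
          | none => none
          | some l => some ((b, (i, ren (mb rp e b r) r)) :: l)

/-- Number of the new inner facet between the new simplices at positions `i`, `j`. -/
def cd (N i j : ℕ) : ℕ := cond (Nat.ble i j) (8 * (N + i) + j) (8 * (N + j) + i)

/-- Labels of `l` different from `a` and `b`. -/
def dl (a b : ℕ) : List ℕ → List ℕ
  | [] => []
  | v :: l => cond (Nat.beq v a) (dl a b l) (cond (Nat.beq v b) (dl a b l) (v :: dl a b l))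

/-- Boundary part of a new record: `(b, facet of c_b opposite a)`. -/
def nb1 (a : ℕ) : List (ℕ × (ℕ × Rc)) → Rc
  | [] => []
  | p :: l => (p.1, (lkp a p.2.2).getD (0, [])) :: nb1 a l

/-- Inner part of a new record; `k` = position of its missing label `a`, `j` = running
position, `ab` = all labels. -/
def nb2 (N a k : ℕ) (ab : List ℕ) : ℕ → List ℕ → Rc
  | _, [] => []
  | j, v :: l => cond (Nat.beq j k) (nb2 N a k ab (j + 1) l)
      ((v, (cd N k j, dl a v ab)) :: nb2 N a k ab (j + 1) l)

/-- New records as association list label -> (id, record). -/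
def new (N : ℕ) (ab as : List ℕ) (cs : List (ℕ × (ℕ × Rc))) :
    ℕ → List ℕ → List (ℕ × (ℕ × Rc))
  | _, [] => []
  | k, a :: l => (a, (N + k, nb1 a cs ++ nb2 N a k ab 0 as)) :: new N ab as cs (k + 1) l

/-- Fuel for the trees. -/
def fu : ℕ := 20

/-- Remove the old simplices. -/
def rem : List (ℕ × (ℕ × Rc)) → Tr → Tr
  | [], t => t
  | p :: l, t => rem l (t.set fu p.2.1 none)

/-- Insert simplices. -/
def ins : List (ℕ × (ℕ × Rc)) → Tr → Tr
  | [], t => t
  | p :: l, t => ins l (t.set fu p.2.1 (some p.2.2))

/-- The ids of an association list. -/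
def idl : List (ℕ × (ℕ × Rc)) → List ℕ
  | [] => []
  | p :: l => p.2.1 :: idl l

/-- The labels of an association list. -/
def lbl : List (ℕ × (ℕ × Rc)) → List ℕ
  | [] => []
  | p :: l => p.1 :: lbl l

/-- The old record `p = (b, (i, r))` has the right labels. -/
def okl (ab : List ℕ) (m : ℕ) (p : ℕ × (ℕ × Rc)) : Bool :=
  cond (Nat.beq p.2.2.length m)
    (al' (fun v => cond (Nat.beq v p.1) true (lkp v p.2.2).isSome) ab) false

/-- Same facet number and ordering. -/
def eqd (d d' : Option (ℕ × List ℕ)) : Bool :=
  match d, d' with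
  | some x, some y => cond (Nat.beq x.1 y.1) (leq x.2 y.2) false
  | _, _ => false

/-- The inner facets of the old simplices are glued. -/
def okg (p q : ℕ × (ℕ × Rc)) : Bool :=
  cond (Nat.beq p.1 q.1) true (eqd (lkp q.1 p.2.2) (lkp p.1 q.2.2))

/-- Conditions for a flip. -/
def cond1 (as bs : List ℕ) (cs : List (ℕ × (ℕ × Rc))) (N : ℕ) : Bool :=
  cond (nd (as ++ bs)) (cond (nd (idl cs)) (cond (Nat.ble as.length 7)
    (cond (Nat.blt 0 as.length) (cond (Nat.blt 0 bs.length) (cond (Nat.ble (N + 16) 1048576)
    (cond (al' (okl (as ++ bs) (as.length + bs.length - 1)) cs)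
      (al' (fun p => al' (okg p) cs) cs) false) false) false) false) false) false) false

/-- The old simplices of a flip, renamed, with all conditions checked. -/
def prep (as bs : List ℕ) (e p : ℕ) (is : List ℕ) (t : Tr) (N : ℕ) :
    Option (List (ℕ × (ℕ × Rc))) :=
  match t.get p with
  | none => none
  | some rp => match fet t rp e p bs is with
    | none => none
    | some cs => match cond1 as bs cs N with
      | false => none
      | true => some cs

/-- The result of a flip. -/
def fin (as bs : List ℕ) (cs : List (ℕ × (ℕ × Rc))) (t : Tr) (N : ℕ) : Tr :=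
  ins (new N (as ++ bs) as cs 0 as) (rem cs t)

/-- The label in the renamed record `r'` which corresponds to the label `v` of `r`. -/
def mv (v : ℕ) : Rc → Rc → ℕ
  | p :: l, q :: k => cond (Nat.beq p.1 v) q.1 (mv v l k)
  | _, _ => v

/-- Entry with id `i`. -/
def fid (i : ℕ) : List (ℕ × (ℕ × Rc)) → Option Rc
  | [] => none
  | p :: l => cond (Nat.beq p.2.1 i) (some p.2.2) (fid i l)

/-- Position (from `k` on) of the first label different from `v`. -/
def fne (v : ℕ) : ℕ → List ℕ → Option ℕ
  | _, [] => none
  | k, u :: l => cond (Nat.beq u v) (fne v (k + 1) l) (some k)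

/-- The mark (id, label) after a flip. -/
def mark (as : List ℕ) (cs : List (ℕ × (ℕ × Rc))) (t : Tr) (N : ℕ) (i v : ℕ) : Option (ℕ × ℕ) :=
  match fid i cs with
  | none => some (i, v)
  | some r' => match t.get i with
    | none => none
    | some r => match fne (mv v r r') 0 as with
      | none => none
      | some k => some (N + k, mv v r r')

/-- Positions of the bits equal to `c` of `m` among `k, k+1, .., k+f-1`. -/
def bits (c : ℕ) : ℕ → ℕ → ℕ → List ℕ
  | 0, _, _ => []
  | f + 1, k, m => cond (Nat.beq (m % 2) c) (k :: bits c f (k + 1) (m / 2))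
      (bits c f (k + 1) (m / 2))

/-- Digits. -/
def digs (w : ℕ) : ℕ → ℕ → List ℕ
  | 0, _ => []
  | c + 1, n => (n % w) :: digs w c (n / w)

/-- First label of the list which is not a label of the record. -/
def mis (r : Rc) : List ℕ → ℕ
  | [] => 0
  | v :: l => match lkp v r with
    | none => v
    | some _ => mis r l

/-- One coded flip in dimension 4: code = mask of `a` (6 bits), id of `p`, other ids (20 bits
each). -/
def prepc (n : ℕ) (t : Tr) (N : ℕ) : Option (List (ℕ × (ℕ × Rc))) :=
  match t.get (n / 64 % 1048576) with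
  | none => none
  | some rp => prep (bits 1 6 0 (n % 64)) (bits 0 6 0 (n % 64)) (mis rp [0, 1, 2, 3, 4, 5])
      (n / 64 % 1048576) (digs 1048576 5 (n / 67108864)) t N

/-- A list of coded flips. -/
def run : List ℕ → Tr → ℕ → Option (Tr × ℕ)
  | [], t, N => some (t, N)
  | n :: l, t, N => match prepc n t N with
    | none => none
    | some cs => run l (fin (bits 1 6 0 (n % 64)) (bits 0 6 0 (n % 64)) cs t N)
        (N + (bits 1 6 0 (n % 64)).length)

/-- A list of coded flips with a marked vertex. -/
def runM : List ℕ → Tr → ℕ → ℕ × ℕ → Option (Tr × (ℕ × (ℕ × ℕ)))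
  | [], t, N, m => some (t, (N, m))
  | n :: l, t, N, m => match prepc n t N with
    | none => none
    | some cs => match mark (bits 1 6 0 (n % 64)) cs t N m.1 m.2 with
      | none => none
      | some m' => runM l (fin (bits 1 6 0 (n % 64)) (bits 0 6 0 (n % 64)) cs t N)
        (N + (bits 1 6 0 (n % 64)).length) m'

/-- Decoded entry: label 3 bits, ordering 4 * 3 bits, facet number 24 bits. -/
def decE (n : ℕ) : En := (n % 8, (n / 32768 % 16777216, digs 8 4 (n / 8)))

/-- Decoded record with `c` entries of 39 bits. -/
def decR : ℕ → ℕ → Rc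
  | 0, _ => []
  | c + 1, n => decE (n % 549755813888) :: decR c (n / 549755813888)

/-- Decoded list of records with ids (20 bits) and 5 entries. -/
def decI : List ℕ → List (ℕ × Rc)
  | [] => []
  | n :: l => (n % 1048576, decR 5 (n / 1048576)) :: decI l

/-- Unpacked list of numbers below `w` (each entry: number of items + 1024 * items). -/
def unp (w : ℕ) : List ℕ → List ℕ
  | [] => []
  | n :: l => digs w (n % 1024) (n / 1024) ++ unp w l

/-- Insert a list of records with ids. -/
def bld : List (ℕ × Rc) → Tr → Tr
  | [], t => t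
  | p :: l, t => bld l (t.set fu p.1 (some p.2))

/-- All entries of a tree (`A * k + B` for the key `k`). -/
def tl : Tr → ℕ → ℕ → List (ℕ × Rc)
  | Tr.e, _, _ => []
  | Tr.n none l r, A, B => tl l (2 * A) (A + B) ++ tl r (2 * A) (2 * A + B)
  | Tr.n (some x) l r, A, B => (B, x) :: (tl l (2 * A) (A + B) ++ tl r (2 * A) (2 * A + B))

/-- Equality of records. -/
def req : Rc → Rc → Bool
  | [], [] => true
  | p :: l, q :: k => cond (Nat.beq p.1 q.1) (cond (Nat.beq p.2.1 q.2.1)
      (cond (leq p.2.2 q.2.2) (req l k) false) false) false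
  | _, _ => false

/-- Equality of lists of records with ids. -/
def rleq : List (ℕ × Rc) → List (ℕ × Rc) → Bool
  | [], [] => true
  | p :: l, q :: k => cond (Nat.beq p.1 q.1) (cond (req p.2 q.2) (rleq l k) false) false
  | _, _ => false

/-- The record is correct: the orderings contain exactly the other labels, numbers below `B`. -/
def chkR (B : ℕ) (r : Rc) : Bool :=
  al' (fun p => cond (Nat.blt p.2.1 B)
    (cond (al' (fun l => cond (Nat.beq l p.1) false (lkp l r).isSome) p.2.2)
      (al' (fun q : En => cond (Nat.beq q.1 p.1) true (el q.1 p.2.2)) r) false) false) r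

/-- Record the occurrences of the facets of the record `i`. -/
def ado (i : ℕ) : Rc → Tr → Option Tr
  | [], T => some T
  | p :: r, T => match T.get p.2.1 with
    | none => ado i r (T.set fu p.2.1 (some [(i, (p.1, []))]))
    | some [x] => ado i r (T.set fu p.2.1 (some [x, (i, (p.1, []))]))
    | some _ => none

/-- Record all occurrences. -/
def adl : List (ℕ × Rc) → Tr → Option Tr
  | [], T => some T
  | x :: l, T => match ado x.1 x.2 T with
    | none => none
    | some T' => adl l T'

/-- The invariant of a list of records. -/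
def okI (L : List (ℕ × Rc)) (N : ℕ) : Bool :=
  cond (Nat.ble (8 * N) 1048570) (cond (al' (fun x : ℕ × Rc => Nat.blt x.1 N) L)
    (cond (al' (fun x : ℕ × Rc => chkR (8 * N) x.2) L) (adl L Tr.e).isSome false) false) false

/-- The list is the list of all entries of its tree. -/
def bldOk (L : List (ℕ × Rc)) : Bool := rleq (tl (bld L Tr.e) 1 0) L

/-- Check of a part of a run. -/
def part (L : List (ℕ × Rc)) (N : ℕ) (codes : List ℕ) (L' : List (ℕ × Rc)) (N' : ℕ) : Bool :=
  match run codes (bld L Tr.e) N with
  | none => false
  | some r => cond (Nat.beq r.2 N') (rleq (tl r.1 1 0) L') false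

/-- Check of a part of a run with mark. -/
def partM (L : List (ℕ × Rc)) (N : ℕ) (m : ℕ × ℕ) (codes : List ℕ) (L' : List (ℕ × Rc)) (N' : ℕ)
    (m' : ℕ × ℕ) : Bool :=
  match runM codes (bld L Tr.e) N m with
  | none => false
  | some r => cond (Nat.beq r.2.1 N') (cond (Nat.beq r.2.2.1 m'.1) (cond (Nat.beq r.2.2.2 m'.2)
      (rleq (tl r.1 1 0) L') false) false) false

end Fl49
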