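import Pool.Agent.Lib_MP_55d5ef_fl.Ich

/-!
The end of a run: the boundary of the simplex with vertices `0, .., 5`.
-/

set_option linter.unusedSectionVars false

namespace Fl49

open Finset

/-- Record `v` of the boundary of the simplex. -/
def c6 (v : ℕ) : Ri :=
  (v, ((List.range 6).filter (fun w => w ≠ v)).map (fun w =>
    (w, (8 * min v w + max v w, (List.range 6).filter (fun u => u ≠ v ∧ u ≠ w)))))

/-- The boundary of the simplex. -/
def canon : List Ri := (List.range 6).map c6

theorem full_canon : Full labR numR odR (Finset.range 6) c6 (sL canon) := by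
  refine ⟨?_, ?_, ?_, ?_, ?_, ?_⟩
  · decide +kernel
  · intro v hv
    exact List.mem_map.mpr ⟨v, List.mem_range.mpr (Finset.mem_range.mp hv), rfl⟩
  · intro i hi
    obtain ⟨v, hv, rfl⟩ := List.mem_map.mp hi
    exact ⟨v, Finset.mem_range.mpr (List.mem_range.mp hv), rfl⟩
  · decide +kernel
  · decide +kernel
  · have h : ∀ v ∈ Finset.range 6, ∀ w ∈ Finset.range 6, v ≠ w → ∀ z ∈ Finset.range 6,
        ∀ u ∈ labR (c6 z), numR (c6 z) u = numR (c6 v) w →
        (z = v ∧ u = w) ∨ (z = w ∧ u = v) := by decide +kernel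
    intro v hv w hw hvw i hi u hu hn
    obtain ⟨z, hz, rfl⟩ := List.mem_map.mp hi
    rcases h v hv w hw hvw z (Finset.mem_range.mpr (List.mem_range.mp hz)) u hu hn with h1 | h1
    · exact Or.inl ⟨by rw [h1.1], h1.2⟩
    · exact Or.inr ⟨by rw [h1.1], h1.2⟩

theorem range6 : (Finset.univ.image (fun i : Fin 6 => (i : ℕ))) = Finset.range 6 := by
  decide +kernel

/-- The boundary of the simplex with vertices `0, .., 5` is the unit sphere. -/
noncomputable def bd6 : Bd (Finset.range 6) ≃ₜ Metric.sphere (0 : EuclideanSpace ℝ (Fin 5)) 1 :=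
  (Homeomorph.setCongr (by rw [range6])).trans
    (bdSphere (fun i : Fin 6 => (i : ℕ)) Fin.val_injective)

/-- A chain of moves ending at the boundary of the simplex. -/
theorem sphere_of_ch {S : Set Ri} (h : Ch (S, none) (sL canon, none)) :
    Nonempty (X labR numR odR S ≃ₜ Metric.sphere (0 : EuclideanSpace ℝ (Fin 5)) 1) := by
  obtain ⟨e, _⟩ := h.homeo (by intro p hp; cases hp)
  exact ⟨(e.trans full_canon.homeo).trans bd6⟩

end Fl49
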