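import Mathlib

/-!
Bistellar flips and geometric realisations, Mathlib only.

`Rl F` is the geometric realisation of the simplicial complex generated by a set `F` of finite
sets of vertices, as a subspace of `V → ℝ`.
-/

set_option linter.unusedSectionVars false

namespace Fl49

open Finset

variable {V : Type} [Fintype V] [DecidableEq V]

/-- Geometric realisation of the complex generated by `F`: points with nonnegative barycentric
coordinates of sum one which vanish outside some member of `F`. -/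
def Rl (F : Set (Finset V)) : Set (V → ℝ) :=
  {x | (∀ v, 0 ≤ x v) ∧ ∑ v, x v = 1 ∧ ∃ s ∈ F, ∀ v, v ∉ s → x v = 0}

/-- Smallest coordinate of `x` over the (nonempty) set `a`. -/
noncomputable def mn (a : Finset V) (ha : a.Nonempty) (x : V → ℝ) : ℝ := a.inf' ha x

/-- `F'` arises from `F` by the bistellar flip `(a, b)`. -/
structure IsFlip (a b : Finset V) (F F' : Set (Finset V)) : Prop where
  na : a.Nonempty
  nb : b.Nonempty
  dj : Disjoint a b
  h1 : ∀ s ∈ F, (s ∈ F' ∧ ¬ a ⊆ s ∧ ¬ b ⊆ s) ∨ ∃ v ∈ b, s = (a ∪ b).erase v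
  h2 : ∀ s ∈ F', (s ∈ F ∧ ¬ a ⊆ s ∧ ¬ b ⊆ s) ∨ ∃ v ∈ a, s = (a ∪ b).erase v
  h3 : ∀ v ∈ a, (a ∪ b).erase v ∈ F'
  h4 : ∀ v ∈ b, (a ∪ b).erase v ∈ F

/-- The flip map. -/
noncomputable def fmap (a b : Finset V) (ha : a.Nonempty) (x : V → ℝ) : V → ℝ :=
  fun v => if v ∈ a then x v - mn a ha x
    else if v ∈ b then x v + ((a.card : ℝ) / b.card) * mn a ha x else x v

theorem continuous_mn (a : Finset V) (ha : a.Nonempty) : Continuous (mn a ha) := by
  unfold mn
  exact Continuous.finset_inf'_apply ha (fun i _ => continuous_apply i)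

theorem continuous_fmap (a b : Finset V) (ha : a.Nonempty) : Continuous (fmap a b ha) := by
  refine continuous_pi (fun v => ?_)
  unfold fmap
  by_cases h1 : v ∈ a
  · simp only [h1, if_true]
    exact (continuous_apply v).sub (continuous_mn a ha)
  · by_cases h2 : v ∈ b
    · simp only [h1, h2, if_true, if_false]
      exact (continuous_apply v).add (continuous_const.mul (continuous_mn a ha))
    · simp only [h1, h2, if_false]
      exact continuous_apply v

theorem mn_le {a : Finset V} (ha : a.Nonempty) (x : V → ℝ) {v : V} (hv : v ∈ a) :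
    mn a ha x ≤ x v := Finset.inf'_le x hv

theorem exists_mn {a : Finset V} (ha : a.Nonempty) (x : V → ℝ) :
    ∃ v ∈ a, mn a ha x = x v := Finset.exists_mem_eq_inf' ha x

theorem mn_nonneg {a : Finset V} (ha : a.Nonempty) {x : V → ℝ} (hx : ∀ v, 0 ≤ x v) :
    0 ≤ mn a ha x := by
  obtain ⟨v, _, hv⟩ := exists_mn ha x
  rw [hv]; exact hx v

theorem mn_eq_zero {a : Finset V} (ha : a.Nonempty) {x : V → ℝ} (hx : ∀ v, 0 ≤ x v)
    {v : V} (hv : v ∈ a) (h0 : x v = 0) : mn a ha x = 0 :=
  le_antisymm (h0 ▸ mn_le ha x hv) (mn_nonneg ha hx)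

theorem fmap_of_mn_zero {a b : Finset V} (ha : a.Nonempty) {x : V → ℝ} (h : mn a ha x = 0) :
    fmap a b ha x = x := by
  funext v
  unfold fmap
  simp [h]

theorem sum_fmap {a b : Finset V} (ha : a.Nonempty) (hb : b.Nonempty) (hd : Disjoint a b)
    (x : V → ℝ) : ∑ v, fmap a b ha x v = ∑ v, x v := by
  have h1 : ∀ v, fmap a b ha x v = x v + ((if v ∈ a then - mn a ha x else 0)
      + (if v ∈ b then ((a.card : ℝ) / b.card) * mn a ha x else 0)) := by
    intro v
    unfold fmap
    by_cases hva : v ∈ a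
    · have hvb : v ∉ b := Finset.disjoint_left.mp hd hva
      simp [hva, hvb]; ring
    · by_cases hvb : v ∈ b <;> simp [hva, hvb]
  have hb0 : (b.card : ℝ) ≠ 0 := by
    have := Finset.card_pos.mpr hb
    positivity
  rw [Finset.sum_congr rfl (fun v _ => h1 v), Finset.sum_add_distrib, Finset.sum_add_distrib,
    Finset.sum_ite_mem, Finset.sum_ite_mem]
  simp only [Finset.univ_inter, Finset.sum_const, nsmul_eq_mul]
  field_simp
  ring

theorem fmap_nonneg {a b : Finset V} (ha : a.Nonempty) {x : V → ℝ} (hx : ∀ v, 0 ≤ x v) (v : V) :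
    0 ≤ fmap a b ha x v := by
  unfold fmap
  by_cases hva : v ∈ a
  · simp only [hva, if_true]
    have := mn_le ha x hva
    linarith
  · by_cases hvb : v ∈ b
    · simp only [hva, hvb, if_true, if_false]
      have := hx v
      have h2 := mn_nonneg ha hx
      positivity
    · simp only [hva, hvb, if_false]
      exact hx v

theorem IsFlip.symm {a b : Finset V} {F F' : Set (Finset V)} (h : IsFlip a b F F') :
    IsFlip b a F' F where
  na := h.nb
  nb := h.na
  dj := h.dj.symm
  h1 := by
    intro s hs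
    rcases h.h2 s hs with ⟨h1, h2, h3⟩ | ⟨v, hv, hv'⟩
    · exact Or.inl ⟨h1, h3, h2⟩
    · exact Or.inr ⟨v, hv, by rw [Finset.union_comm]; exact hv'⟩
  h2 := by
    intro s hs
    rcases h.h1 s hs with ⟨h1, h2, h3⟩ | ⟨v, hv, hv'⟩
    · exact Or.inl ⟨h1, h3, h2⟩
    · exact Or.inr ⟨v, hv, by rw [Finset.union_comm]; exact hv'⟩
  h3 := by
    intro v hv
    rw [Finset.union_comm]
    exact h.h4 v hv
  h4 := by
    intro v hv
    rw [Finset.union_comm]
    exact h.h3 v hv

/-- Every point of `|F|` has smallest coordinate zero over `b`. -/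
theorem IsFlip.mn_b {a b : Finset V} {F F' : Set (Finset V)} (h : IsFlip a b F F')
    {x : V → ℝ} (hx : x ∈ Rl F) : mn b h.nb x = 0 := by
  obtain ⟨h0, _, s, hs, hz⟩ := hx
  rcases h.h1 s hs with ⟨_, _, h3⟩ | ⟨v, hv, rfl⟩
  · obtain ⟨v, hv, hvs⟩ := Finset.not_subset.mp h3
    exact mn_eq_zero h.nb h0 hv (hz v hvs)
  · exact mn_eq_zero h.nb h0 hv (hz v (Finset.notMem_erase v _))

theorem IsFlip.maps {a b : Finset V} {F F' : Set (Finset V)} (h : IsFlip a b F F')
    {x : V → ℝ} (hx : x ∈ Rl F) : fmap a b h.na x ∈ Rl F' := by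
  obtain ⟨h0, hs1, s, hs, hz⟩ := hx
  refine ⟨fmap_nonneg h.na h0, by rw [sum_fmap h.na h.nb h.dj, hs1], ?_⟩
  rcases h.h1 s hs with ⟨h1, h2, _⟩ | ⟨v, hv, rfl⟩
  · obtain ⟨v, hv, hvs⟩ := Finset.not_subset.mp h2
    rw [fmap_of_mn_zero h.na (mn_eq_zero h.na h0 hv (hz v hvs))]
    exact ⟨s, h1, hz⟩
  · obtain ⟨u, hu, hmu⟩ := exists_mn h.na x
    refine ⟨(a ∪ b).erase u, h.h3 u hu, ?_⟩
    intro w hw
    by_cases hwu : w = u
    · subst hwu
      unfold fmap
      simp [hu, hmu]
    · have hw2 : w ∉ a ∪ b := fun hc => hw (Finset.mem_erase.mpr ⟨hwu, hc⟩)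
      have hwa : w ∉ a := fun hc => hw2 (Finset.mem_union_left _ hc)
      have hwb : w ∉ b := fun hc => hw2 (Finset.mem_union_right _ hc)
      unfold fmap
      simp only [hwa, hwb, if_false]
      exact hz w (fun hc => hw2 (Finset.mem_of_mem_erase hc))

theorem IsFlip.inv {a b : Finset V} {F F' : Set (Finset V)} (h : IsFlip a b F F')
    {x : V → ℝ} (hx : x ∈ Rl F) : fmap b a h.nb (fmap a b h.na x) = x := by
  have hb0 : (b.card : ℝ) ≠ 0 := by
    have := Finset.card_pos.mpr h.nb
    positivity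
  have ha0 : (a.card : ℝ) ≠ 0 := by
    have := Finset.card_pos.mpr h.na
    positivity
  set m := mn a h.na x with hm
  have hmn : mn b h.nb (fmap a b h.na x) = ((a.card : ℝ) / b.card) * m := by
    have hval : ∀ v ∈ b, fmap a b h.na x v = x v + ((a.card : ℝ) / b.card) * m := by
      intro v hv
      have hva : v ∉ a := Finset.disjoint_right.mp h.dj hv
      unfold fmap
      simp [hva, hv, hm]
    have hz := h.mn_b hx
    apply le_antisymm
    · obtain ⟨v, hv, hv0⟩ := exists_mn h.nb x
      have := mn_le h.nb (fmap a b h.na x) hv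
      rw [hval v hv, ← hv0, hz] at this
      linarith
    · obtain ⟨v, hv, hv0⟩ := exists_mn h.nb (fmap a b h.na x)
      rw [hv0, hval v hv]
      have := mn_le h.nb x hv
      rw [hz] at this
      linarith
  funext v
  unfold fmap
  by_cases hvb : v ∈ b
  · have hva : v ∉ a := Finset.disjoint_right.mp h.dj hvb
    have := hmn
    unfold fmap at this
    simp only [hvb, hva, if_true, if_false, this]
    rw [← hm]; ring
  · by_cases hva : v ∈ a
    · have := hmn
      unfold fmap at this
      simp only [hvb, hva, if_true, if_false, this]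
      rw [← hm]; field_simp; ring
    · simp only [hvb, hva, if_false]

/-- BISTELLAR FLIP LEMMA. -/
noncomputable def IsFlip.homeo {a b : Finset V} {F F' : Set (Finset V)} (h : IsFlip a b F F') :
    Rl F ≃ₜ Rl F' where
  toFun x := ⟨fmap a b h.na x.1, h.maps x.2⟩
  invFun y := ⟨fmap b a h.nb y.1, h.symm.maps y.2⟩
  left_inv x := Subtype.ext (h.inv x.2)
  right_inv y := Subtype.ext (h.symm.inv y.2)
  continuous_toFun := ((continuous_fmap a b h.na).comp continuous_subtype_val).subtype_mk _
  continuous_invFun := ((continuous_fmap b a h.nb).comp continuous_subtype_val).subtype_mk _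

theorem IsFlip.homeo_apply_of {a b : Finset V} {F F' : Set (Finset V)} (h : IsFlip a b F F')
    (x : Rl F) (hx : mn a h.na x.1 = 0) : ((h.homeo x : Rl F') : V → ℝ) = x.1 :=
  fmap_of_mn_zero h.na hx

end Fl49
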