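import Pool.Agent.Lib_MP_55d5ef_fl.Ict

/-!
A flip in general form, with the invariants.
-/

set_option linter.unusedSectionVars false

namespace Fl49

open Finset PL55

section gst

variable {V : Type} [DecidableEq V] {ρ : Type}

/-- Orderings contain exactly the other labels. -/
def GdG (lab : ρ → Finset V) (od : ρ → V → List V) (S : Set ρ) : Prop :=
  ∀ x ∈ S, ∀ v ∈ lab x, ∀ l, l ∈ od x v ↔ l ∈ lab x ∧ l ≠ v

/-- At most two occurrences of every facet number. -/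
def TwG (lab : ρ → Finset V) (num : ρ → V → ℕ) (S : Set ρ) : Prop :=
  ∀ x ∈ S, ∀ v ∈ lab x, ∀ y ∈ S, ∀ w ∈ lab y, ∀ z ∈ S,
  ∀ u ∈ lab z, num x v = num y w → num x v = num z u →
  (x, v) = (y, w) ∨ (x, v) = (z, u) ∨ (y, w) = (z, u)

/-- Facet numbers below `n`. -/
def FnG (lab : ρ → Finset V) (num : ρ → V → ℕ) (n : ℕ) (S : Set ρ) : Prop :=
  ∀ x ∈ S, ∀ v ∈ lab x, num x v < n

/-- The data of a flip. -/
structure NewOk (lab : ρ → Finset V) (num : ρ → V → ℕ) (od : ρ → V → List V) (A B : Finset V)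
    (c c' : V → ρ) (S1 S2 : Set ρ) (n : ℕ) : Prop where
  na : A.Nonempty
  nb : B.Nonempty
  dj : Disjoint A B
  labc : ∀ v ∈ B, lab (c v) = (A ∪ B).erase v
  labc' : ∀ v ∈ A, lab (c' v) = (A ∪ B).erase v
  mem : ∀ v ∈ B, c v ∈ S1
  s2 : ∀ y, y ∈ S2 ↔ (∃ a ∈ A, y = c' a) ∨ (y ∈ S1 ∧ ∀ b ∈ B, y ≠ c b)
  fr : ∀ a ∈ A, c' a ∉ S1
  ci : ∀ v ∈ B, ∀ w ∈ B, c v = c w → v = w
  bd : ∀ v ∈ A, ∀ w ∈ B, num (c w) v = num (c' v) w ∧ od (c w) v = od (c' v) w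
  inn : ∀ v ∈ B, ∀ w ∈ B, v ≠ w → num (c v) w = num (c w) v ∧ od (c v) w = od (c w) v
  inn' : ∀ v ∈ A, ∀ w ∈ A, v ≠ w → num (c' v) w = num (c' w) v ∧ od (c' v) w = od (c' w) v
  cov' : ∀ v ∈ A, ∀ w ∈ A, v ≠ w → ∀ u, u ∈ od (c' v) w ↔ u ∈ A ∪ B ∧ u ≠ v ∧ u ≠ w
  big : ∀ v ∈ A, ∀ w ∈ A, v ≠ w → n ≤ num (c' v) w
  inj : ∀ v ∈ A, ∀ w ∈ A, v ≠ w → ∀ v' ∈ A, ∀ w' ∈ A, v' ≠ w' →
    num (c' v) w = num (c' v') w' → (v = v' ∧ w = w') ∨ (v = w' ∧ w = v')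

variable {lab : ρ → Finset V} {num : ρ → V → ℕ} {od : ρ → V → List V} {A B : Finset V}
variable {c c' : V → ρ} {S1 S2 : Set ρ} {n : ℕ}

theorem NewOk.mem' (h : NewOk lab num od A B c c' S1 S2 n) {a : V} (ha : a ∈ A) :
    c' a ∈ S2 := (h.s2 _).mpr (Or.inl ⟨a, ha, rfl⟩)

theorem NewOk.back (h : NewOk lab num od A B c c' S1 S2 n) {y : ρ} (hy : y ∈ S2) {w : V}
    (hw : w ∈ lab y) :
    (y ∈ S1 ∧ ∀ b ∈ B, y ≠ c b) ∨ (∃ a ∈ A, y = c' a ∧ w ∈ B) ∨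
    (∃ a ∈ A, y = c' a ∧ w ∈ A ∧ a ≠ w) := by
  rcases (h.s2 y).mp hy with ⟨a, ha, rfl⟩ | h1
  · rw [h.labc' a ha, Finset.mem_erase, Finset.mem_union] at hw
    rcases hw with ⟨h2, h3 | h3⟩
    · exact Or.inr (Or.inr ⟨a, ha, rfl, h3, fun hc => h2 hc.symm⟩)
    · exact Or.inr (Or.inl ⟨a, ha, rfl, h3⟩)
  · exact Or.inl h1

theorem NewOk.labB (h : NewOk lab num od A B c c' S1 S2 n) {a b : V} (ha : a ∈ A) (hb : b ∈ B) :
    a ∈ lab (c b) := by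
  rw [h.labc b hb, Finset.mem_erase, Finset.mem_union]
  exact ⟨fun hc => (Finset.disjoint_left.mp h.dj ha) (hc ▸ hb), Or.inl ha⟩

theorem NewOk.uniq' (h : NewOk lab num od A B c c' S1 S2 n) (fn1 : FnG lab num n S1) {v w : V}
    (hv : v ∈ A) (hw : w ∈ A) (hvw : v ≠ w) {i : ρ} (hi : i ∈ S2) {u : V} (hu : u ∈ lab i)
    (hn : num i u = num (c' v) w) : (i = c' v ∧ u = w) ∨ (i = c' w ∧ u = v) := by
  have hbig := h.big v hv w hw hvw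
  rcases h.back hi hu with ⟨h1, _⟩ | ⟨a, ha, rfl, hb⟩ | ⟨a, ha, rfl, hb, hab⟩
  · have := fn1 i h1 u hu
    omega
  · rw [← (h.bd a ha u hb).1] at hn
    have := fn1 _ (h.mem u hb) a (h.labB ha hb)
    omega
  · rcases h.inj a ha u hb hab v hv w hw hvw hn with ⟨h1, h2⟩ | ⟨h1, h2⟩
    · exact Or.inl ⟨by rw [h1], h2⟩
    · exact Or.inr ⟨by rw [h1], h2⟩

theorem NewOk.flip (h : NewOk lab num od A B c c' S1 S2 n) (gd1 : GdG lab od S1)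
    (tw1 : TwG lab num S1) (fn1 : FnG lab num n S1) : GFlip lab num od A B c c' S1 S2 := by
  have cl : ∀ v ∈ B, ∀ w ∈ A ∪ B, w ≠ v → w ∈ lab (c v) := by
    intro v hv w hw hwv
    rw [h.labc v hv, Finset.mem_erase]
    exact ⟨hwv, hw⟩
  refine ⟨h.na, h.nb, h.dj, h.labc, h.labc', h.mem, fun v hv => h.mem' hv, ?_, ?_, h.bd, h.inn,
    h.inn', ?_, ?_, ?_, ?_⟩
  · intro i hi
    by_cases hc : ∃ v ∈ B, i = c v
    · exact Or.inl hc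
    · right
      refine ⟨(h.s2 i).mpr (Or.inr ⟨hi, fun b hb hib => hc ⟨b, hb, hib⟩⟩), ?_⟩
      rintro v hv rfl
      exact h.fr v hv hi
  · intro i hi
    rcases (h.s2 i).mp hi with h1 | ⟨h1, h2⟩
    · exact Or.inl h1
    · exact Or.inr ⟨h1, h2⟩
  · intro v hv w hw hvw u hu huv huw
    exact (gd1 _ (h.mem v hv) w (cl v hv w (Finset.mem_union_right _ hw) (Ne.symm hvw)) u).mpr
      ⟨cl v hv u hu huv, huw⟩
  · intro v hv w hw hvw u hu huv huw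
    exact (h.cov' v hv w hw hvw u).mpr ⟨hu, huv, huw⟩
  · intro v hv w hw hvw i hi u hu hn
    rcases tw1 _ (h.mem v hv) w (cl v hv w (Finset.mem_union_right _ hw) (Ne.symm hvw)) _
      (h.mem w hw) v (cl w hw v (Finset.mem_union_right _ hv) hvw) i hi u hu
      (h.inn v hv w hw hvw).1 hn.symm with h1 | h1 | h1
    · exact absurd (congrArg Prod.snd h1).symm hvw
    · left
      rw [Prod.mk.injEq] at h1
      exact ⟨h1.1.symm, h1.2.symm⟩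
    · right
      rw [Prod.mk.injEq] at h1
      exact ⟨h1.1.symm, h1.2.symm⟩
  · intro v hv w hw hvw i hi u hu hn
    exact h.uniq' fn1 hv hw hvw hi hu hn

theorem NewOk.gd (h : NewOk lab num od A B c c' S1 S2 n) (gd1 : GdG lab od S1) :
    GdG lab od S2 := by
  intro x hx v hv l
  rcases h.back hx hv with ⟨h1, _⟩ | ⟨a, ha, rfl, hb⟩ | ⟨a, ha, rfl, hb, hab⟩
  · exact gd1 x h1 v hv l
  · rw [← (h.bd a ha v hb).2, gd1 _ (h.mem v hb) a (h.labB ha hb) l, h.labc v hb, h.labc' a ha,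
      Finset.mem_erase, Finset.mem_erase]
    exact ⟨fun hh => ⟨⟨hh.2, hh.1.2⟩, hh.1.1⟩, fun hh => ⟨⟨hh.2, hh.1.2⟩, hh.1.1⟩⟩
  · rw [h.cov' a ha v hb hab l, h.labc' a ha, Finset.mem_erase]
    exact ⟨fun hh => ⟨⟨hh.2.1, hh.1⟩, hh.2.2⟩, fun hh => ⟨hh.1.2, hh.1.1, hh.2⟩⟩

/-- The relation between old and new occurrences. -/
def RoG (A B : Finset V) (c c' : V → ρ) (p q : ρ × V) : Prop :=
  (p = q ∧ ∀ b ∈ B, q.1 ≠ c b) ∨ ∃ b ∈ B, ∃ a ∈ A, p = (c b, a) ∧ q = (c' a, b)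

theorem NewOk.Ro_fun (h : NewOk lab num od A B c c' S1 S2 n) {p q q' : ρ × V}
    (h1 : RoG A B c c' p q) (h2 : RoG A B c c' p q') : q = q' := by
  rcases h1 with ⟨h1, h3⟩ | ⟨b, hb, a, ha, h3, h4⟩
  · rcases h2 with ⟨h2, _⟩ | ⟨b, hb, a, ha, h5, h6⟩
    · rw [← h1, ← h2]
    · exact absurd (by rw [← h1, h5]) (h3 b hb)
  · rcases h2 with ⟨h2, h5⟩ | ⟨b', hb', a', ha', h5, h6⟩
    · exact absurd (by rw [← h2, h3]) (h5 b hb)
    · rw [h3, Prod.mk.injEq] at h5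
      have e1 := h.ci b hb b' hb' h5.1
      rw [h4, h6, e1, h5.2]

theorem NewOk.back2 (h : NewOk lab num od A B c c' S1 S2 n) {y : ρ} (hy : y ∈ S2) {w : V}
    (hw : w ∈ lab y) :
    (∃ x ∈ S1, ∃ v ∈ lab x, num x v = num y w ∧ RoG A B c c' (x, v) (y, w)) ∨
    (∃ a ∈ A, ∃ v ∈ A, a ≠ v ∧ y = c' a ∧ w = v) := by
  rcases h.back hy hw with ⟨h1, h2⟩ | ⟨a, ha, rfl, hb⟩ | ⟨a, ha, rfl, hb, hab⟩
  · exact Or.inl ⟨y, h1, w, hw, rfl, Or.inl ⟨rfl, h2⟩⟩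
  · exact Or.inl ⟨c w, h.mem w hb, a, h.labB ha hb, (h.bd a ha w hb).1,
      Or.inr ⟨w, hb, a, ha, rfl, rfl⟩⟩
  · exact Or.inr ⟨a, ha, w, hb, hab, rfl, rfl⟩

theorem NewOk.tw (h : NewOk lab num od A B c c' S1 S2 n)
    (tw1 : TwG lab num S1) (fn1 : FnG lab num n S1) : TwG lab num S2 := by
  intro x hx v hv y hy w hw z hz u hu e1 e2
  rcases h.back2 hx hv with ⟨x', hx', v', hv', e3, r3⟩ | ⟨a, ha, v', hv', hav, rfl, rfl⟩
  · have hlt : num x v < n := e3 ▸ fn1 x' hx' v' hv'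
    rcases h.back2 hy hw with ⟨y', hy', w', hw', e4, r4⟩ | ⟨a, ha, w', hw', hav, rfl, rfl⟩
    · rcases h.back2 hz hu with ⟨z', hz', u', hu', e5, r5⟩ | ⟨a, ha, u', hu', hav, rfl, rfl⟩
      · rcases tw1 x' hx' v' hv' y' hy' w' hw' z' hz' u' hu' (by rw [e3, e4, e1])
          (by rw [e3, e5, e2]) with h1 | h1 | h1
        · left; rw [h1] at r3; exact h.Ro_fun r3 r4
        · right; left; rw [h1] at r3; exact h.Ro_fun r3 r5
        · right; right; rw [h1] at r4; exact h.Ro_fun r4 r5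
      · have := h.big a ha _ hu' hav
        omega
    · have := h.big a ha _ hw' hav
      omega
  · rcases h.uniq' fn1 ha hv' hav hy hw e1.symm with ⟨h1, h2⟩ | ⟨h1, h2⟩
    · left; rw [h1, h2]
    · rcases h.uniq' fn1 ha hv' hav hz hu e2.symm with ⟨h3, h4⟩ | ⟨h3, h4⟩
      · right; left; rw [h3, h4]
      · right; right; rw [h1, h2, h3, h4]

/-- Transport of `TwG` along a surjection of occurrences. -/
theorem TwG.surj {ρ' V' : Type} [DecidableEq V'] {lab' : ρ' → Finset V'} {num' : ρ' → V' → ℕ}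
    {S : Set ρ} {S' : Set ρ'} (ht : TwG lab num S) (θ : ρ → V → ρ' × V')
    (hn : ∀ x ∈ S, ∀ v ∈ lab x, num' (θ x v).1 (θ x v).2 = num x v)
    (hs : ∀ y ∈ S', ∀ w ∈ lab' y, ∃ x ∈ S, ∃ v ∈ lab x, θ x v = (y, w)) :
    TwG lab' num' S' := by
  intro x hx v hv y hy w hw z hz u hu e1 e2
  obtain ⟨x', hx', v', hv', e3⟩ := hs x hx v hv
  obtain ⟨y', hy', w', hw', e4⟩ := hs y hy w hw
  obtain ⟨z', hz', u', hu', e5⟩ := hs z hz u hu
  have n3 := hn x' hx' v' hv'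
  have n4 := hn y' hy' w' hw'
  have n5 := hn z' hz' u' hu'
  rw [e3] at n3
  rw [e4] at n4
  rw [e5] at n5
  simp only at n3 n4 n5
  rcases ht x' hx' v' hv' y' hy' w' hw' z' hz' u' hu' (by rw [← n3, ← n4, e1])
    (by rw [← n3, ← n5, e2]) with h1 | h1 | h1
  · rw [Prod.mk.injEq] at h1
    left; rw [← e3, ← e4, h1.1, h1.2]
  · rw [Prod.mk.injEq] at h1
    right; left; rw [← e3, ← e5, h1.1, h1.2]
  · rw [Prod.mk.injEq] at h1
    right; right; rw [← e4, ← e5, h1.1, h1.2]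

end gst

end Fl49
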