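import Pool.Agent.Lib_MP_55d5ef_fl.Ict

/-!
The check `icA` cut into parts (separate kernel checks, so that each check needs little memory).
-/

set_option linter.unusedSectionVars false

namespace Fl49

/-- The check of the records from the position `a` on. -/
def icD (Ms : List (List (ℕ × ℕ))) (L L' : List Ri) (a : ℕ) : Bool :=
  match icT1 Ms L L' (Tr.e, Tr.e) with
  | (T, T') => icL T T' (Ms.drop a) (L.drop a) (L'.drop a)

/-- The check of the `n` records from the position `a` on. -/
def icS (Ms : List (List (ℕ × ℕ))) (L L' : List Ri) (a n : ℕ) : Bool :=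
  match icT1 Ms L L' (Tr.e, Tr.e) with
  | (T, T') => icL T T' ((Ms.drop a).take n) ((L.drop a).take n) ((L'.drop a).take n)

theorem icL_split (T T' : Tr) : ∀ (n : ℕ) (Ms : List (List (ℕ × ℕ))) (L L' : List Ri),
    icL T T' (Ms.take n) (L.take n) (L'.take n) = true →
    icL T T' (Ms.drop n) (L.drop n) (L'.drop n) = true → icL T T' Ms L L' = true
  | 0, Ms, L, L', _, h => h
  | n + 1, [], [], [], _, _ => rfl
  | n + 1, [], [], _ :: _, h, _ => by cases h
  | n + 1, [], _ :: _, [], h, _ => by cases h
  | n + 1, [], _ :: _, _ :: _, h, _ => by cases h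
  | n + 1, _ :: _, [], [], h, _ => by cases h
  | n + 1, _ :: _, [], _ :: _, h, _ => by cases h
  | n + 1, _ :: _, _ :: _, [], h, _ => by cases h
  | n + 1, m :: Ms, x :: L, x' :: L', h, h' => by
    rw [List.take_succ_cons, List.take_succ_cons, List.take_succ_cons, icL] at h
    rw [List.drop_succ_cons, List.drop_succ_cons, List.drop_succ_cons] at h'
    obtain ⟨h1, h2⟩ := cond_false h
    rw [icL, h1, cond_true]
    exact icL_split T T' n Ms L L' h2 h'

theorem icD_step {Ms : List (List (ℕ × ℕ))} {L L' : List Ri} {a n : ℕ}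
    (h : icS Ms L L' a n = true) (h' : icD Ms L L' (a + n) = true) : icD Ms L L' a = true := by
  unfold icS at h
  unfold icD at h' ⊢
  generalize icT1 Ms L L' (Tr.e, Tr.e) = TT at h h' ⊢
  obtain ⟨T, T'⟩ := TT
  refine icL_split T T' n _ _ _ h ?_
  rw [List.drop_drop, List.drop_drop, List.drop_drop]
  exact h'

theorem icA_of {Ms : List (List (ℕ × ℕ))} {L L' : List Ri} (h : icD Ms L L' 0 = true) :
    icA Ms L L' = true := h

end Fl49
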