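import Pool.Agent.Lib_MP_55d5ef_fl.Lis

/-!
Checked isomorphisms between lists of records (renaming of labels, renumbering of the facets,
reordering of the orderings).
-/

set_option linter.unusedSectionVars false

namespace Fl49

open Finset

theorem map_pm {V : Type} [Inhabited V] (σ : List ℕ) (h1 : ∀ k ∈ σ, k < σ.length)
    (h2 : ∀ k < σ.length, k ∈ σ) {l l' : List V} (hl : l.length = σ.length)
    (hl' : l'.length = σ.length) (x y : V → ℝ) :
    ((σ.map (fun k => l.getD k default)).map x = (σ.map (fun k => l'.getD k default)).map y) ↔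
      l.map x = l'.map y := by
  rw [List.map_map, List.map_map]
  constructor
  · intro h
    have h3 : ∀ k ∈ σ, x (l.getD k default) = y (l'.getD k default) := fun k hk =>
      List.map_inj_left.mp h k hk
    refine List.ext_getElem (by rw [List.length_map, List.length_map, hl, hl']) ?_
    intro k hk1 hk2
    rw [List.length_map] at hk1 hk2
    rw [List.getElem_map, List.getElem_map]
    have := h3 k (h2 k (by omega))
    rw [List.getD_eq_getElem _ _ hk1, List.getD_eq_getElem _ _ hk2] at this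
    exact this
  · intro h
    refine List.map_congr_left (fun k hk => ?_)
    have hk' := h1 k hk
    have hk1 : k < l.length := by omega
    have hk2 : k < l'.length := by omega
    simp only [Function.comp_apply]
    rw [List.getD_eq_getElem _ _ hk1, List.getD_eq_getElem _ _ hk2]
    have e1 : (l.map x)[k]'(by rw [List.length_map]; exact hk1)
        = (l'.map y)[k]'(by rw [List.length_map]; exact hk2) := by
      simp only [h]
    rw [List.getElem_map, List.getElem_map] at e1
    exact e1

/-- An isomorphism from maps which are bijective, with reorderings. -/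
theorem iso_of_bij2 {V V' : Type} [DecidableEq V] [DecidableEq V'] {ρ ρ' : Type} [Inhabited V]
    [Inhabited ρ]
    {lab : ρ → Finset V} {num : ρ → V → ℕ} {od : ρ → V → List V}
    {lab' : ρ' → Finset V'} {num' : ρ' → V' → ℕ} {od' : ρ' → V' → List V'}
    {φ : ρ → ρ'} {f : ρ → V → V'} {S : Set ρ} {S' : Set ρ'}
    (hφ : Set.BijOn φ S S') (hf : ∀ i ∈ S, Set.BijOn (f i) (lab i) (lab' (φ i)))
    (nf : ∀ i ∈ S, ∀ v ∈ lab i, ∀ j ∈ S, ∀ w ∈ lab j,
      (num' (φ i) (f i v) = num' (φ j) (f j w) ↔ num i v = num j w))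
    (σ : ℕ → List ℕ)
    (hσ : ∀ i ∈ S, ∀ v ∈ lab i, (od i v).length = (σ (num i v)).length ∧
      (∀ k ∈ σ (num i v), k < (σ (num i v)).length) ∧
      (∀ k < (σ (num i v)).length, k ∈ σ (num i v)) ∧
      od' (φ i) (f i v) = ((σ (num i v)).map (fun k => (od i v).getD k default)).map (f i))
    (ol : ∀ i ∈ S, ∀ v ∈ lab i, ∀ l ∈ od i v, l ∈ lab i) :
    ∃ ψ g, Iso lab num od lab' num' od' φ ψ f g S S' := by
  classical
  have hinv : Set.InvOn (Function.invFunOn φ S) φ S S' := hφ.invOn_invFunOn
  have hmem : ∀ j ∈ S', Function.invFunOn φ S j ∈ S := by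
    intro j hj
    obtain ⟨i, hi, hij⟩ := hφ.surjOn hj
    exact Function.invFunOn_mem ⟨i, hi, hij⟩
  set ψ := Function.invFunOn φ S with hψ
  set g : ρ' → V' → V := fun j => Function.invFunOn (f (ψ j)) (lab (ψ j) : Set V) with hg
  have gf : ∀ i ∈ S, ∀ v ∈ lab i, g (φ i) (f i v) = v := by
    intro i hi v hv
    have hb := hf i hi
    simp only [hg, hinv.1 hi]
    exact hb.invOn_invFunOn.1 (Finset.mem_coe.mpr hv)
  have gm : ∀ j ∈ S', ∀ w ∈ lab' j, g j w ∈ lab (ψ j) := by
    intro j hj w hw
    have hb := hf _ (hmem j hj)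
    rw [hinv.2 hj] at hb
    obtain ⟨v, hv, hvw⟩ := hb.surjOn (Finset.mem_coe.mpr hw)
    exact Finset.mem_coe.mp (Function.invFunOn_mem ⟨v, hv, hvw⟩)
  have fg : ∀ j ∈ S', ∀ w ∈ lab' j, f (ψ j) (g j w) = w := by
    intro j hj w hw
    have hb := hf _ (hmem j hj)
    rw [hinv.2 hj] at hb
    exact hb.invOn_invFunOn.2 (Finset.mem_coe.mpr hw)
  have mpm : ∀ i ∈ S, ∀ v ∈ lab i, ∀ l ∈ (σ (num i v)).map (fun k => (od i v).getD k default),
      l ∈ lab i := by
    intro i hi v hv l hl
    obtain ⟨k, hk, rfl⟩ := List.mem_map.mp hl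
    obtain ⟨h1, h2, h3, h4⟩ := hσ i hi v hv
    have hk' : k < (od i v).length := by rw [h1]; exact h2 k hk
    rw [List.getD_eq_getElem _ _ hk']
    exact ol i hi v hv _ (List.getElem_mem hk')
  refine ⟨ψ, g, hφ.mapsTo, hmem, hinv.1, hinv.2, ?_, gm, gf, fg, nf, ?_, ol, ?_⟩
  · intro i hi v hv
    exact (hf i hi).mapsTo (Finset.mem_coe.mpr hv)
  · intro i hi v hv j hj w hw hn x y
    obtain ⟨a1, a2, a3, a4⟩ := hσ i hi v hv
    obtain ⟨b1, b2, b3, b4⟩ := hσ j hj w hw
    have gen : ∀ i ∈ S, ∀ (x : V → ℝ) (P : List V), (∀ l ∈ P, l ∈ lab i) →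
        (P.map (f i)).map (fun u => x (g (φ i) u)) = P.map x := by
      intro i hi x P hP
      rw [List.map_map]
      exact List.map_congr_left (fun l hl => by
        simp only [Function.comp_apply]; rw [gf i hi l (hP l hl)])
    have e1 := gen i hi x _ (mpm i hi v hv)
    have e2 := gen j hj y _ (mpm j hj w hw)
    rw [a4, b4]
    rw [e1, e2]
    rw [← hn] at b1 ⊢
    exact map_pm _ a2 a3 a1 b1 x y
  · intro j hj w hw l hl
    have h1 := (hσ (ψ j) (hmem j hj) (g j w) (gm j hj w hw)).2.2.2
    rw [fg j hj w hw, hinv.2 hj] at h1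
    rw [h1] at hl
    obtain ⟨u, hu, rfl⟩ := List.mem_map.mp hl
    have h2 := (hf _ (hmem j hj)).mapsTo
      (Finset.mem_coe.mpr (mpm (ψ j) (hmem j hj) (g j w) (gm j hj w hw) u hu))
    rw [hinv.2 hj] at h2
    exact Finset.mem_coe.mp h2

/-- `[0, .., n-1]` in some order. -/
def rg : ℕ → List ℕ
  | 0 => []
  | n + 1 => n :: rg n

theorem mem_rg (n k : ℕ) : k ∈ rg n ↔ k < n := by
  induction n with
  | zero => simp [rg]
  | succ n ih => rw [rg, List.mem_cons, ih]; omega

/-- Entry of a list. -/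
def nt : List ℕ → ℕ → ℕ
  | [], _ => 0
  | a :: l, k => cond (Nat.beq k 0) a (nt l (k - 1))

theorem nt_eq (l : List ℕ) (k : ℕ) : nt l k = l.getD k 0 := by
  induction l generalizing k with
  | nil => simp [nt]
  | cons a l ih =>
    rw [nt, cbeq]
    rcases k with _ | k
    · simp
    · rw [if_neg (by omega), ih]; simp

/-- Reordering. -/
def pmt (l : List ℕ) : List ℕ → List ℕ
  | [] => []
  | k :: σ => nt l k :: pmt l σ

theorem pmt_eq (l σ : List ℕ) : pmt l σ = σ.map (fun k => l.getD k default) := by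
  induction σ with
  | nil => rfl
  | cons k σ ih => rw [pmt, ih, nt_eq]; rfl

/-- Check of an entry. -/
def icE (T T' : Tr) (m : List (ℕ × ℕ)) (r' : Rc) (p : En) : Bool :=
  match lkp (ap m p.1) r' with
  | none => false
  | some d => match T.get p.2.1 with
    | some [s] => match T'.get d.1 with
      | some [s'] => cond (Nat.beq s.1 d.1) (cond (Nat.beq s'.1 p.2.1)
          (cond (Nat.beq p.2.2.length s.2.2.length)
          (cond (al' (fun k => Nat.blt k s.2.2.length) s.2.2)
          (cond (al' (fun k => el k s.2.2) (rg s.2.2.length))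
          (leq d.2 (apl m (pmt p.2.2 s.2.2))) false) false) false) false) false
      | _ => false
    | _ => false

/-- First components. -/
def fs {α : Type} : List (ℕ × α) → List ℕ
  | [] => []
  | p :: l => p.1 :: fs l

theorem fs_eq {α : Type} (l : List (ℕ × α)) : fs l = l.map Prod.fst := by
  induction l with
  | nil => rfl
  | cons p l ih => rw [fs, ih]; rfl

/-- Check of a record. -/
def icR (T T' : Tr) (m : List (ℕ × ℕ)) (r r' : Rc) : Bool :=
  cond (Nat.beq r.length r'.length) (cond (nd (apl m (fs r))) (al' (icE T T' m r') r) false) false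

/-- Check of the lists. -/
def icL (T T' : Tr) : List (List (ℕ × ℕ)) → List Ri → List Ri → Bool
  | [], [], [] => true
  | m :: Ms, x :: L, x' :: L' => cond (icR T T' m x.2 x'.2) (icL T T' Ms L L') false
  | _, _, _ => false

theorem icL_sound (T T' : Tr) : ∀ (Ms : List (List (ℕ × ℕ))) (L L' : List Ri),
    icL T T' Ms L L' = true → L.length = L'.length ∧
      ∀ (k : ℕ) (x : Ri), L[k]? = some x → ∃ x' m, L'[k]? = some x' ∧ Ms[k]? = some m ∧
        icR T T' m x.2 x'.2 = true
  | [], [], [], _ => ⟨rfl, fun k x h => by simp at h⟩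
  | [], [], _ :: _, h => by cases h
  | [], _ :: _, _, h => by cases h
  | _ :: _, [], _, h => by cases h
  | _ :: _, _ :: _, [], h => by cases h
  | m :: Ms, x :: L, x' :: L', h => by
    rw [icL] at h
    obtain ⟨h1, h2⟩ := cond_false h
    obtain ⟨h3, h4⟩ := icL_sound T T' Ms L L' h2
    refine ⟨by rw [List.length_cons, List.length_cons, h3], ?_⟩
    intro k y hy
    rcases k with _ | k
    · rw [List.getElem?_cons_zero] at hy
      have := Option.some.inj hy
      subst this
      exact ⟨x', m, rfl, rfl, h1⟩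
    · rw [List.getElem?_cons_succ] at hy
      obtain ⟨y', m', e1, e2, e3⟩ := h4 k y hy
      exact ⟨y', m', by rw [List.getElem?_cons_succ]; exact e1,
        by rw [List.getElem?_cons_succ]; exact e2, e3⟩

theorem icE_sound {T T' : Tr} {m : List (ℕ × ℕ)} {r' : Rc} {p : En}
    (h : icE T T' m r' p = true) : ∃ d s s', lkp (ap m p.1) r' = some d ∧
      T.get p.2.1 = some [s] ∧ T'.get d.1 = some [s'] ∧ s.1 = d.1 ∧ s'.1 = p.2.1 ∧
      p.2.2.length = s.2.2.length ∧ (∀ k ∈ s.2.2, k < s.2.2.length) ∧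
      (∀ k < s.2.2.length, k ∈ s.2.2) ∧
      d.2 = (s.2.2.map (fun k => p.2.2.getD k default)).map (ap m) := by
  unfold icE at h
  split at h
  · cases h
  · rename_i d hd
    split at h
    · rename_i s hs
      split at h
      · rename_i s' hs'
        obtain ⟨h1, h⟩ := cond_false h
        obtain ⟨h2, h⟩ := cond_false h
        obtain ⟨h3, h⟩ := cond_false h
        obtain ⟨h4, h⟩ := cond_false h
        obtain ⟨h5, h6⟩ := cond_false h
        refine ⟨d, s, s', hd, hs, hs', Nat.eq_of_beq_eq_true h1, Nat.eq_of_beq_eq_true h2,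
          Nat.eq_of_beq_eq_true h3, ?_, ?_, ?_⟩
        · intro k hk
          exact Nat.ble_eq.mp ((al_iff _ _).mp h4 k hk)
        · intro k hk
          exact (el_iff _ _).mp ((al_iff _ _).mp h5 k ((mem_rg _ _).mpr hk))
        · rw [← pmt_eq, ← apl_eq]
          exact (leq_iff _ _).mp h6
      · cases h
    · cases h

/-- Soundness of the isomorphism check. -/
theorem icL_iso {T T' : Tr} {Ms : List (List (ℕ × ℕ))} {L L' : List Ri} (hL : Gd (sL L))
    (hn : (fs L).Nodup) (hn' : (fs L').Nodup) (h : icL T T' Ms L L' = true) :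
    ∃ φ ψ f g, Iso labR numR odR labR numR odR φ ψ f g (sL L) (sL L') ∧
      ∀ (k : ℕ) (x x' : Ri) (m : List (ℕ × ℕ)), L[k]? = some x → L'[k]? = some x' →
        Ms[k]? = some m → φ x = x' ∧ ∀ v, f x v = ap m v := by
  classical
  obtain ⟨hlen, hP⟩ := icL_sound T T' Ms L L' h
  have ndL : L.Nodup := List.Nodup.of_map _ (by rw [← fs_eq]; exact hn)
  have ndL' : L'.Nodup := List.Nodup.of_map _ (by rw [← fs_eq]; exact hn')
  set φ : Ri → Ri := fun x => L'.getD (L.idxOf x) (0, []) with hφ
  set f : Ri → ℕ → ℕ := fun x => ap (Ms.getD (L.idxOf x) []) with hf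
  have key : ∀ x ∈ L, L'[L.idxOf x]? = some (φ x) ∧
      icR T T' (Ms.getD (L.idxOf x) []) x.2 (φ x).2 = true := by
    intro x hx
    obtain ⟨x', m, h1, h2, h3⟩ := hP _ x (List.getElem?_idxOf hx)
    have e1 : φ x = x' := by
      simp only [hφ]
      rw [List.getD_eq_getElem?_getD, h1]; rfl
    have e2 : Ms.getD (L.idxOf x) [] = m := by
      rw [List.getD_eq_getElem?_getD, h2]; rfl
    rw [e1, e2]
    exact ⟨h1, h3⟩
  have hbij : Set.BijOn φ (sL L) (sL L') := by
    refine ⟨?_, ?_, ?_⟩
    · intro x hx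
      exact List.mem_of_getElem? (key x hx).1
    · intro x hx y hy hxy
      have h1 := (key x hx).1
      have h2 := (key y hy).1
      rw [← hxy] at h2
      obtain ⟨h3, _⟩ := List.getElem?_eq_some_iff.mp h1
      have h4 := (List.getElem?_inj h3 ndL').mp (h1.trans h2.symm)
      exact (List.idxOf_inj hx).mp h4
    · intro y hy
      have hy' : L'.idxOf y < L'.length := List.idxOf_lt_length_of_mem hy
      rw [← hlen] at hy'
      refine ⟨L[L'.idxOf y], List.getElem_mem hy', ?_⟩
      have h1 := (key _ (List.getElem_mem hy')).1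
      have h5 : L.idxOf L[L'.idxOf y] = L'.idxOf y := ndL.idxOf_getElem _ _
      rw [h5, List.getElem?_idxOf hy] at h1
      exact (Option.some.inj h1).symm
  -- facts about an occurrence
  have occ : ∀ x ∈ L, ∀ v ∈ labR x, ∃ d s s', lkp v x.2 = some d ∧
      lkp (f x v) (φ x).2 = some (s.1, (s.2.2.map (fun k => d.2.getD k default)).map (f x)) ∧
      T.get d.1 = some [s] ∧ T'.get s.1 = some [s'] ∧ s'.1 = d.1 ∧
      d.2.length = s.2.2.length ∧ (∀ k ∈ s.2.2, k < s.2.2.length) ∧
      (∀ k < s.2.2.length, k ∈ s.2.2) := by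
    intro x hx v hv
    obtain ⟨d, hd⟩ := lkp_isSome.mpr ((mem_labR x v).mp hv)
    have hm := lkp_mem hd
    have h1 := (key x hx).2
    unfold icR at h1
    obtain ⟨_, h1⟩ := cond_false h1
    obtain ⟨_, h1⟩ := cond_false h1
    obtain ⟨d', s, s', a1, a2, a3, a4, a5, a6, a7, a8, a9⟩ :=
      icE_sound ((al_iff _ _).mp h1 _ hm)
    simp only at a1 a2 a5 a6 a9
    refine ⟨d, s, s', hd, ?_, a2, by rw [a4]; exact a3, a5, a6, a7, a8⟩
    rw [show f x v = ap (Ms.getD (L.idxOf x) []) v from rfl, a1]
    have : d' = (d'.1, d'.2) := rfl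
    rw [this, a9, a4]
  have hbf : ∀ x ∈ sL L, Set.BijOn (f x) (labR x) (labR (φ x)) := by
    intro x hx
    have h1 := (key x hx).2
    unfold icR at h1
    obtain ⟨h2, h1⟩ := cond_false h1
    obtain ⟨h3, _⟩ := cond_false h1
    have h2' := Nat.eq_of_beq_eq_true h2
    have h3' := (nd_iff _).mp h3
    rw [apl_eq, fs_eq] at h3'
    have hinj : Set.InjOn (f x) (labR x) := by
      intro a ha b hb hab
      exact List.inj_on_of_nodup_map h3' ((mem_labR x a).mp (Finset.mem_coe.mp ha))
        ((mem_labR x b).mp (Finset.mem_coe.mp hb)) hab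
    have hmaps : Set.MapsTo (f x) (labR x) (labR (φ x)) := by
      intro v hv
      obtain ⟨d, s, s', _, h4, _⟩ := occ x hx v (Finset.mem_coe.mp hv)
      exact Finset.mem_coe.mpr ((mem_labR _ _).mpr (lkp_isSome.mp ⟨_, h4⟩))
    refine ⟨hmaps, hinj, ?_⟩
    have hsub : (labR x).image (f x) ⊆ labR (φ x) := by
      intro v hv
      obtain ⟨u, hu, rfl⟩ := Finset.mem_image.mp hv
      exact hmaps (Finset.mem_coe.mpr hu)
    have hcard : (labR (φ x)).card ≤ ((labR x).image (f x)).card := by
      rw [Finset.card_image_of_injOn hinj]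
      have h5 : (labR x).card = x.2.length := by
        have h6 : (x.2.map Prod.fst).Nodup := List.Nodup.of_map _ h3'
        unfold labR
        rw [List.toFinset_card_of_nodup h6, List.length_map]
      rw [h5, h2']
      unfold labR
      refine (List.toFinset_card_le _).trans ?_
      rw [List.length_map]
    have heq := Finset.eq_of_subset_of_card_le hsub hcard
    intro v hv
    rw [← heq, Finset.coe_image] at hv
    exact hv
  have hnum : ∀ x ∈ L, ∀ v ∈ labR x, ∃ s s', T.get (numR x v) = some [s] ∧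
      T'.get (numR (φ x) (f x v)) = some [s'] ∧ s.1 = numR (φ x) (f x v) ∧ s'.1 = numR x v := by
    intro x hx v hv
    obtain ⟨d, s, s', a1, a2, a3, a4, a5, _⟩ := occ x hx v hv
    have e1 : numR x v = d.1 := by unfold numR; rw [a1]; rfl
    have e2 : numR (φ x) (f x v) = s.1 := by unfold numR; rw [a2]; rfl
    exact ⟨s, s', by rw [e1]; exact a3, by rw [e2]; exact a4, e2.symm, by rw [e1]; exact a5⟩
  obtain ⟨ψ, g, hiso⟩ := iso_of_bij2 (lab := labR) (num := numR) (od := odR) (lab' := labR)
    (num' := numR) (od' := odR) (φ := φ) (f := f) hbij hbf (by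
      intro x hx v hv y hy w hw
      obtain ⟨s, s', a1, a2, a3, a4⟩ := hnum x hx v hv
      obtain ⟨u, u', b1, b2, b3, b4⟩ := hnum y hy w hw
      constructor
      · intro h1
        rw [h1, b2] at a2
        have h2 := Option.some.inj a2
        simp only [List.cons.injEq, and_true] at h2
        rw [← a4, ← b4, h2]
      · intro h1
        rw [h1, b1] at a1
        have h2 := Option.some.inj a1
        simp only [List.cons.injEq, and_true] at h2
        rw [← a3, ← b3, h2]) (fun n => match T.get n with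
          | some [s] => s.2.2
          | _ => []) (by
      intro x hx v hv
      obtain ⟨d, s, s', a1, a2, a3, a4, a5, a6, a7, a8⟩ := occ x hx v hv
      have e1 : numR x v = d.1 := by unfold numR; rw [a1]; rfl
      have e2 : odR x v = d.2 := by unfold odR; rw [a1]; rfl
      have e3 : odR (φ x) (f x v) = (s.2.2.map (fun k => d.2.getD k default)).map (f x) := by
        unfold odR; rw [a2]; rfl
      rw [e1, e2, e3, a3]
      exact ⟨a6, a7, a8, rfl⟩) (by
      intro x hx v hv l hl
      exact ((hL x hx v hv l).mp hl).1)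
  refine ⟨φ, ψ, f, g, hiso, ?_⟩
  intro k x x' m h1 h2 h3
  have hk : L.idxOf x = k := by
    obtain ⟨h4, h5⟩ := List.getElem?_eq_some_iff.mp h1
    rw [← h5]; exact ndL.idxOf_getElem _ _
  constructor
  · simp only [hφ]
    rw [hk, List.getD_eq_getElem?_getD, h2]; rfl
  · intro v
    simp only [hf]
    rw [hk, List.getD_eq_getElem?_getD, h3]; rfl

theorem InvL.gd {L : List Ri} {N : ℕ} (h : InvL L N) : Gd (sL L) := by
  obtain ⟨t, h1, h2⟩ := h
  rw [← h1]; exact h2.gd

/-- Checked isomorphism as a move (no mark). -/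
theorem ch_ic {T T' : Tr} {Ms : List (List (ℕ × ℕ))} {L L' : List Ri} {N : ℕ} (hI : InvL L N)
    (hn : nd (fs L) = true) (hn' : nd (fs L') = true) (h : icL T T' Ms L L' = true) :
    Ch (sL L, none) (sL L', none) := by
  obtain ⟨φ, ψ, f, g, hi, _⟩ := icL_iso hI.gd ((nd_iff _).mp hn) ((nd_iff _).mp hn') h
  exact Relation.ReflTransGen.single (Mv.iso _ _ _ _ hi none)

/-- Checked isomorphism as a move (with mark). -/
theorem ch_icM {T T' : Tr} {Ms : List (List (ℕ × ℕ))} {L L' : List Ri} {N : ℕ} (hI : InvL L N)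
    (hn : nd (fs L) = true) (hn' : nd (fs L') = true) (h : icL T T' Ms L L' = true)
    {k : ℕ} {x x' : Ri} {m : List (ℕ × ℕ)} (h1 : L[k]? = some x) (h2 : L'[k]? = some x')
    (h3 : Ms[k]? = some m) (v : ℕ) :
    Ch (sL L, some (x, v)) (sL L', some (x', ap m v)) := by
  obtain ⟨φ, ψ, f, g, hi, h4⟩ := icL_iso hI.gd ((nd_iff _).mp hn) ((nd_iff _).mp hn') h
  obtain ⟨h5, h6⟩ := h4 k x x' m h1 h2 h3
  have := Mv.iso _ _ _ _ hi (some (x, v))
  simp only [Option.map_some, h5, h6] at this
  exact Relation.ReflTransGen.single this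

end Fl49
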