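import Pool.Agent.Lib_MP_55d5ef_fl.Tab

/-!
Construction of the renumbering trees for `icL`; lists of all records of a table.
-/

set_option linter.unusedSectionVars false

namespace Fl49

open Finset

/-- Position. -/
def pos (v : ℕ) : ℕ → List ℕ → ℕ
  | k, [] => k
  | k, a :: l => cond (Nat.beq a v) k (pos v (k + 1) l)

/-- Positions of the members of the first list in the second. -/
def sgm (o : List ℕ) : List ℕ → List ℕ
  | [] => []
  | v :: l => pos v 0 o :: sgm o l

/-- The trees for a record. -/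
def icR1 (m : List (ℕ × ℕ)) (r' : Rc) : Rc → Tr × Tr → Tr × Tr
  | [], T => T
  | p :: r, T => match lkp (ap m p.1) r' with
    | none => icR1 m r' r T
    | some d => icR1 m r' r (T.1.set fu p.2.1 (some [(d.1, (0, sgm (apl m p.2.2) d.2))]),
        T.2.set fu d.1 (some [(p.2.1, (0, []))]))

/-- The trees for lists. -/
def icT1 : List (List (ℕ × ℕ)) → List Ri → List Ri → Tr × Tr → Tr × Tr
  | m :: Ms, x :: L, x' :: L', T => icT1 Ms L L' (icR1 m x'.2 x.2 T)
  | _, _, _, T => T

/-- The whole check. -/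
def icA (Ms : List (List (ℕ × ℕ))) (L L' : List Ri) : Bool :=
  match icT1 Ms L L' (Tr.e, Tr.e) with
  | (T, T') => icL T T' Ms L L'

theorem icA_sound {Ms : List (List (ℕ × ℕ))} {L L' : List Ri} (h : icA Ms L L' = true) :
    ∃ T T', icL T T' Ms L L' = true := ⟨_, _, h⟩

/-- Decoded label maps: 15 bits (images of the labels `0, .., 4`) or 18 bits; here the images of
`0, .., 5`. -/
def decM : List ℕ → List (List (ℕ × ℕ))
  | [] => []
  | n :: l => [(0, n % 8), (1, n / 8 % 8), (2, n / 64 % 8), (3, n / 512 % 8), (4, n / 4096 % 8),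
      (5, n / 32768 % 8)] :: decM l

/-- The list consists of records `r`. -/
def lisChk (L : List Ri) (n : ℕ) (r : ℕ → Rc) : Bool :=
  cond (Nat.beq L.length n) (cond (nd (fs L)) (al' (fun x : Ri => cond (Nat.blt x.1 n)
    (req x.2 (r x.1)) false) L) false) false

theorem lisChk_sound {L : List Ri} {n : ℕ} {r : ℕ → Rc} (h : lisChk L n r = true) :
    (fs L).Nodup ∧ (∀ x ∈ L, x.1 < n) ∧ Fu (sL L) ∧ ∀ i < n, (i, r i) ∈ L := by
  unfold lisChk at h
  obtain ⟨h1, h⟩ := cond_false h
  obtain ⟨h2, h3⟩ := cond_false h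
  have h1' := Nat.eq_of_beq_eq_true h1
  have h2' := (nd_iff _).mp h2
  have h3' : ∀ x ∈ L, x.1 < n ∧ x.2 = r x.1 := by
    intro x hx
    obtain ⟨h4, h5⟩ := cond_false ((al_iff _ _).mp h3 x hx)
    exact ⟨Nat.ble_eq.mp h4, req_eq _ _ h5⟩
  refine ⟨h2', fun x hx => (h3' x hx).1, ?_, ?_⟩
  · intro x hx y hy hxy
    refine Prod.ext hxy ?_
    rw [(h3' x hx).2, (h3' y hy).2, hxy]
  · intro i hi
    have h4 : (fs L).toFinset = Finset.range n := by
      refine Finset.eq_of_subset_of_card_le ?_ ?_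
      · intro v hv
        rw [List.mem_toFinset, fs_eq] at hv
        obtain ⟨x, hx, rfl⟩ := List.mem_map.mp hv
        exact Finset.mem_range.mpr (h3' x hx).1
      · rw [List.toFinset_card_of_nodup h2', Finset.card_range, fs_eq, List.length_map, h1']
    have h5 : i ∈ fs L := by
      rw [← List.mem_toFinset, h4]; exact Finset.mem_range.mpr hi
    rw [fs_eq] at h5
    obtain ⟨x, hx, rfl⟩ := List.mem_map.mp h5
    have : x = (x.1, r x.1) := Prod.ext rfl (h3' x hx).2
    rw [← this]; exact hx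

end Fl49
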