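import Pool.Agent.Lib_MP_55d5ef_fl.Run

/-!
States as lists of records; parts of a run; the start.
-/

set_option linter.unusedSectionVars false

namespace Fl49

open Finset

/-- The set of records of a list. -/
def sL (L : List Ri) : Set Ri := {x | x ∈ L}

theorem mem_tl : ∀ (t : Tr) (A B : ℕ) (q : Ri), q ∈ tl t A B ↔
    ∃ k, t.get k = some q.2 ∧ q.1 = A * k + B
  | Tr.e, A, B, q => by simp [tl, Tr.get]
  | Tr.n v l r, A, B, q => by
    have key : (q ∈ tl l (2 * A) (A + B) ++ tl r (2 * A) (2 * A + B)) ↔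
        ∃ k, k ≠ 0 ∧ (Tr.n v l r).get k = some q.2 ∧ q.1 = A * k + B := by
      rw [List.mem_append, mem_tl l, mem_tl r]
      constructor
      · rintro (⟨k, h1, h2⟩ | ⟨k, h1, h2⟩)
        · refine ⟨2 * k + 1, by omega, ?_, ?_⟩
          · rw [Tr.get_eq, if_neg (by omega), if_pos (by omega),
              show (2 * k + 1) / 2 = k by omega]
            exact h1
          · rw [h2]; ring
        · refine ⟨2 * k + 2, by omega, ?_, ?_⟩
          · rw [Tr.get_eq, if_neg (by omega), if_neg (by omega),
              show (2 * k + 2) / 2 - 1 = k by omega]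
            exact h1
          · rw [h2]; ring
      · rintro ⟨k, h0, h1, h2⟩
        rw [Tr.get_eq, if_neg h0] at h1
        by_cases hk : k % 2 = 1
        · rw [if_pos hk] at h1
          left
          refine ⟨k / 2, h1, ?_⟩
          rw [h2]
          have : k = 2 * (k / 2) + 1 := by omega
          conv_lhs => rw [this]
          ring
        · rw [if_neg hk] at h1
          right
          refine ⟨k / 2 - 1, h1, ?_⟩
          rw [h2]
          have : k = 2 * (k / 2 - 1) + 2 := by omega
          conv_lhs => rw [this]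
          ring
    rcases v with _ | x
    · rw [tl, key]
      constructor
      · rintro ⟨k, _, h1, h2⟩; exact ⟨k, h1, h2⟩
      · rintro ⟨k, h1, h2⟩
        refine ⟨k, ?_, h1, h2⟩
        rintro rfl
        rw [Tr.get_eq, if_pos rfl] at h1
        cases h1
    · rw [tl, List.mem_cons, key]
      constructor
      · rintro (h | ⟨k, _, h1, h2⟩)
        · subst h
          exact ⟨0, by rw [Tr.get_eq, if_pos rfl]; rfl, by simp⟩
        · exact ⟨k, h1, h2⟩
      · rintro ⟨k, h1, h2⟩
        by_cases hk : k = 0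
        · left
          subst hk
          rw [Tr.get_eq, if_pos rfl] at h1
          refine Prod.ext (by simpa using h2) ?_
          exact (Option.some.inj h1).symm
        · exact Or.inr ⟨k, hk, h1, h2⟩

theorem St_tl (t : Tr) : St t = sL (tl t 1 0) := by
  ext x
  change t.get x.1 = some x.2 ↔ x ∈ tl t 1 0
  rw [mem_tl]
  constructor
  · intro h; exact ⟨x.1, h, by ring⟩
  · rintro ⟨k, h1, h2⟩
    have : k = x.1 := by omega
    rw [← this]; exact h1

theorem req_eq : ∀ r s : Rc, req r s = true → r = s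
  | [], [], _ => rfl
  | [], q :: k, h => by cases h
  | p :: l, [], h => by cases h
  | p :: l, q :: k, h => by
    rw [req] at h
    obtain ⟨h1, h⟩ := cond_false h
    obtain ⟨h2, h⟩ := cond_false h
    obtain ⟨h3, h⟩ := cond_false h
    rw [req_eq l k h]
    have : p = q := Prod.ext (Nat.eq_of_beq_eq_true h1)
      (Prod.ext (Nat.eq_of_beq_eq_true h2) ((leq_iff _ _).mp h3))
    rw [this]

theorem rleq_eq : ∀ r s : List Ri, rleq r s = true → r = s
  | [], [], _ => rfl
  | [], q :: k, h => by cases h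
  | p :: l, [], h => by cases h
  | p :: l, q :: k, h => by
    rw [rleq] at h
    obtain ⟨h1, h⟩ := cond_false h
    obtain ⟨h2, h⟩ := cond_false h
    rw [rleq_eq l k h]
    have : p = q := Prod.ext (Nat.eq_of_beq_eq_true h1) (req_eq _ _ h2)
    rw [this]

theorem bldOk_St {L : List Ri} (h : bldOk L = true) : St (bld L Tr.e) = sL L := by
  rw [St_tl, rleq_eq _ _ h]

theorem Inv.congr {t t' : Tr} {N : ℕ} (h : St t = St t') (hI : Inv t N) : Inv t' N := by
  refine ⟨?_, ?_, ?_, ?_⟩
  · rw [← h]; exact hI.id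
  · rw [← h]; exact hI.gd
  · rw [← h]; exact hI.tw
  · rw [← h]; exact hI.fn

/-- The invariant for lists. -/
def InvL (L : List Ri) (N : ℕ) : Prop := ∃ t, St t = sL L ∧ Inv t N

theorem InvL.bld {L : List Ri} {N : ℕ} (h : InvL L N) (hb : bldOk L = true) :
    Inv (bld L Tr.e) N := by
  obtain ⟨t, h1, h2⟩ := h
  exact h2.congr (h1.trans (bldOk_St hb).symm)

theorem part_sound {L L' : List Ri} {N N' : ℕ} {codes : List ℕ} (hI : InvL L N)
    (hb : bldOk L = true) (hp : part L N codes L' N' = true) :
    InvL L' N' ∧ Ch (sL L, none) (sL L', none) := by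
  unfold part at hp
  split at hp
  · cases hp
  · rename_i r hr
    obtain ⟨h1, h2⟩ := cond_false hp
    obtain ⟨t', N''⟩ := r
    have hN := Nat.eq_of_beq_eq_true h1
    simp only at hN h2
    subst hN
    obtain ⟨h3, h4⟩ := run_sound codes _ _ t' N'' (hI.bld hb) hr
    have h5 : St t' = sL L' := by rw [St_tl, rleq_eq _ _ h2]
    rw [bldOk_St hb, h5] at h4
    exact ⟨⟨t', h5, h3⟩, h4⟩

theorem partM_sound {L L' : List Ri} {N N' v i' v' : ℕ} {x : Ri} {codes : List ℕ}
    (hI : InvL L N) (hx : VP (sL L) (x, v)) (hb : bldOk L = true)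
    (hp : partM L N (x.1, v) codes L' N' (i', v') = true) :
    InvL L' N' ∧ ∃ y : Ri, y.1 = i' ∧ VP (sL L') (y, v') ∧
      Ch (sL L, some (x, v)) (sL L', some (y, v')) := by
  unfold partM at hp
  split at hp
  · cases hp
  · rename_i r hr
    obtain ⟨h1, h⟩ := cond_false hp
    obtain ⟨h6, h⟩ := cond_false h
    obtain ⟨h7, h2⟩ := cond_false h
    obtain ⟨t', N'', i'', v''⟩ := r
    have hN := Nat.eq_of_beq_eq_true h1
    have hi := Nat.eq_of_beq_eq_true h6
    have hv := Nat.eq_of_beq_eq_true h7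
    simp only at hN h2 hi hv
    subst hN hi hv
    have hx' : VP (St (bld L Tr.e)) (x, v) := by rw [bldOk_St hb]; exact hx
    obtain ⟨h3, y, hy, h8, h4⟩ := runM_sound codes _ _ x v t' N'' i'' v'' (hI.bld hb) hx' hr
    have h5 : St t' = sL L' := by rw [St_tl, rleq_eq _ _ h2]
    rw [bldOk_St hb, h5] at h4
    rw [h5] at h8
    exact ⟨⟨t', h5, h3⟩, y, hy, h8, h4⟩

/-! The start. -/

theorem chkR_sound {B : ℕ} {x : Ri} (h : chkR B x.2 = true) :
    (∀ v ∈ labR x, numR x v < B) ∧
    (∀ v ∈ labR x, ∀ l, l ∈ odR x v ↔ l ∈ labR x ∧ l ≠ v) := by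
  have key : ∀ v ∈ labR x, ∃ d, lkp v x.2 = some d ∧ (v, d) ∈ x.2 := by
    intro v hv
    obtain ⟨d, hd⟩ := lkp_isSome.mpr ((mem_labR x v).mp hv)
    exact ⟨d, hd, lkp_mem hd⟩
  have h2 := (al_iff _ _).mp h
  constructor
  · intro v hv
    obtain ⟨d, h3, h4⟩ := key v hv
    obtain ⟨h5, _⟩ := cond_false (h2 _ h4)
    unfold numR
    rw [h3]
    exact Nat.ble_eq.mp h5
  · intro v hv l
    obtain ⟨d, h3, h4⟩ := key v hv
    obtain ⟨_, h6⟩ := cond_false (h2 _ h4)
    obtain ⟨h7, h8⟩ := cond_false h6
    have h7' := (al_iff _ _).mp h7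
    have h8' := (al_iff _ _).mp h8
    unfold odR
    rw [h3]
    change l ∈ d.2 ↔ _
    constructor
    · intro hl
      have := h7' l hl
      rw [cbeq] at this
      by_cases hlv : l = v
      · rw [if_pos hlv] at this; cases this
      · rw [if_neg hlv] at this
        exact ⟨(mem_labR x l).mpr (lkp_isSome.mp (Option.isSome_iff_exists.mp this)), hlv⟩
    · rintro ⟨hl, hlv⟩
      obtain ⟨d', _, h9⟩ := key l hl
      have := h8' _ h9
      simp only at this
      rw [cbeq, if_neg hlv] at this
      exact (el_iff _ _).mp this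

theorem ado_sound (B : ℕ) (hB : B ≤ 1048570) (i : ℕ) : ∀ (r : Rc) (T T' : Tr),
    (∀ p ∈ r, p.2.1 < B) → ado i r T = some T' →
    (∀ n L, T.get n = some L → L.length ≤ 2) →
    (∀ n L, T'.get n = some L → L.length ≤ 2) ∧
    (∀ n L, T.get n = some L → ∃ L', T'.get n = some L' ∧ L ⊆ L') ∧
    (∀ p ∈ r, ∃ L', T'.get p.2.1 = some L' ∧ (i, (p.1, [])) ∈ L')
  | [], T, T', hb, h, hT => by
    rw [ado] at h
    simp only [Option.some.injEq] at h
    subst h
    refine ⟨hT, fun n L hL => ⟨L, hL, fun _ h => h⟩, ?_⟩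
    intro p hp; cases hp
  | p :: r, T, T', hb, h, hT => by
    have hp : p.2.1 < 1048575 := by
      have := hb p List.mem_cons_self
      omega
    unfold ado at h
    split at h
    · rename_i hg
      have hs := get_set' T p.2.1 (x := some [(i, (p.1, []))]) (h := hp)
      obtain ⟨h1, h2, h3⟩ := ado_sound B hB i r _ T' (fun q hq => hb q (List.mem_cons_of_mem _ hq)) h
        (by
          intro n L hL
          rw [hs] at hL
          by_cases hn : n = p.2.1
          · rw [if_pos hn] at hL
            have := Option.some.inj hL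
            subst this; simp
          · rw [if_neg hn] at hL
            exact hT n L hL)
      refine ⟨h1, ?_, ?_⟩
      · intro n L hL
        have hn : n ≠ p.2.1 := by
          rintro rfl
          rw [hg] at hL; cases hL
        exact h2 n L (by rw [hs, if_neg hn]; exact hL)
      · intro q hq
        rcases List.mem_cons.mp hq with hq | hq
        · subst hq
          obtain ⟨L', h4, h5⟩ := h2 q.2.1 [(i, (q.1, []))] (by rw [hs, if_pos rfl])
          exact ⟨L', h4, h5 (List.mem_singleton.mpr rfl)⟩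
        · exact h3 q hq
    · rename_i x hg
      have hs := get_set' T p.2.1 (x := some [x, (i, (p.1, []))]) (h := hp)
      obtain ⟨h1, h2, h3⟩ := ado_sound B hB i r _ T' (fun q hq => hb q (List.mem_cons_of_mem _ hq)) h
        (by
          intro n L hL
          rw [hs] at hL
          by_cases hn : n = p.2.1
          · rw [if_pos hn] at hL
            have := Option.some.inj hL
            subst this; simp
          · rw [if_neg hn] at hL
            exact hT n L hL)
      refine ⟨h1, ?_, ?_⟩
      · intro n L hL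
        by_cases hn : n = p.2.1
        · subst hn
          rw [hg] at hL
          have := Option.some.inj hL
          subst this
          obtain ⟨L', h4, h5⟩ := h2 p.2.1 [x, (i, (p.1, []))] (by rw [hs, if_pos rfl])
          refine ⟨L', h4, fun y hy => h5 ?_⟩
          rw [List.mem_singleton.mp hy]
          exact List.mem_cons_self
        · exact h2 n L (by rw [hs, if_neg hn]; exact hL)
      · intro q hq
        rcases List.mem_cons.mp hq with hq | hq
        · subst hq
          obtain ⟨L', h4, h5⟩ := h2 q.2.1 [x, (i, (q.1, []))] (by rw [hs, if_pos rfl])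
          exact ⟨L', h4, h5 (List.mem_cons_of_mem _ (List.mem_singleton.mpr rfl))⟩
        · exact h3 q hq
    · cases h

theorem adl_sound (B : ℕ) (hB : B ≤ 1048570) : ∀ (L : List Ri) (T T' : Tr),
    (∀ x ∈ L, ∀ p ∈ x.2, p.2.1 < B) → adl L T = some T' →
    (∀ n L, T.get n = some L → L.length ≤ 2) →
    (∀ n L, T'.get n = some L → L.length ≤ 2) ∧
    (∀ n L, T.get n = some L → ∃ L', T'.get n = some L' ∧ L ⊆ L') ∧
    (∀ x ∈ L, ∀ p ∈ x.2, ∃ L', T'.get p.2.1 = some L' ∧ (x.1, (p.1, [])) ∈ L')
  | [], T, T', hb, h, hT => by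
    rw [adl] at h
    simp only [Option.some.injEq] at h
    subst h
    refine ⟨hT, fun n L hL => ⟨L, hL, fun _ h => h⟩, ?_⟩
    intro p hp; cases hp
  | x :: l, T, T', hb, h, hT => by
    rw [adl] at h
    split at h
    · cases h
    · rename_i T1 hT1
      obtain ⟨h1, h2, h3⟩ := ado_sound B hB x.1 x.2 T T1 (hb x List.mem_cons_self) hT1 hT
      obtain ⟨h4, h5, h6⟩ := adl_sound B hB l T1 T' (fun y hy => hb y (List.mem_cons_of_mem _ hy))
        h h1
      refine ⟨h4, ?_, ?_⟩
      · intro n L hL
        obtain ⟨L1, h7, h8⟩ := h2 n L hL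
        obtain ⟨L2, h9, h10⟩ := h5 n L1 h7
        exact ⟨L2, h9, fun y hy => h10 (h8 hy)⟩
      · intro y hy p hp
        rcases List.mem_cons.mp hy with hy | hy
        · subst hy
          obtain ⟨L1, h7, h8⟩ := h3 p hp
          obtain ⟨L2, h9, h10⟩ := h5 _ L1 h7
          exact ⟨L2, h9, h10 h8⟩
        · exact h6 y hy p hp

theorem two_of_three {α : Type} {L : List α} (h : L.length ≤ 2) {a b c : α} (ha : a ∈ L)
    (hb : b ∈ L) (hc : c ∈ L) : a = b ∨ a = c ∨ b = c := by
  match L, h with
  | [], _ => cases ha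
  | [x], _ =>
    rw [List.mem_singleton.mp ha, List.mem_singleton.mp hb]; exact Or.inl rfl
  | [x, y], _ =>
    simp only [List.mem_cons, List.not_mem_nil, or_false] at ha hb hc
    rcases ha with ha | ha <;> rcases hb with hb | hb <;> rcases hc with hc | hc <;>
      subst ha hb <;> simp_all
  | x :: y :: z :: l, h => simp at h

/-- The invariant holds for a checked list. -/
theorem inv_of_ok {L : List Ri} {N : ℕ} (hb : bldOk L = true) (h : okI L N = true) :
    InvL L N := by
  have hSt := bldOk_St hb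
  unfold okI at h
  obtain ⟨h1, h⟩ := cond_false h
  obtain ⟨h2, h⟩ := cond_false h
  obtain ⟨h3, h4⟩ := cond_false h
  have hB : 8 * N ≤ 1048570 := Nat.ble_eq.mp h1
  have h2' := (al_iff _ _).mp h2
  have h3' := (al_iff _ _).mp h3
  obtain ⟨T, hT⟩ := Option.isSome_iff_exists.mp h4
  have hnum : ∀ x ∈ L, ∀ p ∈ x.2, p.2.1 < 8 * N := by
    intro x hx p hp
    have := (al_iff _ _).mp (h3' x hx) p hp
    exact Nat.ble_eq.mp (cond_false this).1
  obtain ⟨g1, _, g3⟩ := adl_sound (8 * N) hB L Tr.e T hnum hT (by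
    intro n L hL; cases hL)
  refine ⟨_, hSt, ?_⟩
  refine ⟨?_, ?_, ?_, ?_⟩
  · rw [hSt]; intro x hx
    exact Nat.ble_eq.mp (h2' x hx)
  · rw [hSt]; intro x hx
    exact (chkR_sound (h3' x hx)).2
  · have hFu := Fu_St (bld L Tr.e)
    rw [hSt] at hFu ⊢
    intro x hx v hv y hy w hw z hz u hu e1 e2
    have key : ∀ x ∈ L, ∀ v ∈ labR x, ∃ L', T.get (numR x v) = some L' ∧ (x.1, (v, [])) ∈ L' := by
      intro x hx v hv
      obtain ⟨d, hd⟩ := lkp_isSome.mpr ((mem_labR x v).mp hv)
      have hm := lkp_mem hd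
      have := g3 x hx _ hm
      have e : numR x v = d.1 := by unfold numR; rw [hd]; rfl
      rw [e]; exact this
    obtain ⟨L1, a1, b1⟩ := key x hx v hv
    obtain ⟨L2, a2, b2⟩ := key y hy w hw
    obtain ⟨L3, a3, b3⟩ := key z hz u hu
    rw [← e1, a1] at a2
    rw [← e2, a1] at a3
    have l2 := Option.some.inj a2
    have l3 := Option.some.inj a3
    subst l2 l3
    have hlen := g1 _ _ a1
    have fin : ∀ x y : Ri, x ∈ L → y ∈ L → ∀ v w : ℕ,
        ((x.1, (v, [])) : ℕ × (ℕ × List ℕ)) = (y.1, (w, [])) → (x, v) = (y, w) := by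
      intro x y hx hy v w h
      simp only [Prod.mk.injEq] at h
      have := hFu x hx y hy h.1
      rw [this, h.2.1]
    rcases two_of_three hlen b1 b2 b3 with h5 | h5 | h5
    · exact Or.inl (fin x y hx hy v w h5)
    · exact Or.inr (Or.inl (fin x z hx hz v u h5))
    · exact Or.inr (Or.inr (fin y z hy hz w u h5))
  · rw [hSt]; intro x hx
    exact (chkR_sound (h3' x hx)).1

end Fl49
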