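import Pool.Agent.Lib_MP_55d5ef_fl.Def

/-!
Basic facts on the executable functions.
-/

namespace Fl49

theorem cbeq {α : Sort*} (a b : ℕ) (x y : α) : cond (Nat.beq a b) x y = if a = b then x else y := by
  by_cases h : a = b
  · subst h
    rw [if_pos rfl, show Nat.beq a a = true from Nat.beq_refl a]; rfl
  · rw [if_neg h]
    have : Nat.beq a b = false := by
      rcases hb : Nat.beq a b with _ | _
      · rfl
      · exact absurd (Nat.eq_of_beq_eq_true hb) h
    rw [this]; rfl

section lkp

variable {α : Type}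

theorem lkp_cons (v : ℕ) (p : ℕ × α) (l : List (ℕ × α)) :
    lkp v (p :: l) = if p.1 = v then some p.2 else lkp v l := by
  rw [lkp, cbeq]

theorem lkp_none (v : ℕ) (l : List (ℕ × α)) : lkp v l = none ↔ v ∉ l.map Prod.fst := by
  induction l with
  | nil => simp [lkp]
  | cons p l ih =>
    rw [lkp_cons]
    by_cases h : p.1 = v
    · simp [h]
    · simp only [h, if_false, ih, List.map_cons, List.mem_cons, not_or]
      exact ⟨fun hh => ⟨fun h2 => h h2.symm, hh⟩, fun hh => hh.2⟩

theorem lkp_mem {v : ℕ} {l : List (ℕ × α)} {x : α} (h : lkp v l = some x) : (v, x) ∈ l := by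
  induction l with
  | nil => simp [lkp] at h
  | cons p l ih =>
    rw [lkp_cons] at h
    by_cases hp : p.1 = v
    · rw [if_pos hp] at h
      have : p = (v, x) := Prod.ext hp (Option.some.inj h)
      rw [this]; exact List.mem_cons_self
    · rw [if_neg hp] at h
      exact List.mem_cons_of_mem _ (ih h)

theorem lkp_isSome {v : ℕ} {l : List (ℕ × α)} : (∃ x, lkp v l = some x) ↔ v ∈ l.map Prod.fst := by
  constructor
  · rintro ⟨x, hx⟩
    by_contra hc
    rw [(lkp_none v l).mpr hc] at hx
    cases hx
  · intro h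
    rcases hl : lkp v l with _ | x
    · exact absurd h ((lkp_none v l).mp hl)
    · exact ⟨x, rfl⟩

theorem lkp_of_mem {v : ℕ} {l : List (ℕ × α)} (hn : (l.map Prod.fst).Nodup) {x : α}
    (h : (v, x) ∈ l) : lkp v l = some x := by
  induction l with
  | nil => simp at h
  | cons p l ih =>
    rw [lkp_cons]
    rw [List.map_cons, List.nodup_cons] at hn
    rcases List.mem_cons.mp h with h | h
    · subst h; simp
    · by_cases hp : p.1 = v
      · exfalso
        apply hn.1
        rw [hp]
        exact List.mem_map.mpr ⟨(v, x), h, rfl⟩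
      · rw [if_neg hp]; exact ih hn.2 h

theorem lkp_append (v : ℕ) (l k : List (ℕ × α)) :
    lkp v (l ++ k) = (lkp v l).elim (lkp v k) some := by
  induction l with
  | nil => simp [lkp]
  | cons p l ih =>
    rw [List.cons_append, lkp_cons, lkp_cons]
    by_cases hp : p.1 = v
    · simp [hp]
    · rw [if_neg hp, if_neg hp, ih]

theorem lkp_append_left {v : ℕ} {l k : List (ℕ × α)} {x : α} (h : lkp v l = some x) :
    lkp v (l ++ k) = some x := by
  rw [lkp_append, h]; rfl

theorem lkp_append_right {v : ℕ} {l k : List (ℕ × α)} (h : v ∉ l.map Prod.fst) :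
    lkp v (l ++ k) = lkp v k := by
  rw [lkp_append, (lkp_none v l).mpr h]; rfl

end lkp

theorem el_iff (v : ℕ) (l : List ℕ) : el v l = true ↔ v ∈ l := by
  induction l with
  | nil => simp [el]
  | cons a l ih =>
    rw [el, cbeq]
    by_cases h : a = v
    · simp [h]
    · rw [if_neg h, ih, List.mem_cons]
      exact ⟨fun hh => Or.inr hh, fun hh => hh.resolve_left (fun h2 => h h2.symm)⟩

theorem nd_iff (l : List ℕ) : nd l = true ↔ l.Nodup := by
  induction l with
  | nil => simp [nd]
  | cons a l ih =>
    rw [nd, List.nodup_cons, ← el_iff]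
    cases h : el a l
    · simp [ih]
    · simp

theorem al_iff {α : Type} (p : α → Bool) (l : List α) : al' p l = true ↔ ∀ x ∈ l, p x = true := by
  induction l with
  | nil => simp [al']
  | cons a l ih =>
    rw [al']
    cases h : p a
    · simp [h]
    · simp [h, ih]

theorem leq_iff (l k : List ℕ) : leq l k = true ↔ l = k := by
  induction l generalizing k with
  | nil => cases k <;> simp [leq]
  | cons a l ih =>
    cases k with
    | nil => simp [leq]
    | cons b k =>
      rw [leq, cbeq]
      by_cases h : a = b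
      · rw [if_pos h, ih]; simp [h]
      · rw [if_neg h]; simp [h]

theorem apl_eq (m : List (ℕ × ℕ)) (l : List ℕ) : apl m l = l.map (ap m) := by
  induction l with
  | nil => rfl
  | cons a l ih => rw [apl, ih]; rfl

theorem ap_nil (v : ℕ) : ap [] v = v := rfl

theorem apl_nil (l : List ℕ) : apl [] l = l := by
  rw [apl_eq]
  have : ap [] = id := funext ap_nil
  rw [this, List.map_id]

theorem ren_nil (r : Rc) : ren [] r = r := by
  induction r with
  | nil => rfl
  | cons p l ih => rw [ren, ih, apl_nil, ap_nil]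

theorem ren_fst (m : List (ℕ × ℕ)) (r : Rc) :
    (ren m r).map Prod.fst = (r.map Prod.fst).map (ap m) := by
  induction r with
  | nil => rfl
  | cons p l ih => rw [ren, List.map_cons, ih]; rfl

theorem ren_length (m : List (ℕ × ℕ)) (r : Rc) : (ren m r).length = r.length := by
  induction r with
  | nil => rfl
  | cons p l ih => rw [ren, List.length_cons, ih]; rfl

theorem lkp_ren (m : List (ℕ × ℕ)) (r : Rc)
    (hi : ∀ v ∈ r.map Prod.fst, ∀ w ∈ r.map Prod.fst, ap m v = ap m w → v = w) {v : ℕ}
    (hv : v ∈ r.map Prod.fst) :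
    lkp (ap m v) (ren m r) = (lkp v r).map (fun d => (d.1, d.2.map (ap m))) := by
  induction r with
  | nil => simp at hv
  | cons p l ih =>
    rw [ren, lkp_cons, lkp_cons]
    simp only
    by_cases h : p.1 = v
    · rw [if_pos (by rw [h]), if_pos h, apl_eq]; rfl
    · rw [if_neg h, if_neg]
      · refine ih (fun a ha b hb => hi a (List.mem_cons_of_mem _ ha) b (List.mem_cons_of_mem _ hb)) ?_
        exact (List.mem_cons.mp hv).resolve_left (fun h2 => h h2.symm)
      · intro hc
        exact h (hi p.1 List.mem_cons_self v hv hc)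

theorem mv_ren (m : List (ℕ × ℕ)) (r : Rc) {v : ℕ} (hv : v ∈ r.map Prod.fst) :
    mv v r (ren m r) = ap m v := by
  induction r with
  | nil => simp at hv
  | cons p l ih =>
    rw [ren, mv, cbeq]
    by_cases h : p.1 = v
    · rw [if_pos h, h]
    · rw [if_neg h]
      exact ih ((List.mem_cons.mp hv).resolve_left (fun h2 => h h2.symm))

theorem idl_eq (l : List (ℕ × (ℕ × Rc))) : idl l = l.map (fun p => p.2.1) := by
  induction l with
  | nil => rfl
  | cons p l ih => rw [idl, ih]; rfl

theorem cd_comm (N i j : ℕ) : cd N i j = cd N j i := by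
  unfold cd
  rcases lt_trichotomy i j with h | h | h
  · have h1 : Nat.ble i j = true := Nat.ble_eq.mpr h.le
    have h2 : Nat.ble j i = false := by
      rcases hb : Nat.ble j i with _ | _
      · rfl
      · exact absurd (Nat.ble_eq.mp hb) (by omega)
    rw [h1, h2]; rfl
  · subst h; rfl
  · have h1 : Nat.ble j i = true := Nat.ble_eq.mpr h.le
    have h2 : Nat.ble i j = false := by
      rcases hb : Nat.ble i j with _ | _
      · rfl
      · exact absurd (Nat.ble_eq.mp hb) (by omega)
    rw [h1, h2]; rfl

theorem cd_lt (N : ℕ) {i j : ℕ} (h : i < j) : cd N i j = 8 * (N + i) + j := by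
  unfold cd
  rw [show Nat.ble i j = true from Nat.ble_eq.mpr h.le]; rfl

theorem cd_bd (N : ℕ) {i j m : ℕ} (h : i ≠ j) (hi : i < m) (hj : j < m) (hm : m ≤ 7) :
    8 * N ≤ cd N i j ∧ cd N i j < 8 * (N + m) := by
  rcases lt_or_gt_of_ne h with h | h
  · rw [cd_lt N h]; omega
  · rw [cd_comm, cd_lt N h]; omega

theorem cd_inj (N : ℕ) {i j k l : ℕ} (hij : i ≠ j) (hkl : k ≠ l) (hi : i < 8) (hj : j < 8)
    (hk : k < 8) (hl : l < 8) (h : cd N i j = cd N k l) : (i = k ∧ j = l) ∨ (i = l ∧ j = k) := by
  rcases lt_or_gt_of_ne hij with h1 | h1 <;> rcases lt_or_gt_of_ne hkl with h2 | h2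
  · rw [cd_lt N h1, cd_lt N h2] at h; omega
  · rw [cd_lt N h1, cd_comm N k l, cd_lt N h2] at h; omega
  · rw [cd_comm N i j, cd_lt N h1, cd_lt N h2] at h; omega
  · rw [cd_comm N i j, cd_comm N k l, cd_lt N h1, cd_lt N h2] at h; omega

theorem dl_comm (a b : ℕ) (l : List ℕ) : dl a b l = dl b a l := by
  induction l with
  | nil => rfl
  | cons v l ih =>
    simp only [dl, cbeq, ih]
    split_ifs <;> rfl

theorem mem_dl (a b : ℕ) (l : List ℕ) (v : ℕ) : v ∈ dl a b l ↔ v ∈ l ∧ v ≠ a ∧ v ≠ b := by
  induction l with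
  | nil => simp [dl]
  | cons w l ih =>
    simp only [dl, cbeq]
    by_cases h1 : w = a
    · rw [if_pos h1, ih, List.mem_cons]
      constructor
      · rintro ⟨h, h2, h3⟩; exact ⟨Or.inr h, h2, h3⟩
      · rintro ⟨h | h, h2, h3⟩
        · exact absurd (h.trans h1) h2
        · exact ⟨h, h2, h3⟩
    · rw [if_neg h1]
      by_cases h2 : w = b
      · rw [if_pos h2, ih, List.mem_cons]
        constructor
        · rintro ⟨h, h4, h3⟩; exact ⟨Or.inr h, h4, h3⟩
        · rintro ⟨h | h, h4, h3⟩
          · exact absurd (h.trans h2) h3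
          · exact ⟨h, h4, h3⟩
      · rw [if_neg h2, List.mem_cons, ih, List.mem_cons]
        constructor
        · rintro (h | ⟨h, h4, h3⟩)
          · subst h; exact ⟨Or.inl rfl, h1, h2⟩
          · exact ⟨Or.inr h, h4, h3⟩
        · rintro ⟨h | h, h4, h3⟩
          · exact Or.inl h
          · exact Or.inr ⟨h, h4, h3⟩

/-! Trees. -/

theorem Tr.get_eq (t : Tr) (k : ℕ) : t.get k = if k = 0 then t.v else
    if k % 2 = 1 then t.l.get (k / 2) else t.r.get (k / 2 - 1) := by
  cases t with
  | e =>
    simp only [Tr.get, Tr.v, Tr.l, Tr.r]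
    split_ifs <;> rfl
  | n v l r =>
    rw [Tr.get, cbeq, cbeq]; rfl

theorem Tr.get_set : ∀ (f : ℕ) (t : Tr) (k j : ℕ) (x : Option Rc), k + 1 < 2 ^ f →
    (Tr.set f t k x).get j = if j = k then x else t.get j
  | 0, t, k, j, x, h => by simp at h
  | f + 1, t, k, j, x, h => by
    rw [Tr.set, cbeq, cbeq]
    by_cases hk : k = 0
    · rw [if_pos hk, Tr.get_eq]
      by_cases hj : j = 0
      · rw [if_pos hj, if_pos (hj.trans hk.symm)]; rfl
      · rw [if_neg hj, Tr.get_eq t j, if_neg hj,
          if_neg (show ¬ j = k from fun h2 => hj (h2.trans hk))]; rfl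
    · rw [if_neg hk]
      by_cases hk1 : k % 2 = 1
      · rw [if_pos hk1, Tr.get_eq]
        by_cases hj : j = 0
        · rw [if_pos hj, if_neg (fun h2 => hk (h2.symm.trans hj)), hj, Tr.get_eq t 0, if_pos rfl]
          rfl
        · rw [if_neg hj]
          by_cases hj1 : j % 2 = 1
          · rw [if_pos hj1]
            change (Tr.set f t.l (k / 2) x).get (j / 2) = _
            rw [Tr.get_set f t.l (k / 2) (j / 2) x (by rw [pow_succ] at h; omega)]
            rw [Tr.get_eq t j, if_neg hj, if_pos hj1]
            have : (j / 2 = k / 2) ↔ (j = k) := by omega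
            simp only [this]
          · rw [if_neg hj1]
            rw [Tr.get_eq t j, if_neg hj, if_neg hj1, if_neg (by rintro rfl; exact hj1 hk1)]
            rfl
      · rw [if_neg hk1, Tr.get_eq]
        by_cases hj : j = 0
        · rw [if_pos hj, if_neg (fun h2 => hk (h2.symm.trans hj)), hj, Tr.get_eq t 0, if_pos rfl]
          rfl
        · rw [if_neg hj]
          by_cases hj1 : j % 2 = 1
          · rw [if_pos hj1]
            rw [Tr.get_eq t j, if_neg hj, if_pos hj1, if_neg (by rintro rfl; exact hk1 hj1)]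
            rfl
          · rw [if_neg hj1]
            change (Tr.set f t.r (k / 2 - 1) x).get (j / 2 - 1) = _
            rw [Tr.get_set f t.r (k / 2 - 1) (j / 2 - 1) x (by rw [pow_succ] at h; omega)]
            rw [Tr.get_eq t j, if_neg hj, if_neg hj1]
            have : (j / 2 - 1 = k / 2 - 1) ↔ (j = k) := by omega
            simp only [this]

theorem get_set' (t : Tr) (k j : ℕ) (x : Option Rc) (h : k < 1048575) :
    (t.set fu k x).get j = if j = k then x else t.get j :=
  Tr.get_set fu t k j x (by unfold fu; norm_num; omega)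

theorem get_rem (l : List (ℕ × (ℕ × Rc))) (t : Tr) (j : ℕ) (h : ∀ p ∈ l, p.2.1 < 1048575) :
    (rem l t).get j = if j ∈ idl l then none else t.get j := by
  induction l generalizing t with
  | nil => simp [rem, idl]
  | cons p l ih =>
    rw [rem, ih _ (fun q hq => h q (List.mem_cons_of_mem _ hq)),
      get_set' _ _ _ _ (h p List.mem_cons_self), idl]
    by_cases h1 : j ∈ idl l
    · rw [if_pos h1, if_pos (List.mem_cons_of_mem _ h1)]
    · rw [if_neg h1]
      by_cases h2 : j = p.2.1
      · rw [if_pos h2, if_pos (List.mem_cons.mpr (Or.inl h2))]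
      · rw [if_neg h2, if_neg (fun hc => (List.mem_cons.mp hc).elim h2 h1)]

theorem get_ins_out (l : List (ℕ × (ℕ × Rc))) (t : Tr) (j : ℕ) (h : ∀ p ∈ l, p.2.1 < 1048575)
    (hj : j ∉ idl l) : (ins l t).get j = t.get j := by
  induction l generalizing t with
  | nil => rfl
  | cons p l ih =>
    rw [idl, List.mem_cons, not_or] at hj
    rw [ins, ih _ (fun q hq => h q (List.mem_cons_of_mem _ hq)) hj.2,
      get_set' _ _ _ _ (h p List.mem_cons_self), if_neg hj.1]

theorem get_ins_in (l : List (ℕ × (ℕ × Rc))) (t : Tr) (h : ∀ p ∈ l, p.2.1 < 1048575)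
    (hn : (idl l).Nodup) {p : ℕ × (ℕ × Rc)} (hp : p ∈ l) : (ins l t).get p.2.1 = some p.2.2 := by
  induction l generalizing t with
  | nil => simp at hp
  | cons q l ih =>
    rw [idl, List.nodup_cons] at hn
    rw [ins]
    rcases List.mem_cons.mp hp with h1 | h1
    · subst h1
      rw [get_ins_out l _ _ (fun q hq => h q (List.mem_cons_of_mem _ hq)) hn.1,
        get_set' _ _ _ _ (h p List.mem_cons_self), if_pos rfl]
    · exact ih _ (fun q hq => h q (List.mem_cons_of_mem _ hq)) hn.2 h1

theorem fet_spec (t : Tr) (rp : Rc) (e p : ℕ) (hp : t.get p = some rp) :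
    ∀ (bs is : List ℕ) (cs : List (ℕ × (ℕ × Rc))), fet t rp e p bs is = some cs →
      cs.map Prod.fst = bs ∧ ∀ q ∈ cs, ∃ r m, t.get q.2.1 = some r ∧ q.2.2 = ren m r := by
  intro bs
  induction bs with
  | nil =>
    intro is cs h
    simp only [fet, Option.some.injEq] at h
    subst h; simp
  | cons b bs ih =>
    intro is cs h
    unfold fet at h
    split at h
    · split at h
      · cases h
      · rename_i l hl
        simp only [Option.some.injEq] at h
        subst h
        obtain ⟨h1, h2⟩ := ih is l hl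
        refine ⟨by rw [List.map_cons, h1], ?_⟩
        intro q hq
        rcases List.mem_cons.mp hq with hq | hq
        · subst hq; exact ⟨rp, [], hp, (ren_nil rp).symm⟩
        · exact h2 q hq
    · split at h
      · cases h
      · rename_i i is'
        split at h
        · cases h
        · rename_i r hr
          split at h
          · cases h
          · rename_i l hl
            simp only [Option.some.injEq] at h
            subst h
            obtain ⟨h1, h2⟩ := ih is' l hl
            refine ⟨by rw [List.map_cons, h1], ?_⟩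
            intro q hq
            rcases List.mem_cons.mp hq with hq | hq
            · subst hq; exact ⟨r, _, hr, rfl⟩
            · exact h2 q hq

theorem new_spec (N : ℕ) (ab as : List ℕ) (cs : List (ℕ × (ℕ × Rc))) : ∀ (l : List ℕ) (k : ℕ),
    new N ab as cs k l = (l.zipIdx k).map (fun q => (q.1, (N + q.2, nb1 q.1 cs ++ nb2 N q.1 q.2 ab 0 as)))
  | [], k => by rw [new]; rfl
  | a :: l, k => by
    rw [new, new_spec N ab as cs l (k + 1)]; rfl

end Fl49
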