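import Pool.Agent.Lib_MP_55d5ef_fl.Chk

/-!
The new records of a flip.
-/

set_option linter.unusedSectionVars false

namespace Fl49

open Finset

theorem nb1_eq (a : ℕ) (cs : List (ℕ × (ℕ × Rc))) :
    nb1 a cs = cs.map (fun p => (p.1, (lkp a p.2.2).getD (0, []))) := by
  induction cs with
  | nil => rfl
  | cons p l ih => rw [nb1, ih]; rfl

theorem nb1_fst (a : ℕ) (cs : List (ℕ × (ℕ × Rc))) : (nb1 a cs).map Prod.fst = cs.map Prod.fst := by
  rw [nb1_eq, List.map_map]; rfl

theorem nb2_sub (N a k : ℕ) (ab : List ℕ) : ∀ (l : List ℕ) (j : ℕ),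
    ((nb2 N a k ab j l).map Prod.fst).Sublist l
  | [], j => by rw [nb2]; exact List.Sublist.refl _
  | v :: l, j => by
    rw [nb2, cbeq]
    by_cases h : j = k
    · rw [if_pos h]; exact (nb2_sub N a k ab l (j + 1)).cons v
    · rw [if_neg h, List.map_cons]; exact (nb2_sub N a k ab l (j + 1)).cons_cons v

theorem mem_nb2 (N a k : ℕ) (ab : List ℕ) (q : En) : ∀ (l : List ℕ) (j : ℕ),
    q ∈ nb2 N a k ab j l ↔ ∃ i, l[i]? = some q.1 ∧ j + i ≠ k ∧ q.2 = (cd N k (j + i), dl a q.1 ab)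
  | [], j => by rw [nb2]; simp
  | v :: l, j => by
    rw [nb2, cbeq]
    by_cases h : j = k
    · rw [if_pos h, mem_nb2 N a k ab q l (j + 1)]
      constructor
      · rintro ⟨i, h1, h2, h3⟩
        refine ⟨i + 1, by rw [List.getElem?_cons_succ]; exact h1, by omega, ?_⟩
        rw [h3, show j + 1 + i = j + (i + 1) by ring]
      · rintro ⟨i, h1, h2, h3⟩
        rcases i with _ | i
        · exact absurd h h2
        · refine ⟨i, by rw [List.getElem?_cons_succ] at h1; exact h1, by omega, ?_⟩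
          rw [h3, show j + 1 + i = j + (i + 1) by ring]
    · rw [if_neg h, List.mem_cons, mem_nb2 N a k ab q l (j + 1)]
      constructor
      · rintro (h1 | ⟨i, h1, h2, h3⟩)
        · refine ⟨0, by rw [h1]; rfl, h, ?_⟩
          rw [h1]; rfl
        · refine ⟨i + 1, by rw [List.getElem?_cons_succ]; exact h1, by omega, ?_⟩
          rw [h3, show j + 1 + i = j + (i + 1) by ring]
      · rintro ⟨i, h1, h2, h3⟩
        rcases i with _ | i
        · left
          rw [List.getElem?_cons_zero] at h1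
          have h4 := (Option.some.inj h1).symm
          refine Prod.ext h4 ?_
          rw [h3, h4]; rfl
        · right
          refine ⟨i, by rw [List.getElem?_cons_succ] at h1; exact h1, by omega, ?_⟩
          rw [h3, show j + 1 + i = j + (i + 1) by ring]

section prp

variable {as bs : List ℕ} {cs : List (ℕ × Ri)} {t : Tr} {N : ℕ}

/-- The list of new records. -/
abbrev nl (N : ℕ) (as bs : List ℕ) (cs : List (ℕ × Ri)) : List (ℕ × Ri) :=
  new N (as ++ bs) as cs 0 as

/-- position. -/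
abbrev ix (as : List ℕ) (a : ℕ) : ℕ := as.idxOf a

theorem nl_fst : (nl N as bs cs).map Prod.fst = as := by
  unfold nl
  rw [new_spec, List.map_map]
  have : (Prod.fst ∘ fun q : ℕ × ℕ => (q.1, (N + q.2, nb1 q.1 cs ++ nb2 N q.1 q.2 (as ++ bs) 0 as)))
      = (Prod.fst : ℕ × ℕ → ℕ) := rfl
  rw [this]
  exact List.zipIdx_map_fst 0 as

theorem Prep.cn (h : Prep as bs cs t N) {a : ℕ} (ha : a ∈ as) :
    cc (nl N as bs cs) a = (N + ix as a, nb1 a cs ++ nb2 N a (ix as a) (as ++ bs) 0 as) := by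
  have hm : ((a, (N + ix as a, nb1 a cs ++ nb2 N a (ix as a) (as ++ bs) 0 as)) : ℕ × Ri) ∈
      nl N as bs cs := by
    unfold nl
    rw [new_spec, List.mem_map]
    exact ⟨(a, ix as a), List.mk_mem_zipIdx_iff_getElem?.mpr (List.getElem?_idxOf ha), rfl⟩
  exact cc_eq (by rw [nl_fst]; exact h.nda) hm

theorem Prep.nid (h : Prep as bs cs t N) {a : ℕ} (ha : a ∈ as) :
    (cc (nl N as bs cs) a).1 = N + ix as a := by rw [h.cn ha]

theorem Prep.ix_lt (_h : Prep as bs cs t N) {a : ℕ} (ha : a ∈ as) : ix as a < as.length :=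
  List.idxOf_lt_length_of_mem ha

theorem Prep.ix_inj (_h : Prep as bs cs t N) {a b : ℕ} (ha : a ∈ as)
    (hab : ix as a = ix as b) : a = b := (List.idxOf_inj ha).mp hab

theorem Prep.nls (h : Prep as bs cs t N) {a : ℕ} (ha : a ∈ as) :
    ((cc (nl N as bs cs) a).2.map Prod.fst).Nodup := by
  rw [h.cn ha]
  simp only
  rw [List.map_append, nb1_fst, h.fb]
  rw [List.nodup_append]
  refine ⟨h.ndb, (h.nda).sublist (nb2_sub _ _ _ _ _ _), ?_⟩
  intro x hx y hy hxy
  subst hxy
  exact h.dj ((nb2_sub N a (ix as a) (as ++ bs) as 0).subset hy) hx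

theorem Prep.lkb (h : Prep as bs cs t N) {a b : ℕ} (ha : a ∈ as) (hb : b ∈ bs) :
    lkp b (cc (nl N as bs cs) a).2 = some ((lkp a (cc cs b).2).getD (0, [])) := by
  refine lkp_of_mem (h.nls ha) ?_
  rw [h.cn ha]
  simp only
  refine List.mem_append_left _ ?_
  rw [nb1_eq, List.mem_map]
  exact ⟨_, h.mem hb, rfl⟩

theorem Prep.lka (h : Prep as bs cs t N) {a v : ℕ} (ha : a ∈ as) (hv : v ∈ as) (hav : a ≠ v) :
    lkp v (cc (nl N as bs cs) a).2 = some (cd N (ix as a) (ix as v), dl a v (as ++ bs)) := by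
  refine lkp_of_mem (h.nls ha) ?_
  rw [h.cn ha]
  simp only
  refine List.mem_append_right _ ?_
  rw [mem_nb2]
  refine ⟨ix as v, List.getElem?_idxOf hv, ?_, ?_⟩
  · intro hc
    rw [zero_add] at hc
    exact hav (h.ix_inj hv hc).symm
  · rw [zero_add]

theorem Prep.nlab (h : Prep as bs cs t N) {a : ℕ} (ha : a ∈ as) :
    labR (cc (nl N as bs cs) a) = (as.toFinset ∪ bs.toFinset).erase a := by
  ext v
  rw [Finset.mem_erase, Finset.mem_union, List.mem_toFinset, List.mem_toFinset, mem_labR]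
  constructor
  · intro hv
    rw [h.cn ha] at hv
    simp only at hv
    rw [List.map_append, List.mem_append, nb1_fst, h.fb] at hv
    rcases hv with hv | hv
    · exact ⟨fun hc => h.dj ha (hc ▸ hv), Or.inr hv⟩
    · obtain ⟨q, hq, rfl⟩ := List.mem_map.mp hv
      rw [mem_nb2] at hq
      obtain ⟨i, h1, h2, h3⟩ := hq
      have hi := List.mem_of_getElem? h1
      refine ⟨?_, Or.inl hi⟩
      intro hc
      apply h2
      rw [zero_add]
      rw [hc] at h1
      have h4 : as[i]? = as[ix as a]? := by rw [h1, List.getElem?_idxOf ha]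
      obtain ⟨h5, h6⟩ := List.getElem?_eq_some_iff.mp h1
      exact (List.getElem?_inj h5 h.nda).mp h4
  · rintro ⟨h1, h2 | h2⟩
    · exact lkp_isSome.mp ⟨_, h.lka ha h2 (fun hc => h1 hc.symm)⟩
    · exact lkp_isSome.mp ⟨_, h.lkb ha h2⟩

theorem Prep.nbd (h : Prep as bs cs t N) {a b : ℕ} (ha : a ∈ as) (hb : b ∈ bs) :
    numR (cc cs b) a = numR (cc (nl N as bs cs) a) b ∧
      odR (cc cs b) a = odR (cc (nl N as bs cs) a) b := by
  unfold numR odR
  rw [h.lkb ha hb]
  exact ⟨rfl, rfl⟩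

theorem Prep.nin (h : Prep as bs cs t N) {a v : ℕ} (ha : a ∈ as) (hv : v ∈ as) (hav : a ≠ v) :
    numR (cc (nl N as bs cs) a) v = cd N (ix as a) (ix as v) ∧
      odR (cc (nl N as bs cs) a) v = dl a v (as ++ bs) := by
  unfold numR odR
  rw [h.lka ha hv hav]
  exact ⟨rfl, rfl⟩

theorem Prep.gin (h : Prep as bs cs t N) {a v : ℕ} (ha : a ∈ bs) (hv : v ∈ bs) (hav : a ≠ v) :
    numR (cc cs a) v = numR (cc cs v) a ∧ odR (cc cs a) v = odR (cc cs v) a := by
  obtain ⟨d, h1, h2⟩ := h.okg _ (h.mem ha) _ (h.mem hv) hav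
  simp only at h1 h2
  unfold numR odR
  rw [h1, h2]
  exact ⟨rfl, rfl⟩

/-- ids of the new records. -/
theorem Prep.nidl (h : Prep as bs cs t N) (i : ℕ) :
    i ∈ idl (nl N as bs cs) ↔ ∃ a ∈ as, i = (cc (nl N as bs cs) a).1 := by
  rw [idl_eq, List.mem_map]
  constructor
  · rintro ⟨q, hq, rfl⟩
    have hq1 : q.1 ∈ as := by
      rw [← nl_fst (N := N) (as := as) (bs := bs) (cs := cs)]
      exact List.mem_map.mpr ⟨q, hq, rfl⟩
    refine ⟨q.1, hq1, ?_⟩
    rw [cc_eq (by rw [nl_fst]; exact h.nda) hq]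
  · rintro ⟨a, ha, rfl⟩
    exact ⟨_, cc_mem (by rw [nl_fst]; exact ha), rfl⟩

theorem Prep.nnd (h : Prep as bs cs t N) : (idl (nl N as bs cs)).Nodup := by
  rw [idl_eq]
  refine List.Nodup.map_on ?_ ?_
  · intro x hx y hy hxy
    have hx1 : x.1 ∈ as := by
      rw [← nl_fst (N := N) (as := as) (bs := bs) (cs := cs)]
      exact List.mem_map.mpr ⟨x, hx, rfl⟩
    have hy1 : y.1 ∈ as := by
      rw [← nl_fst (N := N) (as := as) (bs := bs) (cs := cs)]
      exact List.mem_map.mpr ⟨y, hy, rfl⟩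
    have ex := cc_eq (by rw [nl_fst]; exact h.nda) hx
    have ey := cc_eq (by rw [nl_fst]; exact h.nda) hy
    have h1 : x.1 = y.1 := by
      refine h.ix_inj hx1 ?_
      have h2 := h.nid hx1
      have h3 := h.nid hy1
      rw [ex] at h2
      rw [ey] at h3
      omega
    refine Prod.ext h1 ?_
    rw [← ex, ← ey, h1]
  · have : ((nl N as bs cs).map Prod.fst).Nodup := by rw [nl_fst]; exact h.nda
    exact List.Nodup.of_map _ this

/-- Values of the new tree. -/
theorem Prep.get_fin (h : Prep as bs cs t N) (hid : ∀ x ∈ St t, x.1 < N) (j : ℕ) :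
    (∀ a ∈ as, j = (cc (nl N as bs cs) a).1 → (fin as bs cs t N).get j
      = some (cc (nl N as bs cs) a).2) ∧
    ((∀ a ∈ as, j ≠ (cc (nl N as bs cs) a).1) →
      (fin as bs cs t N).get j = if j ∈ idl cs then none else t.get j) := by
  have hb1 : ∀ p ∈ nl N as bs cs, p.2.1 < 1048575 := by
    intro p hp
    have hp1 : p.1 ∈ as := by
      rw [← nl_fst (N := N) (as := as) (bs := bs) (cs := cs)]
      exact List.mem_map.mpr ⟨p, hp, rfl⟩
    have e := cc_eq (by rw [nl_fst]; exact h.nda) hp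
    have h2 := h.nid hp1
    rw [e] at h2
    have h3 := h.ix_lt hp1
    have h4 := h.la
    have h5 := h.nN
    omega
  have hb2 : ∀ p ∈ cs, p.2.1 < 1048575 := by
    intro p hp
    obtain ⟨r, m, h1, h2⟩ := h.re p hp
    have := hid (p.2.1, r) h1
    have h5 := h.nN
    simp only at this
    omega
  constructor
  · intro a ha hj
    subst hj
    unfold fin
    exact get_ins_in (nl N as bs cs) _ hb1 h.nnd (cc_mem (by rw [nl_fst]; exact ha))
  · intro hj
    unfold fin
    rw [get_ins_out (nl N as bs cs) _ _ hb1, get_rem cs t j hb2]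
    intro hc
    obtain ⟨a, ha, hja⟩ := (h.nidl j).mp hc
    exact hj a ha hja

end prp

end Fl49
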