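import Pool.Agent.Lib_MP_55d5ef_fl.Ich
import Pool.Agent.Lib_MP_55d5ef_pl.PLX

/-!
Isomorphisms and flips are piecewise linear.
-/

set_option linter.unusedSectionVars false

namespace Fl49

open Finset PL55

section mono

variable {V V' : Type} [DecidableEq V] [DecidableEq V'] {ρ ρ' : Type}
variable {lab : ρ → Finset V} {num : ρ → V → ℕ} {od : ρ → V → List V} {S : Set ρ}
variable {lab' : ρ' → Finset V'} {num' : ρ' → V' → ℕ} {od' : ρ' → V' → List V'} {S' : Set ρ'}

/-- A piecewise linear map is piecewise linear between complements. -/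
theorem PLX.mono {f : X lab num od S → X lab' num' od' S'}
    (h : PLX lab num od S ∅ lab' num' od' S' ∅ f) {T : Set (X lab num od S)}
    {T' : Set (X lab' num' od' S')} (hT : ∀ x, x ∉ T → f x ∉ T') :
    PLX lab num od S T lab' num' od' S' T' f := by
  classical
  intro x0 y0 i p hp
  obtain ⟨hp1, hp2⟩ := hp
  have hd : dom lab num od S T i ⊆ dom lab num od S ∅ i := by
    rintro x ⟨hx, _⟩
    exact ⟨hx, fun h => h⟩
  obtain ⟨n, Q, j, A, b, h1, h2, h3, h4⟩ := h x0 y0 i p ⟨hp1, fun h => h⟩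
  refine ⟨n, Q, j, A, b, h1, ?_, h3, h4.filter_mono (nhdsWithin_mono p hd)⟩
  rintro k x ⟨hx, hx1, hx2⟩
  obtain ⟨⟨hy, _⟩, he⟩ := h2 k x ⟨hx, hx1, fun h => h⟩
  refine ⟨⟨hy, ?_⟩, he⟩
  unfold chart at he
  rw [dif_pos hx1, dif_pos hy] at he
  rw [← he]
  exact hT _ hx2

end mono

section iso

variable {V V' : Type} [DecidableEq V] [DecidableEq V'] {ρ ρ' : Type}
variable {lab : ρ → Finset V} {num : ρ → V → ℕ} {od : ρ → V → List V}
variable {lab' : ρ' → Finset V'} {num' : ρ' → V' → ℕ} {od' : ρ' → V' → List V'}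
variable {φ : ρ → ρ'} {ψ : ρ' → ρ} {f : ρ → V → V'} {g : ρ' → V' → V}
variable {S : Set ρ} {S' : Set ρ'}

/-- Coordinate. -/
noncomputable abbrev pj {V : Type} (w : V) : (V → ℝ) →L[ℝ] ℝ :=
  ContinuousLinearMap.proj (R := ℝ) (φ := fun _ : V => ℝ) w

/-- Renaming of coordinates as a linear map. -/
noncomputable def trsL (g : V' → V) (s : Finset V') : (V → ℝ) →L[ℝ] (V' → ℝ) :=
  ContinuousLinearMap.pi (fun w => if w ∈ s then pj (g w) else 0)

theorem trsL_apply (g : V' → V) (s : Finset V') (x : V → ℝ) : trsL g s x = trs g s x := by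
  funext w
  unfold trsL trs
  rw [ContinuousLinearMap.pi_apply]
  split_ifs <;> rfl

theorem Iso.dirs_mem (h : Iso lab num od lab' num' od' φ ψ f g S S') {i : ρ} (hi : i ∈ S)
    {x : V → ℝ} (hx : x ∈ dirs (lab i)) :
    trs (g (φ i)) (lab' (φ i)) x ∈ dirs (lab' (φ i)) ∧
      (trs (g (φ i)) (lab' (φ i)) x = 0 → x = 0) := by
  obtain ⟨h1, h2⟩ := hx
  refine ⟨⟨fun v hv => by simp [trs, hv], ?_⟩, ?_⟩
  · rw [← h2]
    refine Finset.sum_nbij' (i := g (φ i)) (j := f i) ?_ (h.fm i hi) ?_ (h.gf i hi) ?_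
    · intro w hw
      have := h.gm (φ i) (h.mem i hi) w hw
      rwa [h.inv i hi] at this
    · intro w hw
      have := h.fg (φ i) (h.mem i hi) w hw
      rwa [h.inv i hi] at this
    · intro v hv
      simp [trs, hv]
  · intro h0
    funext v
    by_cases hv : v ∈ lab i
    · have h3 := congrFun h0 (f i v)
      simp only [trs, h.fm i hi v hv, if_true, h.gf i hi v hv, Pi.zero_apply] at h3
      exact h3
    · exact h1 v hv

theorem Iso.plx (h : Iso lab num od lab' num' od' φ ψ f g S S') :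
    PLX lab num od S ∅ lab' num' od' S' ∅ h.homeo := by
  refine PLX.of_pieces (fun x hx => hx) ?_
  intro i p hp _
  refine ⟨1, fun _ => Set.univ, fun _ => ⟨φ i, h.mem i i.2⟩,
    fun _ => trsL (g (φ i)) (lab' (φ i)), fun _ => 0, fun _ => HPoly.univ, ?_, ?_, ?_⟩
  · intro k x _ hx _
    have e : trsL (g (φ i)) (lab' (φ i)) x + 0 = trs (g (φ i)) (lab' (φ i)) x := by
      rw [add_zero, trsL_apply]
    refine ⟨by rw [e]; exact h.trs_mem i.2 hx, ?_⟩
    refine (h.ix_pt i.2 hx).trans (pt_congr _ _ _ e.symm)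
  · intro k v hv
    rw [trsL_apply]
    exact h.dirs_mem i.2 hv
  · exact Filter.Eventually.of_forall fun x => ⟨0, Set.mem_univ x⟩

theorem Iso.plx_symm (h : Iso lab num od lab' num' od' φ ψ f g S S') :
    PLX lab' num' od' S' ∅ lab num od S ∅ h.homeo.symm := h.symm.plx

end iso

section flip

variable {V : Type} [DecidableEq V] {ρ : Type}
variable {lab : ρ → Finset V} {num : ρ → V → ℕ} {od : ρ → V → List V}
variable {a b : Finset V} {c c' : V → ρ} {S S' : Set ρ}

/-- The linear map of a flip where the coordinate `u` is minimal. -/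
noncomputable def flL (a b : Finset V) (u : V) : (V → ℝ) →L[ℝ] (V → ℝ) :=
  ContinuousLinearMap.pi (fun w =>
    if w ∈ a then pj w - pj u
    else if w ∈ b then pj w + ((a.card : ℝ) / b.card) • pj u
    else pj w)

theorem flL_apply (u : V) (x : V → ℝ) (w : V) : flL a b u x w =
    if w ∈ a then x w - x u else if w ∈ b then x w + ((a.card : ℝ) / b.card) * x u else x w := by
  unfold flL
  rw [ContinuousLinearMap.pi_apply]
  split_ifs <;> rfl

theorem flL_eq (ha : a.Nonempty) {u : V} {x : V → ℝ} (hx : x u = mn a ha x) :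
    flL a b u x = fmap a b ha x := by
  funext w
  rw [flL_apply]
  unfold fmap
  rw [hx]

theorem GFlip.dirs_mem (h : GFlip lab num od a b c c' S S') {v u : V} (hv : v ∈ b) (hu : u ∈ a)
    {x : V → ℝ} (hx : x ∈ dirs (lab (c v))) :
    flL a b u x ∈ dirs (lab (c' u)) ∧ (flL a b u x = 0 → x = 0) := by
  obtain ⟨h1, h2⟩ := hx
  rw [h.labc v hv] at h1 h2
  have hxv : x v = 0 := h1 v (Finset.notMem_erase v _)
  have hva : v ∉ a := Finset.disjoint_right.mp h.dj hv
  have hb0 : (b.card : ℝ) ≠ 0 := by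
    have := Finset.card_pos.mpr h.nb
    positivity
  have ha0 : (a.card : ℝ) ≠ 0 := by
    have := Finset.card_pos.mpr h.na
    positivity
  refine ⟨⟨?_, ?_⟩, ?_⟩
  · intro w hw
    rw [h.labc' u hu] at hw
    rw [flL_apply]
    by_cases hwu : w = u
    · subst hwu; simp [hu]
    · have hw2 : w ∉ a ∪ b := fun hc => hw (Finset.mem_erase.mpr ⟨hwu, hc⟩)
      have hwa : w ∉ a := fun hc => hw2 (Finset.mem_union_left _ hc)
      have hwb : w ∉ b := fun hc => hw2 (Finset.mem_union_right _ hc)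
      simp only [hwa, hwb, if_false]
      exact h1 w (fun hc => hw2 (Finset.mem_of_mem_erase hc))
  · rw [h.labc' u hu]
    have hfu : flL a b u x u = 0 := by rw [flL_apply]; simp [hu]
    have e1 : ∑ w ∈ (a ∪ b).erase u, flL a b u x w = ∑ w ∈ a ∪ b, flL a b u x w := by
      rw [← Finset.add_sum_erase (a ∪ b) _ (Finset.mem_union_left b hu), hfu, zero_add]
    have e2 : ∑ w ∈ a ∪ b, x w = 0 := by
      rw [← Finset.add_sum_erase (a ∪ b) _ (Finset.mem_union_right a hv), hxv, zero_add, h2]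
    rw [e1, Finset.sum_union h.dj]
    have e3 : ∑ w ∈ a, flL a b u x w = ∑ w ∈ a, x w - a.card * x u := by
      rw [Finset.sum_congr rfl (fun w hw => show flL a b u x w = x w - x u by
        rw [flL_apply]; simp [hw])]
      rw [Finset.sum_sub_distrib, Finset.sum_const, nsmul_eq_mul]
    have e4 : ∑ w ∈ b, flL a b u x w = ∑ w ∈ b, x w + a.card * x u := by
      rw [Finset.sum_congr rfl (fun w hw => show flL a b u x w
          = x w + ((a.card : ℝ) / b.card) * x u by
        have hwa : w ∉ a := Finset.disjoint_right.mp h.dj hw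
        rw [flL_apply]; simp [hw, hwa])]
      rw [Finset.sum_add_distrib, Finset.sum_const, nsmul_eq_mul]
      field_simp
    rw [Finset.sum_union h.dj] at e2
    rw [e3, e4]
    linarith
  · intro h0
    have hu0 : x u = 0 := by
      have := congrFun h0 v
      rw [flL_apply, if_neg hva, if_pos hv, hxv, zero_add, Pi.zero_apply] at this
      rcases mul_eq_zero.mp this with h3 | h3
      · exact absurd h3 (div_ne_zero ha0 hb0)
      · exact h3
    funext w
    have := congrFun h0 w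
    rw [flL_apply, hu0] at this
    simp only [sub_zero, mul_zero, add_zero, ite_self] at this
    exact this

/-- The polyhedron where the coordinate `u` is minimal among `a`. -/
def pmin (a : Finset V) (u : V) : Set (V → ℝ) := {x | ∀ w ∈ a, x u ≤ x w}

theorem pmin_hpoly (a : Finset V) (u : V) : HPoly (pmin a u) := by
  have e : pmin a u = ⋂ w ∈ a, {x : V → ℝ | 0 ≤ (pj w - pj u) x + 0} := by
    ext x
    simp only [pmin, Set.mem_iInter, Set.mem_ofPred_eq]
    refine forall₂_congr (fun w _ => ?_)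
    rw [add_zero]
    change x u ≤ x w ↔ 0 ≤ x w - x u
    rw [sub_nonneg]
  rw [e]
  exact HPoly.biInter a (fun w _ => HPoly.halfspace _ _)

theorem pmin_mn (ha : a.Nonempty) {u : V} (hu : u ∈ a) {x : V → ℝ} (hx : x ∈ pmin a u) :
    x u = mn a ha x := by
  refine le_antisymm ?_ (mn_le' ha x hu)
  rw [← am_eq ha x]
  exact hx _ (am_mem ha x)

theorem GFlip.plx (h : GFlip lab num od a b c c' S S') :
    PLX lab num od S ∅ lab num od S' ∅ h.homeo := by
  classical
  refine PLX.of_pieces (fun x hx => hx) ?_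
  intro i p hp _
  by_cases hc : ∃ v ∈ b, (i : ρ) = c v
  · obtain ⟨i, hi⟩ := i
    simp only at hc hp ⊢
    obtain ⟨v, hv, rfl⟩ := hc
    let e : Fin a.card ≃ a := (Finset.equivFin a).symm
    refine ⟨a.card, fun k => pmin a (e k), fun k => ⟨c' (e k), h.mem' _ (e k).2⟩,
      fun k => flL a b (e k), fun _ => 0, fun k => pmin_hpoly a _, ?_, ?_, ?_⟩
    · intro k x hxk hx _
      have hmn := pmin_mn h.na (e k).2 hxk
      have e1 : flL a b (e k : V) x + 0 = fmap a b h.na x := by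
        rw [add_zero, flL_eq h.na hmn]
      have hm := h.fmap_mem' hv (e k).2 rfl hx hmn
      refine ⟨by rw [e1]; exact hm, ?_⟩
      exact (h.fz_chunk hv (e k).2 hi rfl hx hmn hm).trans (pt_congr _ _ _ e1.symm)
    · intro k x hx
      exact h.dirs_mem hv (e k).2 hx
    · refine Filter.Eventually.of_forall fun x => ?_
      refine ⟨e.symm ⟨am a h.na x, am_mem h.na x⟩, ?_⟩
      intro w hw
      rw [e.apply_symm_apply]
      simp only
      rw [am_eq h.na x]
      exact mn_le' h.na x hw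
  · refine ⟨1, fun _ => Set.univ, fun _ => ⟨i, ((h.out _ i.2).resolve_left hc).1⟩,
      fun _ => ContinuousLinearMap.id ℝ _, fun _ => 0, fun _ => HPoly.univ, ?_, ?_, ?_⟩
    · intro k x _ hx _
      have e1 : ContinuousLinearMap.id ℝ (V → ℝ) x + 0 = x := by
        rw [add_zero]; rfl
      refine ⟨by rw [e1]; exact hx, ?_⟩
      exact (h.fz_out i.2 hc hx).trans (pt_congr _ _ _ e1.symm)
    · intro k v hv
      exact ⟨hv, fun h => h⟩
    · exact Filter.Eventually.of_forall fun x => ⟨0, Set.mem_univ x⟩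

theorem GFlip.plx_symm (h : GFlip lab num od a b c c' S S') :
    PLX lab num od S' ∅ lab num od S ∅ h.homeo.symm := h.symm.plx

end flip

/-- Homeomorphisms which are piecewise linear in both directions. -/
def PLH {V V' : Type} [DecidableEq V] [DecidableEq V'] {ρ ρ' : Type}
    {lab : ρ → Finset V} {num : ρ → V → ℕ} {od : ρ → V → List V} {S : Set ρ}
    {lab' : ρ' → Finset V'} {num' : ρ' → V' → ℕ} {od' : ρ' → V' → List V'} {S' : Set ρ'}
    (e : X lab num od S ≃ₜ X lab' num' od' S') : Prop :=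
  PLX lab num od S ∅ lab' num' od' S' ∅ e ∧ PLX lab' num' od' S' ∅ lab num od S ∅ e.symm

section plh

variable {V V' V'' : Type} [DecidableEq V] [DecidableEq V'] [DecidableEq V''] {ρ ρ' ρ'' : Type}
variable {lab : ρ → Finset V} {num : ρ → V → ℕ} {od : ρ → V → List V} {S : Set ρ}
variable {lab' : ρ' → Finset V'} {num' : ρ' → V' → ℕ} {od' : ρ' → V' → List V'} {S' : Set ρ'}
variable {lab'' : ρ'' → Finset V''} {num'' : ρ'' → V'' → ℕ} {od'' : ρ'' → V'' → List V''}
  {S'' : Set ρ''}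

theorem PLX.refl : PLX lab num od S ∅ lab num od S ∅ (fun x => x) := by
  intro x0 y0 i p hp
  refine ⟨1, fun _ => Set.univ, fun _ => i, fun _ => ContinuousLinearMap.id ℝ _, fun _ => 0,
    fun _ => HPoly.univ, ?_, ?_, ?_⟩
  · rintro k x ⟨_, hx, hx2⟩
    have e1 : ContinuousLinearMap.id ℝ (V → ℝ) x + 0 = x := by
      rw [add_zero]; rfl
    rw [e1]
    refine ⟨⟨hx, hx2⟩, ?_⟩
    unfold chart
    rw [dif_pos hx, dif_pos hx]
  · intro k v hv
    exact ⟨hv, fun h => h⟩
  · exact Filter.Eventually.of_forall fun x => ⟨0, Set.mem_univ x⟩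

theorem PLH.refl : PLH (Homeomorph.refl (X lab num od S)) := ⟨PLX.refl, PLX.refl⟩

theorem PLH.trans {e : X lab num od S ≃ₜ X lab' num' od' S'}
    {e' : X lab' num' od' S' ≃ₜ X lab'' num'' od'' S''} (h : PLH e) (h' : PLH e') :
    PLH (e.trans e') :=
  ⟨PLX.comp (f := e) (g := e') h'.1 h.1, PLX.comp (f := e'.symm) (g := e.symm) h.2 h'.2⟩

theorem PLH.symm {e : X lab num od S ≃ₜ X lab' num' od' S'} (h : PLH e) : PLH e.symm :=
  ⟨h.2, h.1⟩

/-- Between complements of corresponding sets. -/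
theorem PLH.compl {e : X lab num od S ≃ₜ X lab' num' od' S'} (h : PLH e)
    {T : Set (X lab num od S)} {T' : Set (X lab' num' od' S')} (hT : ∀ x, x ∈ T ↔ e x ∈ T') :
    PLX lab num od S T lab' num' od' S' T' e ∧
      PLX lab' num' od' S' T' lab num od S T e.symm := by
  refine ⟨PLX.mono h.1 (fun x hx hc => hx ((hT x).mpr hc)),
    PLX.mono h.2 (fun y hy hc => hy ?_)⟩
  have := (hT _).mp hc
  rwa [e.apply_symm_apply] at this

end plh

/-- Moves are PL homeomorphisms carrying the marked vertex to the marked vertex. -/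
theorem Mv.plh {x y : Set Ri × Option (Ri × ℕ)} (h : Mv x y) (hx : ∀ p ∈ x.2, VP x.1 p) :
    ∃ e : X labR numR odR x.1 ≃ₜ X labR numR odR y.1, PLH e ∧
      ∀ p ∈ x.2, ∃ q ∈ y.2, ∃ hp : VP x.1 p, ∃ hq : VP y.1 q, e (vpt hp) = vpt hq := by
  have hy := h.vp hx
  cases h with
  | iso φ ψ f g h m =>
    refine ⟨h.homeo, ⟨h.plx, h.plx_symm⟩, ?_⟩
    intro p hp
    have hq : (φ p.1, f p.1 p.2) ∈ Option.map (fun p : Ri × ℕ => (φ p.1, f p.1 p.2)) m := by
      simp only [Option.mem_def, Option.map_eq_some_iff]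
      exact ⟨p, hp, rfl⟩
    exact ⟨_, hq, hx p hp, hy _ hq, h.ix_vx (hx p hp).1 (hx p hp).2⟩
  | flipN a b c c' h =>
    refine ⟨h.homeo, ⟨h.plx, h.plx_symm⟩, ?_⟩
    intro p hp
    cases hp
  | flipO a b c c' h p hp =>
    refine ⟨h.homeo, ⟨h.plx, h.plx_symm⟩, ?_⟩
    intro q hq
    have : p = q := Option.some.inj hq
    subst this
    exact ⟨p, rfl, hx p rfl, hy p rfl, h.fx_out (hx p rfl).1 hp (vx_mem (hx p rfl).2)⟩
  | flipI a b c c' h p hp u hu hne =>
    refine ⟨h.homeo, ⟨h.plx, h.plx_symm⟩, ?_⟩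
    intro q hq
    have : p = q := Option.some.inj hq
    subst this
    refine ⟨_, rfl, hx p rfl, hy _ rfl, ?_⟩
    obtain ⟨v, hv, hpv⟩ := hp
    obtain ⟨i, w⟩ := p
    simp only at hpv hne
    subst hpv
    obtain ⟨h1, h2⟩ := h.fx_vx hv (hx _ rfl).2 hu hne
    exact h2

/-- Chains of moves are PL homeomorphisms carrying the marked vertex to the marked vertex. -/
theorem Ch.plh {x y : Set Ri × Option (Ri × ℕ)} (h : Ch x y) (hx : ∀ p ∈ x.2, VP x.1 p) :
    ∃ e : X labR numR odR x.1 ≃ₜ X labR numR odR y.1, PLH e ∧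
      ∀ p ∈ x.2, ∃ q ∈ y.2, ∃ hp : VP x.1 p, ∃ hq : VP y.1 q, e (vpt hp) = vpt hq := by
  unfold Ch at h
  induction h with
  | refl => exact ⟨Homeomorph.refl _, PLH.refl, fun p hp => ⟨p, hp, hx p hp, hx p hp, rfl⟩⟩
  | tail h1 h2 ih =>
    obtain ⟨e, he0, he⟩ := ih
    obtain ⟨e', he0', he'⟩ := h2.plh (Ch.vp h1 hx)
    refine ⟨e.trans e', he0.trans he0', ?_⟩
    intro p hp
    obtain ⟨q, hq, hvp, hvq, h3⟩ := he p hp
    obtain ⟨r, hr, hvq', hvr, h4⟩ := he' q hq
    refine ⟨r, hr, hvp, hvr, ?_⟩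
    rw [Homeomorph.trans_apply, h3, h4]

end Fl49
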