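import Pool.Agent.Lib_MP_55d5ef_fl.Gst

/-!
Packed checker: definitions.

Records are numbers: the field `v` (48 bits at bit `48 v`) of the record is `0` if `v` is not a
label, else `4096 * (facet number) + ordering` (four digits of 3 bits).  `tab i` is the record
with id `i` (all records of a part, dead or alive).  State: `N` = number of records created,
`M` = bit mask of the consumed records.
-/

namespace Fl49

/-- Forced evaluation. -/
noncomputable def frc (n : ℕ) (f : ℕ → Bool) : Bool :=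
  Nat.rec (motive := fun _ => Bool) (f 0) (fun m _ => f m) (Nat.add n 1)

/-- Conjunction. -/
noncomputable def ba (c x : Bool) : Bool := Bool.rec (motive := fun _ => Bool) false x c

/-- Field of 48 bits at bit `s`. -/
noncomputable def gs (R s : ℕ) : ℕ := Nat.mod (Nat.shiftRight R s) 281474976710656

/-- Image of `d` under the packed map `m` (3 bits). -/
noncomputable def dg (m d : ℕ) : ℕ := Nat.mod (Nat.shiftRight m (Nat.mul 3 d)) 8

/-- Renamed field. -/
noncomputable def tf (m F : ℕ) : ℕ :=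
  Nat.add (Nat.sub F (Nat.mod F 4096)) (Nat.add (dg m (Nat.mod F 8))
    (Nat.add (Nat.mul 8 (dg m (Nat.mod (Nat.shiftRight F 3) 8)))
    (Nat.add (Nat.mul 64 (dg m (Nat.mod (Nat.shiftRight F 6) 8)))
      (Nat.mul 512 (dg m (Nat.mod (Nat.shiftRight F 9) 8))))))

/-- Entry of the renamed record at the new label `w` (`0` if `w` is the missing label `b`). -/
noncomputable def rf (m g R b w : ℕ) : ℕ :=
  Bool.rec (motive := fun _ => ℕ) (tf m (gs R (Nat.mul 48 (dg g w)))) 0 (Nat.beq b w)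

/-- Renamed record. -/
noncomputable def rw6 (m g R b : ℕ) : ℕ :=
  Nat.add (rf m g R b 0) (Nat.mul 281474976710656 (
  Nat.add (rf m g R b 1) (Nat.mul 281474976710656 (
  Nat.add (rf m g R b 2) (Nat.mul 281474976710656 (
  Nat.add (rf m g R b 3) (Nat.mul 281474976710656 (
  Nat.add (rf m g R b 4) (Nat.mul 281474976710656 (rf m g R b 5))))))))))

/-- Check of the new label `w` of the old record `R` with missing label `b`. -/
noncomputable def ck1 (m g R b w : ℕ) (x : Bool) : Bool :=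
  Bool.rec (motive := fun _ => Bool)
    (ba (Nat.ble 4096 (gs R (Nat.mul 48 (dg g w)))) (ba (Nat.beq (dg m (dg g w)) w) x))
    x (Nat.beq b w)

/-- Check of the renaming. -/
noncomputable def ck6 (m g R b : ℕ) : Bool :=
  ck1 m g R b 0 (ck1 m g R b 1 (ck1 m g R b 2 (ck1 m g R b 3 (ck1 m g R b 4
    (ck1 m g R b 5 true)))))

/-- One label of a flip: `c = 0` new record, else old record, `c - 1 = id + 2^20 g + 2^38 m`
(`m = 0` : identity). -/
noncomputable def rowC (tab : ℕ → ℕ) (N i c K M : ℕ) (k : ℕ → ℕ → ℕ → Bool) : Bool :=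
  Nat.rec (motive := fun _ => Bool)
    (frc (tab K) (fun r => frc (Nat.add K 1) (fun K' => k r K' M)))
    (fun c1 _ => frc (Nat.mod c1 1048576) (fun id => frc (Nat.mod (Nat.shiftRight c1 20) 262144)
      (fun g => frc (Nat.shiftRight c1 38) (fun m =>
        ba (Nat.ble (Nat.add id 1) N) (ba (Nat.beq (Nat.mod (Nat.shiftRight M id) 2) 0)
          (frc (tab id) (fun R =>
            Nat.rec (motive := fun _ => Bool)
              (ba (Nat.beq (gs R (Nat.mul 48 i)) 0)
                (frc (Nat.lor M (Nat.shiftLeft 1 id)) (fun M' => k R K M')))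
              (fun _ _ => ba (ck6 m g R i) (frc (rw6 m g R i) (fun r =>
                frc (Nat.lor M (Nat.shiftLeft 1 id)) (fun M' => k r K M')))) m)))))))
    c

/-- Check of a pair of labels. -/
noncomputable def pr (NN ci cj ri rj si sj K : ℕ) (x : Bool) : Bool :=
  frc (gs ri sj) (fun f => ba (Nat.beq f (gs rj si))
    (Nat.rec (motive := fun _ => Bool) (ba (Nat.beq f (Nat.add NN K)) x) (fun _ _ => x)
      (Nat.add ci cj)))

/-- The matrix check. -/
noncomputable def mat (NN c0 c1 c2 c3 c4 c5 r0 r1 r2 r3 r4 r5 : ℕ) : Bool :=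
  ba (Nat.beq (gs r0 0) 0) (ba (Nat.beq (gs r1 48) 0) (ba (Nat.beq (gs r2 96) 0)
  (ba (Nat.beq (gs r3 144) 0) (ba (Nat.beq (gs r4 192) 0) (ba (Nat.beq (gs r5 240) 0)
  (pr NN c0 c1 r0 r1 0 48 0x1b1a (pr NN c0 c2 r0 r2 0 96 0x2b19 (pr NN c0 c3 r0 r3 0 144 0x3b11
  (pr NN c0 c4 r0 r4 0 192 0x4ad1 (pr NN c0 c5 r0 r5 0 240 0x58d1
  (pr NN c1 c2 r1 r2 48 96 0xab18 (pr NN c1 c3 r1 r3 48 144 0xbb10
  (pr NN c1 c4 r1 r4 48 192 0xcad0 (pr NN c1 c5 r1 r5 48 240 0xd8d0
  (pr NN c2 c3 r2 r3 96 144 0x13b08 (pr NN c2 c4 r2 r4 96 192 0x14ac8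
  (pr NN c2 c5 r2 r5 96 240 0x158c8
  (pr NN c3 c4 r3 r4 144 192 0x1ca88 (pr NN c3 c5 r3 r5 144 240 0x1d888
  (pr NN c4 c5 r4 r5 192 240 0x25688 true))))))))))))))))))))

/-- One flip (`n` = six codes of 57 bits; `off` = offset of the facet numbers). -/
noncomputable def flp (tab : ℕ → ℕ) (off n N M : ℕ) (k : ℕ → ℕ → Bool) : Bool :=
  frc (Nat.mod n 144115188075855872) (fun c0 =>
    rowC tab N 0 c0 N M (fun r0 K0 M0 =>
  frc (Nat.mod (Nat.shiftRight n 57) 144115188075855872) (fun c1 =>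
    rowC tab N 1 c1 K0 M0 (fun r1 K1 M1 =>
  frc (Nat.mod (Nat.shiftRight n 114) 144115188075855872) (fun c2 =>
    rowC tab N 2 c2 K1 M1 (fun r2 K2 M2 =>
  frc (Nat.mod (Nat.shiftRight n 171) 144115188075855872) (fun c3 =>
    rowC tab N 3 c3 K2 M2 (fun r3 K3 M3 =>
  frc (Nat.mod (Nat.shiftRight n 228) 144115188075855872) (fun c4 =>
    rowC tab N 4 c4 K3 M3 (fun r4 K4 M4 =>
  frc (Nat.shiftRight n 285) (fun c5 =>
    rowC tab N 5 c5 K4 M4 (fun r5 K5 M5 =>
  frc (Nat.mul (Nat.add N off) 262144) (fun NN =>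
    ba (mat NN c0 c1 c2 c3 c4 c5 r0 r1 r2 r3 r4 r5) (k K5 M5))))))))))))))

/-- A list of flips, packed in one number (`cnt` flips, 342 bits each). -/
noncomputable def rnb (tab : ℕ → ℕ) (off cnt : ℕ) : ℕ → ℕ → ℕ → (ℕ → ℕ → Bool) → Bool :=
  Nat.rec (motive := fun _ => ℕ → ℕ → ℕ → (ℕ → ℕ → Bool) → Bool)
    (fun _ N M k => k N M)
    (fun _ ih n N M k => flp tab off (Nat.mod n (Nat.pow 2 342)) N M (fun N' M' =>
      frc (Nat.shiftRight n 342) (fun n' => ih n' N' M' k))) cnt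

/-- Blocks of flips. -/
noncomputable def rnl (tab : ℕ → ℕ) (off : ℕ) (l : List (ℕ × ℕ)) :
    ℕ → ℕ → (ℕ → ℕ → Bool) → Bool :=
  List.rec (motive := fun _ => ℕ → ℕ → (ℕ → ℕ → Bool) → Bool)
    (fun N M k => k N M)
    (fun p _ ih N M k => rnb tab off p.1 p.2 N M (fun N' M' => ih N' M' k)) l

/-- Static trees of chunks. -/
inductive TB : Type where
  | lf : ℕ → TB
  | nd : TB → TB → TB

/-- Chunk number `k`. -/
noncomputable def TB.get (t : TB) : ℕ → ℕ :=
  TB.rec (motive := fun _ => ℕ → ℕ) (fun x _ => x)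
    (fun _ _ ihl ihr k => Nat.rec (motive := fun _ => ℕ) (ihl (Nat.shiftRight k 1))
      (fun _ _ => ihr (Nat.shiftRight k 1)) (Nat.mod k 2)) t

/-- Record `i` : chunk `i / 32` of the tree. -/
noncomputable def tbg (t : TB) (i : ℕ) : ℕ :=
  Nat.mod (Nat.shiftRight (t.get (Nat.shiftRight i 5)) (Nat.mul 288 (Nat.mod i 32)))
    (Nat.pow 2 288)

/-! Semantics. -/

/-- Record with id. -/
abbrev Rk : Type := ℕ × ℕ

/-- Field. -/
def gf (R v : ℕ) : ℕ := R / 2 ^ (48 * v) % 281474976710656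

/-- Digits. -/
def dgs (F : ℕ) : List ℕ := [F % 8, F / 8 % 8, F / 64 % 8, F / 512 % 8]

/-- Labels. -/
def labK (x : Rk) : Finset ℕ := (Finset.range 6).filter (fun v => 4096 ≤ gf x.2 v)

/-- Facet numbers. -/
def numK (x : Rk) (v : ℕ) : ℕ := gf x.2 v / 4096

/-- Orderings. -/
def odK (x : Rk) (v : ℕ) : List ℕ := dgs (gf x.2 v)

/-- The records alive. -/
def SK (tab : ℕ → ℕ) (N M : ℕ) : Set Rk :=
  {x | x.1 < N ∧ M.testBit x.1 = false ∧ x.2 = tab x.1}

/-- The invariant (`off` = offset of the facet numbers). -/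
structure InvK (S : Set Rk) (N off : ℕ) : Prop where
  id : ∀ x ∈ S, x.1 < N
  fu : ∀ x ∈ S, ∀ y ∈ S, x.1 = y.1 → x = y
  five : ∀ x ∈ S, (labK x).card = 5
  gd : GdG labK odK S
  tw : TwG labK numK S
  fn : FnG labK numK (64 * (N + off)) S

/-- PL homeomorphic realisations. -/
def PLE {V V' : Type} [DecidableEq V] [DecidableEq V'] {ρ ρ' : Type} (lab : ρ → Finset V)
    (num : ρ → V → ℕ) (od : ρ → V → List V) (S : Set ρ) (lab' : ρ' → Finset V')
    (num' : ρ' → V' → ℕ) (od' : ρ' → V' → List V') (S' : Set ρ') : Prop :=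
  ∃ e : X lab num od S ≃ₜ X lab' num' od' S', PLH e

/-- PL homeomorphic sets of packed records. -/
abbrev PLK (S S' : Set Rk) : Prop := PLE labK numK odK S labK numK odK S'

end Fl49
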