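import Pool.Agent.Lib_MP_55d5ef_fl.Pk

/-!
Packed checker: arithmetic of the fields, soundness of one row and of the matrix check.
-/

set_option linter.unusedSectionVars false

namespace Fl49

theorem frc_eq (n : ℕ) (f : ℕ → Bool) : frc n f = f n := rfl

theorem ba_iff {c x : Bool} : ba c x = true ↔ c = true ∧ x = true := by
  cases c
  · constructor
    · intro h; cases h
    · rintro ⟨h, _⟩; cases h
  · constructor
    · intro h; exact ⟨rfl, h⟩
    · rintro ⟨_, h⟩; exact h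

theorem shr_eq (a s : ℕ) : Nat.shiftRight a s = a / 2 ^ s := Nat.shiftRight_eq_div_pow a s

theorem gs_gf (R v : ℕ) : gs R (Nat.mul 48 v) = gf R v := by
  unfold gs gf
  rw [shr_eq]; rfl

theorem gf_lt (R v : ℕ) : gf R v < 281474976710656 := Nat.mod_lt _ (by norm_num)

theorem dg_lt (m d : ℕ) : dg m d < 8 := Nat.mod_lt _ (by norm_num)

theorem gf_zero {a b : ℕ} (ha : a < 281474976710656) : gf (a + 281474976710656 * b) 0 = a := by
  unfold gf
  simp only [Nat.mul_zero, pow_zero, Nat.div_one]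
  omega

theorem gf_succ {a b : ℕ} (ha : a < 281474976710656) (v : ℕ) :
    gf (a + 281474976710656 * b) (v + 1) = gf b v := by
  unfold gf
  rw [show 48 * (v + 1) = 48 + 48 * v by ring, pow_add, ← Nat.div_div_eq_div_mul]
  rw [show (2 : ℕ) ^ 48 = 281474976710656 by norm_num]
  rw [show (a + 281474976710656 * b) / 281474976710656 = b by omega]

theorem gf_zero' {a : ℕ} (ha : a < 281474976710656) : gf a 0 = a := by
  unfold gf
  simp only [Nat.mul_zero, pow_zero, Nat.div_one]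
  omega

theorem gf_big {R : ℕ} (hR : R < 2 ^ 288) {v : ℕ} (hv : 6 ≤ v) : gf R v = 0 := by
  unfold gf
  have h : R / 2 ^ (48 * v) = 0 := by
    apply Nat.div_eq_of_lt
    refine lt_of_lt_of_le hR (Nat.pow_le_pow_right (by norm_num) (by omega))
  rw [h]

theorem tf_eq (m F : ℕ) : tf m F = 4096 * (F / 4096) + (dg m (F % 8) + (8 * dg m (F / 8 % 8) +
    (64 * dg m (F / 64 % 8) + 512 * dg m (F / 512 % 8)))) := by
  unfold tf
  simp only [shr_eq]
  change F - F % 4096 + (dg m (F % 8) + (8 * dg m (F / 2 ^ 3 % 8) +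
    (64 * dg m (F / 2 ^ 6 % 8) + 512 * dg m (F / 2 ^ 9 % 8)))) = _
  norm_num
  omega

theorem tf_div (m F : ℕ) : tf m F / 4096 = F / 4096 := by
  rw [tf_eq]
  have h0 := dg_lt m (F % 8)
  have h1 := dg_lt m (F / 8 % 8)
  have h2 := dg_lt m (F / 64 % 8)
  have h3 := dg_lt m (F / 512 % 8)
  omega

theorem tf_lt {m F : ℕ} (hF : F < 281474976710656) : tf m F < 281474976710656 := by
  rw [tf_eq]
  have h0 := dg_lt m (F % 8)
  have h1 := dg_lt m (F / 8 % 8)
  have h2 := dg_lt m (F / 64 % 8)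
  have h3 := dg_lt m (F / 512 % 8)
  omega

theorem dgs_tf (m F : ℕ) : dgs (tf m F) = (dgs F).map (dg m) := by
  rw [tf_eq]
  have h0 := dg_lt m (F % 8)
  have h1 := dg_lt m (F / 8 % 8)
  have h2 := dg_lt m (F / 64 % 8)
  have h3 := dg_lt m (F / 512 % 8)
  simp only [dgs, List.map_cons, List.map_nil, List.cons.injEq, and_true]
  refine ⟨?_, ?_, ?_, ?_⟩ <;> omega

theorem rf_self (m g R b : ℕ) : rf m g R b b = 0 := by
  unfold rf
  rw [show Nat.beq b b = true from Nat.beq_refl b]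

theorem beq_false {a b : ℕ} (h : a ≠ b) : Nat.beq a b = false := by
  rcases hb : Nat.beq a b with _ | _
  · rfl
  · exact absurd (Nat.eq_of_beq_eq_true hb) h

theorem rf_ne (m g R : ℕ) {b w : ℕ} (h : b ≠ w) : rf m g R b w = tf m (gf R (dg g w)) := by
  unfold rf
  rw [beq_false h, gs_gf]

theorem rf_lt (m g R b w : ℕ) : rf m g R b w < 281474976710656 := by
  by_cases h : b = w
  · subst h; rw [rf_self]; norm_num
  · rw [rf_ne m g R h]; exact tf_lt (gf_lt _ _)

theorem gf_rw6 (m g R b : ℕ) {w : ℕ} (hw : w < 6) : gf (rw6 m g R b) w = rf m g R b w := by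
  have hu : rw6 m g R b = rf m g R b 0 + 281474976710656 * (rf m g R b 1 + 281474976710656 *
      (rf m g R b 2 + 281474976710656 * (rf m g R b 3 + 281474976710656 *
      (rf m g R b 4 + 281474976710656 * rf m g R b 5)))) := rfl
  rw [hu]
  have h := rf_lt m g R b
  interval_cases w
  · exact gf_zero (h 0)
  · rw [gf_succ (h 0)]; exact gf_zero (h 1)
  · rw [gf_succ (h 0), gf_succ (h 1)]; exact gf_zero (h 2)
  · rw [gf_succ (h 0), gf_succ (h 1), gf_succ (h 2)]; exact gf_zero (h 3)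
  · rw [gf_succ (h 0), gf_succ (h 1), gf_succ (h 2), gf_succ (h 3)]; exact gf_zero (h 4)
  · rw [gf_succ (h 0), gf_succ (h 1), gf_succ (h 2), gf_succ (h 3), gf_succ (h 4)]
    exact gf_zero' (h 5)

theorem ck1_iff {m g R b w : ℕ} {x : Bool} : ck1 m g R b w x = true ↔
    (b ≠ w → 4096 ≤ gf R (dg g w) ∧ dg m (dg g w) = w) ∧ x = true := by
  unfold ck1
  by_cases h : b = w
  · subst h
    rw [show Nat.beq b b = true from Nat.beq_refl b]
    simp
  · rw [beq_false h]
    change ba _ (ba _ x) = true ↔ _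
    rw [ba_iff, ba_iff, gs_gf]
    constructor
    · rintro ⟨h1, h2, h3⟩
      exact ⟨fun _ => ⟨Nat.ble_eq.mp h1, Nat.eq_of_beq_eq_true h2⟩, h3⟩
    · rintro ⟨h1, h3⟩
      obtain ⟨h4, h5⟩ := h1 h
      refine ⟨Nat.ble_eq.mpr h4, ?_, h3⟩
      rw [h5]; exact Nat.beq_refl w

theorem ck6_sound {m g R b : ℕ} (h : ck6 m g R b = true) : ∀ w < 6, w ≠ b →
    4096 ≤ gf R (dg g w) ∧ dg m (dg g w) = w := by
  unfold ck6 at h
  rw [ck1_iff, ck1_iff, ck1_iff, ck1_iff, ck1_iff, ck1_iff] at h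
  obtain ⟨h0, h1, h2, h3, h4, h5, _⟩ := h
  intro w hw hwb
  interval_cases w
  · exact h0 (Ne.symm hwb)
  · exact h1 (Ne.symm hwb)
  · exact h2 (Ne.symm hwb)
  · exact h3 (Ne.symm hwb)
  · exact h4 (Ne.symm hwb)
  · exact h5 (Ne.symm hwb)

/-- A record `R` renamed to `r` with missing label `i`. -/
structure RenOk (R i r : ℕ) (f g : ℕ → ℕ) : Prop where
  g6 : ∀ w < 6, w ≠ i → g w < 6
  nz : ∀ w < 6, w ≠ i → 4096 ≤ gf R (g w)
  fg : ∀ w < 6, w ≠ i → f (g w) = w
  nu : ∀ w < 6, w ≠ i → gf r w / 4096 = gf R (g w) / 4096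
  od : ∀ w < 6, w ≠ i → dgs (gf r w) = (dgs (gf R (g w))).map f
  ze : gf r i = 0

theorem mem_labK (x : Rk) (v : ℕ) : v ∈ labK x ↔ v < 6 ∧ 4096 ≤ gf x.2 v := by
  unfold labK
  rw [Finset.mem_filter, Finset.mem_range]

theorem lab5_of {j R i : ℕ} (h5 : (labK (j, R)).card = 5) (hi : i < 6) (h0 : gf R i = 0) :
    labK (j, R) = (Finset.range 6).erase i := by
  refine Finset.eq_of_subset_of_card_le ?_ ?_
  · intro v hv
    obtain ⟨h1, h2⟩ := (mem_labK _ _).mp hv
    refine Finset.mem_erase.mpr ⟨?_, Finset.mem_range.mpr h1⟩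
    rintro rfl
    simp only [h0] at h2
    omega
  · rw [h5, Finset.card_erase_of_mem (Finset.mem_range.mpr hi), Finset.card_range]

/-- Relation of a row. -/
def RR (tab : ℕ → ℕ) (N i c K M r K' M' : ℕ) : Prop :=
  (c = 0 ∧ r = tab K ∧ K' = K + 1 ∧ M' = M) ∨
  (c ≠ 0 ∧ K' = K ∧ ∃ id, id < N ∧ M.testBit id = false ∧ M' = M ||| (1 <<< id) ∧
    ((labK (id, tab id)).card = 5 → ∃ f g, RenOk (tab id) i r f g))

theorem testBit_of {M id : ℕ} (h : Nat.beq (Nat.mod (Nat.shiftRight M id) 2) 0 = true) :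
    M.testBit id = false := by
  have h1 := Nat.eq_of_beq_eq_true h
  rw [shr_eq] at h1
  rw [Nat.testBit_eq_decide_div_mod_eq]
  change M / 2 ^ id % 2 = 0 at h1
  rw [h1]; rfl

theorem rowC_sound {tab : ℕ → ℕ} (ht : ∀ i, tab i < 2 ^ 288) {N i c K M : ℕ} (hi : i < 6)
    {k : ℕ → ℕ → ℕ → Bool} (h : rowC tab N i c K M k = true) :
    ∃ r K' M', RR tab N i c K M r K' M' ∧ k r K' M' = true := by
  rcases c with _ | c1
  · refine ⟨tab K, K + 1, M, Or.inl ⟨rfl, rfl, rfl, rfl⟩, h⟩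
  · change ba _ (ba _ _) = true at h
    rw [ba_iff, ba_iff] at h
    obtain ⟨h1, h2, h3⟩ := h
    set id := Nat.mod c1 1048576 with hid
    set g := Nat.mod (Nat.shiftRight c1 20) 262144 with hg
    set m := Nat.shiftRight c1 38 with hm
    have hidN : id < N := Nat.ble_eq.mp h1
    have hbit := testBit_of h2
    rw [frc_eq] at h3
    rcases hm0 : m with _ | m1
    · rw [hm0] at h3
      change ba _ _ = true at h3
      rw [ba_iff] at h3
      obtain ⟨h4, h5⟩ := h3
      have h4' := Nat.eq_of_beq_eq_true h4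
      rw [gs_gf] at h4'
      refine ⟨tab id, K, M ||| (1 <<< id), Or.inr ⟨by omega, rfl, id, hidN, hbit, rfl, ?_⟩, h5⟩
      intro hc
      have hl := lab5_of hc hi h4'
      refine ⟨fun v => v, fun v => v, ?_⟩
      refine ⟨fun w hw _ => hw, ?_, fun _ _ _ => rfl, fun _ _ _ => rfl, ?_, h4'⟩
      · intro w hw hwi
        have : w ∈ labK (id, tab id) := by
          rw [hl]; exact Finset.mem_erase.mpr ⟨hwi, Finset.mem_range.mpr hw⟩
        exact ((mem_labK _ _).mp this).2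
      · intro w _ _
        simp
    · rw [hm0] at h3
      change ba _ _ = true at h3
      rw [ba_iff] at h3
      obtain ⟨h4, h5⟩ := h3
      have h4' := ck6_sound h4
      refine ⟨rw6 (m1 + 1) g (tab id) i, K, M ||| (1 <<< id),
        Or.inr ⟨by omega, rfl, id, hidN, hbit, rfl, ?_⟩, h5⟩
      intro _
      refine ⟨dg (m1 + 1), dg g, ?_, fun w hw hwi => (h4' w hw hwi).1,
        fun w hw hwi => (h4' w hw hwi).2, ?_, ?_, ?_⟩
      · intro w hw hwi
        by_contra hc
        have h6 := (h4' w hw hwi).1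
        rw [gf_big (ht id) (by omega)] at h6
        omega
      · intro w hw hwi
        rw [gf_rw6 _ _ _ _ hw, rf_ne _ _ _ (Ne.symm hwi), tf_div]
      · intro w hw hwi
        rw [gf_rw6 _ _ _ _ hw, rf_ne _ _ _ (Ne.symm hwi), dgs_tf]
      · rw [gf_rw6 _ _ _ _ hi, rf_self]

/-! The matrix check. -/

/-- Ordering digits of the labels different from `i`, `j`, with `8 i + j`. -/
def kc (i j : ℕ) : ℕ :=
  4096 * (8 * i + j) + ((List.range 6).filter (fun u => u ≠ i ∧ u ≠ j)).foldr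
    (fun u s => u + 8 * s) 0

theorem pr_iff {NN ci cj ri rj si sj K : ℕ} {x : Bool} : pr NN ci cj ri rj si sj K x = true ↔
    gs ri sj = gs rj si ∧ (ci = 0 → cj = 0 → gs ri sj = NN + K) ∧ x = true := by
  unfold pr
  rw [frc_eq, ba_iff]
  constructor
  · rintro ⟨h1, h2⟩
    refine ⟨Nat.eq_of_beq_eq_true h1, ?_⟩
    by_cases h : ci = 0 ∧ cj = 0
    · obtain ⟨rfl, rfl⟩ := h
      change ba _ _ = true at h2
      rw [ba_iff] at h2
      exact ⟨fun _ _ => Nat.eq_of_beq_eq_true h2.1, h2.2⟩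
    · refine ⟨fun h3 h4 => absurd ⟨h3, h4⟩ h, ?_⟩
      have h5 : Nat.add ci cj ≠ 0 := by
        intro hc
        change ci + cj = 0 at hc
        exact h ⟨by omega, by omega⟩
      obtain ⟨n, hn⟩ := Nat.exists_eq_succ_of_ne_zero h5
      rw [hn] at h2
      exact h2
  · rintro ⟨h1, h2, h3⟩
    refine ⟨by rw [h1]; exact Nat.beq_refl _, ?_⟩
    by_cases h : ci = 0 ∧ cj = 0
    · obtain ⟨rfl, rfl⟩ := h
      change ba _ _ = true
      rw [ba_iff]
      refine ⟨?_, h3⟩
      rw [h2 rfl rfl]; exact Nat.beq_refl _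
    · have h5 : Nat.add ci cj ≠ 0 := by
        intro hc
        change ci + cj = 0 at hc
        exact h ⟨by omega, by omega⟩
      obtain ⟨n, hn⟩ := Nat.exists_eq_succ_of_ne_zero h5
      rw [hn]
      exact h3

/-- What the matrix check says. -/
structure MatOk (NN : ℕ) (c r : ℕ → ℕ) : Prop where
  dia : ∀ i < 6, gf (r i) i = 0
  sym : ∀ i j, i < j → j < 6 → gf (r i) j = gf (r j) i
  inn : ∀ i j, i < j → j < 6 → c i = 0 → c j = 0 → gf (r i) j = NN + kc i j

theorem mat_sound {NN : ℕ} {c r : ℕ → ℕ} (h : mat NN (c 0) (c 1) (c 2) (c 3) (c 4) (c 5)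
    (r 0) (r 1) (r 2) (r 3) (r 4) (r 5) = true) : MatOk NN c r := by
  unfold mat at h
  simp only [ba_iff, pr_iff] at h
  obtain ⟨d0, d1, d2, d3, d4, d5, s01, i01, s02, i02, s03, i03, s04, i04, s05, i05, s12, i12,
    s13, i13, s14, i14, s15, i15, s23, i23, s24, i24, s25, i25, s34, i34, s35, i35, s45, i45,
    _⟩ := h
  have e0 : ∀ R, gs R 0 = gf R 0 := fun R => gs_gf R 0
  have e1 : ∀ R, gs R 48 = gf R 1 := fun R => gs_gf R 1
  have e2 : ∀ R, gs R 96 = gf R 2 := fun R => gs_gf R 2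
  have e3 : ∀ R, gs R 144 = gf R 3 := fun R => gs_gf R 3
  have e4 : ∀ R, gs R 192 = gf R 4 := fun R => gs_gf R 4
  have e5 : ∀ R, gs R 240 = gf R 5 := fun R => gs_gf R 5
  simp only [e0, e1, e2, e3, e4, e5] at *
  refine ⟨?_, ?_, ?_⟩
  · intro i hi
    interval_cases i
    · exact Nat.eq_of_beq_eq_true d0
    · exact Nat.eq_of_beq_eq_true d1
    · exact Nat.eq_of_beq_eq_true d2
    · exact Nat.eq_of_beq_eq_true d3
    · exact Nat.eq_of_beq_eq_true d4
    · exact Nat.eq_of_beq_eq_true d5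
  · intro i j hij hj
    interval_cases j <;> interval_cases i <;> assumption
  · intro i j hij hj hci hcj
    have k01 : kc 0 1 = 0x1b1a := by decide +kernel
    have k02 : kc 0 2 = 0x2b19 := by decide +kernel
    have k03 : kc 0 3 = 0x3b11 := by decide +kernel
    have k04 : kc 0 4 = 0x4ad1 := by decide +kernel
    have k05 : kc 0 5 = 0x58d1 := by decide +kernel
    have k12 : kc 1 2 = 0xab18 := by decide +kernel
    have k13 : kc 1 3 = 0xbb10 := by decide +kernel
    have k14 : kc 1 4 = 0xcad0 := by decide +kernel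
    have k15 : kc 1 5 = 0xd8d0 := by decide +kernel
    have k23 : kc 2 3 = 0x13b08 := by decide +kernel
    have k24 : kc 2 4 = 0x14ac8 := by decide +kernel
    have k25 : kc 2 5 = 0x158c8 := by decide +kernel
    have k34 : kc 3 4 = 0x1ca88 := by decide +kernel
    have k35 : kc 3 5 = 0x1d888 := by decide +kernel
    have k45 : kc 4 5 = 0x25688 := by decide +kernel
    interval_cases j <;> interval_cases i
    · rw [k01]; exact i01 hci hcj
    · rw [k02]; exact i02 hci hcj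
    · rw [k12]; exact i12 hci hcj
    · rw [k03]; exact i03 hci hcj
    · rw [k13]; exact i13 hci hcj
    · rw [k23]; exact i23 hci hcj
    · rw [k04]; exact i04 hci hcj
    · rw [k14]; exact i14 hci hcj
    · rw [k24]; exact i24 hci hcj
    · rw [k34]; exact i34 hci hcj
    · rw [k05]; exact i05 hci hcj
    · rw [k15]; exact i15 hci hcj
    · rw [k25]; exact i25 hci hcj
    · rw [k35]; exact i35 hci hcj
    · rw [k45]; exact i45 hci hcj

/-- Six values as a function. -/
def s6 (a0 a1 a2 a3 a4 a5 : ℕ) (i : ℕ) : ℕ :=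
  if i = 0 then a0 else if i = 1 then a1 else if i = 2 then a2 else if i = 3 then a3 else
    if i = 4 then a4 else a5

/-- Soundness of a flip, combinatorial form. -/
theorem flp_sound {tab : ℕ → ℕ} (ht : ∀ i, tab i < 2 ^ 288) {off n N M : ℕ}
    {k : ℕ → ℕ → Bool} (h : flp tab off n N M k = true) :
    ∃ c r K Q : ℕ → ℕ, K 0 = N ∧ Q 0 = M ∧
      (∀ i < 6, RR tab N i (c i) (K i) (Q i) (r i) (K (i + 1)) (Q (i + 1))) ∧
      MatOk ((N + off) * 262144) c r ∧ k (K 6) (Q 6) = true := by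
  unfold flp at h
  simp only [frc_eq] at h
  obtain ⟨r0, K0, M0, q0, h⟩ := rowC_sound ht (by norm_num) h
  obtain ⟨r1, K1, M1, q1, h⟩ := rowC_sound ht (by norm_num) h
  obtain ⟨r2, K2, M2, q2, h⟩ := rowC_sound ht (by norm_num) h
  obtain ⟨r3, K3, M3, q3, h⟩ := rowC_sound ht (by norm_num) h
  obtain ⟨r4, K4, M4, q4, h⟩ := rowC_sound ht (by norm_num) h
  obtain ⟨r5, K5, M5, q5, h⟩ := rowC_sound ht (by norm_num) h
  rw [ba_iff] at h
  obtain ⟨h1, h2⟩ := h
  refine ⟨s6 (Nat.mod n 144115188075855872)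
    (Nat.mod (Nat.shiftRight n 57) 144115188075855872)
    (Nat.mod (Nat.shiftRight n 114) 144115188075855872)
    (Nat.mod (Nat.shiftRight n 171) 144115188075855872)
    (Nat.mod (Nat.shiftRight n 228) 144115188075855872) (Nat.shiftRight n 285),
    s6 r0 r1 r2 r3 r4 r5, fun i => if i = 0 then N else s6 K0 K1 K2 K3 K4 K5 (i - 1),
    fun i => if i = 0 then M else s6 M0 M1 M2 M3 M4 M5 (i - 1), rfl, rfl, ?_, mat_sound h1, h2⟩
  intro i hi
  interval_cases i
  · exact q0
  · exact q1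
  · exact q2
  · exact q3
  · exact q4
  · exact q5

end Fl49
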