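import Pool.Agent.Lib_MP_55d5ef_fl.Pk
import Pool.Agent.Lib_MP_55d5ef_fl.End

/-!
The end of a run: two boundaries of the same simplex are PL homeomorphic.
-/

set_option linter.unusedSectionVars false

namespace Fl49

open Finset PL55

section full

variable {V : Type} [DecidableEq V] {ρ ρ' : Type}
variable {lab : ρ → Finset V} {num : ρ → V → ℕ} {od : ρ → V → List V}
variable {lab' : ρ' → Finset V} {num' : ρ' → V → ℕ} {od' : ρ' → V → List V}
variable {s : Finset V} {c : V → ρ} {c' : V → ρ'} {S : Set ρ} {S' : Set ρ'}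

theorem Full.c_inj (h : Full lab num od s c S) {v w : V} (hv : v ∈ s) (hw : w ∈ s)
    (e : c v = c w) : v = w := by
  by_contra hne
  have h1 : w ∈ lab (c v) := by
    rw [h.labc v hv]
    exact Finset.mem_erase.mpr ⟨fun hc => hne hc.symm, hw⟩
  rw [e, h.labc w hw] at h1
  exact (Finset.mem_erase.mp h1).1 rfl

theorem Full.num_iff (h : Full lab num od s c S) {a b v w : V} (ha : a ∈ s) (hb : b ∈ s)
    (hv : v ∈ lab (c a)) (hw : w ∈ lab (c b)) :
    num (c a) v = num (c b) w ↔ (b = a ∧ w = v) ∨ (b = v ∧ w = a) := by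
  have hv' := hv
  have hw' := hw
  rw [h.labc a ha, Finset.mem_erase] at hv'
  rw [h.labc b hb, Finset.mem_erase] at hw'
  constructor
  · intro e
    rcases h.uniq a ha v hv'.2 (fun hc => hv'.1 hc.symm) (c b) (h.mem b hb) w hw e.symm with
      ⟨h1, h2⟩ | ⟨h1, h2⟩
    · exact Or.inl ⟨h.c_inj hb ha h1, h2⟩
    · exact Or.inr ⟨h.c_inj hb hv'.2 h1, h2⟩
  · rintro (⟨h1, h2⟩ | ⟨h1, h2⟩)
    · rw [h1, h2]
    · rw [h1, h2]
      exact (h.inn a ha v hv'.2 (fun hc => hv'.1 hc.symm)).1

open Classical in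
/-- The vertex opposite to a record. -/
noncomputable def opp (s : Finset V) (c : V → ρ) (v0 : V) (i : ρ) : V :=
  if h : ∃ v ∈ s, i = c v then h.choose else v0

theorem opp_spec (h : Full lab num od s c S) (v0 : V) {v : V} (hv : v ∈ s) :
    opp s c v0 (c v) = v := by
  classical
  unfold opp
  have h1 : ∃ w ∈ s, c v = c w := ⟨v, hv, rfl⟩
  rw [dif_pos h1]
  obtain ⟨h2, h3⟩ := h1.choose_spec
  exact (h.c_inj hv h2 h3).symm

/-- The isomorphism. -/
theorem full_iso (h : Full lab num od s c S) (hg : GdG lab od S)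
    (h' : Full lab' num' od' s c' S') (hg' : GdG lab' od' S') (v0 : V) :
    Iso lab num od lab' num' od' (fun i => c' (opp s c v0 i)) (fun j => c (opp s c' v0 j))
      (fun _ v => v) (fun _ v => v) S S' := by
  have hod : ∀ {a v : V}, a ∈ s → v ∈ lab (c a) → ∀ l, l ∈ od (c a) v ↔ (l ∈ s ∧ l ≠ a) ∧ l ≠ v := by
    intro a v ha hv l
    rw [hg _ (h.mem a ha) v hv l, h.labc a ha, Finset.mem_erase, and_comm (a := l ≠ a)]
  have hod' : ∀ {a v : V}, a ∈ s → v ∈ lab' (c' a) → ∀ l, l ∈ od' (c' a) v ↔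
      (l ∈ s ∧ l ≠ a) ∧ l ≠ v := by
    intro a v ha hv l
    rw [hg' _ (h'.mem a ha) v hv l, h'.labc a ha, Finset.mem_erase, and_comm (a := l ≠ a)]
  have hlab : ∀ {a : V}, a ∈ s → lab (c a) = lab' (c' a) := by
    intro a ha
    rw [h.labc a ha, h'.labc a ha]
  constructor
  · intro i hi
    obtain ⟨v, hv, rfl⟩ := h.out i hi
    simp only [opp_spec h v0 hv]
    exact h'.mem v hv
  · intro j hj
    obtain ⟨v, hv, rfl⟩ := h'.out j hj
    simp only [opp_spec h' v0 hv]
    exact h.mem v hv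
  · intro i hi
    obtain ⟨v, hv, rfl⟩ := h.out i hi
    simp only [opp_spec h v0 hv, opp_spec h' v0 hv]
  · intro j hj
    obtain ⟨v, hv, rfl⟩ := h'.out j hj
    simp only [opp_spec h v0 hv, opp_spec h' v0 hv]
  · intro i hi w hw
    obtain ⟨v, hv, rfl⟩ := h.out i hi
    simp only [opp_spec h v0 hv]
    rw [← hlab hv]
    exact hw
  · intro j hj w hw
    obtain ⟨v, hv, rfl⟩ := h'.out j hj
    simp only [opp_spec h' v0 hv]
    rw [hlab hv]
    exact hw
  · intro i _ v _
    rfl
  · intro j _ w _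
    rfl
  · intro i hi v hv j hj w hw
    obtain ⟨a, ha, rfl⟩ := h.out i hi
    obtain ⟨b, hb, rfl⟩ := h.out j hj
    simp only [opp_spec h v0 ha, opp_spec h v0 hb]
    rw [h.num_iff ha hb hv hw, h'.num_iff ha hb (by rw [← hlab ha]; exact hv)
      (by rw [← hlab hb]; exact hw)]
  · intro i hi v hv j hj w hw hn x y
    obtain ⟨a, ha, rfl⟩ := h.out i hi
    obtain ⟨b, hb, rfl⟩ := h.out j hj
    simp only [opp_spec h v0 ha, opp_spec h v0 hb]
    have hv' := hv
    rw [h.labc a ha, Finset.mem_erase] at hv'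
    have hvl : v ∈ lab' (c' a) := by rw [← hlab ha]; exact hv
    have key : (od' (c' a) v).map x = (od' (c' a) v).map y ↔
        (od (c a) v).map x = (od (c a) v).map y := by
      rw [List.map_inj_left, List.map_inj_left]
      constructor
      · intro h1 l hl
        exact h1 l ((hod' ha hvl l).mpr ((hod ha hv l).mp hl))
      · intro h1 l hl
        exact h1 l ((hod ha hv l).mpr ((hod' ha hvl l).mp hl))
    rcases (h.num_iff ha hb hv hw).mp hn with ⟨h1, h2⟩ | ⟨h1, h2⟩
    · subst h1; subst h2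
      exact key
    · subst h1; subst h2
      have e1 := (h.inn w ha b hv'.2 (fun hc => hv'.1 hc.symm)).2
      have e2 := (h'.inn w ha b hv'.2 (fun hc => hv'.1 hc.symm)).2
      rw [← e1, ← e2]
      exact key
  · intro i hi v hv l hl
    exact ((hg i hi v hv l).mp hl).1
  · intro j hj w hw l hl
    exact ((hg' j hj w hw l).mp hl).1

/-- Two boundaries of the same simplex. -/
theorem full_full (h : Full lab num od s c S) (hg : GdG lab od S)
    (h' : Full lab' num' od' s c' S') (hg' : GdG lab' od' S') (v0 : V) :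
    PLE lab num od S lab' num' od' S' :=
  ⟨(full_iso h hg h' hg' v0).homeo, (full_iso h hg h' hg' v0).plx,
    (full_iso h hg h' hg' v0).plx_symm⟩

end full

theorem PLE.trans {V V' V'' : Type} [DecidableEq V] [DecidableEq V'] [DecidableEq V'']
    {ρ ρ' ρ'' : Type}
    {lab : ρ → Finset V} {num : ρ → V → ℕ} {od : ρ → V → List V} {S : Set ρ}
    {lab' : ρ' → Finset V'} {num' : ρ' → V' → ℕ} {od' : ρ' → V' → List V'} {S' : Set ρ'}
    {lab'' : ρ'' → Finset V''} {num'' : ρ'' → V'' → ℕ} {od'' : ρ'' → V'' → List V''}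
    {S'' : Set ρ''} (h : PLE lab num od S lab' num' od' S')
    (h' : PLE lab' num' od' S' lab'' num'' od'' S'') :
    PLE lab num od S lab'' num'' od'' S'' := by
  obtain ⟨e, he⟩ := h
  obtain ⟨e', he'⟩ := h'
  exact ⟨e.trans e', he.trans he'⟩

theorem PLE.symm {V V' : Type} [DecidableEq V] [DecidableEq V'] {ρ ρ' : Type}
    {lab : ρ → Finset V} {num : ρ → V → ℕ} {od : ρ → V → List V} {S : Set ρ}
    {lab' : ρ' → Finset V'} {num' : ρ' → V' → ℕ} {od' : ρ' → V' → List V'} {S' : Set ρ'}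
    (h : PLE lab num od S lab' num' od' S') : PLE lab' num' od' S' lab num od S := by
  obtain ⟨e, he⟩ := h
  exact ⟨e.symm, he.symm⟩

theorem gd_canon : GdG labR odR (sL canon) := by
  have h : ∀ x ∈ canon, ∀ v ∈ labR x, (∀ l ∈ odR x v, l ∈ labR x ∧ l ≠ v) ∧
      ∀ l ∈ labR x, l ≠ v → l ∈ odR x v := by
    decide +kernel
  intro x hx v hv l
  obtain ⟨h1, h2⟩ := h x hx v hv
  exact ⟨fun hl => h1 l hl, fun hl => h2 l hl.1 hl.2⟩

/-- The end of a run, in the records of the list `canon`. -/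
theorem full_to_canon {ρ : Type} {lab : ρ → Finset ℕ} {num : ρ → ℕ → ℕ} {od : ρ → ℕ → List ℕ}
    {c : ℕ → ρ} {S : Set ρ} (h : Full lab num od (Finset.range 6) c S) (hg : GdG lab od S) :
    PLE lab num od S labR numR odR (sL canon) :=
  full_full h hg full_canon gd_canon 0

end Fl49
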