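import Pool.Agent.Lib_MP_55d5ef_fl.PkA
import Pool.Agent.Lib_MP_55d5ef_fl.PkFull

/-!
Packed checker: soundness of a flip and of a run.
-/

set_option linter.unusedSectionVars false

namespace Fl49

/-! PL equivalence. -/

section ple

variable {V V' : Type} [DecidableEq V] [DecidableEq V'] {ρ ρ' : Type}
variable {lab : ρ → Finset V} {num : ρ → V → ℕ} {od : ρ → V → List V} {S : Set ρ}
variable {lab' : ρ' → Finset V'} {num' : ρ' → V' → ℕ} {od' : ρ' → V' → List V'} {S' : Set ρ'}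

theorem PLE.refl : PLE lab num od S lab num od S := ⟨Homeomorph.refl _, PLH.refl⟩

theorem PLE.of_iso {φ : ρ → ρ'} {ψ : ρ' → ρ} {f : ρ → V → V'} {g : ρ' → V' → V}
    (h : Iso lab num od lab' num' od' φ ψ f g S S') : PLE lab num od S lab' num' od' S' :=
  ⟨h.homeo, h.plx, h.plx_symm⟩

theorem PLE.of_flip {a b : Finset V} {c c' : V → ρ} {T : Set ρ}
    (h : GFlip lab num od a b c c' S T) : PLE lab num od S lab num od T :=
  ⟨h.homeo, h.plx, h.plx_symm⟩

end ple

/-! Renaming of one record. -/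

theorem RenOk.labr {R i r : ℕ} {f g : ℕ → ℕ} (h : RenOk R i r f g) (j : ℕ) :
    labK (j, r) = (Finset.range 6).erase i := by
  ext w
  rw [mem_labK, Finset.mem_erase, Finset.mem_range]
  constructor
  · rintro ⟨h1, h2⟩
    refine ⟨?_, h1⟩
    rintro rfl
    simp only [h.ze] at h2
    omega
  · rintro ⟨h1, h2⟩
    refine ⟨h2, ?_⟩
    have h3 := h.nu w h2 h1
    have h4 := h.nz w h2 h1
    simp only
    omega

theorem RenOk.img {R i r : ℕ} {f g : ℕ → ℕ} (h : RenOk R i r f g) (hi : i < 6) {j : ℕ}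
    (h5 : (labK (j, R)).card = 5) : ((Finset.range 6).erase i).image g = labK (j, R) := by
  refine Finset.eq_of_subset_of_card_le ?_ ?_
  · intro v hv
    rw [Finset.mem_image] at hv
    obtain ⟨w, hw, rfl⟩ := hv
    rw [Finset.mem_erase, Finset.mem_range] at hw
    exact (mem_labK _ _).mpr ⟨h.g6 w hw.2 hw.1, h.nz w hw.2 hw.1⟩
  · rw [h5, Finset.card_image_of_injOn, Finset.card_erase_of_mem (Finset.mem_range.mpr hi),
      Finset.card_range]
    intro w hw w' hw' hww
    rw [Finset.mem_coe, Finset.mem_erase, Finset.mem_range] at hw hw'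
    have := congrArg f hww
    rwa [h.fg w hw.2 hw.1, h.fg w' hw'.2 hw'.1] at this

theorem RenOk.ex {R i r : ℕ} {f g : ℕ → ℕ} (h : RenOk R i r f g) (hi : i < 6) {j : ℕ}
    (h5 : (labK (j, R)).card = 5) {v : ℕ} (hv : v ∈ labK (j, R)) :
    ∃ w, w < 6 ∧ w ≠ i ∧ g w = v := by
  rw [← h.img hi h5, Finset.mem_image] at hv
  obtain ⟨w, hw, rfl⟩ := hv
  rw [Finset.mem_erase, Finset.mem_range] at hw
  exact ⟨w, hw.2, hw.1, rfl⟩

theorem RenOk.bij {R i r : ℕ} {f g : ℕ → ℕ} (h : RenOk R i r f g) (hi : i < 6) {j : ℕ}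
    (h5 : (labK (j, R)).card = 5) : Set.BijOn f (labK (j, R)) (labK (j, r)) := by
  refine ⟨?_, ?_, ?_⟩
  · intro v hv
    obtain ⟨w, hw, hwi, rfl⟩ := h.ex hi h5 (Finset.mem_coe.mp hv)
    rw [h.fg w hw hwi, h.labr j, Finset.mem_coe, Finset.mem_erase, Finset.mem_range]
    exact ⟨hwi, hw⟩
  · intro v hv v' hv' hvv
    obtain ⟨w, hw, hwi, rfl⟩ := h.ex hi h5 (Finset.mem_coe.mp hv)
    obtain ⟨w', hw', hwi', rfl⟩ := h.ex hi h5 (Finset.mem_coe.mp hv')
    rw [h.fg w hw hwi, h.fg w' hw' hwi'] at hvv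
    rw [hvv]
  · intro w hw
    rw [h.labr j, Finset.mem_coe, Finset.mem_erase, Finset.mem_range] at hw
    exact ⟨g w, Finset.mem_coe.mpr ((mem_labK _ _).mpr ⟨h.g6 w hw.2 hw.1, h.nz w hw.2 hw.1⟩),
      h.fg w hw.2 hw.1⟩

theorem RenOk.num {R i r : ℕ} {f g : ℕ → ℕ} (h : RenOk R i r f g) (hi : i < 6) {j : ℕ}
    (h5 : (labK (j, R)).card = 5) {v : ℕ} (hv : v ∈ labK (j, R)) :
    numK (j, r) (f v) = numK (j, R) v := by
  obtain ⟨w, hw, hwi, rfl⟩ := h.ex hi h5 hv
  rw [h.fg w hw hwi]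
  exact h.nu w hw hwi

theorem RenOk.ods {R i r : ℕ} {f g : ℕ → ℕ} (h : RenOk R i r f g) (hi : i < 6) {j : ℕ}
    (h5 : (labK (j, R)).card = 5) {v : ℕ} (hv : v ∈ labK (j, R)) :
    odK (j, r) (f v) = (odK (j, R) v).map f := by
  obtain ⟨w, hw, hwi, rfl⟩ := h.ex hi h5 hv
  rw [h.fg w hw hwi]
  exact h.od w hw hwi

/-! Transport of sets of packed records. -/

/-- Bijection of sets of records with renaming of the labels. -/
structure Trk (S S' : Set Rk) (φ : Rk → Rk) (f : Rk → ℕ → ℕ) : Prop where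
  bij : Set.BijOn φ S S'
  fb : ∀ x ∈ S, Set.BijOn (f x) (labK x) (labK (φ x))
  nu : ∀ x ∈ S, ∀ v ∈ labK x, numK (φ x) (f x v) = numK x v
  od : ∀ x ∈ S, ∀ v ∈ labK x, odK (φ x) (f x v) = (odK x v).map (f x)

variable {S S' : Set Rk} {φ : Rk → Rk} {f : Rk → ℕ → ℕ}

theorem Trk.plk (h : Trk S S' φ f) (gd : GdG labK odK S) : PLK S S' := by
  obtain ⟨ψ, g, hi⟩ := iso_of_bij (lab := labK) (num := numK) (od := odK) (lab' := labK)
    (num' := numK) (od' := odK) h.bij h.fb (by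
      intro i hi v hv j hj w hw
      rw [h.nu i hi v hv, h.nu j hj w hw]) h.od
    (fun i hi v hv l hl => ((gd i hi v hv l).mp hl).1)
  exact PLE.of_iso hi

theorem Trk.ex (h : Trk S S' φ f) {y : Rk} (hy : y ∈ S') {w : ℕ} (hw : w ∈ labK y) :
    ∃ x ∈ S, ∃ v ∈ labK x, y = φ x ∧ w = f x v := by
  obtain ⟨x, hx, rfl⟩ := h.bij.surjOn hy
  obtain ⟨v, hv, rfl⟩ := (h.fb x hx).surjOn (Finset.mem_coe.mpr hw)
  exact ⟨x, hx, v, Finset.mem_coe.mp hv, rfl, rfl⟩

theorem Trk.gd (h : Trk S S' φ f) (gd : GdG labK odK S) : GdG labK odK S' := by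
  intro y hy w hw l
  obtain ⟨x, hx, v, hv, rfl, rfl⟩ := h.ex hy hw
  rw [h.od x hx v hv, List.mem_map]
  constructor
  · rintro ⟨u, hu, rfl⟩
    obtain ⟨h1, h2⟩ := (gd x hx v hv u).mp hu
    refine ⟨Finset.mem_coe.mp ((h.fb x hx).mapsTo (Finset.mem_coe.mpr h1)), fun hc => h2 ?_⟩
    exact (h.fb x hx).injOn (Finset.mem_coe.mpr h1) (Finset.mem_coe.mpr hv) hc
  · rintro ⟨h1, h2⟩
    obtain ⟨u, hu, rfl⟩ := (h.fb x hx).surjOn (Finset.mem_coe.mpr h1)
    exact ⟨u, (gd x hx v hv u).mpr ⟨Finset.mem_coe.mp hu, fun hc => h2 (by rw [hc])⟩, rfl⟩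

theorem Trk.tw (h : Trk S S' φ f) (tw : TwG labK numK S) : TwG labK numK S' := by
  refine tw.surj (fun x v => (φ x, f x v)) h.nu ?_
  intro y hy w hw
  obtain ⟨x, hx, v, hv, rfl, rfl⟩ := h.ex hy hw
  exact ⟨x, hx, v, hv, rfl⟩

theorem Trk.fn (h : Trk S S' φ f) {n : ℕ} (fn : FnG labK numK n S) : FnG labK numK n S' := by
  intro y hy w hw
  obtain ⟨x, hx, v, hv, rfl, rfl⟩ := h.ex hy hw
  rw [h.nu x hx v hv]
  exact fn x hx v hv

/-! The data of a packed flip. -/

/-- The data of a packed flip. -/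
structure Fd (tab : ℕ → ℕ) (off N M N' M' : ℕ) (A B : Finset ℕ) (K id r : ℕ → ℕ) : Prop where
  un : A ∪ B = Finset.range 6
  dj : Disjoint A B
  ka : ∀ a ∈ A, N ≤ K a ∧ K a < N'
  ki : ∀ a ∈ A, ∀ a' ∈ A, K a = K a' → a = a'
  kj : ∀ j, N ≤ j → j < N' → ∃ a ∈ A, j = K a
  kn : N ≤ N'
  ra : ∀ a ∈ A, r a = tab (K a)
  ib : ∀ b ∈ B, id b < N
  ii : ∀ b ∈ B, ∀ b' ∈ B, id b = id b' → b = b'
  im : ∀ b ∈ B, M.testBit (id b) = false
  mb : ∀ j, M'.testBit j = true ↔ M.testBit j = true ∨ ∃ b ∈ B, j = id b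
  rn : ∀ b ∈ B, (labK (id b, tab (id b))).card = 5 → ∃ f g, RenOk (tab (id b)) b (r b) f g
  dia : ∀ i < 6, gf (r i) i = 0
  sym : ∀ i j, i < j → j < 6 → gf (r i) j = gf (r j) i
  inn : ∀ i j, i < j → j < 6 → i ∈ A → j ∈ A → gf (r i) j = (N + off) * 262144 + kc i j

theorem flp_fd {tab : ℕ → ℕ} (ht : ∀ i, tab i < 2 ^ 288) {off n N M : ℕ}
    {k : ℕ → ℕ → Bool} (h : flp tab off n N M k = true) :
    ∃ N' M' A B K id r, Fd tab off N M N' M' A B K id r ∧ k N' M' = true := by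
  classical
  obtain ⟨c, r, K, Q, hK0, hQ0, hR, hm, hk⟩ := flp_sound ht h
  have hid : ∀ i, ∃ id, i < 6 → c i ≠ 0 → id < N ∧ (Q i).testBit id = false ∧
      Q (i + 1) = Q i ||| (1 <<< id) ∧
      ((labK (id, tab id)).card = 5 → ∃ f g, RenOk (tab id) i (r i) f g) := by
    intro i
    by_cases hi : i < 6 ∧ c i ≠ 0
    · rcases hR i hi.1 with ⟨h1, _⟩ | ⟨_, _, id, h1, h2, h3, h4⟩
      · exact absurd h1 hi.2
      · exact ⟨id, fun _ _ => ⟨h1, h2, h3, h4⟩⟩
    · exact ⟨0, fun h1 h2 => absurd ⟨h1, h2⟩ hi⟩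
  choose id hid using hid
  have hK : ∀ i < 6, (c i = 0 → r i = tab (K i) ∧ K (i + 1) = K i + 1 ∧ Q (i + 1) = Q i) ∧
      (c i ≠ 0 → K (i + 1) = K i) := by
    intro i hi
    rcases hR i hi with ⟨h1, h2, h3, h4⟩ | ⟨h1, h2, _⟩
    · exact ⟨fun _ => ⟨h2, h3, h4⟩, fun hc => absurd h1 hc⟩
    · exact ⟨fun hc => absurd hc h1, fun _ => h2⟩
  have hstep : ∀ i < 6, K i ≤ K (i + 1) := by
    intro i hi
    by_cases hc : c i = 0
    · have := ((hK i hi).1 hc).2.1; omega
    · have := (hK i hi).2 hc; omega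
  have hmono : ∀ j, j ≤ 6 → ∀ i ≤ j, K i ≤ K j := by
    intro j
    induction j with
    | zero => intro _ i hi; have : i = 0 := by omega
              rw [this]
    | succ j ih =>
      intro hj i hi
      rcases Nat.lt_or_ge i (j + 1) with h1 | h1
      · exact (ih (by omega) i (by omega)).trans (hstep j (by omega))
      · have : i = j + 1 := by omega
        rw [this]
  have hcov : ∀ i ≤ 6, ∀ j, N ≤ j → j < K i → ∃ a < i, c a = 0 ∧ j = K a := by
    intro i
    induction i with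
    | zero => intro _ j h1 h2; rw [hK0] at h2; omega
    | succ i ih =>
      intro hi j h1 h2
      by_cases h3 : j < K i
      · obtain ⟨a, ha, h4, h5⟩ := ih (by omega) j h1 h3
        exact ⟨a, by omega, h4, h5⟩
      · by_cases hc : c i = 0
        · have := ((hK i (by omega)).1 hc).2.1
          exact ⟨i, by omega, hc, by omega⟩
        · have := (hK i (by omega)).2 hc
          omega
  have hbit : ∀ i ≤ 6, ∀ j, (Q i).testBit j = true ↔
      M.testBit j = true ∨ ∃ b < i, c b ≠ 0 ∧ j = id b := by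
    intro i
    induction i with
    | zero =>
      intro _ j
      rw [hQ0]
      constructor
      · intro h1; exact Or.inl h1
      · rintro (h1 | ⟨b, hb, _⟩)
        · exact h1
        · omega
    | succ i ih =>
      intro hi j
      by_cases hc : c i = 0
      · rw [((hK i (by omega)).1 hc).2.2, ih (by omega) j]
        constructor
        · rintro (h1 | ⟨b, hb, h2, h3⟩)
          · exact Or.inl h1
          · exact Or.inr ⟨b, by omega, h2, h3⟩
        · rintro (h1 | ⟨b, hb, h2, h3⟩)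
          · exact Or.inl h1
          · refine Or.inr ⟨b, ?_, h2, h3⟩
            rcases Nat.lt_or_ge b i with h4 | h4
            · exact h4
            · have : b = i := by omega
              rw [this] at h2
              exact absurd hc h2
      · obtain ⟨_, _, h3, _⟩ := hid i (by omega) hc
        rw [h3, Nat.testBit_or, Bool.or_eq_true, ih (by omega) j, Nat.one_shiftLeft,
          Nat.testBit_two_pow, decide_eq_true_iff]
        constructor
        · rintro ((h1 | ⟨b, hb, h4, h5⟩) | h1)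
          · exact Or.inl h1
          · exact Or.inr ⟨b, by omega, h4, h5⟩
          · exact Or.inr ⟨i, by omega, hc, h1.symm⟩
        · rintro (h1 | ⟨b, hb, h4, h5⟩)
          · exact Or.inl (Or.inl h1)
          · rcases Nat.lt_or_ge b i with h6 | h6
            · exact Or.inl (Or.inr ⟨b, h6, h4, h5⟩)
            · have : b = i := by omega
              rw [this] at h5
              exact Or.inr h5.symm
  have hii : ∀ b b', b < b' → b' < 6 → c b ≠ 0 → c b' ≠ 0 → id b ≠ id b' := by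
    intro b b' hbb hb' hc hc' he
    obtain ⟨_, h2, _⟩ := hid b' hb' hc'
    have h3 := (hbit b' (by omega) (id b')).mpr (Or.inr ⟨b, hbb, hc, he.symm⟩)
    rw [h2] at h3
    exact Bool.noConfusion h3
  refine ⟨K 6, Q 6, (Finset.range 6).filter (fun i => c i = 0),
    (Finset.range 6).filter (fun i => ¬ c i = 0), K, id, r, ?_, hk⟩
  refine ⟨Finset.filter_union_filter_not_eq _ _, Finset.disjoint_filter_filter_not _ _ _,
    ?_, ?_, ?_, ?_, ?_, ?_, ?_, ?_, ?_, ?_, hm.dia, hm.sym, ?_⟩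
  · intro a ha
    rw [Finset.mem_filter, Finset.mem_range] at ha
    refine ⟨by rw [← hK0]; exact hmono a (by omega) 0 (by omega), ?_⟩
    have h1 := ((hK a ha.1).1 ha.2).2.1
    have h2 := hmono 6 (by omega) (a + 1) (by omega)
    omega
  · intro a ha a' ha' he
    rw [Finset.mem_filter, Finset.mem_range] at ha ha'
    have h1 := ((hK a ha.1).1 ha.2).2.1
    have h1' := ((hK a' ha'.1).1 ha'.2).2.1
    rcases lt_trichotomy a a' with h2 | h2 | h2
    · have h3 := hmono a' (by omega) (a + 1) (by omega)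
      omega
    · exact h2
    · have h3 := hmono a (by omega) (a' + 1) (by omega)
      omega
  · intro j h1 h2
    obtain ⟨a, ha, h3, h4⟩ := hcov 6 le_rfl j h1 h2
    exact ⟨a, Finset.mem_filter.mpr ⟨Finset.mem_range.mpr ha, h3⟩, h4⟩
  · rw [← hK0]; exact hmono 6 le_rfl 0 (by omega)
  · intro a ha
    rw [Finset.mem_filter, Finset.mem_range] at ha
    exact ((hK a ha.1).1 ha.2).1
  · intro b hb
    rw [Finset.mem_filter, Finset.mem_range] at hb
    exact (hid b hb.1 hb.2).1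
  · intro b hb b' hb' he
    rw [Finset.mem_filter, Finset.mem_range] at hb hb'
    rcases lt_trichotomy b b' with h2 | h2 | h2
    · exact absurd he (hii b b' h2 hb'.1 hb.2 hb'.2)
    · exact h2
    · exact absurd he.symm (hii b' b h2 hb.1 hb'.2 hb.2)
  · intro b hb
    rw [Finset.mem_filter, Finset.mem_range] at hb
    by_contra hc
    have h1 : M.testBit (id b) = true := by
      rcases hx : M.testBit (id b) with _ | _
      · exact absurd hx hc
      · rfl
    have h2 := (hbit b (by omega) (id b)).mpr (Or.inl h1)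
    rw [(hid b hb.1 hb.2).2.1] at h2
    exact Bool.noConfusion h2
  · intro j
    rw [hbit 6 le_rfl j]
    constructor
    · rintro (h1 | ⟨b, hb, h2, h3⟩)
      · exact Or.inl h1
      · exact Or.inr ⟨b, Finset.mem_filter.mpr ⟨Finset.mem_range.mpr hb, h2⟩, h3⟩
    · rintro (h1 | ⟨b, hb, h3⟩)
      · exact Or.inl h1
      · rw [Finset.mem_filter, Finset.mem_range] at hb
        exact Or.inr ⟨b, hb.1, hb.2, h3⟩
  · intro b hb
    rw [Finset.mem_filter, Finset.mem_range] at hb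
    exact (hid b hb.1 hb.2).2.2.2
  · intro i j hij hj hi hj'
    rw [Finset.mem_filter, Finset.mem_range] at hi hj'
    exact hm.inn i j hij hj hi.2 hj'.2

end Fl49
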