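import Pool.Agent.Lib_MP_55d5ef_fl.PkB

/-!
Packed checker: a packed flip is a flip; soundness of runs and of the final check.
-/

set_option linter.unusedSectionVars false

namespace Fl49

/-! Numbers and orderings of the new inner facets. -/

theorem kc_fin : ∀ i ∈ List.range 6, ∀ j ∈ List.range 6, i < j →
    kc i j / 4096 = 8 * i + j ∧ kc i j < 262144 ∧
    ∀ u ∈ List.range 8, (u ∈ dgs (kc i j) ↔ u < 6 ∧ u ≠ i ∧ u ≠ j) := by
  decide +kernel

theorem kc_div {i j : ℕ} (hij : i < j) (hj : j < 6) : kc i j / 4096 = 8 * i + j :=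
  (kc_fin i (List.mem_range.mpr (by omega)) j (List.mem_range.mpr hj) hij).1

theorem dgs_add (X k : ℕ) : dgs (X * 262144 + k) = dgs k := by
  simp only [dgs, List.cons.injEq, and_true]
  refine ⟨?_, ?_, ?_, ?_⟩ <;> omega

theorem dgs_lt {F u : ℕ} (h : u ∈ dgs F) : u < 8 := by
  simp only [dgs, List.mem_cons, List.not_mem_nil, or_false] at h
  omega

theorem kc_dgs {i j : ℕ} (hij : i < j) (hj : j < 6) (X u : ℕ) :
    u ∈ dgs (X * 262144 + kc i j) ↔ u < 6 ∧ u ≠ i ∧ u ≠ j := by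
  rw [dgs_add]
  have h := (kc_fin i (List.mem_range.mpr (by omega)) j (List.mem_range.mpr hj) hij).2.2
  constructor
  · intro hu
    exact (h u (List.mem_range.mpr (dgs_lt hu))).mp hu
  · intro hu
    exact (h u (List.mem_range.mpr (by omega))).mpr hu

/-- The records, the renamed ones replaced. -/
def S1K (tab : ℕ → ℕ) (N M : ℕ) (B : Finset ℕ) (id r : ℕ → ℕ) : Set Rk :=
  {y | y.1 < N ∧ M.testBit y.1 = false ∧
    ((∃ b ∈ B, y = (id b, r b)) ∨ ((∀ b ∈ B, y.1 ≠ id b) ∧ y.2 = tab y.1))}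

variable {tab : ℕ → ℕ} {off N M N' M' : ℕ} {A B : Finset ℕ} {K id r : ℕ → ℕ}

theorem Fd.b6 (h : Fd tab off N M N' M' A B K id r) {b : ℕ} (hb : b ∈ B) : b < 6 := by
  have h1 : b ∈ A ∪ B := Finset.mem_union_right _ hb
  rw [h.un, Finset.mem_range] at h1
  exact h1

theorem Fd.a6 (h : Fd tab off N M N' M' A B K id r) {a : ℕ} (ha : a ∈ A) : a < 6 := by
  have h1 : a ∈ A ∪ B := Finset.mem_union_left _ ha
  rw [h.un, Finset.mem_range] at h1
  exact h1

theorem Fd.mem (h : Fd tab off N M N' M' A B K id r) {b : ℕ} (hb : b ∈ B) :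
    ((id b, tab (id b)) : Rk) ∈ SK tab N M := ⟨h.ib b hb, h.im b hb, rfl⟩

theorem Fd.mem1 (h : Fd tab off N M N' M' A B K id r) {b : ℕ} (hb : b ∈ B) :
    ((id b, r b) : Rk) ∈ S1K tab N M B id r := ⟨h.ib b hb, h.im b hb, Or.inl ⟨b, hb, rfl⟩⟩

theorem Fd.trk (h : Fd tab off N M N' M' A B K id r) (hI : InvK (SK tab N M) N off) :
    ∃ φ f, Trk (SK tab N M) (S1K tab N M B id r) φ f := by
  classical
  have hF : ∀ b, ∃ f g, b ∈ B → RenOk (tab (id b)) b (r b) f g := by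
    intro b
    by_cases hb : b ∈ B
    · obtain ⟨f, g, hfg⟩ := h.rn b hb (hI.five _ (h.mem hb))
      exact ⟨f, g, fun _ => hfg⟩
    · exact ⟨fun v => v, fun v => v, fun hc => absurd hc hb⟩
  choose F G hFG using hF
  set φ : Rk → Rk := fun x => if hx : ∃ b ∈ B, x.1 = id b then (x.1, r hx.choose) else x with hφ
  set f : Rk → ℕ → ℕ := fun x => if hx : ∃ b ∈ B, x.1 = id b then F hx.choose else fun v => v
    with hf
  have e1 : ∀ b ∈ B, φ (id b, tab (id b)) = (id b, r b) ∧ f (id b, tab (id b)) = F b := by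
    intro b hb
    have hx : ∃ b' ∈ B, ((id b, tab (id b)) : Rk).1 = id b' := ⟨b, hb, rfl⟩
    have hc : hx.choose = b := h.ii _ hx.choose_spec.1 b hb hx.choose_spec.2.symm
    constructor
    · simp only [hφ]
      rw [dif_pos hx, hc]
    · simp only [hf]
      rw [dif_pos hx, hc]
  have e2 : ∀ x : Rk, (∀ b ∈ B, x.1 ≠ id b) → φ x = x ∧ f x = fun v => v := by
    intro x hx
    have hx' : ¬ ∃ b ∈ B, x.1 = id b := by
      rintro ⟨b, hb, h1⟩; exact hx b hb h1
    constructor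
    · simp only [hφ]
      rw [dif_neg hx']
    · simp only [hf]
      rw [dif_neg hx']
  have hc : ∀ x ∈ SK tab N M, (∃ b ∈ B, x = (id b, tab (id b))) ∨ (∀ b ∈ B, x.1 ≠ id b) := by
    intro x hx
    by_cases h1 : ∃ b ∈ B, x.1 = id b
    · obtain ⟨b, hb, h2⟩ := h1
      left
      refine ⟨b, hb, Prod.ext h2 ?_⟩
      rw [hx.2.2, h2]
    · right
      intro b hb h2
      exact h1 ⟨b, hb, h2⟩
  refine ⟨φ, f, ⟨?_, ?_, ?_⟩, ?_, ?_, ?_⟩
  · intro x hx
    rcases hc x hx with ⟨b, hb, rfl⟩ | h1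
    · rw [(e1 b hb).1]
      exact h.mem1 hb
    · rw [(e2 x h1).1]
      exact ⟨hx.1, hx.2.1, Or.inr ⟨h1, hx.2.2⟩⟩
  · intro x hx y hy hxy
    have g1 : ∀ z ∈ SK tab N M, (φ z).1 = z.1 := by
      intro z hz
      rcases hc z hz with ⟨b, hb, rfl⟩ | h1
      · rw [(e1 b hb).1]
      · rw [(e2 z h1).1]
    refine hI.fu x hx y hy ?_
    rw [← g1 x hx, ← g1 y hy, hxy]
  · intro y hy
    obtain ⟨h1, h2, ⟨b, hb, rfl⟩ | ⟨h3, h4⟩⟩ := hy
    · exact ⟨(id b, tab (id b)), h.mem hb, (e1 b hb).1⟩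
    · exact ⟨y, ⟨h1, h2, h4⟩, (e2 y h3).1⟩
  · intro x hx
    rcases hc x hx with ⟨b, hb, rfl⟩ | h1
    · rw [(e1 b hb).1, (e1 b hb).2]
      exact (hFG b hb).bij (h.b6 hb) (hI.five _ hx)
    · rw [(e2 x h1).1, (e2 x h1).2]
      exact Set.bijOn_id _
  · intro x hx v hv
    rcases hc x hx with ⟨b, hb, rfl⟩ | h1
    · rw [(e1 b hb).1, (e1 b hb).2]
      exact (hFG b hb).num (h.b6 hb) (hI.five _ hx) hv
    · rw [(e2 x h1).1, (e2 x h1).2]
  · intro x hx v hv
    rcases hc x hx with ⟨b, hb, rfl⟩ | h1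
    · rw [(e1 b hb).1, (e1 b hb).2]
      exact (hFG b hb).ods (h.b6 hb) (hI.five _ hx) hv
    · rw [(e2 x h1).1, (e2 x h1).2, List.map_id']

theorem Fd.labB (h : Fd tab off N M N' M' A B K id r) (hI : InvK (SK tab N M) N off) {b : ℕ}
    (hb : b ∈ B) (j : ℕ) : labK (j, r b) = (Finset.range 6).erase b := by
  obtain ⟨f, g, hfg⟩ := h.rn b hb (hI.five _ (h.mem hb))
  exact hfg.labr j

theorem Fd.sy (h : Fd tab off N M N' M' A B K id r) {i j : ℕ} (hi : i < 6) (hj : j < 6) :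
    gf (r i) j = gf (r j) i := by
  rcases lt_trichotomy i j with h1 | h1 | h1
  · exact h.sym i j h1 hj
  · rw [h1]
  · exact (h.sym j i h1 hi).symm

theorem Fd.nw (h : Fd tab off N M N' M' A B K id r) {v w : ℕ} (hv : v ∈ A) (hw : w ∈ A)
    (hvw : v ≠ w) : ∃ i j, i < j ∧ j < 6 ∧ ((v = i ∧ w = j) ∨ (v = j ∧ w = i)) ∧
      gf (tab (K v)) w = (N + off) * 262144 + kc i j := by
  rcases lt_trichotomy v w with h1 | h1 | h1
  · exact ⟨v, w, h1, h.a6 hw, Or.inl ⟨rfl, rfl⟩, by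
      rw [← h.ra v hv]; exact h.inn v w h1 (h.a6 hw) hv hw⟩
  · exact absurd h1 hvw
  · exact ⟨w, v, h1, h.a6 hv, Or.inr ⟨rfl, rfl⟩, by
      rw [← h.ra v hv, h.sy (h.a6 hv) (h.a6 hw)]; exact h.inn w v h1 (h.a6 hv) hw hv⟩

theorem Fd.nwn (h : Fd tab off N M N' M' A B K id r) {v w : ℕ} (hv : v ∈ A) (hw : w ∈ A)
    (hvw : v ≠ w) : ∃ i j, i < j ∧ j < 6 ∧ ((v = i ∧ w = j) ∨ (v = j ∧ w = i)) ∧
      numK (K v, tab (K v)) w = 64 * (N + off) + (8 * i + j) := by
  obtain ⟨i, j, hij, hj, h1, h2⟩ := h.nw hv hw hvw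
  refine ⟨i, j, hij, hj, h1, ?_⟩
  unfold numK
  simp only
  rw [h2]
  have h3 := kc_div hij hj
  omega

theorem Fd.labA (h : Fd tab off N M N' M' A B K id r) (hI : InvK (SK tab N M) N off) {a : ℕ}
    (ha : a ∈ A) (j : ℕ) : labK (j, tab (K a)) = (Finset.range 6).erase a := by
  ext w
  rw [mem_labK, Finset.mem_erase, Finset.mem_range]
  simp only
  constructor
  · rintro ⟨h1, h2⟩
    refine ⟨?_, h1⟩
    rintro rfl
    rw [← h.ra _ ha, h.dia _ h1] at h2
    omega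
  · rintro ⟨h1, h2⟩
    refine ⟨h2, ?_⟩
    have hu : w ∈ A ∪ B := by rw [h.un, Finset.mem_range]; exact h2
    rcases Finset.mem_union.mp hu with h3 | h3
    · obtain ⟨i, j', hij, hj, _, h4⟩ := h.nw ha h3 (Ne.symm h1)
      rw [h4]
      have h5 := kc_div hij hj
      omega
    · rw [← h.ra a ha, h.sy (h.a6 ha) h2]
      have h4 : a ∈ labK (j, r w) := by
        rw [h.labB hI h3 j, Finset.mem_erase, Finset.mem_range]
        exact ⟨Ne.symm h1, h.a6 ha⟩
      exact ((mem_labK _ _).mp h4).2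

theorem Fd.new (h : Fd tab off N M N' M' A B K id r) (h1 : N < N') (h2 : N' < N + 6)
    (hI : InvK (SK tab N M) N off) (hM : ∀ j, N ≤ j → M.testBit j = false) :
    NewOk labK numK odK A B (fun b => (id b, r b)) (fun a => (K a, tab (K a)))
      (S1K tab N M B id r) (SK tab N' M') (64 * (N + off)) := by
  classical
  have hb6 : ∀ b ∈ B, b < 6 := fun b hb => h.b6 hb
  have ha6 : ∀ a ∈ A, a < 6 := fun a ha => h.a6 ha
  have hmb0 : ∀ j, M'.testBit j = false ↔ M.testBit j = false ∧ ∀ b ∈ B, j ≠ id b := by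
    intro j
    have h3 := h.mb j
    constructor
    · intro h4
      rw [h4] at h3
      refine ⟨?_, ?_⟩
      · rcases hx : M.testBit j with _ | _
        · rfl
        · exact absurd (h3.mpr (Or.inl hx)) (by simp)
      · intro b hb hc
        exact absurd (h3.mpr (Or.inr ⟨b, hb, hc⟩)) (by simp)
    · rintro ⟨h4, h5⟩
      rcases hx : M'.testBit j with _ | _
      · rfl
      · rcases h3.mp hx with h6 | ⟨b, hb, h6⟩
        · rw [h4] at h6; exact absurd h6 (by simp)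
        · exact absurd h6 (h5 b hb)
  refine ⟨?_, ?_, h.dj, ?_, ?_, fun b hb => h.mem1 hb, ?_, ?_, ?_, ?_, ?_, ?_, ?_, ?_, ?_⟩
  · obtain ⟨a, ha, _⟩ := h.kj N le_rfl h1
    exact ⟨a, ha⟩
  · rw [Finset.nonempty_iff_ne_empty]
    intro hB
    have hA : A = Finset.range 6 := by
      have := h.un
      rwa [hB, Finset.union_empty] at this
    have hcard : A.card ≤ (Finset.Ico N N').card := by
      refine Finset.card_le_card_of_injOn K ?_ ?_
      · intro a ha
        rw [Finset.mem_coe, Finset.mem_Ico]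
        exact h.ka a (Finset.mem_coe.mp ha)
      · intro a ha a' ha' he
        exact h.ki a (Finset.mem_coe.mp ha) a' (Finset.mem_coe.mp ha') he
    rw [hA, Finset.card_range, Nat.card_Ico] at hcard
    omega
  · intro v hv
    rw [h.un]; exact h.labB hI hv _
  · intro v hv
    rw [h.un]; exact h.labA hI hv _
  · intro y
    constructor
    · rintro ⟨h3, h4, h5⟩
      by_cases h6 : y.1 < N
      · right
        obtain ⟨h7, h8⟩ := (hmb0 y.1).mp h4
        refine ⟨⟨h6, h7, Or.inr ⟨h8, h5⟩⟩, ?_⟩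
        intro b hb hc
        exact h8 b hb (by rw [hc])
      · left
        obtain ⟨a, ha, h7⟩ := h.kj y.1 (by omega) h3
        exact ⟨a, ha, Prod.ext h7 (by rw [h5, h7])⟩
    · rintro (⟨a, ha, rfl⟩ | ⟨⟨h3, h4, h5⟩, h6⟩)
      · obtain ⟨h7, h8⟩ := h.ka a ha
        refine ⟨h8, (hmb0 _).mpr ⟨hM _ h7, ?_⟩, rfl⟩
        intro b hb hc
        have := h.ib b hb
        simp only at hc
        omega
      · rcases h5 with ⟨b, hb, h7⟩ | ⟨h7, h8⟩
        · exact absurd h7 (h6 b hb)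
        · exact ⟨by omega, (hmb0 _).mpr ⟨h4, h7⟩, h8⟩
  · intro a ha hc
    have h3 := (h.ka a ha).1
    have h4 := hc.1
    simp only at h4
    omega
  · intro v hv w hw he
    exact h.ii v hv w hw (congrArg Prod.fst he)
  · intro v hv w hw
    have h3 : gf (r w) v = gf (tab (K v)) w := by
      rw [← h.ra v hv]; exact h.sy (hb6 w hw) (ha6 v hv)
    simp only [numK, odK]
    rw [h3]
    exact ⟨rfl, rfl⟩
  · intro v hv w hw _
    simp only [numK, odK]
    rw [h.sy (hb6 v hv) (hb6 w hw)]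
    exact ⟨rfl, rfl⟩
  · intro v hv w hw _
    simp only [numK, odK]
    rw [← h.ra v hv, ← h.ra w hw, h.sy (ha6 v hv) (ha6 w hw)]
    exact ⟨rfl, rfl⟩
  · intro v hv w hw hvw u
    obtain ⟨i, j, hij, hj, h3, h4⟩ := h.nw hv hw hvw
    simp only [odK]
    rw [h4, kc_dgs hij hj, h.un, Finset.mem_range]
    rcases h3 with ⟨rfl, rfl⟩ | ⟨rfl, rfl⟩
    · exact Iff.rfl
    · constructor
      · rintro ⟨a1, a2, a3⟩; exact ⟨a1, a3, a2⟩
      · rintro ⟨a1, a2, a3⟩; exact ⟨a1, a3, a2⟩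
  · intro v hv w hw hvw
    obtain ⟨i, j, _, _, _, h4⟩ := h.nwn hv hw hvw
    rw [h4]
    omega
  · intro v hv w hw hvw v' hv' w' hw' hvw' he
    obtain ⟨i, j, hij, hj, h3, h4⟩ := h.nwn hv hw hvw
    obtain ⟨i', j', hij', hj', h3', h4'⟩ := h.nwn hv' hw' hvw'
    rw [h4, h4'] at he
    have e1 : i = i' := by omega
    have e2 : j = j' := by omega
    omega

/-- State of a run. -/
structure StK (tab : ℕ → ℕ) (off N M : ℕ) : Prop where
  inv : InvK (SK tab N M) N off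
  hm : ∀ j, N ≤ j → M.testBit j = false

theorem Fd.step (h : Fd tab off N M N' M' A B K id r) (h1 : N < N') (h2 : N' < N + 6)
    (hS : StK tab off N M) : StK tab off N' M' ∧ PLK (SK tab N M) (SK tab N' M') := by
  obtain ⟨hI, hM⟩ := hS
  obtain ⟨φ, f, ht⟩ := h.trk hI
  have hn := h.new h1 h2 hI hM
  have gd1 := ht.gd hI.gd
  have tw1 := ht.tw hI.tw
  have fn1 := ht.fn hI.fn
  refine ⟨⟨⟨fun x hx => hx.1, ?_, ?_, hn.gd gd1, hn.tw tw1 fn1, ?_⟩, ?_⟩,
    (ht.plk hI.gd).trans (PLE.of_flip (hn.flip gd1 tw1 fn1))⟩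
  · rintro x ⟨_, _, hx⟩ y ⟨_, _, hy⟩ hxy
    exact Prod.ext hxy (by rw [hx, hy, hxy])
  · intro y hy
    rcases (hn.s2 y).mp hy with ⟨a, ha, rfl⟩ | ⟨h3, h4⟩
    · rw [h.labA hI ha, Finset.card_erase_of_mem (Finset.mem_range.mpr (h.a6 ha)),
        Finset.card_range]
    · rcases h3.2.2 with ⟨b, hb, h5⟩ | ⟨h5, h6⟩
      · exact absurd h5 (h4 b hb)
      · exact hI.five y ⟨h3.1, h3.2.1, h6⟩
  · intro y hy w hw
    rcases hn.back hy hw with ⟨h3, _⟩ | ⟨a, ha, rfl, hb⟩ | ⟨a, ha, rfl, hb, hab⟩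
    · have := fn1 y h3 w hw
      omega
    · have h3 := (hn.bd a ha w hb).1
      have h4 := fn1 _ (hn.mem w hb) a (hn.labB ha hb)
      omega
    · obtain ⟨i, j, hij, hj, _, h4⟩ := h.nwn ha hb hab
      rw [h4]
      omega
  · intro j hj
    rcases hx : M'.testBit j with _ | _
    · rfl
    · rcases (h.mb j).mp hx with h6 | ⟨b, hb, h6⟩
      · rw [hM j (by omega)] at h6; exact absurd h6 (by simp)
      · have := h.ib b hb
        omega

/-! Runs. -/

/-- A list of flips, packed in one number (`cnt` flips, 342 bits each). -/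
noncomputable def rqb (tab : ℕ → ℕ) (off cnt : ℕ) : ℕ → ℕ → ℕ → (ℕ → ℕ → Bool) → Bool :=
  Nat.rec (motive := fun _ => ℕ → ℕ → ℕ → (ℕ → ℕ → Bool) → Bool)
    (fun _ N M k => k N M)
    (fun _ ih n N M k => flp tab off (Nat.mod n (Nat.pow 2 342)) N M (fun N' M' =>
      ba (Nat.ble (Nat.add N 1) N') (ba (Nat.ble N' (Nat.add N 5))
        (frc (Nat.shiftRight n 342) (fun n' => ih n' N' M' k))))) cnt

/-- Blocks of flips. -/
noncomputable def rql (tab : ℕ → ℕ) (off : ℕ) (l : List (ℕ × ℕ)) :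
    ℕ → ℕ → (ℕ → ℕ → Bool) → Bool :=
  List.rec (motive := fun _ => ℕ → ℕ → (ℕ → ℕ → Bool) → Bool)
    (fun N M k => k N M)
    (fun p _ ih N M k => rqb tab off p.1 p.2 N M (fun N' M' => ih N' M' k)) l

theorem flp_step (ht : ∀ i, tab i < 2 ^ 288) {n : ℕ} {k : ℕ → ℕ → Bool}
    (hS : StK tab off N M) (h : flp tab off n N M (fun N' M' =>
      ba (Nat.ble (Nat.add N 1) N') (ba (Nat.ble N' (Nat.add N 5)) (k N' M'))) = true) :
    ∃ N' M', k N' M' = true ∧ StK tab off N' M' ∧ PLK (SK tab N M) (SK tab N' M') := by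
  obtain ⟨N', M', A, B, K, id, r, hF, hk⟩ := flp_fd ht h
  rw [ba_iff, ba_iff] at hk
  obtain ⟨h1, h2, h3⟩ := hk
  have h1' : N + 1 ≤ N' := Nat.ble_eq.mp h1
  have h2' : N' ≤ N + 5 := Nat.ble_eq.mp h2
  obtain ⟨h4, h5⟩ := hF.step (by omega) (by omega) hS
  exact ⟨N', M', h3, h4, h5⟩

theorem rqb_sound (ht : ∀ i, tab i < 2 ^ 288) {cnt : ℕ} : ∀ {n N M : ℕ} {k : ℕ → ℕ → Bool},
    StK tab off N M → rqb tab off cnt n N M k = true →
    ∃ N' M', k N' M' = true ∧ StK tab off N' M' ∧ PLK (SK tab N M) (SK tab N' M') := by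
  induction cnt with
  | zero =>
    intro n N M k hS h
    exact ⟨N, M, h, hS, PLE.refl⟩
  | succ cnt ih =>
    intro n N M k hS h
    obtain ⟨N', M', h1, h2, h3⟩ := flp_step (k := fun N' M' =>
      frc (Nat.shiftRight n 342) (fun n' => rqb tab off cnt n' N' M' k)) ht hS h
    rw [frc_eq] at h1
    obtain ⟨N'', M'', h4, h5, h6⟩ := ih h2 h1
    exact ⟨N'', M'', h4, h5, h3.trans h6⟩

theorem rql_sound (ht : ∀ i, tab i < 2 ^ 288) {l : List (ℕ × ℕ)} :
    ∀ {N M : ℕ} {k : ℕ → ℕ → Bool}, StK tab off N M → rql tab off l N M k = true →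
    ∃ N' M', k N' M' = true ∧ StK tab off N' M' ∧ PLK (SK tab N M) (SK tab N' M') := by
  induction l with
  | nil =>
    intro N M k hS h
    exact ⟨N, M, h, hS, PLE.refl⟩
  | cons p l ih =>
    intro N M k hS h
    obtain ⟨N', M', h1, h2, h3⟩ := rqb_sound ht hS
      (show rqb tab off p.1 p.2 N M (fun N' M' => rql tab off l N' M' k) = true from h)
    obtain ⟨N'', M'', h4, h5, h6⟩ := ih h2 h1
    exact ⟨N'', M'', h4, h5, h3.trans h6⟩

/-! The final check. -/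

/-- The last six records (`n` : six codes). -/
noncomputable def fnK (tab : ℕ → ℕ) (off n N M : ℕ) : Bool :=
  flp tab off n N M (fun N' M' => ba (Nat.beq N' N) (Nat.beq (Nat.add M' 1) (Nat.pow 2 N)))

theorem fnK_sound (ht : ∀ i, tab i < 2 ^ 288) {n : ℕ} (hS : StK tab off N M)
    (h : fnK tab off n N M = true) : ∃ c S1, Full labK numK odK (Finset.range 6) c S1 ∧
      GdG labK odK S1 ∧ PLK (SK tab N M) S1 := by
  classical
  obtain ⟨N', M', A, B, K, id, r, hF, hk⟩ := flp_fd ht h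
  rw [ba_iff] at hk
  obtain ⟨h1, h2⟩ := hk
  have h1' : N' = N := Nat.eq_of_beq_eq_true h1
  have h2' : M' + 1 = 2 ^ N := Nat.eq_of_beq_eq_true h2
  obtain ⟨hI, hM⟩ := hS
  obtain ⟨φ, f, htr⟩ := hF.trk hI
  have gd1 := htr.gd hI.gd
  have tw1 := htr.tw hI.tw
  have hA : A = ∅ := by
    rw [Finset.eq_empty_iff_forall_notMem]
    intro a ha
    have := hF.ka a ha
    omega
  have hB : B = Finset.range 6 := by
    have := hF.un
    rwa [hA, Finset.empty_union] at this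
  have cl : ∀ v < 6, ∀ w < 6, w ≠ v → w ∈ labK (id v, r v) := by
    intro v hv w hw hwv
    rw [hF.labB hI (by rw [hB]; exact Finset.mem_range.mpr hv), Finset.mem_erase,
      Finset.mem_range]
    exact ⟨hwv, hw⟩
  have inn : ∀ v < 6, ∀ w < 6, numK (id v, r v) w = numK (id w, r w) v ∧
      odK (id v, r v) w = odK (id w, r w) v := by
    intro v hv w hw
    simp only [numK, odK]
    rw [hF.sy hv hw]
    exact ⟨rfl, rfl⟩
  refine ⟨fun b => (id b, r b), S1K tab N M B id r, ⟨?_, ?_, ?_, ?_, ?_, ?_⟩, gd1, htr.plk hI.gd⟩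
  · intro v hv
    exact hF.labB hI (by rw [hB]; exact hv) _
  · intro v hv
    exact hF.mem1 (by rw [hB]; exact hv)
  · rintro y ⟨h3, h4, h5⟩
    rcases h5 with ⟨b, hb, h6⟩ | ⟨h6, _⟩
    · exact ⟨b, by rw [← hB]; exact hb, h6⟩
    · exfalso
      have h7 : M'.testBit y.1 = true := by
        rw [show M' = 2 ^ N - 1 by omega, Nat.testBit_two_pow_sub_one]
        exact decide_eq_true h3
      rcases (hF.mb y.1).mp h7 with h8 | ⟨b, hb, h8⟩
      · rw [h4] at h8; exact absurd h8 (by simp)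
      · exact h6 b hb h8
  · intro v hv w hw _
    exact inn v (Finset.mem_range.mp hv) w (Finset.mem_range.mp hw)
  · intro v hv w hw hvw u hu huv huw
    rw [Finset.mem_range] at hv hw hu
    exact (gd1 _ (hF.mem1 (by rw [hB]; exact Finset.mem_range.mpr hv)) w
      (cl v hv w hw (Ne.symm hvw)) u).mpr ⟨cl v hv u hu huv, huw⟩
  · intro v hv w hw hvw i hi u hu hn
    rw [Finset.mem_range] at hv hw
    have hv' : v ∈ B := by rw [hB]; exact Finset.mem_range.mpr hv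
    have hw' : w ∈ B := by rw [hB]; exact Finset.mem_range.mpr hw
    rcases tw1 _ (hF.mem1 hv') w (cl v hv w hw (Ne.symm hvw)) _ (hF.mem1 hw') v
      (cl w hw v hv hvw) i hi u hu (inn v hv w hw).1 hn.symm with h1 | h1 | h1
    · exact absurd (congrArg Prod.snd h1).symm hvw
    · left
      rw [Prod.mk.injEq] at h1
      exact ⟨h1.1.symm, h1.2.symm⟩
    · right
      rw [Prod.mk.injEq] at h1
      exact ⟨h1.1.symm, h1.2.symm⟩

theorem tbg_lt (t : TB) (i : ℕ) : tbg t i < 2 ^ 288 := Nat.mod_lt _ (Nat.two_pow_pos _)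

end Fl49
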