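import Pool.Agent.Lib_MP_55d5ef_fl.Pk
import Pool.Agent.Lib_MP_55d5ef_fl.GTb
import Pool.Agent.Lib_MP_55d5ef_top.TabN

/-!
Packed checker: the start records are those of the table `GN`.
-/

set_option linter.unusedSectionVars false

namespace Fl49

open Finset H4C PL55 H4T Lib_MP_55d5ef_c

/-- Packed ordering. -/
def pkO : List ℕ → ℕ
  | [] => 0
  | v :: l => v + 8 * pkO l

/-- Packed entry. -/
def pkE (tab i v : ℕ) : ℕ := 4096 * (nuP tab i v + 1) + pkO (oP tab i v)

/-- Packed record of a table. -/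
def pkP (tab i : ℕ) : ℕ :=
  pkE tab i 0 + 281474976710656 * (pkE tab i 1 + 281474976710656 * (pkE tab i 2 +
    281474976710656 * (pkE tab i 3 + 281474976710656 * pkE tab i 4)))

/-- The check of the start records. -/
def stChk (tab : ℕ → ℕ) : Bool := allLt 504 (fun i => Nat.beq (tab i) (pkP tabNN i))

theorem st_gf_zero {a r : ℕ} (h : a < 281474976710656) : gf (a + 281474976710656 * r) 0 = a := by
  unfold gf
  omega

theorem st_gf_succ {a r : ℕ} (h : a < 281474976710656) (v : ℕ) :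
    gf (a + 281474976710656 * r) (v + 1) = gf r v := by
  unfold gf
  have e1 : 2 ^ (48 * (v + 1)) = 281474976710656 * 2 ^ (48 * v) := by
    rw [show 48 * (v + 1) = 48 + 48 * v by ring, pow_add]
    norm_num
  rw [e1, ← Nat.div_div_eq_div_mul]
  have e2 : (a + 281474976710656 * r) / 281474976710656 = r := by omega
  rw [e2]

theorem pkO_vls {l : List (Fin 5)} (h : l.length = 4) :
    pkO (vls l) < 4096 ∧ ∀ a, dgs (4096 * a + pkO (vls l)) = vls l := by
  match l, h with
  | [a, b, c, d], _ =>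
    have h1 := a.2
    have h2 := b.2
    have h3 := c.2
    have h4 := d.2
    refine ⟨?_, fun x => ?_⟩
    · simp only [vls, pkO]; omega
    · simp only [vls, pkO, dgs]
      congr 1
      · omega
      · congr 1
        · omega
        · congr 1
          · omega
          · congr 1
            omega

theorem st_length_lk (k : Fin 5) : (lk k).length = 4 := by
  revert k; decide

theorem st_length_od {n : ℕ} (G : GTab n) (i : Fin n) (k : Fin 5) : (G.od i k).length = 4 := by
  unfold GTab.od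
  split_ifs
  · exact st_length_lk k
  · rw [List.length_map]; exact st_length_lk _

theorem st_nuP_le (tab i k : ℕ) : nuP tab i k ≤ 5 * i + k := min_le_left _ _

theorem st_vls_odN (i : Fin 504) (k : Fin 5) : vls (odN i k) = oP tabNN i k := vls_odP tabNN_chk i k

theorem st_numN_eq (i : Fin 504) (k : Fin 5) : numN i k = nuP tabNN i k := rfl

theorem st_pkE_lt (i : Fin 504) (v : ℕ) (hv : v < 5) : pkE tabNN i v < 281474976710656 := by
  have h1 := st_nuP_le tabNN i v
  have h2 := i.2
  have h3 := (pkO_vls (st_length_od GN i ⟨v, hv⟩)).1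
  rw [st_vls_odN] at h3
  have h4 : pkO (oP tabNN i v) < 4096 := h3
  unfold pkE
  omega

/-- What the check says. -/
theorem stChk_spec {tab : ℕ → ℕ} (h : stChk tab = true) (i : Fin 504) :
    (∀ v : Fin 5, gf (tab i) v = 4096 * (numN i v + 1) + pkO (vls (odN i v))) ∧
    gf (tab i) 5 = 0 := by
  have h1 := Nat.eq_of_beq_eq_true (allLt_iff.mp h i.1 i.2)
  have h0 := st_pkE_lt i
  have e : ∀ v : Fin 5, 4096 * (numN i v + 1) + pkO (vls (odN i v)) = pkE tabNN i v := by
    intro v
    rw [st_vls_odN, st_numN_eq]; rfl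
  rw [h1]
  unfold pkP
  constructor
  · intro v
    rw [e]
    match v with
    | ⟨0, _⟩ => exact st_gf_zero (h0 0 (by norm_num))
    | ⟨1, _⟩ =>
      show gf _ (0 + 1) = _
      rw [st_gf_succ (h0 0 (by norm_num))]
      exact st_gf_zero (h0 1 (by norm_num))
    | ⟨2, _⟩ =>
      show gf _ (1 + 1) = _
      rw [st_gf_succ (h0 0 (by norm_num)), st_gf_succ (h0 1 (by norm_num))]
      exact st_gf_zero (h0 2 (by norm_num))
    | ⟨3, _⟩ =>
      show gf _ (2 + 1) = _
      rw [st_gf_succ (h0 0 (by norm_num)), st_gf_succ (h0 1 (by norm_num)),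
        st_gf_succ (h0 2 (by norm_num))]
      exact st_gf_zero (h0 3 (by norm_num))
    | ⟨4, _⟩ =>
      show gf _ (3 + 1) = _
      rw [st_gf_succ (h0 0 (by norm_num)), st_gf_succ (h0 1 (by norm_num)),
        st_gf_succ (h0 2 (by norm_num)), st_gf_succ (h0 3 (by norm_num))]
      have := h0 4 (by norm_num)
      unfold gf
      rw [Nat.mul_zero, pow_zero, Nat.div_one]
      exact Nat.mod_eq_of_lt this
  · show gf _ (4 + 1) = _
    rw [st_gf_succ (h0 0 (by norm_num)), st_gf_succ (h0 1 (by norm_num)),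
      st_gf_succ (h0 2 (by norm_num)), st_gf_succ (h0 3 (by norm_num))]
    have := h0 4 (by norm_num)
    unfold gf
    rw [Nat.mul_one, Nat.div_eq_of_lt (by simpa using this)]

section

variable {tab : ℕ → ℕ}

/-- The record `i`. -/
def stR (tab : ℕ → ℕ) (i : Fin 504) : Rk := (i.1, tab i.1)

theorem stR_mem (i : Fin 504) : stR tab i ∈ SK tab 504 0 := ⟨i.2, Nat.zero_testBit _, rfl⟩

theorem mem_SK0 {x : Rk} (hx : x ∈ SK tab 504 0) : ∃ i : Fin 504, x = stR tab i :=
  ⟨⟨x.1, hx.1⟩, Prod.ext rfl hx.2.2⟩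

theorem labK_st (h : stChk tab = true) (i : Fin 504) : labK (stR tab i) = Finset.range 5 := by
  obtain ⟨h1, h2⟩ := stChk_spec h i
  ext v
  unfold labK stR
  rw [Finset.mem_filter, Finset.mem_range, Finset.mem_range]
  constructor
  · rintro ⟨h3, h4⟩
    by_contra h5
    have : v = 5 := by omega
    subst this
    rw [h2] at h4
    omega
  · intro h3
    refine ⟨by omega, ?_⟩
    have h4 := h1 ⟨v, h3⟩
    show 4096 ≤ gf (tab i) v
    rw [h4]
    omega

theorem numK_st (h : stChk tab = true) (i : Fin 504) (v : Fin 5) :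
    numK (stR tab i) v = numN i v + 1 := by
  obtain ⟨h1, _⟩ := stChk_spec h i
  have h3 := (pkO_vls (st_length_od GN i v)).1
  unfold numK stR
  show gf (tab i) v / 4096 = _
  rw [h1 v]
  have h4 : pkO (vls (odN i v)) < 4096 := h3
  omega

theorem odK_st (h : stChk tab = true) (i : Fin 504) (v : Fin 5) :
    odK (stR tab i) v = (odN i v).map Fin.val := by
  obtain ⟨h1, _⟩ := stChk_spec h i
  unfold odK stR
  show dgs (gf (tab i) v) = _
  rw [h1 v, ← vls_eq]
  exact (pkO_vls (st_length_od GN i v)).2 _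

/-- **The start of the packed run.** -/
theorem start_ok (h : stChk tab = true) : InvK (SK tab 504 0) 504 0 ∧
    PLE labU numN odN (Set.univ : Set (Fin 504)) labK numK odK (SK tab 504 0) := by
  refine ⟨⟨fun x hx => hx.1, ?_, ?_, ?_, ?_, ?_⟩, ?_⟩
  · intro x hx y hy hxy
    exact Prod.ext hxy (by rw [hx.2.2, hy.2.2, hxy])
  · intro x hx
    obtain ⟨i, rfl⟩ := mem_SK0 hx
    rw [labK_st h, Finset.card_range]
  · intro x hx v hv l
    obtain ⟨i, rfl⟩ := mem_SK0 hx
    rw [labK_st h, Finset.mem_range] at hv ⊢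
    rw [odK_st h i ⟨v, hv⟩, List.mem_map]
    constructor
    · rintro ⟨m, hm, rfl⟩
      exact ⟨m.2, fun hc => GN.od_ne i ⟨v, hv⟩ m hm (Fin.ext hc)⟩
    · rintro ⟨h1, h2⟩
      exact ⟨⟨l, h1⟩, GN.od_mem i ⟨v, hv⟩ ⟨l, h1⟩ (fun hc => h2 (congrArg Fin.val hc)), rfl⟩
  · intro x hx v hv y hy w hw z hz u hu h1 h2
    obtain ⟨i, rfl⟩ := mem_SK0 hx
    obtain ⟨j, rfl⟩ := mem_SK0 hy
    obtain ⟨m, rfl⟩ := mem_SK0 hz
    rw [labK_st h, Finset.mem_range] at hv hw hu
    rw [numK_st h i ⟨v, hv⟩, numK_st h j ⟨w, hw⟩] at h1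
    rw [numK_st h i ⟨v, hv⟩, numK_st h m ⟨u, hu⟩] at h2
    rcases GN.num_eq (Nat.add_right_cancel h1) with ⟨e1, e2⟩ | ⟨e1, e2⟩
    · left
      rw [e1, Prod.mk.injEq]
      exact ⟨rfl, congrArg Fin.val e2⟩
    · rcases GN.num_eq (Nat.add_right_cancel h2) with ⟨e3, e4⟩ | ⟨e3, e4⟩
      · right; left
        rw [e3, Prod.mk.injEq]
        exact ⟨rfl, congrArg Fin.val e4⟩
      · right; right
        rw [e1, e3, Prod.mk.injEq]
        exact ⟨rfl, congrArg Fin.val (e2.trans e4.symm)⟩
  · intro x hx v hv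
    obtain ⟨i, rfl⟩ := mem_SK0 hx
    rw [labK_st h, Finset.mem_range] at hv
    rw [numK_st h i ⟨v, hv⟩]
    have h1 : numN i ⟨v, hv⟩ ≤ 5 * i.1 + v := st_nuP_le tabNN i v
    have h2 := i.2
    omega
  · have hI : ∃ ψ g, Iso (labU : Fin 504 → Finset (Fin 5)) numN odN labK numK odK (stR tab) ψ
        (fun _ k => k.val) g Set.univ (SK tab 504 0) := by
      refine iso_of_bij ?_ ?_ ?_ ?_ ?_
      · refine ⟨fun i _ => stR_mem i, ?_, ?_⟩
        · intro i _ j _ hij
          exact Fin.ext (congrArg Prod.fst hij)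
        · intro x hx
          obtain ⟨i, rfl⟩ := mem_SK0 hx
          exact ⟨i, Set.mem_univ _, rfl⟩
      · intro i _
        rw [labK_st h]
        refine ⟨fun v _ => ?_, fun v _ w _ hvw => Fin.ext hvw, fun v hv => ?_⟩
        · rw [Finset.coe_range]; exact v.2
        · rw [Finset.coe_range] at hv
          exact ⟨⟨v, hv⟩, Finset.mem_coe.mpr (Finset.mem_univ _), rfl⟩
      · intro i _ v _ j _ w _
        rw [numK_st h, numK_st h]
        exact ⟨fun hh => Nat.add_right_cancel hh, fun hh => congrArg (· + 1) hh⟩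
      · intro i _ v _
        exact odK_st h i v
      · intro i _ v _ l _
        exact Finset.mem_univ _
    obtain ⟨ψ, g, hI⟩ := hI
    exact ⟨hI.homeo, hI.plx, hI.plx_symm⟩

end

end Fl49
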