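import Pool.Agent.Lib_MP_55d5ef_fl.Stp

/-!
Soundness of a run of the checker.
-/

set_option linter.unusedSectionVars false

namespace Fl49

open Finset

/-- Moves between (set of records, marked vertex). -/
inductive Mv : Set Ri × Option (Ri × ℕ) → Set Ri × Option (Ri × ℕ) → Prop
  | iso {S S' : Set Ri} (φ ψ : Ri → Ri) (f g : Ri → ℕ → ℕ)
      (h : Iso labR numR odR labR numR odR φ ψ f g S S') (m : Option (Ri × ℕ)) :
      Mv (S, m) (S', m.map (fun p => (φ p.1, f p.1 p.2)))
  | flipN {S S' : Set Ri} (a b : Finset ℕ) (c c' : ℕ → Ri)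
      (h : GFlip labR numR odR a b c c' S S') : Mv (S, none) (S', none)
  | flipO {S S' : Set Ri} (a b : Finset ℕ) (c c' : ℕ → Ri)
      (h : GFlip labR numR odR a b c c' S S') (p : Ri × ℕ) (hp : ¬ ∃ v ∈ b, p.1 = c v) :
      Mv (S, some p) (S', some p)
  | flipI {S S' : Set Ri} (a b : Finset ℕ) (c c' : ℕ → Ri)
      (h : GFlip labR numR odR a b c c' S S') (p : Ri × ℕ) (hp : ∃ v ∈ b, p.1 = c v)
      (u : ℕ) (hu : u ∈ a) (hne : u ≠ p.2) : Mv (S, some p) (S', some (c' u, p.2))

/-- Chains of moves. -/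
def Ch (x y : Set Ri × Option (Ri × ℕ)) : Prop := Relation.ReflTransGen Mv x y

/-- A vertex of a record. -/
def VP (S : Set Ri) (p : Ri × ℕ) : Prop := p.1 ∈ S ∧ p.2 ∈ labR p.1

section prp

variable {as bs : List ℕ} {cs : List (ℕ × Ri)} {t : Tr} {N : ℕ}

theorem Prep.ch_none (h : Prep as bs cs t N) (hI : Inv t N) :
    Ch (St t, none) (St (fin as bs cs t N), none) := by
  obtain ⟨M, hM⟩ := h.exRn
  obtain ⟨ψ, g, hi⟩ := iso_ren (Fu_St t) hI.gd hM.m3
  exact (Relation.ReflTransGen.single (Mv.iso _ _ _ _ hi none)).tail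
    (Mv.flipN _ _ _ _ (h.flip hI hM))

theorem fid_none {i : ℕ} {cs : List (ℕ × Ri)} (h : fid i cs = none) : i ∉ idl cs := by
  induction cs with
  | nil => simp [idl]
  | cons p l ih =>
    rw [fid, cbeq] at h
    by_cases hp : p.2.1 = i
    · rw [if_pos hp] at h; cases h
    · rw [if_neg hp] at h
      rw [idl, List.mem_cons, not_or]
      exact ⟨fun hc => hp hc.symm, ih h⟩

theorem fid_some {i : ℕ} {cs : List (ℕ × Ri)} {r : Rc} (h : fid i cs = some r) :
    ∃ b, (b, (i, r)) ∈ cs := by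
  induction cs with
  | nil => cases h
  | cons p l ih =>
    rw [fid, cbeq] at h
    by_cases hp : p.2.1 = i
    · rw [if_pos hp] at h
      refine ⟨p.1, ?_⟩
      have : p = (p.1, (i, r)) := Prod.ext rfl (Prod.ext hp (Option.some.inj h))
      rw [← this]; exact List.mem_cons_self
    · rw [if_neg hp] at h
      obtain ⟨b, hb⟩ := ih h
      exact ⟨b, List.mem_cons_of_mem _ hb⟩

theorem fne_spec {v : ℕ} : ∀ (l : List ℕ) (k j : ℕ), fne v k l = some j →
    ∃ i u, l[i]? = some u ∧ u ≠ v ∧ j = k + i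
  | [], k, j, h => by cases h
  | u :: l, k, j, h => by
    rw [fne, cbeq] at h
    by_cases hu : u = v
    · rw [if_pos hu] at h
      obtain ⟨i, w, h1, h2, h3⟩ := fne_spec l (k + 1) j h
      exact ⟨i + 1, w, by rw [List.getElem?_cons_succ]; exact h1, h2, by omega⟩
    · rw [if_neg hu] at h
      exact ⟨0, u, rfl, hu, (Option.some.inj h).symm⟩

theorem Prep.ch_some (h : Prep as bs cs t N) (hI : Inv t N) {x : Ri} {v : ℕ}
    (hx : VP (St t) (x, v)) {i' v' : ℕ} (hm : mark as cs t N x.1 v = some (i', v')) :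
    ∃ y : Ri, y.1 = i' ∧ Ch (St t, some (x, v)) (St (fin as bs cs t N), some (y, v')) := by
  obtain ⟨M, hM⟩ := h.exRn
  obtain ⟨ψ, g, hi⟩ := iso_ren (Fu_St t) hI.gd hM.m3
  have c1 := Relation.ReflTransGen.single (Mv.iso _ _ _ _ hi (some (x, v)))
  have hxt : t.get x.1 = some x.2 := hx.1
  unfold mark at hm
  split at hm
  · rename_i hf
    have hid := fid_none hf
    simp only [Option.some.injEq, Prod.mk.injEq] at hm
    refine ⟨x, hm.1, ?_⟩
    have e1 : rn M x = x := by
      unfold rn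
      rw [hM.m1 x hx.1 hid, ren_nil]
    have e2 : ap (M x) v = v := by rw [hM.m1 x hx.1 hid, ap_nil]
    have c2 : Mv (rn M '' St t, some (rn M x, ap (M x) v))
        (St (fin as bs cs t N), some (rn M x, ap (M x) v)) := by
      refine Mv.flipO _ _ _ _ (h.flip hI hM) _ ?_
      rintro ⟨w, hw, hxw⟩
      apply hid
      refine (h.idl_iff _).mpr ⟨w, List.mem_toFinset.mp hw, ?_⟩
      simp only [e1] at hxw
      rw [hxw]
    have c3 := c1.tail c2
    rw [e1, e2] at c3
    rw [← hm.2]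
    exact c3
  · rename_i r' hf
    rw [hxt] at hm
    simp only at hm
    split at hm
    · cases hm
    · rename_i k hk
      simp only [Option.some.injEq, Prod.mk.injEq] at hm
      obtain ⟨b, hb⟩ := fid_some hf
      have hbb : b ∈ bs := by rw [← h.fb]; exact List.mem_map.mpr ⟨_, hb, rfl⟩
      have hcb : cc cs b = (x.1, r') := cc_eq (by rw [h.fb]; exact h.ndb) hb
      have e1 : rn M x = cc cs b := hM.m2 x hx.1 b hbb (by rw [hcb])
      have e3 : ren (M x) x.2 = r' := by
        have := congrArg Prod.snd (e1.trans hcb)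
        exact this
      have e2 : mv v x.2 r' = ap (M x) v := by
        rw [← e3]
        exact mv_ren (M x) x.2 ((mem_labR x v).mp hx.2)
      obtain ⟨i, u, h1, h2, h3⟩ := fne_spec as 0 k hk
      have hu : u ∈ as := List.mem_of_getElem? h1
      have hiu : i = ix as u := by
        obtain ⟨h5, h6⟩ := List.getElem?_eq_some_iff.mp h1
        refine (List.getElem?_inj h5 h.nda).mp ?_
        rw [h1, List.getElem?_idxOf hu]
      refine ⟨cc (nl N as bs cs) u, ?_, ?_⟩
      · rw [h.nid hu, ← hm.1]; omega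
      · have c2 : Mv (rn M '' St t, some (rn M x, ap (M x) v))
            (St (fin as bs cs t N), some (cc (nl N as bs cs) u, ap (M x) v)) := by
          refine Mv.flipI _ _ _ _ (h.flip hI hM) (rn M x, ap (M x) v) ?_ u
            (List.mem_toFinset.mpr hu) ?_
          · exact ⟨b, List.mem_toFinset.mpr hbb, e1⟩
          · simp only; rw [← e2]; exact h2
        have c3 := c1.tail c2
        rw [← hm.2, e2]
        exact c3

end prp

theorem Mv.vp {x y : Set Ri × Option (Ri × ℕ)} (h : Mv x y) (hx : ∀ p ∈ x.2, VP x.1 p) :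
    ∀ q ∈ y.2, VP y.1 q := by
  cases h with
  | iso φ ψ f g h m =>
    intro q hq
    simp only [Option.mem_def, Option.map_eq_some_iff] at hq
    obtain ⟨p, hp, rfl⟩ := hq
    obtain ⟨h1, h2⟩ := hx p hp
    exact ⟨h.mem _ h1, h.fm _ h1 _ h2⟩
  | flipN a b c c' h =>
    intro q hq
    cases hq
  | flipO a b c c' h p hp =>
    intro q hq
    obtain ⟨h1, h2⟩ := hx p rfl
    have : p = q := Option.some.inj hq
    subst this
    exact ⟨((h.out _ h1).resolve_left hp).1, h2⟩
  | flipI a b c c' h p hp u hu hne =>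
    intro q hq
    obtain ⟨h1, h2⟩ := hx p rfl
    have : (c' u, p.2) = q := Option.some.inj hq
    subst this
    refine ⟨h.mem' u hu, ?_⟩
    obtain ⟨v, hv, hpv⟩ := hp
    simp only
    rw [h.labc' u hu, Finset.mem_erase]
    refine ⟨fun hc => hne hc.symm, ?_⟩
    rw [hpv, h.labc v hv] at h2
    exact Finset.mem_of_mem_erase h2

theorem Ch.vp {x y : Set Ri × Option (Ri × ℕ)} (h : Ch x y) (hx : ∀ p ∈ x.2, VP x.1 p) :
    ∀ q ∈ y.2, VP y.1 q := by
  unfold Ch at h
  induction h with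
  | refl => exact hx
  | tail _ h2 ih => exact h2.vp ih

theorem prepc_sound {n : ℕ} {t : Tr} {N : ℕ} {cs : List (ℕ × Ri)} (h : prepc n t N = some cs) :
    Prep (bits 1 6 0 (n % 64)) (bits 0 6 0 (n % 64)) cs t N := by
  unfold prepc at h
  split at h
  · cases h
  · exact prep_sound h

/-- Soundness of a run without mark. -/
theorem run_sound : ∀ (l : List ℕ) (t : Tr) (N : ℕ) (t' : Tr) (N' : ℕ), Inv t N →
    run l t N = some (t', N') → Inv t' N' ∧ Ch (St t, none) (St t', none)
  | [], t, N, t', N', hI, h => by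
    rw [run] at h
    simp only [Option.some.injEq, Prod.mk.injEq] at h
    obtain ⟨rfl, rfl⟩ := h
    exact ⟨hI, Relation.ReflTransGen.refl⟩
  | n :: l, t, N, t', N', hI, h => by
    rw [run] at h
    split at h
    · cases h
    · rename_i cs hcs
      have hp := prepc_sound hcs
      obtain ⟨M, hM⟩ := hp.exRn
      obtain ⟨h1, h2⟩ := run_sound l _ _ t' N' (hp.inv hI hM) h
      exact ⟨h1, (hp.ch_none hI).trans h2⟩

/-- Soundness of a run with mark. -/
theorem runM_sound : ∀ (l : List ℕ) (t : Tr) (N : ℕ) (x : Ri) (v : ℕ) (t' : Tr) (N' i' v' : ℕ),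
    Inv t N → VP (St t) (x, v) → runM l t N (x.1, v) = some (t', (N', (i', v'))) →
    Inv t' N' ∧ ∃ y : Ri, y.1 = i' ∧ VP (St t') (y, v') ∧
      Ch (St t, some (x, v)) (St t', some (y, v'))
  | [], t, N, x, v, t', N', i', v', hI, hx, h => by
    rw [runM] at h
    simp only [Option.some.injEq, Prod.mk.injEq] at h
    obtain ⟨rfl, rfl, rfl, rfl⟩ := h
    exact ⟨hI, x, rfl, hx, Relation.ReflTransGen.refl⟩
  | n :: l, t, N, x, v, t', N', i', v', hI, hx, h => by
    rw [runM] at h
    split at h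
    · cases h
    · rename_i cs hcs
      split at h
      · cases h
      · rename_i m' hm
        obtain ⟨i1, v1⟩ := m'
        have hp := prepc_sound hcs
        obtain ⟨M, hM⟩ := hp.exRn
        obtain ⟨y, hy, hc⟩ := hp.ch_some hI hx hm
        have hvy : VP (St (fin (bits 1 6 0 (n % 64)) (bits 0 6 0 (n % 64)) cs t N)) (y, v1) := by
          refine hc.vp ?_ (y, v1) rfl
          intro p hp
          have : (x, v) = p := Option.some.inj hp
          rw [← this]; exact hx
        rw [← hy] at h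
        obtain ⟨h1, z, h2, h3, h4⟩ := runM_sound l _ _ y v1 t' N' i' v' (hp.inv hI hM) hvy h
        exact ⟨h1, z, h2, h3, hc.trans h4⟩

/-- The point of a marked vertex. -/
def vpt {S : Set Ri} {p : Ri × ℕ} (h : VP S p) : X labR numR odR S :=
  pt labR numR odR p.1 h.1 (vx p.2) (vx_mem h.2)

/-- Moves are homeomorphisms carrying the marked vertex to the marked vertex. -/
theorem Mv.homeo {x y : Set Ri × Option (Ri × ℕ)} (h : Mv x y) (hx : ∀ p ∈ x.2, VP x.1 p) :
    ∃ e : X labR numR odR x.1 ≃ₜ X labR numR odR y.1,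
      ∀ p ∈ x.2, ∃ q ∈ y.2, ∃ hp : VP x.1 p, ∃ hq : VP y.1 q, e (vpt hp) = vpt hq := by
  have hy := h.vp hx
  cases h with
  | iso φ ψ f g h m =>
    refine ⟨h.homeo, ?_⟩
    intro p hp
    have hq : (φ p.1, f p.1 p.2) ∈ Option.map (fun p : Ri × ℕ => (φ p.1, f p.1 p.2)) m := by
      simp only [Option.mem_def, Option.map_eq_some_iff]
      exact ⟨p, hp, rfl⟩
    exact ⟨_, hq, hx p hp, hy _ hq, h.ix_vx (hx p hp).1 (hx p hp).2⟩
  | flipN a b c c' h =>
    refine ⟨h.homeo, ?_⟩
    intro p hp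
    cases hp
  | flipO a b c c' h p hp =>
    refine ⟨h.homeo, ?_⟩
    intro q hq
    have : p = q := Option.some.inj hq
    subst this
    exact ⟨p, rfl, hx p rfl, hy p rfl, h.fx_out (hx p rfl).1 hp (vx_mem (hx p rfl).2)⟩
  | flipI a b c c' h p hp u hu hne =>
    refine ⟨h.homeo, ?_⟩
    intro q hq
    have : p = q := Option.some.inj hq
    subst this
    refine ⟨_, rfl, hx p rfl, hy _ rfl, ?_⟩
    obtain ⟨v, hv, hpv⟩ := hp
    obtain ⟨i, w⟩ := p
    simp only at hpv hne
    subst hpv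
    obtain ⟨h1, h2⟩ := h.fx_vx hv (hx _ rfl).2 hu hne
    exact h2

/-- Chains of moves are homeomorphisms carrying the marked vertex to the marked vertex. -/
theorem Ch.homeo {x y : Set Ri × Option (Ri × ℕ)} (h : Ch x y) (hx : ∀ p ∈ x.2, VP x.1 p) :
    ∃ e : X labR numR odR x.1 ≃ₜ X labR numR odR y.1,
      ∀ p ∈ x.2, ∃ q ∈ y.2, ∃ hp : VP x.1 p, ∃ hq : VP y.1 q, e (vpt hp) = vpt hq := by
  unfold Ch at h
  induction h with
  | refl => exact ⟨Homeomorph.refl _, fun p hp => ⟨p, hp, hx p hp, hx p hp, rfl⟩⟩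
  | tail h1 h2 ih =>
    obtain ⟨e, he⟩ := ih
    obtain ⟨e', he'⟩ := h2.homeo (Ch.vp h1 hx)
    refine ⟨e.trans e', ?_⟩
    intro p hp
    obtain ⟨q, hq, hvp, hvq, h3⟩ := he p hp
    obtain ⟨r, hr, hvq', hvr, h4⟩ := he' q hq
    refine ⟨r, hr, hvp, hvr, ?_⟩
    rw [Homeomorph.trans_apply, h3, h4]

end Fl49
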