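import Pool.Agent.Lib_MP_55d5ef_fl.New

/-!
Soundness of one step.
-/

set_option linter.unusedSectionVars false

namespace Fl49

open Finset

/-- The invariant of the checker. -/
structure Inv (t : Tr) (N : ℕ) : Prop where
  id : ∀ x ∈ St t, x.1 < N
  gd : Gd (St t)
  tw : Tw (St t)
  fn : Fn (8 * N) (St t)

/-- The renamings of a step. -/
structure RnOk (bs : List ℕ) (cs : List (ℕ × Ri)) (t : Tr) (M : Ri → List (ℕ × ℕ)) : Prop where
  m1 : ∀ x ∈ St t, x.1 ∉ idl cs → M x = []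
  m2 : ∀ x ∈ St t, ∀ b ∈ bs, x.1 = (cc cs b).1 → rn M x = cc cs b
  m3 : ∀ x ∈ St t, Set.InjOn (ap (M x)) (labR x)

section prp

variable {as bs : List ℕ} {cs : List (ℕ × Ri)} {t : Tr} {N : ℕ} {M : Ri → List (ℕ × ℕ)}

theorem Prep.S1_iff (h : Prep as bs cs t N) (hM : RnOk bs cs t M) (y : Ri) :
    y ∈ rn M '' St t ↔ (∃ b ∈ bs, y = cc cs b) ∨ (y ∈ St t ∧ y.1 ∉ idl cs) := by
  constructor
  · rintro ⟨x, hx, rfl⟩
    by_cases hi : x.1 ∈ idl cs
    · obtain ⟨b, hb, hxb⟩ := (h.idl_iff _).mp hi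
      exact Or.inl ⟨b, hb, hM.m2 x hx b hb hxb⟩
    · right
      have : rn M x = x := by
        unfold rn
        rw [hM.m1 x hx hi, ren_nil]
      rw [this]
      exact ⟨hx, hi⟩
  · rintro (⟨b, hb, rfl⟩ | ⟨hy, hi⟩)
    · obtain ⟨r, m, h1, h2⟩ := h.re _ (h.mem hb)
      exact ⟨((cc cs b).1, r), h1, hM.m2 _ h1 b hb rfl⟩
    · refine ⟨y, hy, ?_⟩
      unfold rn
      rw [hM.m1 y hy hi, ren_nil]

theorem Prep.S2_iff (h : Prep as bs cs t N) (hid : ∀ x ∈ St t, x.1 < N) (y : Ri) :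
    y ∈ St (fin as bs cs t N) ↔
      (∃ a ∈ as, y = cc (nl N as bs cs) a) ∨ (y ∈ St t ∧ y.1 ∉ idl cs) := by
  obtain ⟨g1, g2⟩ := h.get_fin hid y.1
  constructor
  · intro hy
    have hy' : (fin as bs cs t N).get y.1 = some y.2 := hy
    by_cases hc : ∃ a ∈ as, y.1 = (cc (nl N as bs cs) a).1
    · obtain ⟨a, ha, hya⟩ := hc
      left
      refine ⟨a, ha, Prod.ext hya ?_⟩
      have := g1 a ha hya
      rw [hy'] at this
      exact Option.some.inj this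
    · right
      have := g2 (fun a ha hc2 => hc ⟨a, ha, hc2⟩)
      rw [hy'] at this
      by_cases hi : y.1 ∈ idl cs
      · rw [if_pos hi] at this; cases this
      · rw [if_neg hi] at this; exact ⟨this.symm, hi⟩
  · rintro (⟨a, ha, rfl⟩ | ⟨hy, hi⟩)
    · exact g1 a ha rfl
    · have h1 : ∀ a ∈ as, y.1 ≠ (cc (nl N as bs cs) a).1 := by
        intro a ha hc
        rw [h.nid ha] at hc
        have := hid y hy
        omega
      have := g2 h1
      rw [if_neg hi] at this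
      exact this.trans hy

theorem Prep.memU (_h : Prep as bs cs t N) {v : ℕ} :
    v ∈ as.toFinset ∪ bs.toFinset ↔ v ∈ as ∨ v ∈ bs := by
  rw [Finset.mem_union, List.mem_toFinset, List.mem_toFinset]

theorem Prep.uniq' (h : Prep as bs cs t N) (hI : Inv t N) (hM : RnOk bs cs t M) {v w : ℕ}
    (hv : v ∈ as) (hw : w ∈ as) (hvw : v ≠ w) {i : Ri} (hi : i ∈ St (fin as bs cs t N)) {u : ℕ}
    (hu : u ∈ labR i) (hn : numR i u = numR (cc (nl N as bs cs) v) w) :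
    (i = cc (nl N as bs cs) v ∧ u = w) ∨ (i = cc (nl N as bs cs) w ∧ u = v) := by
  have hla := h.la
  have hb := cd_bd N (fun hc => hvw (h.ix_inj hv hc)) (h.ix_lt hv) (h.ix_lt hw) hla
  rw [(h.nin hv hw hvw).1] at hn
  rcases (h.S2_iff hI.id i).mp hi with ⟨a, ha, rfl⟩ | ⟨hi1, _⟩
  · rw [h.nlab ha, Finset.mem_erase, h.memU] at hu
    rcases hu with ⟨hua, hu | hu⟩
    · rw [(h.nin ha hu (fun hc => hua hc.symm)).1] at hn
      have e1 := h.ix_lt ha
      have e2 := h.ix_lt hu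
      have e3 := h.ix_lt hv
      have e4 := h.ix_lt hw
      rcases cd_inj N (fun hc => hua (h.ix_inj ha hc).symm) (fun hc => hvw (h.ix_inj hv hc))
        (by omega) (by omega) (by omega) (by omega) hn with ⟨e5, e6⟩ | ⟨e5, e6⟩
      · have := h.ix_inj ha e5
        subst this
        exact Or.inl ⟨rfl, h.ix_inj hu e6⟩
      · have := h.ix_inj ha e5
        subst this
        exact Or.inr ⟨rfl, h.ix_inj hu e6⟩
    · exfalso
      rw [← (h.nbd ha hu).1] at hn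
      have h1 : cc cs u ∈ rn M '' St t := (h.S1_iff hM _).mpr (Or.inl ⟨u, hu, rfl⟩)
      have h2 : a ∈ labR (cc cs u) := by
        rw [(h.lab hu).1, Finset.mem_erase, h.memU]
        exact ⟨fun hc => h.dj ha (hc ▸ hu), Or.inl ha⟩
      have h3 := Fn_rn (M := M) hI.fn hM.m3 _ h1 a h2
      omega
  · exfalso
    have := hI.fn i hi1 u hu
    omega

theorem Prep.flip (h : Prep as bs cs t N) (hI : Inv t N) (hM : RnOk bs cs t M) :
    GFlip labR numR odR as.toFinset bs.toFinset (cc cs) (cc (nl N as bs cs)) (rn M '' St t)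
      (St (fin as bs cs t N)) := by
  have fu1 : Fu (rn M '' St t) := Fu_rn (Fu_St t)
  have gd1 : Gd (rn M '' St t) := Gd_rn hI.gd hM.m3
  have tw1 : Tw (rn M '' St t) := Tw_rn hI.tw hM.m3
  have cm : ∀ v ∈ bs, cc cs v ∈ rn M '' St t := fun v hv =>
    (h.S1_iff hM _).mpr (Or.inl ⟨v, hv, rfl⟩)
  have cl : ∀ v ∈ bs, ∀ w, (w ∈ as ∨ w ∈ bs) → w ≠ v → w ∈ labR (cc cs v) := by
    intro v hv w hw hwv
    rw [(h.lab hv).1, Finset.mem_erase, h.memU]
    exact ⟨hwv, hw⟩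
  refine ⟨?_, ?_, ?_, ?_, ?_, ?_, ?_, ?_, ?_, ?_, ?_, ?_, ?_, ?_, ?_, ?_⟩
  · obtain ⟨a, ha⟩ := List.exists_mem_of_length_pos h.pa
    exact ⟨a, List.mem_toFinset.mpr ha⟩
  · obtain ⟨b, hb⟩ := List.exists_mem_of_length_pos h.pb
    exact ⟨b, List.mem_toFinset.mpr hb⟩
  · rw [Finset.disjoint_left]
    intro v h1 h2
    exact h.dj (List.mem_toFinset.mp h1) (List.mem_toFinset.mp h2)
  · intro v hv
    exact (h.lab (List.mem_toFinset.mp hv)).1
  · intro v hv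
    exact h.nlab (List.mem_toFinset.mp hv)
  · intro v hv
    exact cm v (List.mem_toFinset.mp hv)
  · intro v hv
    exact (h.S2_iff hI.id _).mpr (Or.inl ⟨v, List.mem_toFinset.mp hv, rfl⟩)
  · intro i hi
    rcases (h.S1_iff hM i).mp hi with ⟨b, hb, rfl⟩ | ⟨h1, h2⟩
    · exact Or.inl ⟨b, List.mem_toFinset.mpr hb, rfl⟩
    · right
      refine ⟨(h.S2_iff hI.id _).mpr (Or.inr ⟨h1, h2⟩), ?_⟩
      intro v hv hc
      have := hI.id i h1
      rw [hc, h.nid (List.mem_toFinset.mp hv)] at this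
      omega
  · intro i hi
    rcases (h.S2_iff hI.id i).mp hi with ⟨a, ha, rfl⟩ | ⟨h1, h2⟩
    · exact Or.inl ⟨a, List.mem_toFinset.mpr ha, rfl⟩
    · right
      refine ⟨(h.S1_iff hM _).mpr (Or.inr ⟨h1, h2⟩), ?_⟩
      intro v hv hc
      apply h2
      exact (h.idl_iff _).mpr ⟨v, List.mem_toFinset.mp hv, by rw [hc]⟩
  · intro v hv w hw
    exact h.nbd (List.mem_toFinset.mp hv) (List.mem_toFinset.mp hw)
  · intro v hv w hw hvw
    exact h.gin (List.mem_toFinset.mp hv) (List.mem_toFinset.mp hw) hvw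
  · intro v hv w hw hvw
    have hv' := List.mem_toFinset.mp hv
    have hw' := List.mem_toFinset.mp hw
    refine ⟨?_, ?_⟩
    · rw [(h.nin hv' hw' hvw).1, (h.nin hw' hv' (Ne.symm hvw)).1, cd_comm]
    · rw [(h.nin hv' hw' hvw).2, (h.nin hw' hv' (Ne.symm hvw)).2, dl_comm]
  · intro v hv w hw hvw u hu huv huw
    have hv' := List.mem_toFinset.mp hv
    have hw' := List.mem_toFinset.mp hw
    exact (gd1 _ (cm v hv') w (cl v hv' w (Or.inr hw') (Ne.symm hvw)) u).mpr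
      ⟨cl v hv' u (h.memU.mp hu) huv, huw⟩
  · intro v hv w hw hvw u hu huv huw
    have hv' := List.mem_toFinset.mp hv
    have hw' := List.mem_toFinset.mp hw
    rw [(h.nin hv' hw' hvw).2, mem_dl]
    exact ⟨List.mem_append.mpr (h.memU.mp hu), huv, huw⟩
  · intro v hv w hw hvw i hi u hu hn
    have hv' := List.mem_toFinset.mp hv
    have hw' := List.mem_toFinset.mp hw
    rcases tw1 _ (cm v hv') w (cl v hv' w (Or.inr hw') (Ne.symm hvw)) _ (cm w hw') v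
      (cl w hw' v (Or.inr hv') hvw) i hi u hu (h.gin hv' hw' hvw).1 hn.symm with h1 | h1 | h1
    · exact absurd (congrArg Prod.snd h1).symm hvw
    · left
      rw [Prod.mk.injEq] at h1
      exact ⟨h1.1.symm, h1.2.symm⟩
    · right
      rw [Prod.mk.injEq] at h1
      exact ⟨h1.1.symm, h1.2.symm⟩
  · intro v hv w hw hvw i hi u hu hn
    exact h.uniq' hI hM (List.mem_toFinset.mp hv) (List.mem_toFinset.mp hw) hvw hi hu hn

/-- The relation between old and new occurrences. -/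
def Ro (as bs : List ℕ) (cs : List (ℕ × Ri)) (N : ℕ) (p q : Ri × ℕ) : Prop :=
  (p = q ∧ q.1.1 ∉ idl cs) ∨ ∃ b ∈ bs, ∃ a ∈ as, p = (cc cs b, a) ∧ q = (cc (nl N as bs cs) a, b)

theorem Prep.Ro_fun (h : Prep as bs cs t N) {p q q' : Ri × ℕ} (h1 : Ro as bs cs N p q)
    (h2 : Ro as bs cs N p q') : q = q' := by
  rcases h1 with ⟨h1, h3⟩ | ⟨b, hb, a, ha, h3, h4⟩
  · rcases h2 with ⟨h2, _⟩ | ⟨b, hb, a, ha, h5, h6⟩
    · rw [← h1, ← h2]
    · exfalso
      apply h3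
      rw [← h1, h5]
      exact (h.idl_iff _).mpr ⟨b, hb, rfl⟩
  · rcases h2 with ⟨h2, h5⟩ | ⟨b', hb', a', ha', h5, h6⟩
    · exfalso
      apply h5
      rw [← h2, h3]
      exact (h.idl_iff _).mpr ⟨b, hb, rfl⟩
    · rw [h3, Prod.mk.injEq] at h5
      have e1 := h.ids hb hb' (congrArg Prod.fst h5.1)
      rw [h4, h6, e1, h5.2]

theorem Prep.back (h : Prep as bs cs t N) (hI : Inv t N) (hM : RnOk bs cs t M) {y : Ri}
    (hy : y ∈ St (fin as bs cs t N)) {w : ℕ} (hw : w ∈ labR y) :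
    (∃ x ∈ rn M '' St t, ∃ v ∈ labR x, numR x v = numR y w ∧ Ro as bs cs N (x, v) (y, w)) ∨
    (∃ a ∈ as, ∃ v ∈ as, a ≠ v ∧ y = cc (nl N as bs cs) a ∧ w = v) := by
  rcases (h.S2_iff hI.id y).mp hy with ⟨a, ha, rfl⟩ | ⟨hi1, hi2⟩
  · rw [h.nlab ha, Finset.mem_erase, h.memU] at hw
    rcases hw with ⟨hwa, hw | hw⟩
    · exact Or.inr ⟨a, ha, w, hw, fun hc => hwa hc.symm, rfl, rfl⟩
    · left
      refine ⟨cc cs w, (h.S1_iff hM _).mpr (Or.inl ⟨w, hw, rfl⟩), a, ?_, (h.nbd ha hw).1, ?_⟩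
      · rw [(h.lab hw).1, Finset.mem_erase, h.memU]
        exact ⟨fun hc => h.dj ha (hc ▸ hw), Or.inl ha⟩
      · exact Or.inr ⟨w, hw, a, ha, rfl, rfl⟩
  · left
    exact ⟨y, (h.S1_iff hM _).mpr (Or.inr ⟨hi1, hi2⟩), w, hw, rfl, Or.inl ⟨rfl, hi2⟩⟩

theorem Prep.inv (h : Prep as bs cs t N) (hI : Inv t N) (hM : RnOk bs cs t M) :
    Inv (fin as bs cs t N) (N + as.length) := by
  have gd1 : Gd (rn M '' St t) := Gd_rn hI.gd hM.m3
  have tw1 : Tw (rn M '' St t) := Tw_rn hI.tw hM.m3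
  have fn1 : Fn (8 * N) (rn M '' St t) := Fn_rn hI.fn hM.m3
  have cm : ∀ v ∈ bs, cc cs v ∈ rn M '' St t := fun v hv =>
    (h.S1_iff hM _).mpr (Or.inl ⟨v, hv, rfl⟩)
  have cl : ∀ v ∈ bs, ∀ w, (w ∈ as ∨ w ∈ bs) → w ≠ v → w ∈ labR (cc cs v) := by
    intro v hv w hw hwv
    rw [(h.lab hv).1, Finset.mem_erase, h.memU]
    exact ⟨hwv, hw⟩
  have hla := h.la
  refine ⟨?_, ?_, ?_, ?_⟩
  · intro x hx
    rcases (h.S2_iff hI.id x).mp hx with ⟨a, ha, rfl⟩ | ⟨h1, _⟩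
    · rw [h.nid ha]
      have := h.ix_lt ha
      omega
    · have := hI.id x h1
      omega
  · intro x hx v hv l
    rcases (h.S2_iff hI.id x).mp hx with ⟨a, ha, rfl⟩ | ⟨h1, _⟩
    · rw [h.nlab ha, Finset.mem_erase, h.memU] at hv
      rw [h.nlab ha, Finset.mem_erase, h.memU]
      rcases hv with ⟨hva, hv | hv⟩
      · rw [(h.nin ha hv (fun hc => hva hc.symm)).2, mem_dl, List.mem_append]
        exact ⟨fun hh => ⟨⟨hh.2.1, hh.1⟩, hh.2.2⟩, fun hh => ⟨hh.1.2, hh.1.1, hh.2⟩⟩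
      · rw [← (h.nbd ha hv).2, gd1 _ (cm v hv) a (cl v hv a (Or.inl ha)
          (fun hc => h.dj ha (hc ▸ hv))) l, (h.lab hv).1, Finset.mem_erase, h.memU]
        exact ⟨fun hh => ⟨⟨hh.2, hh.1.2⟩, hh.1.1⟩, fun hh => ⟨⟨hh.2, hh.1.2⟩, hh.1.1⟩⟩
    · exact hI.gd x h1 v hv l
  · intro x hx v hv y hy w hw z hz u hu e1 e2
    rcases h.back hI hM hx hv with ⟨x', hx', v', hv', e3, r3⟩ | ⟨a, ha, v', hv', hav, rfl, rfl⟩
    · have hlt : numR x v < 8 * N := e3 ▸ fn1 x' hx' v' hv'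
      rcases h.back hI hM hy hw with ⟨y', hy', w', hw', e4, r4⟩ | ⟨a, ha, w', hw', hav, rfl, rfl⟩
      · rcases h.back hI hM hz hu with ⟨z', hz', u', hu', e5, r5⟩ | ⟨a, ha, u', hu', hav, rfl, rfl⟩
        · rcases tw1 x' hx' v' hv' y' hy' w' hw' z' hz' u' hu' (by rw [e3, e4, e1])
            (by rw [e3, e5, e2]) with h1 | h1 | h1
          · left; rw [h1] at r3; exact h.Ro_fun r3 r4
          · right; left; rw [h1] at r3; exact h.Ro_fun r3 r5
          · right; right; rw [h1] at r4; exact h.Ro_fun r4 r5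
        · exfalso
          rw [e2, (h.nin ha hu' hav).1] at hlt
          have := cd_bd N (fun hc => hav (h.ix_inj ha hc)) (h.ix_lt ha) (h.ix_lt hu') hla
          omega
      · exfalso
        rw [e1, (h.nin ha hw' hav).1] at hlt
        have := cd_bd N (fun hc => hav (h.ix_inj ha hc)) (h.ix_lt ha) (h.ix_lt hw') hla
        omega
    · rcases h.uniq' hI hM ha hv' hav hy hw e1.symm with ⟨h1, h2⟩ | ⟨h1, h2⟩
      · left; rw [h1, h2]
      · rcases h.uniq' hI hM ha hv' hav hz hu e2.symm with ⟨h3, h4⟩ | ⟨h3, h4⟩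
        · right; left; rw [h3, h4]
        · right; right; rw [h1, h2, h3, h4]
  · intro x hx v hv
    rcases h.back hI hM hx hv with ⟨x', hx', v', hv', e3, _⟩ | ⟨a, ha, v', hv', hav, rfl, rfl⟩
    · have := fn1 x' hx' v' hv'
      omega
    · rw [(h.nin ha hv' hav).1]
      exact (cd_bd N (fun hc => hav (h.ix_inj ha hc)) (h.ix_lt ha) (h.ix_lt hv') hla).2

theorem Prep.exRn (h : Prep as bs cs t N) : ∃ M, RnOk bs cs t M := by
  obtain ⟨M, h1, h2, h3⟩ := h.exM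
  exact ⟨M, h1, h2, h3⟩

end prp

end Fl49
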